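import Mathlib

set_option autoImplicit false

namespace Pool.Agent.EI97

open Finset

/-- Elementary moment inequality (Cauchy-Schwarz with a free parameter). -/
theorem moment {m : Type*} [Fintype m] (u : m → ℝ) (hr : (0 : ℝ) < (Fintype.card m : ℝ))
    (hsum : ∑ a, u a = - ∑ a, u a ^(2:ℕ)) (t : ℝ) :
    2 * t * ((∑ a, u a ^(2:ℕ)) + ∑ a, u a ^(3:ℕ))
      ≤ ((∑ a, u a ^(2:ℕ)) + 2 * (∑ a, u a ^(3:ℕ)) + ∑ a, u a ^(4:ℕ))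
        + t ^(2:ℕ) * ((∑ a, u a ^(2:ℕ)) * ((Fintype.card m : ℝ) - ∑ a, u a ^(2:ℕ)) / (Fintype.card m : ℝ)) := by
  set r : ℝ := (Fintype.card m : ℝ) with hr'
  set D : ℝ := ∑ a, u a ^(2:ℕ) with hD
  have h0 : 0 ≤ ∑ a, (u a * (1 + u a) - t * (u a + D / r)) ^(2:ℕ) :=
    Finset.sum_nonneg fun a _ => sq_nonneg _
  have h1 : ∑ a, (u a * (1 + u a) - t * (u a + D / r)) ^(2:ℕ)
      = (∑ a, u a ^(4:ℕ)) + (2 - 2 * t) * (∑ a, u a ^(3:ℕ))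
        + (1 - 2 * t - 2 * t * (D / r) + t ^(2:ℕ)) * (∑ a, u a ^(2:ℕ))
        + (-2 * t * (D / r) + 2 * t ^(2:ℕ) * (D / r)) * (∑ a, u a)
        + r * (t ^(2:ℕ) * (D / r) ^(2:ℕ)) := by
    rw [Finset.mul_sum, Finset.mul_sum, Finset.mul_sum]
    have h2 : r * (t ^(2:ℕ) * (D / r) ^(2:ℕ)) = ∑ _a : m, (t ^(2:ℕ) * (D / r) ^(2:ℕ)) := by
      rw [Finset.sum_const, Finset.card_univ, nsmul_eq_mul]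
    rw [h2, ← Finset.sum_add_distrib, ← Finset.sum_add_distrib, ← Finset.sum_add_distrib,
      ← Finset.sum_add_distrib]
    refine Finset.sum_congr rfl fun a _ => ?_
    ring
  rw [h1, hsum, ← hD] at h0
  have h3 : r * (t ^(2:ℕ) * (D / r) ^(2:ℕ)) = t ^(2:ℕ) * (D / r) * D := by
    field_simp
  have h4 : D * (r - D) / r = D - D / r * D := by
    field_simp
  rw [h3] at h0
  rw [h4]
  nlinarith [h0]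

/-- The polynomial `F` of the even case is positive. -/
theorem posEven (a b : ℝ) (ha : 0 < a) (hb : 0 ≤ b) :
    0 < (2*b^(9:ℕ) + 20*b^(8:ℕ) + 64*b^(7:ℕ) - 448*b^(5:ℕ) - 896*b^(4:ℕ) + 2048*b^(2:ℕ) + 2560*b + 1024)
      + a * (10*b^(8:ℕ) + 78*b^(7:ℕ) + 212*b^(6:ℕ) + 336*b^(5:ℕ) + 1296*b^(4:ℕ) + 5088*b^(3:ℕ) + 9920*b^(2:ℕ) + 9216*b + 3328)
      + a^(2:ℕ) * (17*b^(7:ℕ) + 112*b^(6:ℕ) + 528*b^(5:ℕ) + 2664*b^(4:ℕ) + 8784*b^(3:ℕ) + 15552*b^(2:ℕ) + 13696*b + 4736)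
      + a^(3:ℕ) * (11*b^(6:ℕ) + 168*b^(5:ℕ) + 1612*b^(4:ℕ) + 6616*b^(3:ℕ) + 12560*b^(2:ℕ) + 11104*b + 3776)
      + a^(4:ℕ) * (8*b^(5:ℕ) + 386*b^(4:ℕ) + 2628*b^(3:ℕ) + 6040*b^(2:ℕ) + 5456*b + 1856)
      + a^(5:ℕ) * (30*b^(4:ℕ) + 546*b^(3:ℕ) + 1852*b^(2:ℕ) + 1656*b + 592)
      + a^(6:ℕ) * (51*b^(3:ℕ) + 342*b^(2:ℕ) + 340*b + 120)
      + a^(7:ℕ) * (33*b^(2:ℕ) + 52*b + 12) + a^(8:ℕ) * (6*b) := by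
  have h1 : 2*b^(9:ℕ) + 20*b^(8:ℕ) + 64*b^(7:ℕ) - 448*b^(5:ℕ) - 896*b^(4:ℕ) + 2048*b^(2:ℕ) + 2560*b + 1024
      = (b-2)^(2:ℕ) * (2*b^(7:ℕ) + 28*b^(6:ℕ) + 168*b^(5:ℕ) + 560*b^(4:ℕ) + 1120*b^(3:ℕ) + 1344*b^(2:ℕ) + 896*b + 256) := by
    ring
  rw [h1]
  have h2 : 0 ≤ (b-2)^(2:ℕ) * (2*b^(7:ℕ) + 28*b^(6:ℕ) + 168*b^(5:ℕ) + 560*b^(4:ℕ) + 1120*b^(3:ℕ) + 1344*b^(2:ℕ) + 896*b + 256) := by
    positivity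
  have h3 : 0 < a * (10*b^(8:ℕ) + 78*b^(7:ℕ) + 212*b^(6:ℕ) + 336*b^(5:ℕ) + 1296*b^(4:ℕ) + 5088*b^(3:ℕ) + 9920*b^(2:ℕ) + 9216*b + 3328)
      + a^(2:ℕ) * (17*b^(7:ℕ) + 112*b^(6:ℕ) + 528*b^(5:ℕ) + 2664*b^(4:ℕ) + 8784*b^(3:ℕ) + 15552*b^(2:ℕ) + 13696*b + 4736)
      + a^(3:ℕ) * (11*b^(6:ℕ) + 168*b^(5:ℕ) + 1612*b^(4:ℕ) + 6616*b^(3:ℕ) + 12560*b^(2:ℕ) + 11104*b + 3776)
      + a^(4:ℕ) * (8*b^(5:ℕ) + 386*b^(4:ℕ) + 2628*b^(3:ℕ) + 6040*b^(2:ℕ) + 5456*b + 1856)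
      + a^(5:ℕ) * (30*b^(4:ℕ) + 546*b^(3:ℕ) + 1852*b^(2:ℕ) + 1656*b + 592)
      + a^(6:ℕ) * (51*b^(3:ℕ) + 342*b^(2:ℕ) + 340*b + 120)
      + a^(7:ℕ) * (33*b^(2:ℕ) + 52*b + 12) + a^(8:ℕ) * (6*b) := by
    positivity
  linarith

/-- The polynomial `F` of the odd case is positive. -/
theorem posOdd (a b : ℝ) (ha : 0 < a) (hb : 0 ≤ b) (hab : 3 ≤ a + b) :
    0 < (2*b^(9:ℕ) + 20*b^(8:ℕ) + 58*b^(7:ℕ) - 52*b^(6:ℕ) - 626*b^(5:ℕ) - 1252*b^(4:ℕ) - 658*b^(3:ℕ) + 852*b^(2:ℕ) + 1224*b + 432)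
      + a * (10*b^(8:ℕ) + 78*b^(7:ℕ) + 186*b^(6:ℕ) + 132*b^(5:ℕ) + 518*b^(4:ℕ) + 2998*b^(3:ℕ) + 6046*b^(2:ℕ) + 5208*b + 1656)
      + a^(2:ℕ) * (17*b^(7:ℕ) + 112*b^(6:ℕ) + 480*b^(5:ℕ) + 2252*b^(4:ℕ) + 6929*b^(3:ℕ) + 11072*b^(2:ℕ) + 8654*b + 2628)
      + a^(3:ℕ) * (11*b^(6:ℕ) + 168*b^(5:ℕ) + 1540*b^(4:ℕ) + 5922*b^(3:ℕ) + 10019*b^(2:ℕ) + 7686*b + 2286)
      + a^(4:ℕ) * (8*b^(5:ℕ) + 386*b^(4:ℕ) + 2527*b^(3:ℕ) + 5326*b^(2:ℕ) + 4049*b + 1224)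
      + a^(5:ℕ) * (30*b^(4:ℕ) + 546*b^(3:ℕ) + 1761*b^(2:ℕ) + 1330*b + 423)
      + a^(6:ℕ) * (51*b^(3:ℕ) + 342*b^(2:ℕ) + 303*b + 90)
      + a^(7:ℕ) * (33*b^(2:ℕ) + 52*b + 9) + a^(8:ℕ) * (6*b) := by
  have h1 : 2*b^(9:ℕ) + 20*b^(8:ℕ) + 58*b^(7:ℕ) - 52*b^(6:ℕ) - 626*b^(5:ℕ) - 1252*b^(4:ℕ) - 658*b^(3:ℕ) + 852*b^(2:ℕ) + 1224*b + 432
      = (b-1)*(b-3) * (2*b^(7:ℕ) + 28*b^(6:ℕ) + 164*b^(5:ℕ) + 520*b^(4:ℕ) + 962*b^(3:ℕ) + 1036*b^(2:ℕ) + 600*b + 144) := by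
    ring
  rw [h1]
  have hQ : 0 < 2*b^(7:ℕ) + 28*b^(6:ℕ) + 164*b^(5:ℕ) + 520*b^(4:ℕ) + 962*b^(3:ℕ) + 1036*b^(2:ℕ) + 600*b + 144 := by
    positivity
  have h3 : 0 ≤ a^(2:ℕ) * (17*b^(7:ℕ) + 112*b^(6:ℕ) + 480*b^(5:ℕ) + 2252*b^(4:ℕ) + 6929*b^(3:ℕ) + 11072*b^(2:ℕ) + 8654*b + 2628)
      + a^(3:ℕ) * (11*b^(6:ℕ) + 168*b^(5:ℕ) + 1540*b^(4:ℕ) + 5922*b^(3:ℕ) + 10019*b^(2:ℕ) + 7686*b + 2286)
      + a^(4:ℕ) * (8*b^(5:ℕ) + 386*b^(4:ℕ) + 2527*b^(3:ℕ) + 5326*b^(2:ℕ) + 4049*b + 1224)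
      + a^(5:ℕ) * (30*b^(4:ℕ) + 546*b^(3:ℕ) + 1761*b^(2:ℕ) + 1330*b + 423)
      + a^(6:ℕ) * (51*b^(3:ℕ) + 342*b^(2:ℕ) + 303*b + 90)
      + a^(7:ℕ) * (33*b^(2:ℕ) + 52*b + 9) + a^(8:ℕ) * (6*b) := by
    positivity
  by_cases hc : 0 ≤ (b-1)*(b-3)
  · have h4 : 0 ≤ (b-1)*(b-3) * (2*b^(7:ℕ) + 28*b^(6:ℕ) + 164*b^(5:ℕ) + 520*b^(4:ℕ) + 962*b^(3:ℕ) + 1036*b^(2:ℕ) + 600*b + 144) :=
      mul_nonneg hc hQ.le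
    have h5 : 0 < a * (10*b^(8:ℕ) + 78*b^(7:ℕ) + 186*b^(6:ℕ) + 132*b^(5:ℕ) + 518*b^(4:ℕ) + 2998*b^(3:ℕ) + 6046*b^(2:ℕ) + 5208*b + 1656) := by
      positivity
    linarith
  · push Not at hc
    have hb1 : 1 < b := by
      by_contra hcon
      push Not at hcon
      have : 0 ≤ (b-1)*(b-3) := by nlinarith
      linarith
    have h4 : -(a * (b-1)) ≤ (b-1)*(b-3) := by nlinarith
    have h5 : -(a * (b-1)) * (2*b^(7:ℕ) + 28*b^(6:ℕ) + 164*b^(5:ℕ) + 520*b^(4:ℕ) + 962*b^(3:ℕ) + 1036*b^(2:ℕ) + 600*b + 144)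
        ≤ (b-1)*(b-3) * (2*b^(7:ℕ) + 28*b^(6:ℕ) + 164*b^(5:ℕ) + 520*b^(4:ℕ) + 962*b^(3:ℕ) + 1036*b^(2:ℕ) + 600*b + 144) :=
      mul_le_mul_of_nonneg_right h4 hQ.le
    have h6 : 0 < 8*b^(8:ℕ) + 52*b^(7:ℕ) + 50*b^(6:ℕ) - 224*b^(5:ℕ) + 76*b^(4:ℕ) + 2924*b^(3:ℕ) + 6482*b^(2:ℕ) + 5664*b + 1800 := by
      have h7 : 0 ≤ 52 * b^(3:ℕ) * (b^(2:ℕ) - 56/26)^(2:ℕ) := by positivity
      have h8 : 0 < 8*b^(8:ℕ) + 50*b^(6:ℕ) + 76*b^(4:ℕ) + 2682*b^(3:ℕ) + 6482*b^(2:ℕ) + 5664*b + 1800 := by positivity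
      nlinarith
    have h9 : 0 < a * (8*b^(8:ℕ) + 52*b^(7:ℕ) + 50*b^(6:ℕ) - 224*b^(5:ℕ) + 76*b^(4:ℕ) + 2924*b^(3:ℕ) + 6482*b^(2:ℕ) + 5664*b + 1800) :=
      mul_pos ha h6
    have h10 : a * (10*b^(8:ℕ) + 78*b^(7:ℕ) + 186*b^(6:ℕ) + 132*b^(5:ℕ) + 518*b^(4:ℕ) + 2998*b^(3:ℕ) + 6046*b^(2:ℕ) + 5208*b + 1656)
        = a * (8*b^(8:ℕ) + 52*b^(7:ℕ) + 50*b^(6:ℕ) - 224*b^(5:ℕ) + 76*b^(4:ℕ) + 2924*b^(3:ℕ) + 6482*b^(2:ℕ) + 5664*b + 1800)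
          + (a * (b-1)) * (2*b^(7:ℕ) + 28*b^(6:ℕ) + 164*b^(5:ℕ) + 520*b^(4:ℕ) + 962*b^(3:ℕ) + 1036*b^(2:ℕ) + 600*b + 144) := by
      ring
    rw [h10]
    linarith

/-- The real inequality behind the bound for planes: the two cases of `q = 4 (p - 1)`. -/
theorem core_real (r p ρ y Z : ℝ) (hp : 2 ≤ p) (h2 : 2 < ρ) (hr : ρ ≤ r)
    (hmom : ∀ t : ℝ, 2 * t * y ≤ Z + t ^(2:ℕ) * ((r - ρ) * ρ / r))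
    (hm : ∀ θ : ℝ, 2 * (p - 1) * ρ ^(2:ℕ) / ((ρ - 2) ^(2:ℕ) + 4 * (p - 1)) + p
      ≤ ρ * (2 * r - ρ + 1) / 2 - (r - ρ) * (2 * θ * ρ - θ ^(2:ℕ) * (2 * r + 2 - ρ))
        + (2 * θ * (2 * (2 * p - ρ) / (ρ * (ρ - 2)) - 1) - 1) * y
        - (2 * (2 * p - ρ) / (ρ * (ρ - 2)) - 1 / 2) * Z)
    (hq : 4 * (p - 1) = r ^(2:ℕ) ∨ (4 * (p - 1) = r ^(2:ℕ) - 1 ∧ 5 ≤ r)) : False := by
  have hρ : 0 < ρ := by linarith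
  have hr0 : 0 < r := by linarith
  have ha : 0 < ρ - 2 := by linarith
  have hb : 0 ≤ r - ρ := by linarith
  have hD1 : 0 < (ρ - 2) ^(2:ℕ) + 4 * (p - 1) := by nlinarith
  have hH : 0 < 8 * p - 2 * ρ - ρ ^(2:ℕ) := by
    rcases hq with hq | ⟨hq, h5⟩ <;> nlinarith
  have hmθ := hm ((ρ - 2) / r)
  have hmt := hmom ((ρ - 2) * (2 * (4 * p - ρ ^(2:ℕ)) - ρ * r) / (r * (8 * p - 2 * ρ - ρ ^(2:ℕ))))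
  have hc : 2 * (2 * p - ρ) / (ρ * (ρ - 2)) - 1 / 2 = (8 * p - 2 * ρ - ρ ^(2:ℕ)) / (2 * ρ * (ρ - 2)) := by
    field_simp
    ring
  have hz : 2 * ((ρ - 2) / r) * (2 * (2 * p - ρ) / (ρ * (ρ - 2)) - 1) - 1
      = (2 * (4 * p - ρ ^(2:ℕ)) - ρ * r) / (ρ * r) := by
    field_simp
    ring
  rw [hc, hz] at hmθ
  -- eliminate `y` and `Z`
  have hcpos : 0 < (8 * p - 2 * ρ - ρ ^(2:ℕ)) / (2 * ρ * (ρ - 2)) := by positivity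
  have hyz : (2 * (4 * p - ρ ^(2:ℕ)) - ρ * r) / (ρ * r) * y
        - (8 * p - 2 * ρ - ρ ^(2:ℕ)) / (2 * ρ * (ρ - 2)) * Z
      ≤ (r - ρ) * (ρ - 2) * (2 * (4 * p - ρ ^(2:ℕ)) - ρ * r) ^(2:ℕ)
          / (2 * r ^(3:ℕ) * (8 * p - 2 * ρ - ρ ^(2:ℕ))) := by
    have h1 := mul_le_mul_of_nonneg_left hmt hcpos.le
    have h2 : (8 * p - 2 * ρ - ρ ^(2:ℕ)) / (2 * ρ * (ρ - 2))
          * (2 * ((ρ - 2) * (2 * (4 * p - ρ ^(2:ℕ)) - ρ * r) / (r * (8 * p - 2 * ρ - ρ ^(2:ℕ)))) * y)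
        = (2 * (4 * p - ρ ^(2:ℕ)) - ρ * r) / (ρ * r) * y := by
      field_simp
    have h3 : (8 * p - 2 * ρ - ρ ^(2:ℕ)) / (2 * ρ * (ρ - 2))
          * (Z + ((ρ - 2) * (2 * (4 * p - ρ ^(2:ℕ)) - ρ * r) / (r * (8 * p - 2 * ρ - ρ ^(2:ℕ)))) ^(2:ℕ)
            * ((r - ρ) * ρ / r))
        = (8 * p - 2 * ρ - ρ ^(2:ℕ)) / (2 * ρ * (ρ - 2)) * Z
          + (r - ρ) * (ρ - 2) * (2 * (4 * p - ρ ^(2:ℕ)) - ρ * r) ^(2:ℕ)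
          / (2 * r ^(3:ℕ) * (8 * p - 2 * ρ - ρ ^(2:ℕ))) := by
      field_simp
    rw [h2, h3] at h1
    linarith
  have hfin : 2 * (p - 1) * ρ ^(2:ℕ) / ((ρ - 2) ^(2:ℕ) + 4 * (p - 1)) + p
      ≤ ρ * (2 * r - ρ + 1) / 2
        - (r - ρ) * (2 * ((ρ - 2) / r) * ρ - ((ρ - 2) / r) ^(2:ℕ) * (2 * r + 2 - ρ))
        + (r - ρ) * (ρ - 2) * (2 * (4 * p - ρ ^(2:ℕ)) - ρ * r) ^(2:ℕ)
          / (2 * r ^(3:ℕ) * (8 * p - 2 * ρ - ρ ^(2:ℕ))) := by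
    linarith
  -- clear denominators
  set X : ℝ := 2 * (p - 1) * ρ ^(2:ℕ) / ((ρ - 2) ^(2:ℕ) + 4 * (p - 1)) with hX
  set Y : ℝ := (r - ρ) * (ρ - 2) * (2 * (4 * p - ρ ^(2:ℕ)) - ρ * r) ^(2:ℕ)
          / (2 * r ^(3:ℕ) * (8 * p - 2 * ρ - ρ ^(2:ℕ))) with hY
  have hX' : X * ((ρ - 2) ^(2:ℕ) + 4 * (p - 1)) = 2 * (p - 1) * ρ ^(2:ℕ) := by
    rw [hX]; exact div_mul_cancel₀ _ hD1.ne'
  have hY' : Y * (2 * r ^(3:ℕ) * (8 * p - 2 * ρ - ρ ^(2:ℕ)))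
      = (r - ρ) * (ρ - 2) * (2 * (4 * p - ρ ^(2:ℕ)) - ρ * r) ^(2:ℕ) := by
    rw [hY]; exact div_mul_cancel₀ _ (by positivity)
  clear_value X Y
  have hG : 4 * r ^(3:ℕ) * (8 * p - 2 * ρ - ρ ^(2:ℕ)) * (2 * (p - 1) * ρ ^(2:ℕ))
      + 4 * p * ((ρ - 2) ^(2:ℕ) + 4 * (p - 1)) * r ^(3:ℕ) * (8 * p - 2 * ρ - ρ ^(2:ℕ))
      - 2 * ρ * (2 * r - ρ + 1) * ((ρ - 2) ^(2:ℕ) + 4 * (p - 1)) * r ^(3:ℕ) * (8 * p - 2 * ρ - ρ ^(2:ℕ))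
      + 4 * ((ρ - 2) ^(2:ℕ) + 4 * (p - 1)) * (8 * p - 2 * ρ - ρ ^(2:ℕ)) * (r - ρ)
        * (2 * r ^(2:ℕ) * (ρ - 2) * ρ - r * (ρ - 2) ^(2:ℕ) * (2 * r + 2 - ρ))
      - 2 * ((ρ - 2) ^(2:ℕ) + 4 * (p - 1))
        * ((r - ρ) * (ρ - 2) * (2 * (4 * p - ρ ^(2:ℕ)) - ρ * r) ^(2:ℕ)) ≤ 0 := by
    have hpos : 0 ≤ 4 * ((ρ - 2) ^(2:ℕ) + 4 * (p - 1)) * r ^(3:ℕ) * (8 * p - 2 * ρ - ρ ^(2:ℕ)) := by
      positivity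
    have h1 := mul_le_mul_of_nonneg_right hfin hpos
    have h2 : (X + p) * (4 * ((ρ - 2) ^(2:ℕ) + 4 * (p - 1)) * r ^(3:ℕ) * (8 * p - 2 * ρ - ρ ^(2:ℕ)))
        = 4 * r ^(3:ℕ) * (8 * p - 2 * ρ - ρ ^(2:ℕ)) * (X * ((ρ - 2) ^(2:ℕ) + 4 * (p - 1)))
          + 4 * p * ((ρ - 2) ^(2:ℕ) + 4 * (p - 1)) * r ^(3:ℕ) * (8 * p - 2 * ρ - ρ ^(2:ℕ)) := by
      ring
    have h3 : (ρ * (2 * r - ρ + 1) / 2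
        - (r - ρ) * (2 * ((ρ - 2) / r) * ρ - ((ρ - 2) / r) ^(2:ℕ) * (2 * r + 2 - ρ)) + Y)
          * (4 * ((ρ - 2) ^(2:ℕ) + 4 * (p - 1)) * r ^(3:ℕ) * (8 * p - 2 * ρ - ρ ^(2:ℕ)))
        = 2 * ρ * (2 * r - ρ + 1) * ((ρ - 2) ^(2:ℕ) + 4 * (p - 1)) * r ^(3:ℕ) * (8 * p - 2 * ρ - ρ ^(2:ℕ))
          - 4 * ((ρ - 2) ^(2:ℕ) + 4 * (p - 1)) * (8 * p - 2 * ρ - ρ ^(2:ℕ)) * (r - ρ)
            * (2 * r ^(2:ℕ) * (ρ - 2) * ρ - r * (ρ - 2) ^(2:ℕ) * (2 * r + 2 - ρ))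
          + 2 * ((ρ - 2) ^(2:ℕ) + 4 * (p - 1)) * (Y * (2 * r ^(3:ℕ) * (8 * p - 2 * ρ - ρ ^(2:ℕ)))) := by
      field_simp
      ring
    rw [h2, h3, hX', hY'] at h1
    linarith
  obtain ⟨a, haρ⟩ : ∃ a : ℝ, a = ρ - 2 := ⟨_, rfl⟩
  obtain ⟨b, hbr⟩ : ∃ b : ℝ, b = r - ρ := ⟨_, rfl⟩
  have hρa : ρ = a + 2 := by linarith
  have hrb : r = a + b + 2 := by linarith
  have hapos : 0 < a := by linarith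
  have hbnn : 0 ≤ b := by linarith
  rcases hq with hq | ⟨hq, h5⟩
  · have hpq : p = (a + b + 2) ^(2:ℕ) / 4 + 1 := by
      rw [← hrb]; linarith
    have hF := posEven a b hapos hbnn
    rw [hpq, hρa, hrb] at hG
    refine absurd hG (not_le.mpr (lt_of_lt_of_eq hF ?_))
    ring
  · have hpq : p = ((a + b + 2) ^(2:ℕ) - 1) / 4 + 1 := by
      rw [← hrb]; linarith
    have hF := posOdd a b hapos hbnn (by linarith)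
    rw [hpq, hρa, hrb] at hG
    refine absurd hG (not_le.mpr (lt_of_lt_of_eq hF ?_))
    ring

/-- The bound for planes, from the master inequality with `γ = -1`. -/
theorem planes_of {m : Type*} [Fintype m] (u : m → ℝ) (p lam kp : ℝ) (lam0 : 0 ≤ lam)
    (lam1 : lam < 1) (two : 2 ≤ p) (kap : kp = 1 + (p - 1) * lam)
    (hsum : ∑ a, u a = - ∑ a, u a ^(2:ℕ))
    (rho : ((Fintype.card m : ℝ) - ∑ a, u a ^(2:ℕ)) * kp = 2 * p)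
    (master : ∀ th : ℝ, 2 * p / (1 + (p - 1) * lam ^(2:ℕ)) + p
      ≤ (Fintype.card m : ℝ) * ((Fintype.card m : ℝ) + 1) / 2
        - 2 * th * ((Fintype.card m : ℝ) + 1) * (∑ a, u a ^(2:ℕ))
        + (-1) * ((∑ a, u a ^(2:ℕ)) ^(2:ℕ) + ∑ a, u a ^(2:ℕ))
        + th ^(2:ℕ) * (((Fintype.card m : ℝ) + 2) * (∑ a, u a ^(2:ℕ)) + (∑ a, u a ^(2:ℕ)) ^(2:ℕ))
        + 2 * th * (-1) * ((∑ a, u a ^(3:ℕ)) - (∑ a, u a ^(2:ℕ)) ^(2:ℕ))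
        + (-1) ^(2:ℕ) * ((∑ a, u a ^(2:ℕ)) ^(2:ℕ) + ∑ a, u a ^(4:ℕ)) / 2
        + 2 * lam * kp / ((1 - lam) * 2)
          * (2 * th * ((∑ a, u a ^(2:ℕ)) + ∑ a, u a ^(3:ℕ))
            + (-1) * ((∑ a, u a ^(2:ℕ)) + 2 * (∑ a, u a ^(3:ℕ)) + ∑ a, u a ^(4:ℕ))))
    (hcard : 4 ≤ Fintype.card m)
    (hpP : p = ((Fintype.card m ^(2:ℕ) / 4 : ℕ) : ℝ) + 1) :
    False := by
  have hr4 : (4 : ℝ) ≤ (Fintype.card m : ℝ) := by exact_mod_cast hcard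
  have hr0 : (0 : ℝ) < (Fintype.card m : ℝ) := by linarith
  have hmom := moment u hr0 hsum
  have hq' : 4 * (p - 1) = (Fintype.card m : ℝ) ^(2:ℕ)
      ∨ (4 * (p - 1) = (Fintype.card m : ℝ) ^(2:ℕ) - 1 ∧ (5 : ℝ) ≤ (Fintype.card m : ℝ)) := by
    have hmod : 4 * (Fintype.card m ^(2:ℕ) / 4) = Fintype.card m ^(2:ℕ)
        ∨ (4 * (Fintype.card m ^(2:ℕ) / 4) + 1 = Fintype.card m ^(2:ℕ) ∧ 5 ≤ Fintype.card m) := by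
      rcases Nat.even_or_odd' (Fintype.card m) with ⟨k, hk | hk⟩
      · left
        rw [hk]
        have : (2 * k) ^(2:ℕ) = 4 * (k ^(2:ℕ)) := by ring
        rw [this, Nat.mul_div_cancel_left _ (by norm_num)]
      · right
        refine ⟨?_, by omega⟩
        rw [hk]
        have : (2 * k + 1) ^(2:ℕ) = 1 + 4 * (k ^(2:ℕ) + k) := by ring
        rw [this, Nat.add_mul_div_left _ _ (by norm_num)]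
        norm_num
        ring
    rcases hmod with h | ⟨h, h5⟩
    · left
      have h' : (4 : ℝ) * ((Fintype.card m ^(2:ℕ) / 4 : ℕ) : ℝ) = (Fintype.card m : ℝ) ^(2:ℕ) := by
        exact_mod_cast h
      rw [hpP]; linarith
    · right
      have h' : (4 : ℝ) * ((Fintype.card m ^(2:ℕ) / 4 : ℕ) : ℝ) + 1 = (Fintype.card m : ℝ) ^(2:ℕ) := by
        exact_mod_cast h
      refine ⟨by rw [hpP]; linarith, by exact_mod_cast h5⟩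
  have hD0 : 0 ≤ ∑ a, u a ^(2:ℕ) := Finset.sum_nonneg fun a _ => sq_nonneg _
  generalize (∑ a, u a ^(4:ℕ)) = W4 at *
  generalize (∑ a, u a ^(3:ℕ)) = W3 at *
  generalize (∑ a, u a ^(2:ℕ)) = D at *
  generalize (Fintype.card m : ℝ) = r at *
  have hkp : 1 ≤ kp := by rw [kap]; nlinarith
  have hρ0 : 0 < r - D := by
    by_contra hcon
    push Not at hcon
    nlinarith
  have hkp2 : kp < p := by rw [kap]; nlinarith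
  have h2 : 2 < r - D := by
    by_contra hcon
    push Not at hcon
    nlinarith
  have hkpρ : kp = 2 * p / (r - D) := by
    rw [eq_div_iff hρ0.ne']; linarith
  have hp1 : 0 < p - 1 := by linarith
  have hlam : lam = (2 * p - (r - D)) / ((r - D) * (p - 1)) := by
    rw [eq_div_iff (by positivity)]
    have : kp * (r - D) = 2 * p := by linarith
    rw [kap] at this
    linarith
  have h1lam : 1 - lam = p * ((r - D) - 2) / ((r - D) * (p - 1)) := by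
    rw [hlam]; field_simp; ring
  have hc : 2 * lam * kp / ((1 - lam) * 2)
      = 2 * (2 * p - (r - D)) / ((r - D) * ((r - D) - 2)) := by
    rw [h1lam, hlam, hkpρ]
    have : (r - D) - 2 ≠ 0 := by linarith
    field_simp
  have hL : 2 * p / (1 + (p - 1) * lam ^(2:ℕ))
      = 2 * (p - 1) * (r - D) ^(2:ℕ) / (((r - D) - 2) ^(2:ℕ) + 4 * (p - 1)) := by
    have hpos : 0 < 1 + (p - 1) * lam ^(2:ℕ) := by positivity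
    have hpos2 : 0 < ((r - D) - 2) ^(2:ℕ) + 4 * (p - 1) := by positivity
    rw [div_eq_div_iff hpos.ne' hpos2.ne', hlam]
    field_simp
    ring
  refine core_real r p (r - D) (D + W3) (D + 2 * W3 + W4) two h2 (by linarith) ?_ ?_ hq'
  · intro t
    have h := hmom t
    have : r - (r - D) = D := by ring
    rw [this]
    exact h
  · intro θ
    have h := master θ
    rw [hc, hL] at h
    refine h.trans (le_of_eq ?_)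
    ring

end Pool.Agent.EI97
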