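import Pool.Agent.EI97.Elim
import Pool.Agent.EI28.Data

set_option autoImplicit false

/-! From the master inequality in terms of `lam` to the inequality `MI`. -/

namespace Pool.Agent.EI97

open Finset

theorem mi_of {c n R p lam kp D w3 w4 : ℝ} (hn : 0 < n)
    (lam0 : 0 ≤ lam) (lam1 : lam < 1)
    (two : 2 ≤ p) (kap : kp = 1 + (p - 1) * lam) (rho : (R - D) * kp = n * p)
    (master : ∀ θ γ : ℝ, (n * (c * n + 2 - c) / 2 - 1) * p / (1 + (p - 1) * lam ^(2:ℕ)) + p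
      ≤ c / 2 * (R ^(2:ℕ) - 4 * θ * R * D + 2 * γ * D ^(2:ℕ)
          + 2 * θ ^(2:ℕ) * (R * D + D ^(2:ℕ)) - 4 * θ * γ * D ^(2:ℕ) + γ ^(2:ℕ) * D ^(2:ℕ))
        + (2 - c) / 2 * (R - 4 * θ * D + (4 * θ ^(2:ℕ) + 2 * γ) * D
          + 4 * θ * γ * w3 + γ ^(2:ℕ) * w4)
        + 2 * lam * kp / ((1 - lam) * n)
          * (2 * θ * (D + w3) + γ * (D + 2 * w3 + w4))) :
    n < R - D ∧ MI c n R p (R - D) (D + w3) (D + 2 * w3 + w4) := by
  have hkp : 1 ≤ kp := by rw [kap]; nlinarith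
  have hnp : 0 < n * p := by nlinarith
  have hρ0 : 0 < R - D := by
    by_contra hcon
    push Not at hcon
    nlinarith
  have hkp2 : kp < p := by rw [kap]; nlinarith
  have h2 : n < R - D := by
    by_contra hcon
    push Not at hcon
    nlinarith
  refine ⟨h2, ?_⟩
  have hkpρ : kp = n * p / (R - D) := by
    rw [eq_div_iff hρ0.ne']; linarith
  have hp1 : 0 < p - 1 := by linarith
  have hlam : lam = (n * p - (R - D)) / ((R - D) * (p - 1)) := by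
    rw [eq_div_iff (by positivity)]
    have : kp * (R - D) = n * p := by linarith
    rw [kap] at this
    linarith
  have h1lam : 1 - lam = p * ((R - D) - n) / ((R - D) * (p - 1)) := by
    rw [hlam]; field_simp; ring
  have hne : (R - D) - n ≠ 0 := by linarith
  have hc : 2 * lam * kp / ((1 - lam) * n)
      = 2 * (n * p - (R - D)) / ((R - D) * ((R - D) - n)) := by
    rw [h1lam, hlam, hkpρ]
    field_simp
  have hL : (n * (c * n + 2 - c) / 2 - 1) * p / (1 + (p - 1) * lam ^(2:ℕ))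
      = (n * (c * n + 2 - c) / 2 - 1) * (p - 1) * (R - D) ^(2:ℕ)
        / (((R - D) - n) ^(2:ℕ) + n ^(2:ℕ) * (p - 1)) := by
    have hpos : 0 < 1 + (p - 1) * lam ^(2:ℕ) := by positivity
    have hpos2 : 0 < ((R - D) - n) ^(2:ℕ) + n ^(2:ℕ) * (p - 1) := by positivity
    have e : (1 + (p - 1) * lam ^(2:ℕ)) * ((R - D) ^(2:ℕ) * (p - 1))
        = p * (((R - D) - n) ^(2:ℕ) + n ^(2:ℕ) * (p - 1)) := by
      rw [hlam]
      field_simp
      ring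
    rw [div_eq_div_iff hpos.ne' hpos2.ne']
    have : (n * (c * n + 2 - c) / 2 - 1) * (p - 1) * (R - D) ^(2:ℕ) * (1 + (p - 1) * lam ^(2:ℕ))
        = (n * (c * n + 2 - c) / 2 - 1) * ((1 + (p - 1) * lam ^(2:ℕ)) * ((R - D) ^(2:ℕ) * (p - 1))) := by
      ring
    rw [this, e]; ring
  intro θ γ
  have h := master θ γ
  rw [hc, hL] at h
  refine h.trans (le_of_eq ?_)
  ring

/-- real case -/
theorem mi_real {m : Type*} [Fintype m] {n p lam kp : ℝ} {u : m → ℝ}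
    (h : EI28.RData m n p lam kp u) (hn : 0 < n) (hm : 0 < Fintype.card m) :
    0 ≤ (∑ a, u a ^(2:ℕ)) ∧ n < (Fintype.card m : ℝ) - (∑ a, u a ^(2:ℕ)) ∧
      (∀ t : ℝ, 2 * t * ((∑ a, u a ^(2:ℕ)) + ∑ a, u a ^(3:ℕ))
        ≤ ((∑ a, u a ^(2:ℕ)) + 2 * (∑ a, u a ^(3:ℕ)) + ∑ a, u a ^(4:ℕ))
          + t ^(2:ℕ) * (((Fintype.card m : ℝ) - ((Fintype.card m : ℝ) - (∑ a, u a ^(2:ℕ))))
            * ((Fintype.card m : ℝ) - (∑ a, u a ^(2:ℕ))) / (Fintype.card m : ℝ))) ∧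
      MI 1 n (Fintype.card m : ℝ) p ((Fintype.card m : ℝ) - (∑ a, u a ^(2:ℕ)))
        ((∑ a, u a ^(2:ℕ)) + ∑ a, u a ^(3:ℕ))
        ((∑ a, u a ^(2:ℕ)) + 2 * (∑ a, u a ^(3:ℕ)) + ∑ a, u a ^(4:ℕ)) := by
  have hr0 : (0 : ℝ) < (Fintype.card m : ℝ) := by exact_mod_cast hm
  have hD0 : 0 ≤ ∑ a, u a ^(2:ℕ) := Finset.sum_nonneg fun a _ => sq_nonneg _
  have hmom := moment u hr0 h.sum
  obtain ⟨h1, h2⟩ := mi_of (c := 1) (w3 := ∑ a, u a ^(3:ℕ)) (w4 := ∑ a, u a ^(4:ℕ)) hn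
    h.lam0 h.lam1 h.two h.kap h.rho (by
    intro θ γ
    refine le_trans (le_of_eq ?_) (le_trans (h.master θ γ) (le_of_eq ?_))
    · ring
    · ring)
  refine ⟨hD0, h1, fun t => ?_, h2⟩
  have := hmom t
  have e : (Fintype.card m : ℝ) - ((Fintype.card m : ℝ) - ∑ a, u a ^(2:ℕ)) = ∑ a, u a ^(2:ℕ) := by ring
  rw [e]
  exact this

end Pool.Agent.EI97
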