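import Pool.Agent.EI97.MasterC
import Pool.Agent.EI97.Conv
import Pool.Agent.EI28.ToMatrix
import Pool.Agent.H32Iso.Fields

set_option autoImplicit false

/-! From equi-isoclinic subspaces of `F ^ r` to the inequality `MI`. -/

namespace Pool.Agent.EI97

open Matrix Finset Module Pool.Agent.EI28 Pool.Agent.H32Iso

section

variable {W : Type*} [NormedAddCommGroup W] [InnerProductSpace ℝ W] [FiniteDimensional ℝ W]
  {ι κ : Type*} [Fintype ι] [DecidableEq ι] [Fintype κ] [DecidableEq κ]

omit [DecidableEq ι] [DecidableEq κ] in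
theorem exists_ccfg {lam : ℝ} {P : ι → W →ₗ[ℝ] W} (h : Cfg lam P) {r n : ℕ}
    (hW : finrank ℝ W = r) (hn : ∀ i, finrank ℝ (LinearMap.range (P i)) = n)
    (L : κ → W →ₗ[ℝ] W) (hκ : 0 < Fintype.card κ)
    (hL : ∀ k x y, inner ℝ (L k x) (L k y) = inner ℝ x y)
    (hA : ∀ k l, k ≠ l → ∀ x y, inner ℝ (L k x) (L l y) = - inner ℝ (L l x) (L k y))
    (hc : ∀ k i x, L k (P i x) = P i (L k x)) :
    ∃ (Q : ι → Matrix (Fin r) (Fin r) ℝ) (mu : Fin r → ℝ) (U : κ → Matrix (Fin r) (Fin r) ℝ),
      CCfg (n : ℝ) lam Q U ∧ ∑ j, Q j = diagonal mu := by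
  have hS : (∑ i, P i).IsSymmetric := by
    intro x y
    simp only [LinearMap.sum_apply, sum_inner, inner_sum]
    exact sum_congr rfl fun i _ => h.sym i x y
  set b := hS.eigenvectorBasis hW with hb
  have hmat : ∀ (f : W →ₗ[ℝ] W) (i j : Fin r),
      LinearMap.toMatrix b.toBasis b.toBasis f i j = inner ℝ (b i) (f (b j)) := by
    intro f i j
    rw [LinearMap.toMatrix_apply]
    simp [OrthonormalBasis.repr_apply_apply]
  have htm : ∀ (f g : W →ₗ[ℝ] W) (i j : Fin r),
      ((LinearMap.toMatrix b.toBasis b.toBasis f)ᵀ * LinearMap.toMatrix b.toBasis b.toBasis g) i j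
        = inner ℝ (f (b i)) (g (b j)) := by
    intro f g i j
    rw [mul_apply]
    simp only [transpose_apply, hmat]
    rw [← b.sum_inner_mul_inner (f (b i)) (g (b j))]
    exact sum_congr rfl fun a _ => by rw [real_inner_comm]
  refine ⟨fun i => LinearMap.toMatrix b.toBasis b.toBasis (P i), hS.eigenvalues hW,
    fun k => LinearMap.toMatrix b.toBasis b.toBasis (L k), ⟨?_, ?_, hκ, ?_⟩, ?_⟩
  · refine ⟨?_, ?_, ?_, ?_⟩
    · intro i
      ext a c
      rw [transpose_apply, hmat, hmat, ← h.sym, real_inner_comm]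
    · intro i
      rw [← LinearMap.toMatrix_mul]
      congr 1
      ext x
      exact h.idem i x
    · intro i
      rw [← LinearMap.trace_eq_matrix_trace]
      have hproj : LinearMap.IsProj (LinearMap.range (P i)) (P i) := by
        refine ⟨fun x => LinearMap.mem_range_self _ x, ?_⟩
        rintro _ ⟨y, rfl⟩
        exact h.idem i y
      rw [hproj.trace, hn i]
    · intro i j hij
      rw [← LinearMap.toMatrix_mul, ← LinearMap.toMatrix_mul, ← map_smul]
      congr 1
      ext x
      exact h.iso i j hij x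
  · refine ⟨fun k => ?_, fun k l hkl => ?_⟩
    · ext i j
      rw [htm, hL, orthonormal_iff_ite.mp b.orthonormal, one_apply]
    · ext i j
      rw [htm, neg_apply, htm, hA k l hkl]
  · intro i k
    rw [← LinearMap.toMatrix_mul, ← LinearMap.toMatrix_mul]
    congr 1
    ext x
    exact hc k i x
  · rw [← map_sum]
    ext a c
    rw [hmat, hS.apply_eigenvectorBasis hW, ← hb, inner_smul_right]
    rw [orthonormal_iff_ite.mp b.orthonormal, diagonal_apply]
    split_ifs with hac
    · rw [hac]; simp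
    · simp

end

/-- The conclusion: the inequality `MI` in the dimensions over `F`. -/
theorem CCfg.mi {m ι κ : Type*} [Fintype m] [DecidableEq m] [Fintype ι] [DecidableEq ι]
    [Fintype κ] [DecidableEq κ] {n N R lam : ℝ} {P : ι → Matrix m m ℝ} {U : κ → Matrix m m ℝ}
    (h : CCfg N lam P U) (hn : 0 < n) (hN : N = (Fintype.card κ : ℝ) * n)
    (hR : (Fintype.card m : ℝ) = (Fintype.card κ : ℝ) * R) (hR0 : 0 < R)
    (hl0 : 0 ≤ lam) (hl : lam < 1) (hp : 2 ≤ Fintype.card ι)
    {mu : m → ℝ} (hS : ∑ j, P j = diagonal mu) :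
    ∃ ρ y Z : ℝ, n < ρ ∧ ρ ≤ R ∧
      (∀ t : ℝ, 2 * t * y ≤ Z + t ^(2:ℕ) * ((R - ρ) * ρ / R)) ∧
      MI (Fintype.card κ) n R (Fintype.card ι) ρ y Z := by
  have hp2 : (2 : ℝ) ≤ Fintype.card ι := by exact_mod_cast hp
  have hc : (0 : ℝ) < Fintype.card κ := by exact_mod_cast h.pos
  have hN0 : 0 < N := by rw [hN]; positivity
  have hk0 : 0 < kap ι lam := by
    unfold kap
    have : 0 ≤ ((Fintype.card ι : ℝ) - 1) * lam := mul_nonneg (by linarith) hl0
    linarith
  have hd := h.cfg.toRData hN0 hl0 hl hp hS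
  set u : m → ℝ := fun a => mu a / kap ι lam - 1 with hu
  have hSu : ∑ j, P j = diagonal (fun a => kap ι lam * (1 + u a)) := by
    rw [hS]
    congr 1
    funext a
    simp only [hu]
    field_simp
    ring
  have hmas := h.master hN0 hl0 hl hp hSu hd.sum
  have hmom := moment u (by rw [hR]; positivity) hd.sum
  have hrho := hd.rho
  have hD0 : 0 ≤ ∑ a, u a ^(2:ℕ) := Finset.sum_nonneg fun a _ => sq_nonneg _
  unfold EI97.hd at hmas
  clear_value u
  generalize (∑ a, u a ^(4:ℕ)) = W4 at *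
  generalize (∑ a, u a ^(3:ℕ)) = W3 at *
  generalize (∑ a, u a ^(2:ℕ)) = D at *
  rw [hR] at hmom hmas hrho
  generalize (Fintype.card κ : ℝ) = c at *
  generalize hpq : (Fintype.card ι : ℝ) = p at *
  obtain ⟨D1, hD1⟩ : ∃ D1, D1 = D / c := ⟨_, rfl⟩
  obtain ⟨V3, hV3⟩ : ∃ V3, V3 = W3 / c := ⟨_, rfl⟩
  obtain ⟨V4, hV4⟩ : ∃ V4, V4 = W4 / c := ⟨_, rfl⟩
  have eD : D = c * D1 := by rw [hD1]; field_simp
  have e3 : W3 = c * V3 := by rw [hV3]; field_simp
  have e4 : W4 = c * V4 := by rw [hV4]; field_simp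
  have hD1n : 0 ≤ D1 := by rw [hD1]; positivity
  have hkap : kap ι lam = 1 + (p - 1) * lam := by rw [← hpq]; rfl
  obtain ⟨h1, h2⟩ := mi_of (c := c) (n := n) (R := R) (p := p) (lam := lam) (kp := kap ι lam)
    (D := D1) (w3 := V3) (w4 := V4) hn hl0 hl hp2 hkap (by
      have : c * ((R - D1) * kap ι lam) = c * (n * p) := by
        rw [eD, hN] at hrho
        linarith
      exact mul_left_cancel₀ hc.ne' this) (by
      intro θ γ
      have := hmas θ γ
      rw [eD, e3, e4, hN, hkap] at this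
      rw [hkap]
      refine le_trans (le_of_eq ?_) (le_trans this (le_of_eq ?_))
      · have e : ((c * n) ^(2:ℕ) + (2 - c) * (c * n)) / (2 * c) = n * (c * n + 2 - c) / 2 := by
          field_simp
          ring
        rw [e]
      · have e1 : 2 * lam * (1 + (p - 1) * lam) / ((1 - lam) * (c * n))
            * (2 * θ * (c * D1 + c * V3) + γ * (c * D1 + 2 * (c * V3) + c * V4))
            = 2 * lam * (1 + (p - 1) * lam) / ((1 - lam) * n)
            * (2 * θ * (D1 + V3) + γ * (D1 + 2 * V3 + V4)) := by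
          have h1l : 1 - lam ≠ 0 := by linarith
          field_simp
        rw [e1]
        congr 1
        field_simp)
  refine ⟨R - D1, D1 + V3, D1 + 2 * V3 + V4, h1, by linarith, fun t => ?_, h2⟩
  have := hmom t
  rw [eD, e3, e4] at this
  have e5 : c * D1 * (c * R - c * D1) / (c * R) = c * (D1 * (R - D1) / R) := by
    field_simp
  rw [e5] at this
  have e6 : (R - (R - D1)) * (R - D1) / R = D1 * (R - D1) / R := by ring
  rw [e6]
  have : c * (2 * t * (D1 + V3)) ≤ c * ((D1 + 2 * V3 + V4) + t ^(2:ℕ) * (D1 * (R - D1) / R)) := by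
    linarith
  exact le_of_mul_le_mul_left this hc

section

variable {F : Type} [NormedDivisionRing F] [InnerProductSpace ℝ F]

theorem inner_mul_mul (a x y : F) :
    inner ℝ (a * x) (a * y) = ‖a‖ ^(2:ℕ) * inner ℝ x y := by
  rw [real_inner_eq_norm_add_mul_self_sub_norm_mul_self_sub_norm_mul_self_div_two,
    real_inner_eq_norm_add_mul_self_sub_norm_mul_self_sub_norm_mul_self_div_two x y,
    ← mul_add, norm_mul, norm_mul, norm_mul]
  ring

theorem inner_mul_add (a b x y : F) :
    inner ℝ (a * x) (b * y) + inner ℝ (b * x) (a * y)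
      = 2 * inner ℝ a b * inner ℝ x y := by
  have h1 := inner_mul_mul (a + b) x y
  rw [add_mul, add_mul, inner_add_left, inner_add_right, inner_add_right, inner_mul_mul,
    inner_mul_mul, norm_add_sq_real] at h1
  linarith

variable {n r p : ℕ}

theorem inner_smul_smul (a : F) (x y : Sp F r) :
    inner ℝ (a • x) (a • y) = ‖a‖ ^(2:ℕ) * inner ℝ x y := by
  simp only [PiLp.inner_apply, PiLp.smul_apply, smul_eq_mul, inner_mul_mul, mul_sum]

theorem inner_smul_add (a b : F) (x y : Sp F r) :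
    inner ℝ (a • x) (b • y) + inner ℝ (b • x) (a • y)
      = 2 * inner ℝ a b * inner ℝ x y := by
  simp only [PiLp.inner_apply, PiLp.smul_apply, smul_eq_mul, ← sum_add_distrib, inner_mul_add,
    mul_sum]

/-- left multiplication by a scalar, as a real linear map -/
noncomputable def lmul [SMulCommClass ℝ F F] (r : ℕ) (a : F) : Sp F r →ₗ[ℝ] Sp F r where
  toFun x := a • x
  map_add' x y := smul_add a x y
  map_smul' c x := by
    simp only [RingHom.id_apply]
    ext i
    simp only [PiLp.smul_apply, smul_eq_mul]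
    exact mul_smul_comm c a (x i)

theorem lmul_apply [SMulCommClass ℝ F F] (a : F) (x : Sp F r) : lmul r a x = a • x := rfl

variable [IsScalarTower ℝ F F] [FiniteDimensional ℝ F]

theorem smul_proj {V : Submodule F (Sp F r)} {a : F} (ha : a ≠ 0) (x : Sp F r) :
    a • (V.restrictScalars ℝ).starProjection x = (V.restrictScalars ℝ).starProjection (a • x) := by
  refine (Submodule.eq_starProjection_of_mem_of_inner_eq_zero (K := V.restrictScalars ℝ) ?_
    (fun w hw => ?_)).symm
  · exact V.smul_mem a (Submodule.starProjection_apply_mem (V.restrictScalars ℝ) x)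
  · have h1 : w = a • (a⁻¹ • w) := by rw [smul_smul, mul_inv_cancel₀ ha, one_smul]
    rw [h1, ← smul_sub, inner_smul_smul]
    have h2 : a⁻¹ • w ∈ V.restrictScalars ℝ := V.smul_mem a⁻¹ hw
    rw [Submodule.starProjection_inner_eq_zero (K := V.restrictScalars ℝ) x _ h2, mul_zero]

/-- `MI` for the first `q` members of a family of `p` equi-isoclinic subspaces of `F ^ r` -/
theorem mi_sizes [SMulCommClass ℝ F F] {q : ℕ} (hn : 1 ≤ n) (hr : 1 ≤ r) (hq2 : 2 ≤ q)
    (hqp : q ≤ p) (hp : p ∈ sizes F n r) :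
    ∃ ρ y Z : ℝ, (n : ℝ) < ρ ∧ ρ ≤ r ∧
      (∀ t : ℝ, 2 * t * y ≤ Z + t ^(2:ℕ) * (((r : ℝ) - ρ) * ρ / r)) ∧
      MI (finrank ℝ F) n r q ρ y Z := by
  obtain ⟨lam, V, h⟩ := hp
  have hF : 0 < finrank ℝ F := finrank_pos
  have hcfg : Cfg lam (fun i : Fin q => h.P (Fin.castLE hqp i)) :=
    ⟨fun i => h.cfg.sym _, fun i => h.cfg.idem _, fun i j hij => h.cfg.iso _ _
      (fun he => hij (Fin.castLE_injective hqp he))⟩
  set e := stdOrthonormalBasis ℝ F with he
  have hnorm : ∀ k, ‖e k‖ = 1 := fun k => e.orthonormal.1 k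
  have hne : ∀ k, e k ≠ 0 := fun k hk => by
    have := hnorm k
    rw [hk, norm_zero] at this
    exact zero_ne_one this
  obtain ⟨Q, mu, U, hC, hmu⟩ := exists_ccfg hcfg (finrank_Sp (F := F) r)
    (fun i => h.finrank_range _) (fun k => lmul r (e k)) (by simpa using hF)
    (fun k x y => by
      rw [lmul_apply, lmul_apply, inner_smul_smul, hnorm]; ring)
    (fun k l hkl x y => by
      have h1 := inner_smul_add (e k) (e l) x y
      have h2 : inner ℝ (e k) (e l) = (0 : ℝ) := e.orthonormal.2 hkl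
      rw [h2] at h1
      simp only [lmul_apply]
      linarith)
    (fun k i x => by
      simp only [lmul_apply, EquiIsoclinic.P_apply]
      exact smul_proj (hne k) x)
  obtain ⟨ρ, y, Z, h1, h2, h3, h4⟩ := hC.mi (n := (n : ℝ)) (R := (r : ℝ))
    (by exact_mod_cast hn) (by push_cast; simp) (by simp) (by exact_mod_cast hr)
    h.nonneg h.lt_one (by simpa using hq2) hmu
  refine ⟨ρ, y, Z, h1, h2, h3, ?_⟩
  simpa using h4

end

end Pool.Agent.EI97
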