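import Pool.Agent.EI97.All
import Pool.Agent.EI97.Bridge

set_option autoImplicit false

/-! The upper bounds for planes and 3-spaces over the reals, complexes and quaternions. -/

namespace Pool.Agent.EI97

open Module Pool.Agent.H32Iso Quaternion

theorem three_real {r p : ℕ} (hr : 16 ≤ r) (hp : p ∈ sizes ℝ 3 r) : p ≤ r * (r - 1) / 6 := by
  by_contra hcon
  have h2 : 2 ≤ r * (r - 1) / 6 + 1 := by
    have h1 : 16 * 15 ≤ r * (r - 1) := Nat.mul_le_mul hr (by omega)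
    omega
  obtain ⟨ρ, y, Z, h3, h4, h5, h6⟩ := mi_sizes (F := ℝ) (by norm_num) (by omega) h2
    (by omega) hp
  rw [finrank_self] at h6
  push_cast at h3 h6
  exact r3_all hr h3 h4 h5 h6

theorem planes_complex {r p : ℕ} (hr : 7 ≤ r) (hp : p ∈ sizes ℂ 2 r) : p ≤ r * (r - 1) / 2 := by
  by_contra hcon
  have h2 : 2 ≤ r * (r - 1) / 2 + 1 := by
    have h1 : 7 * 6 ≤ r * (r - 1) := Nat.mul_le_mul hr (by omega)
    omega
  obtain ⟨ρ, y, Z, h3, h4, h5, h6⟩ := mi_sizes (F := ℂ) (by norm_num) (by omega) h2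
    (by omega) hp
  rw [Complex.finrank_real_complex] at h6
  push_cast at h3 h6
  exact c2_all hr h3 h4 h5 h6

theorem planes_quaternion {r p : ℕ} (hr : 8 ≤ r) (hp : p ∈ sizes ℍ[ℝ] 2 r) :
    p ≤ r * (2 * r - 3) / 2 := by
  by_contra hcon
  have h2 : 2 ≤ r * (2 * r - 3) / 2 + 1 := by
    have h1 : 8 * 13 ≤ r * (2 * r - 3) := Nat.mul_le_mul hr (by omega)
    omega
  obtain ⟨ρ, y, Z, h3, h4, h5, h6⟩ := mi_sizes (F := ℍ[ℝ]) (by norm_num) (by omega) h2
    (by omega) hp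
  rw [Quaternion.finrank_eq_four] at h6
  push_cast at h3 h6
  exact h2_all hr h3 h4 h5 h6

theorem three_complex {r p : ℕ} (hr : 19 ≤ r) (hp : p ∈ sizes ℂ 3 r) : p ≤ r * (r - 2) / 3 := by
  by_contra hcon
  have h2 : 2 ≤ r * (r - 2) / 3 + 1 := by
    have h1 : 19 * 17 ≤ r * (r - 2) := Nat.mul_le_mul hr (by omega)
    omega
  obtain ⟨ρ, y, Z, h3, h4, h5, h6⟩ := mi_sizes (F := ℂ) (by norm_num) (by omega) h2
    (by omega) hp
  rw [Complex.finrank_real_complex] at h6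
  push_cast at h3 h6
  exact c3_all hr h3 h4 h5 h6

theorem three_quaternion {r p : ℕ} (hr : 22 ≤ r) (hp : p ∈ sizes ℍ[ℝ] 3 r) :
    p ≤ r * (2 * r - 5) / 3 := by
  by_contra hcon
  have h2 : 2 ≤ r * (2 * r - 5) / 3 + 1 := by
    have h1 : 22 * 39 ≤ r * (2 * r - 5) := Nat.mul_le_mul hr (by omega)
    omega
  obtain ⟨ρ, y, Z, h3, h4, h5, h6⟩ := mi_sizes (F := ℍ[ℝ]) (by norm_num) (by omega) h2
    (by omega) hp
  rw [Quaternion.finrank_eq_four] at h6
  push_cast at h3 h6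
  exact h3_all hr h3 h4 h5 h6

end Pool.Agent.EI97
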