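import Pool.Agent.EI28P.Check
import Pool.Agent.EI28P.IdU

set_option autoImplicit false
set_option linter.style.longLine false

/-! The polynomial inequality of the case `25 / 4 ≤ R`. -/

namespace Pool.Agent.EI97

open Pool.Agent.EI28P

noncomputable def wdU (q R N : ℝ) : ℝ := N * (R - q) ^ 2 + 2 * R * (q - 1) ^ 2

noncomputable def hU (q R : ℝ) : ℝ := 2 * q * (q - 1) * (R - 1)

/-- the factor of the lower bound -/
noncomputable def brU (q R N : ℝ) : ℝ :=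
  (R - 1) * (3 * (wdU q R N + hU q R) ^ 2
    + 8 * (R - 1) * (R - q ^ 2) * (wdU q R N + 2 * hU q R))

theorem gU_aux (t w N : ℝ) :
    brU (1 + (w - 1) * t) (w ^ 2) N * ((w ^ 2 - 1) * (N * w ^ 2 + 2)
        + 2 * ((1 + (w - 1) * t) ^ 2 - 1) ^ 2)
      - 3 * ((1 + (w - 1) * t) + 1) ^ 2 * (N + 2) * (w ^ 2 - (1 + (w - 1) * t)) ^ 2
        * (wdU (1 + (w - 1) * t) (w ^ 2) N + hU (1 + (w - 1) * t) (w ^ 2)) ^ 2
      = (w - 1) ^ 6 * (1 - t) * (ev2 w t GU0 + (N - 1) * (ev2 w t GU1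
        + (N - 1) * (ev2 w t GU2 + (N - 1) * ev2 w t GU3))) := by
  have h := E.ev_eq U.check w t (N - 1) 0
  simp only [U.lhsE, U.rhsE, U.gE, U.brE, U.wdE, U.hE, U.qE, U.rE, U.nE, E.ev, E.ev_sub,
    Int.cast_ofNat, Int.cast_one, sub_add_cancel] at h
  unfold brU wdU hU
  exact h

theorem gU_nonneg {q w N : ℝ} (hq1 : 1 ≤ q) (hqw : q ≤ w) (hw : 5 / 2 ≤ w) (hN : 1 ≤ N) :
    3 * (q + 1) ^ 2 * (N + 2) * (w ^ 2 - q) ^ 2 * (wdU q (w ^ 2) N + hU q (w ^ 2)) ^ 2 ≤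
      brU q (w ^ 2) N * ((w ^ 2 - 1) * (N * w ^ 2 + 2) + 2 * (q ^ 2 - 1) ^ 2) := by
  obtain ⟨t, ht⟩ : ∃ t : ℝ, t = (q - 1) / (w - 1) := ⟨_, rfl⟩
  have hw1 : 0 < w - 1 := by linarith
  have hqt : q = 1 + (w - 1) * t := by rw [ht]; field_simp; ring
  have ht0 : 0 ≤ t := by rw [ht]; exact div_nonneg (by linarith) hw1.le
  have ht1 : t ≤ 1 := by rw [ht, div_le_one hw1]; linarith
  have hM : 0 ≤ N - 1 := by linarith
  have h : 0 ≤ ev2 w t GU0 + (N - 1) * (ev2 w t GU1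
        + (N - 1) * (ev2 w t GU2 + (N - 1) * ev2 w t GU3)) := by
    have h0 := GU0_nonneg ht0 ht1 hw
    have h1 := GU1_nonneg ht0 ht1 hw
    have h2 := GU2_nonneg ht0 ht1 hw
    have h3 := GU3_nonneg ht0 ht1 hw
    positivity
  have h4 : 0 ≤ (w - 1) ^ 6 * (1 - t) := mul_nonneg (by positivity) (by linarith)
  have h5 := mul_nonneg h4 h
  rw [← gU_aux t w N, ← hqt] at h5
  linarith

theorem gU_pos {q w N : ℝ} (hq1 : 1 < q) (hqw : q < w) (hw : 5 / 2 ≤ w) (hN : 1 ≤ N) :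
    3 * (q + 1) ^ 2 * (N + 2) * (w ^ 2 - q) ^ 2 * (wdU q (w ^ 2) N + hU q (w ^ 2)) ^ 2 <
      brU q (w ^ 2) N * ((w ^ 2 - 1) * (N * w ^ 2 + 2) + 2 * (q ^ 2 - 1) ^ 2) := by
  obtain ⟨t, ht⟩ : ∃ t : ℝ, t = (q - 1) / (w - 1) := ⟨_, rfl⟩
  have hw1 : 0 < w - 1 := by linarith
  have hqt : q = 1 + (w - 1) * t := by rw [ht]; field_simp; ring
  have ht0 : 0 < t := by rw [ht]; exact div_pos (by linarith) hw1
  have ht1 : t < 1 := by rw [ht, div_lt_one hw1]; linarith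
  have hM : 0 ≤ N - 1 := by linarith
  have h : 0 < ev2 w t GU0 + (N - 1) * (ev2 w t GU1
        + (N - 1) * (ev2 w t GU2 + (N - 1) * ev2 w t GU3)) := by
    have h0 := GU0_pos ht0 ht1 hw
    have h1 := GU1_nonneg ht0.le ht1.le hw
    have h2 := GU2_nonneg ht0.le ht1.le hw
    have h3 := GU3_nonneg ht0.le ht1.le hw
    positivity
  have h4 : 0 < (w - 1) ^ 6 * (1 - t) := mul_pos (by positivity) (by linarith)
  have h5 := mul_pos h4 h
  rw [← gU_aux t w N, ← hqt] at h5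
  linarith

end Pool.Agent.EI97
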