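import Pool.Agent.EI97.Red
import Pool.Agent.EI97.PolyU2

set_option autoImplicit false
set_option linter.style.longLine false

/-! The case `25 / 4 ≤ R`. -/

namespace Pool.Agent.EI97

theorem idU1 {q R N W η x y B : ℝ} (hq : 0 < q) (hD : 0 < R - q) (hR : 0 < R)
    (eB : (W + η) ^ 2 * B = 3 * (q ^ 2 - 1) * (W + η) ^ 2 - 2 * ((3 * W - η) * (W + η)) * x
      - (W - η) * (3 * W + η) * y - 2 * η ^ 2 * N * (R - q ^ 2)) :
    (R - q) ^ 2 * ((W + η) ^ 2 * B) =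
      ((R - q) ^ 2 * (3 * (q ^ 2 - 1) * (W + η) ^ 2 - 2 * η ^ 2 * N * (R - q ^ 2))
        - 2 * ((3 * W - η) * (W + η)) * (R - q) * (q - 1) * (R - q ^ 2)
        - (W - η) * (3 * W + η) * R * (q - 1) ^ 2 * (R - q ^ 2))
      + (R - q) ^ 2 * ((2 * ((3 * W - η) * (W + η))
          + 2 * ((W - η) * (3 * W + η)) * (R * (q - 1) / (R - q))) / q *
          (x * (q - 2 * (1 - q * (q - 1) / (R - q))) - y
            + (q - 1) * (1 - q * (q - 1) / (R - q)) ^ 2))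
      + (R - q) ^ 2 * (((2 * ((3 * W - η) * (W + η))
          + 2 * ((W - η) * (3 * W + η)) * (R * (q - 1) / (R - q))) / q
          - (W - η) * (3 * W + η)) * (y - 2 * (R * (q - 1) / (R - q)) * x
          + (R * (q - 1) / (R - q)) ^ 2 * ((R - 1 - (q ^ 2 - 1)) / R))) := by
  rw [eB]
  field_simp
  ring

theorem idU2 (q R N : ℝ) :
    (R - q) ^ 2 * (3 * (q ^ 2 - 1) * (wdU q R N + hU q R) ^ 2
        - 2 * hU q R ^ 2 * N * (R - q ^ 2))
      - 2 * ((3 * wdU q R N - hU q R) * (wdU q R N + hU q R)) * (R - q) * (q - 1) * (R - q ^ 2)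
      - (wdU q R N - hU q R) * (3 * wdU q R N + hU q R) * R * (q - 1) ^ 2 * (R - q ^ 2)
    = (q - 1) ^ 2 * q ^ 2 * brU q R N := by
  unfold brU wdU hU
  ring

theorem Red.caseU {N X R a x y : ℝ} (h : Red N X R a x y) (hN : 1 ≤ N) (hR : 25 / 4 ≤ R) :
    2 * X ≤ (R - 1) * (N * R + 2) := by
  have ha0 := h.a_pos
  have haR := h.a_le
  obtain ⟨w, hw⟩ : ∃ w : ℝ, w = Real.sqrt R := ⟨_, rfl⟩
  obtain ⟨q, hq⟩ : ∃ q : ℝ, q = Real.sqrt (1 + a) := ⟨_, rfl⟩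
  have hw2 : w ^ 2 = R := by rw [hw]; exact Real.sq_sqrt (by linarith)
  have hq2 : q ^ 2 = 1 + a := by rw [hq]; exact Real.sq_sqrt (by linarith)
  have hw0 : 0 ≤ w := by rw [hw]; exact Real.sqrt_nonneg _
  have hq0 : 0 ≤ q := by rw [hq]; exact Real.sqrt_nonneg _
  have hw5 : 5 / 2 ≤ w := by
    rw [hw]; apply Real.le_sqrt_of_sq_le; linarith
  have hq1 : 1 < q := by
    by_contra hcon
    push Not at hcon
    have : q ^ 2 ≤ 1 := pow_le_one₀ hq0 hcon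
    linarith
  have hqw : q ≤ w := by
    rw [hq, hw]; exact Real.sqrt_le_sqrt (by linarith)
  have haq : a = q ^ 2 - 1 := by linarith
  have hRq : 0 ≤ R - q ^ 2 := by linarith
  have hwR : w < R := by rw [← hw2]; nlinarith
  have hD : 0 < R - q := by linarith
  have hG := gU_nonneg hq1.le hqw hw5 hN
  rw [hw2] at hG
  have hU0 : 0 < hU q R := by
    unfold hU
    have : 0 < q - 1 := by linarith
    have : 0 < R - 1 := by linarith
    positivity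
  have hUW : hU q R ≤ wdU q R N := by
    have h1 : wdU q R N - hU q R = (N - 1) * (R - q) ^ 2 + (R - q) * (R + 2 - 3 * q) := by
      unfold wdU hU; ring
    have h2 : 0 ≤ R + 2 - 3 * q := by
      have : R + 2 - 3 * q = (w - 1) * (w - 2) + 3 * (w - q) := by rw [← hw2]; ring
      rw [this]
      have k1 : 0 ≤ (w - 1) * (w - 2) := mul_nonneg (by linarith) (by linarith)
      linarith
    have h3 : 0 ≤ (N - 1) * (R - q) ^ 2 := mul_nonneg (by linarith) (sq_nonneg _)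
    have h4 : 0 ≤ (R - q) * (R + 2 - 3 * q) := mul_nonneg hD.le h2
    linarith
  by_contra hcon
  push Not at hcon
  have hS := h.star (2 * hU q R / (wdU q R N + hU q R))
  have hT := h.top q (q * (q - 1) / (R - q)) hq0 hq2
  have hH := h.hankel (R * (q - 1) / (R - q))
  obtain ⟨W, hW⟩ : ∃ W : ℝ, W = wdU q R N := ⟨_, rfl⟩
  obtain ⟨η, hη⟩ : ∃ η : ℝ, η = hU q R := ⟨_, rfl⟩
  rw [← hW, ← hη] at hS hG hUW
  rw [← hη] at hU0
  have hW0 : 0 < W := by linarith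
  have hWη : 0 < W + η := by linarith
  subst haq
  obtain ⟨B, hB⟩ : ∃ B : ℝ, B = 3 * (q ^ 2 - 1) - 2 * (3 - 2 * (2 * η / (W + η))) * x
    - (1 - 2 * η / (W + η)) * (3 - 2 * η / (W + η)) * y
    - (2 * η / (W + η)) ^ 2 * N * (R - 1 - (q ^ 2 - 1)) / 2 := ⟨_, rfl⟩
  rw [← hB] at hS
  have eB : (W + η) ^ 2 * B = 3 * (q ^ 2 - 1) * (W + η) ^ 2 - 2 * ((3 * W - η) * (W + η)) * x
      - (W - η) * (3 * W + η) * y - 2 * η ^ 2 * N * (R - q ^ 2) := by
    rw [hB]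
    field_simp
    ring
  -- the multipliers
  have hK2 : 0 ≤ (W - η) * (3 * W + η) := mul_nonneg (by linarith) (by linarith)
  have hR0 : 0 < R := by linarith
  have hq00 : 0 < q := by linarith
  have hβ0 : 0 ≤ R * (q - 1) / (R - q) :=
    div_nonneg (mul_nonneg hR0.le (by linarith)) hD.le
  have key := idU1 (x := x) (y := y) hq00 hD hR0 eB
  obtain ⟨L, hL⟩ : ∃ L : ℝ, L = (2 * ((3 * W - η) * (W + η))
    + 2 * ((W - η) * (3 * W + η)) * (R * (q - 1) / (R - q))) / q := ⟨_, rfl⟩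
  rw [← hL] at key
  have hL0 : 0 ≤ L := by
    rw [hL]
    have k1 : 0 ≤ (3 * W - η) * (W + η) := mul_nonneg (by linarith) (by linarith)
    have k2 : 0 ≤ (W - η) * (3 * W + η) * (R * (q - 1) / (R - q)) := mul_nonneg hK2 hβ0
    exact div_nonneg (by linarith) hq0
  have hLK : 0 ≤ L - (W - η) * (3 * W + η) := by
    have e : L - (W - η) * (3 * W + η) =
        (8 * W * η + (W - η) * (3 * W + η) * (q * (q + R - 2) / (R - q))) / q := by
      rw [hL]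
      field_simp
      ring
    rw [e]
    have k1 : 0 ≤ q * (q + R - 2) / (R - q) :=
      div_nonneg (mul_nonneg hq0 (by linarith)) hD.le
    have k2 := mul_nonneg hK2 k1
    have k3 : 0 ≤ 8 * W * η := by positivity
    exact div_nonneg (by linarith) hq0
  have hid : (R - q) ^ 2 * (3 * (q ^ 2 - 1) * (W + η) ^ 2 - 2 * η ^ 2 * N * (R - q ^ 2))
        - 2 * ((3 * W - η) * (W + η)) * (R - q) * (q - 1) * (R - q ^ 2)
        - (W - η) * (3 * W + η) * R * (q - 1) ^ 2 * (R - q ^ 2)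
      = (q - 1) ^ 2 * q ^ 2 * brU q R N := by
    rw [hW, hη]; exact idU2 q R N
  rw [hid] at key
  have hlow : (q - 1) ^ 2 * q ^ 2 * brU q R N ≤ (R - q) ^ 2 * ((W + η) ^ 2 * B) := by
    rw [key]
    have k1 := mul_nonneg (sq_nonneg (R - q)) (mul_nonneg hL0 hT)
    have k2 := mul_nonneg (sq_nonneg (R - q)) (mul_nonneg hLK hH)
    linarith
  have hX0 : 0 < (R - 1) * (N * R + 2) + 2 * (q ^ 2 - 1) ^ 2 := by
    have : 0 < R - 1 := by linarith
    positivity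
  have hXX : (R - 1) * (N * R + 2) + 2 * (q ^ 2 - 1) ^ 2 < 2 * X + 2 * (q ^ 2 - 1) ^ 2 := by
    linarith
  have hc : 0 < (R - q) ^ 2 * (W + η) ^ 2 := by positivity
  have hc2 : 0 < (q - 1) ^ 2 * q ^ 2 := by
    have : 0 < q - 1 := by linarith
    positivity
  have hG2 : 3 * (q + 1) ^ 2 * (N + 2) * (R - q) ^ 2 * (W + η) ^ 2 * ((q - 1) ^ 2 * q ^ 2) ≤
      brU q R N * ((R - 1) * (N * R + 2) + 2 * (q ^ 2 - 1) ^ 2) * ((q - 1) ^ 2 * q ^ 2) :=
    mul_le_mul_of_nonneg_right hG hc2.le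
  have hpos : 0 < 3 * (q + 1) ^ 2 * (N + 2) * (R - q) ^ 2 * (W + η) ^ 2 * ((q - 1) ^ 2 * q ^ 2) := by
    have : 0 < q - 1 := by linarith
    positivity
  have hE : 0 < (q - 1) ^ 2 * q ^ 2 * brU q R N := by
    by_contra h3
    push Not at h3
    have := mul_nonpos_of_nonpos_of_nonneg h3 hX0.le
    linarith
  have h1 : (q - 1) ^ 2 * q ^ 2 * brU q R N * (2 * X + 2 * (q ^ 2 - 1) ^ 2) ≤
      (R - q) ^ 2 * ((W + η) ^ 2 * B) * (2 * X + 2 * (q ^ 2 - 1) ^ 2) :=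
    mul_le_mul_of_nonneg_right hlow (by linarith)
  have h2 : (R - q) ^ 2 * (W + η) ^ 2 * (B * (2 * X + 2 * (q ^ 2 - 1) ^ 2)) ≤
      (R - q) ^ 2 * (W + η) ^ 2 * (3 * ((1 + (q ^ 2 - 1)) * (q ^ 2 - 1) ^ 2 * (N + 2))) :=
    mul_le_mul_of_nonneg_left hS hc.le
  have h3 : (q - 1) ^ 2 * q ^ 2 * brU q R N * ((R - 1) * (N * R + 2) + 2 * (q ^ 2 - 1) ^ 2) <
      (q - 1) ^ 2 * q ^ 2 * brU q R N * (2 * X + 2 * (q ^ 2 - 1) ^ 2) :=
    mul_lt_mul_of_pos_left hXX hE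
  have h4 : (R - q) ^ 2 * (W + η) ^ 2 * (3 * ((1 + (q ^ 2 - 1)) * (q ^ 2 - 1) ^ 2 * (N + 2))) =
      3 * (q + 1) ^ 2 * (N + 2) * (R - q) ^ 2 * (W + η) ^ 2 * ((q - 1) ^ 2 * q ^ 2) := by ring
  rw [h4] at h2
  linarith

end Pool.Agent.EI97
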