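import Pool.Agent.EI97.CaseJ
import Pool.Agent.EI97.CaseU
import Pool.Agent.EI28.ToMatrix
import Pool.Agent.H32Iso.Fields

set_option autoImplicit false

/-! The upper bound for the members of `sizes F n r`, without any restriction on `n` and `r`. -/

namespace Pool.Agent.EI97

open Matrix Finset Module Pool.Agent.H32Iso Pool.Agent.EI28

theorem Red.bound {N X R a x y : ℝ} (h : Red N X R a x y) (hN : 1 ≤ N) (hR : 2 ≤ R) :
    2 * X ≤ (R - 1) * (N * R + 2) := by
  rcases le_total R (13 / 2) with h1 | h1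
  · exact h.caseJ hN hR h1
  · exact h.caseU hN (by linarith)

section

variable {F : Type} [NormedDivisionRing F] [InnerProductSpace ℝ F] [IsScalarTower ℝ F F]
  [FiniteDimensional ℝ F] {n r p : ℕ}

theorem jdata (hn : 1 ≤ n) (hp2 : 2 ≤ p) (hp : p ∈ sizes F n r) :
    ∃ s : Fin (finrank ℝ F * r) → ℝ,
      JData (Fin (finrank ℝ F * r)) ((finrank ℝ F * n : ℕ) : ℝ) p s := by
  obtain ⟨lam, V, h⟩ := hp
  have hF : 0 < finrank ℝ F := finrank_pos
  obtain ⟨Q, mu, hQ, hmu⟩ := exists_mcfg h.cfg (finrank_Sp (F := F) r) h.finrank_range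
  have h1 : (1 : ℝ) ≤ ((finrank ℝ F * n : ℕ) : ℝ) := by
    exact_mod_cast Nat.mul_pos hF hn
  have h2 := hQ.toJData h1 h.nonneg h.lt_one (by simpa using hp2) hmu
  rw [Fintype.card_fin] at h2
  exact ⟨_, h2⟩

/-- a member of the family fits into the space -/
theorem le_of_sizes (hp1 : 1 ≤ p) (hp : p ∈ sizes F n r) : n ≤ r := by
  obtain ⟨lam, V, h⟩ := hp
  have hF : 0 < finrank ℝ F := finrank_pos
  have h1 := Submodule.finrank_le (LinearMap.range (h.P ⟨0, hp1⟩))
  rw [h.finrank_range, finrank_Sp] at h1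
  exact Nat.le_of_mul_le_mul_left h1 hF

/-- two members of the family are independent -/
theorem two_mul_le_of_sizes (hp2 : 2 ≤ p) (hp : p ∈ sizes F n r) : 2 * n ≤ r := by
  obtain ⟨lam, V, h⟩ := hp
  have hF : 0 < finrank ℝ F := finrank_pos
  set i : Fin p := ⟨0, by omega⟩ with hi
  set j : Fin p := ⟨1, by omega⟩ with hj
  have hij : i ≠ j := by
    rw [hi, hj]; intro he; simp at he
  have hdis : Disjoint (LinearMap.range (h.P i)) (LinearMap.range (h.P j)) := by
    rw [Submodule.disjoint_def]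
    rintro v ⟨v1, hv1⟩ ⟨v2, hv2⟩
    have e1 : h.P i v = v := by rw [← hv1]; exact h.cfg.idem i v1
    have e2 : h.P j v = v := by rw [← hv2]; exact h.cfg.idem j v2
    have e3 := h.cfg.iso i j hij v
    rw [e1, e2, e1] at e3
    have e4 : (1 - lam) • v = 0 := by rw [sub_smul, one_smul, ← e3, sub_self]
    rcases smul_eq_zero.mp e4 with h5 | h5
    · exact absurd h5 (by linarith [h.lt_one])
    · exact h5
  have h1 := Submodule.finrank_add_finrank_le_of_disjoint hdis
  rw [h.finrank_range, h.finrank_range, finrank_Sp] at h1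
  have h2 : finrank ℝ F * (2 * n) ≤ finrank ℝ F * r := by
    calc finrank ℝ F * (2 * n) = finrank ℝ F * n + finrank ℝ F * n := by ring
      _ ≤ _ := h1
  exact Nat.le_of_mul_le_mul_left h2 hF

/-- an empty family spans only the zero space -/
theorem eq_zero_of_sizes (hp : 0 ∈ sizes F n r) : r = 0 := by
  obtain ⟨lam, V, h⟩ := hp
  have hF : 0 < finrank ℝ F := finrank_pos
  have h1 := h.iSup_range
  rw [iSup_of_empty] at h1
  have h2 : finrank ℝ (Sp F r) = 0 := by
    rw [← finrank_top ℝ (Sp F r), ← h1, finrank_bot]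
  rw [finrank_Sp] at h2
  rcases Nat.mul_eq_zero.mp h2 with h3 | h3
  · omega
  · exact h3

/-- The upper bound `v (n, r, F) ≤ r (c r + 2 - c n) / (2 n)` for all `n ≥ 1` and all `r`. -/
theorem gerzon_all (hn : 1 ≤ n) (hp : p ∈ sizes F n r) :
    (p : ℝ) ≤ r * ((finrank ℝ F : ℝ) * r + 2 - (finrank ℝ F : ℝ) * n) / (2 * n) := by
  have hn' : (0 : ℝ) < n := by exact_mod_cast hn
  have hc0 : (0 : ℝ) < finrank ℝ F := by exact_mod_cast (finrank_pos (R := ℝ) (M := F))
  rcases Nat.lt_or_ge p 2 with h2 | h2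
  · rcases Nat.eq_zero_or_pos p with h0 | h0
    · subst h0
      have := eq_zero_of_sizes hp
      subst this
      simp
    · have h3 : (n : ℝ) ≤ r := by exact_mod_cast le_of_sizes h0 hp
      have h4 : (p : ℝ) ≤ 1 := by exact_mod_cast (by omega : p ≤ 1)
      refine h4.trans ?_
      rw [le_div_iff₀ (by linarith)]
      have h5 : 0 ≤ (finrank ℝ F : ℝ) * (r - n) := mul_nonneg hc0.le (by linarith)
      nlinarith
  · have h3 : 2 * (n : ℝ) ≤ r := by exact_mod_cast two_mul_le_of_sizes h2 hp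
    obtain ⟨s, h⟩ := jdata hn h2 hp
    have hN : (1 : ℝ) ≤ ((finrank ℝ F * n : ℕ) : ℝ) := by
      exact_mod_cast Nat.mul_pos (finrank_pos (R := ℝ) (M := F)) hn
    obtain ⟨a, x, y, hred⟩ := h.red (by linarith)
    have e : (Fintype.card (Fin (finrank ℝ F * r)) : ℝ) / ((finrank ℝ F * n : ℕ) : ℝ)
        = (r : ℝ) / n := by
      rw [Fintype.card_fin]
      push_cast
      field_simp
    rw [e] at hred
    have hR : 2 ≤ (r : ℝ) / n := by rw [le_div_iff₀ hn']; exact h3
    have key := hred.bound hN hR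
    have e2 : r * ((finrank ℝ F : ℝ) * r + 2 - (finrank ℝ F : ℝ) * n) / (2 * n) =
        1 + ((r : ℝ) / n - 1) * (((finrank ℝ F * n : ℕ) : ℝ) * ((r : ℝ) / n) + 2) / 2 := by
      push_cast
      field_simp
      ring
    rw [e2]
    linarith

end

end Pool.Agent.EI97
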