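import Pool.Agent.EI97.Elim

set_option autoImplicit false

/-! Positivity of polynomials. -/

namespace Pool.Agent.EI97

theorem c2_k0 (c : ℝ) (h0 : 0 ≤ c) (h1 : c ≤ 6) :
    0 <
      411041792 + (-97355776)*c + 31119872*c^(2:ℕ) + 29711200*c^(3:ℕ) + (-6363632)*c^(4:ℕ) + 419554*c^(5:ℕ)
      + (-50435)*c^(6:ℕ) + 800*c^(7:ℕ) := by
  obtain ⟨x, hx⟩ : ∃ x : ℝ, x = c - 0 := ⟨_, rfl⟩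
  obtain ⟨y, hy⟩ : ∃ y : ℝ, y = 6 - c := ⟨_, rfl⟩
  have hx0 : 0 ≤ x := by linarith
  have hy0 : 0 ≤ y := by linarith
  have e :
      411041792 + (-97355776)*c + 31119872*c^(2:ℕ) + 29711200*c^(3:ℕ) + (-6363632)*c^(4:ℕ) + 419554*c^(5:ℕ)
      + (-50435)*c^(6:ℕ) + 800*c^(7:ℕ)
      = 250880000 + (417088/729)*y^(7:ℕ) + (466144/243)*x*y^(6:ℕ) + (31472/9)*x^(2:ℕ)*y^(5:ℕ)
      + (23080310/729)*x^(3:ℕ)*y^(4:ℕ) + (19574074/243)*x^(4:ℕ)*y^(3:ℕ) + (13212325/162)*x^(5:ℕ)*y^(2:ℕ)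
      + (43324925/1458)*x^(6:ℕ)*y := by
    subst hx hy; ring
  rw [e]; positivity

theorem c2_k1 (c : ℝ) (h0 : 0 ≤ c) (h1 : c ≤ 6) :
    0 ≤
      761886720 + (-196514560)*c + 125801248*c^(2:ℕ) + (-163892)*c^(3:ℕ) + (-2038540)*c^(4:ℕ)
      + (-74661)*c^(5:ℕ) + (-13840)*c^(6:ℕ) + 100*c^(7:ℕ) := by
  obtain ⟨x, hx⟩ : ∃ x : ℝ, x = c - 0 := ⟨_, rfl⟩
  obtain ⟨y, hy⟩ : ∃ y : ℝ, y = 6 - c := ⟨_, rfl⟩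
  have hx0 : 0 ≤ x := by linarith
  have hy0 : 0 ≤ y := by linarith
  have e :
      761886720 + (-196514560)*c + 125801248*c^(2:ℕ) + (-163892)*c^(3:ℕ) + (-2038540)*c^(4:ℕ)
      + (-74661)*c^(5:ℕ) + (-13840)*c^(6:ℕ) + 100*c^(7:ℕ)
      = (661360/243)*y^(7:ℕ) + (10818020/729)*x*y^(6:ℕ) + (432547/9)*x^(2:ℕ)*y^(5:ℕ) + (109682461/972)*x^(3:ℕ)*y^(4:ℕ)
      + (237443681/1458)*x^(4:ℕ)*y^(3:ℕ) + (40373783/324)*x^(5:ℕ)*y^(2:ℕ) + (3191150/81)*x^(6:ℕ)*y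
      + (614600/729)*x^(7:ℕ) := by
    subst hx hy; ring
  rw [e]; positivity

theorem c2_k2 (c : ℝ) (h0 : 0 ≤ c) (h1 : c ≤ 6) :
    0 ≤
      433844992 + (-28664256)*c + 54584076*c^(2:ℕ) + (-3426984)*c^(3:ℕ) + (-690131)*c^(4:ℕ) + (-53482)*c^(5:ℕ)
      + (-1740)*c^(6:ℕ) := by
  obtain ⟨x, hx⟩ : ∃ x : ℝ, x = c - 0 := ⟨_, rfl⟩
  obtain ⟨y, hy⟩ : ∃ y : ℝ, y = 6 - c := ⟨_, rfl⟩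
  have hx0 : 0 ≤ x := by linarith
  have hy0 : 0 ≤ y := by linarith
  have e :
      433844992 + (-28664256)*c + 54584076*c^(2:ℕ) + (-3426984)*c^(3:ℕ) + (-690131)*c^(4:ℕ) + (-53482)*c^(5:ℕ)
      + (-1740)*c^(6:ℕ)
      = (6778828/729)*y^(6:ℕ) + (12661898/243)*x*y^(5:ℕ) + (158599457/972)*x^(2:ℕ)*y^(4:ℕ)
      + (219951920/729)*x^(3:ℕ)*y^(3:ℕ) + (280476761/972)*x^(4:ℕ)*y^(2:ℕ) + (53936125/486)*x^(5:ℕ)*y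
      + (1487350/729)*x^(6:ℕ) := by
    subst hx hy; ring
  rw [e]; positivity

theorem c2_k3 (c : ℝ) (h0 : 0 ≤ c) (h1 : c ≤ 6) :
    0 ≤
      146382464 + 15059392*c + 10218702*c^(2:ℕ) + (-1352539)*c^(3:ℕ) + (-170826)*c^(4:ℕ) + (-8368)*c^(5:ℕ)
      + (-100)*c^(6:ℕ) := by
  obtain ⟨x, hx⟩ : ∃ x : ℝ, x = c - 0 := ⟨_, rfl⟩
  obtain ⟨y, hy⟩ : ∃ y : ℝ, y = 6 - c := ⟨_, rfl⟩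
  have hx0 : 0 ≤ x := by linarith
  have hy0 : 0 ≤ y := by linarith
  have e :
      146382464 + 15059392*c + 10218702*c^(2:ℕ) + (-1352539)*c^(3:ℕ) + (-170826)*c^(4:ℕ) + (-8368)*c^(5:ℕ)
      + (-100)*c^(6:ℕ)
      = (2287226/729)*y^(6:ℕ) + (186854/9)*x*y^(5:ℕ) + (125641333/1944)*x^(2:ℕ)*y^(4:ℕ)
      + (626319683/5832)*x^(3:ℕ)*y^(3:ℕ) + (58454227/648)*x^(4:ℕ)*y^(2:ℕ) + (59053075/1944)*x^(5:ℕ)*y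
      + (1333625/2916)*x^(6:ℕ) := by
    subst hx hy; ring
  rw [e]; positivity

theorem c2_k4 (c : ℝ) (h0 : 0 ≤ c) (h1 : c ≤ 6) :
    0 ≤
      34321264 + 6023520*c + 656196*c^(2:ℕ) + (-278368)*c^(3:ℕ) + (-21227)*c^(4:ℕ) + (-460)*c^(5:ℕ) := by
  obtain ⟨x, hx⟩ : ∃ x : ℝ, x = c - 0 := ⟨_, rfl⟩
  obtain ⟨y, hy⟩ : ∃ y : ℝ, y = 6 - c := ⟨_, rfl⟩
  have hx0 : 0 ≤ x := by linarith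
  have hy0 : 0 ≤ y := by linarith
  have e :
      34321264 + 6023520*c + 656196*c^(2:ℕ) + (-278368)*c^(3:ℕ) + (-21227)*c^(4:ℕ) + (-460)*c^(5:ℕ)
      = (2145079/486)*y^(5:ℕ) + (12984215/486)*x*y^(4:ℕ) + (31962511/486)*x^(2:ℕ)*y^(3:ℕ)
      + (35675065/486)*x^(3:ℕ)*y^(2:ℕ) + (14954675/486)*x^(4:ℕ)*y + (179425/486)*x^(5:ℕ) := by
    subst hx hy; ring
  rw [e]; positivity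

theorem c2_k5 (c : ℝ) (h0 : 0 ≤ c) (h1 : c ≤ 6) :
    0 ≤
      5681672 + 841300*c + (-75608)*c^(2:ℕ) + (-29807)*c^(3:ℕ) + (-1032)*c^(4:ℕ) := by
  obtain ⟨x, hx⟩ : ∃ x : ℝ, x = c - 0 := ⟨_, rfl⟩
  obtain ⟨y, hy⟩ : ∃ y : ℝ, y = 6 - c := ⟨_, rfl⟩
  have hx0 : 0 ≤ x := by linarith
  have hy0 : 0 ≤ y := by linarith
  have e :
      5681672 + 841300*c + (-75608)*c^(2:ℕ) + (-29807)*c^(3:ℕ) + (-1032)*c^(4:ℕ)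
      = (710209/162)*y^(4:ℕ) + (3471811/162)*x*y^(3:ℕ) + (1937981/54)*x^(2:ℕ)*y^(2:ℕ) + (1624250/81)*x^(3:ℕ)*y
      + (28975/162)*x^(4:ℕ) := by
    subst hx hy; ring
  rw [e]; positivity

theorem c2_k6 (c : ℝ) (h0 : 0 ≤ c) (h1 : c ≤ 6) :
    0 ≤
      627332 + 37812*c + (-15615)*c^(2:ℕ) + (-1304)*c^(3:ℕ) := by
  obtain ⟨x, hx⟩ : ∃ x : ℝ, x = c - 0 := ⟨_, rfl⟩
  obtain ⟨y, hy⟩ : ∃ y : ℝ, y = 6 - c := ⟨_, rfl⟩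
  have hx0 : 0 ≤ x := by linarith
  have hy0 : 0 ≤ y := by linarith
  have e :
      627332 + 37812*c + (-15615)*c^(2:ℕ) + (-1304)*c^(3:ℕ)
      = (156833/54)*y^(3:ℕ) + (175739/18)*x*y^(2:ℕ) + (73900/9)*x^(2:ℕ)*y + (1300/27)*x^(3:ℕ) := by
    subst hx hy; ring
  rw [e]; positivity

theorem c2_k7 (c : ℝ) (h0 : 0 ≤ c) (h1 : c ≤ 6) :
    0 ≤
      41054 + (-2093)*c + (-786)*c^(2:ℕ) := by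
  obtain ⟨x, hx⟩ : ∃ x : ℝ, x = c - 0 := ⟨_, rfl⟩
  obtain ⟨y, hy⟩ : ∃ y : ℝ, y = 6 - c := ⟨_, rfl⟩
  have hx0 : 0 ≤ x := by linarith
  have hy0 : 0 ≤ y := by linarith
  have e :
      41054 + (-2093)*c + (-786)*c^(2:ℕ)
      = (20527/18)*y^(2:ℕ) + (34775/18)*x*y + (50/9)*x^(2:ℕ) := by
    subst hx hy; ring
  rw [e]; positivity

theorem c2_k8 (c : ℝ) (h0 : 0 ≤ c) (h1 : c ≤ 6) :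
    0 ≤
      1200 + (-200)*c := by
  obtain ⟨x, hx⟩ : ∃ x : ℝ, x = c - 0 := ⟨_, rfl⟩
  obtain ⟨y, hy⟩ : ∃ y : ℝ, y = 6 - c := ⟨_, rfl⟩
  have hx0 : 0 ≤ x := by linarith
  have hy0 : 0 ≤ y := by linarith
  have e :
      1200 + (-200)*c
      = 200*y := by
    subst hx hy; ring
  rw [e]; positivity

theorem c2_pos (a b : ℝ) (ha : 0 < a) (hb : 0 ≤ b) (hab : 6 ≤ a + b) :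
    0 <
      46*b^(9:ℕ) + 302*a*b^(8:ℕ) + 794*a^(2:ℕ)*b^(7:ℕ) + 1190*a^(3:ℕ)*b^(6:ℕ) + 1350*a^(4:ℕ)*b^(5:ℕ) + 1486*a^(5:ℕ)*b^(4:ℕ)
      + 1402*a^(6:ℕ)*b^(3:ℕ) + 814*a^(7:ℕ)*b^(2:ℕ) + 200*a^(8:ℕ)*b + 302*b^(8:ℕ) + 1716*a*b^(7:ℕ) + 4052*a^(2:ℕ)*b^(6:ℕ)
      + 6845*a^(3:ℕ)*b^(5:ℕ) + 10338*a^(4:ℕ)*b^(4:ℕ) + 11606*a^(5:ℕ)*b^(3:ℕ) + 7400*a^(6:ℕ)*b^(2:ℕ) + 1925*a^(7:ℕ)*b + (-94)*b^(7:ℕ)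
      + 96*a*b^(6:ℕ) + 3950*a^(2:ℕ)*b^(5:ℕ) + 19266*a^(3:ℕ)*b^(4:ℕ) + 35926*a^(4:ℕ)*b^(3:ℕ) + 29770*a^(5:ℕ)*b^(2:ℕ) + 9350*a^(6:ℕ)*b
      + 200*a^(7:ℕ) + (-6230)*b^(6:ℕ) + (-19452)*a*b^(5:ℕ) + (-7578)*a^(2:ℕ)*b^(4:ℕ) + 43579*a^(3:ℕ)*b^(3:ℕ)
      + 64000*a^(4:ℕ)*b^(2:ℕ) + 28100*a^(5:ℕ)*b + 2000*a^(6:ℕ) + (-23520)*b^(5:ℕ) + (-52866)*a*b^(4:ℕ)
      + (-1918)*a^(2:ℕ)*b^(3:ℕ) + 76664*a^(3:ℕ)*b^(2:ℕ) + 56800*a^(4:ℕ)*b + 8600*a^(5:ℕ) + (-40488)*b^(4:ℕ)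
      + (-49764)*a*b^(3:ℕ) + 44952*a^(2:ℕ)*b^(2:ℕ) + 77100*a^(3:ℕ)*b + 20800*a^(4:ℕ) + (-33376)*b^(3:ℕ) + 2968*a*b^(2:ℕ)
      + 66600*a^(2:ℕ)*b + 30800*a^(3:ℕ) + (-7328)*b^(2:ℕ) + 32400*a*b + 28000*a^(2:ℕ) + 6400*b + 14400*a + 3200 := by
  rcases le_total 6 b with h | h
  · obtain ⟨f, hf⟩ : ∃ f : ℝ, f = b - 6 := ⟨_, rfl⟩
    have hf0 : 0 ≤ f := by linarith
    have e :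
        46*b^(9:ℕ) + 302*a*b^(8:ℕ) + 794*a^(2:ℕ)*b^(7:ℕ) + 1190*a^(3:ℕ)*b^(6:ℕ) + 1350*a^(4:ℕ)*b^(5:ℕ) + 1486*a^(5:ℕ)*b^(4:ℕ)
        + 1402*a^(6:ℕ)*b^(3:ℕ) + 814*a^(7:ℕ)*b^(2:ℕ) + 200*a^(8:ℕ)*b + 302*b^(8:ℕ) + 1716*a*b^(7:ℕ) + 4052*a^(2:ℕ)*b^(6:ℕ)
        + 6845*a^(3:ℕ)*b^(5:ℕ) + 10338*a^(4:ℕ)*b^(4:ℕ) + 11606*a^(5:ℕ)*b^(3:ℕ) + 7400*a^(6:ℕ)*b^(2:ℕ) + 1925*a^(7:ℕ)*b + (-94)*b^(7:ℕ)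
        + 96*a*b^(6:ℕ) + 3950*a^(2:ℕ)*b^(5:ℕ) + 19266*a^(3:ℕ)*b^(4:ℕ) + 35926*a^(4:ℕ)*b^(3:ℕ) + 29770*a^(5:ℕ)*b^(2:ℕ) + 9350*a^(6:ℕ)*b
        + 200*a^(7:ℕ) + (-6230)*b^(6:ℕ) + (-19452)*a*b^(5:ℕ) + (-7578)*a^(2:ℕ)*b^(4:ℕ) + 43579*a^(3:ℕ)*b^(3:ℕ)
        + 64000*a^(4:ℕ)*b^(2:ℕ) + 28100*a^(5:ℕ)*b + 2000*a^(6:ℕ) + (-23520)*b^(5:ℕ) + (-52866)*a*b^(4:ℕ)
        + (-1918)*a^(2:ℕ)*b^(3:ℕ) + 76664*a^(3:ℕ)*b^(2:ℕ) + 56800*a^(4:ℕ)*b + 8600*a^(5:ℕ) + (-40488)*b^(4:ℕ)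
        + (-49764)*a*b^(3:ℕ) + 44952*a^(2:ℕ)*b^(2:ℕ) + 77100*a^(3:ℕ)*b + 20800*a^(4:ℕ) + (-33376)*b^(3:ℕ) + 2968*a*b^(2:ℕ)
        + 66600*a^(2:ℕ)*b + 30800*a^(3:ℕ) + (-7328)*b^(2:ℕ) + 32400*a*b + 28000*a^(2:ℕ) + 6400*b + 14400*a
        + 3200
      =
        46*f^(9:ℕ) + 302*a*f^(8:ℕ) + 794*a^(2:ℕ)*f^(7:ℕ) + 1190*a^(3:ℕ)*f^(6:ℕ) + 1350*a^(4:ℕ)*f^(5:ℕ) + 1486*a^(5:ℕ)*f^(4:ℕ)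
        + 1402*a^(6:ℕ)*f^(3:ℕ) + 814*a^(7:ℕ)*f^(2:ℕ) + 200*a^(8:ℕ)*f + 2786*f^(8:ℕ) + 16212*a*f^(7:ℕ) + 37400*a^(2:ℕ)*f^(6:ℕ)
        + 49685*a^(3:ℕ)*f^(5:ℕ) + 50838*a^(4:ℕ)*f^(4:ℕ) + 47270*a^(5:ℕ)*f^(3:ℕ) + 32636*a^(6:ℕ)*f^(2:ℕ) + 11693*a^(7:ℕ)*f
        + 1200*a^(8:ℕ) + 74018*f^(7:ℕ) + 376584*a*f^(6:ℕ) + 750086*a^(2:ℕ)*f^(5:ℕ) + 867216*a^(3:ℕ)*f^(4:ℕ)
        + 770038*a^(4:ℕ)*f^(3:ℕ) + 559654*a^(5:ℕ)*f^(2:ℕ) + 249566*a^(6:ℕ)*f + 41054*a^(7:ℕ) + 1128862*f^(6:ℕ)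
        + 4934292*a*f^(5:ℕ) + 8301642*a^(2:ℕ)*f^(4:ℕ) + 8110963*a^(3:ℕ)*f^(3:ℕ) + 5859676*a^(4:ℕ)*f^(2:ℕ) + 2922692*a^(5:ℕ)*f
        + 627332*a^(6:ℕ) + 10845744*f^(5:ℕ) + 39785814*a*f^(4:ℕ) + 54758690*a^(2:ℕ)*f^(3:ℕ) + 42941342*a^(3:ℕ)*f^(2:ℕ)
        + 22384840*a^(4:ℕ)*f + 5681672*a^(5:ℕ) + 67646208*f^(4:ℕ) + 201438924*a*f^(3:ℕ) + 215333484*a^(2:ℕ)*f^(2:ℕ)
        + 122225664*a^(3:ℕ)*f + 34321264*a^(4:ℕ) + 271136768*f^(3:ℕ) + 622277152*a*f^(2:ℕ) + 467811648*a^(2:ℕ)*f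
        + 146382464*a^(3:ℕ) + 661479424*f^(2:ℕ) + 1064204544*a*f + 433844992*a^(2:ℕ) + 859242496*f
        + 761886720*a + 411041792 := by
      rw [hf]; ring
    rw [e]; positivity
  · obtain ⟨c, hc⟩ : ∃ c : ℝ, c = 6 - b := ⟨_, rfl⟩
    obtain ⟨e, he⟩ : ∃ e : ℝ, e = a - c := ⟨_, rfl⟩
    have hc0 : 0 ≤ c := by linarith
    have hc1 : c ≤ 6 := by linarith
    have he0 : 0 ≤ e := by linarith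
    have k0 := c2_k0 c hc0 hc1
    have k1 := c2_k1 c hc0 hc1
    have k2 := c2_k2 c hc0 hc1
    have k3 := c2_k3 c hc0 hc1
    have k4 := c2_k4 c hc0 hc1
    have k5 := c2_k5 c hc0 hc1
    have k6 := c2_k6 c hc0 hc1
    have k7 := c2_k7 c hc0 hc1
    have k8 := c2_k8 c hc0 hc1
    have key :
        46*b^(9:ℕ) + 302*a*b^(8:ℕ) + 794*a^(2:ℕ)*b^(7:ℕ) + 1190*a^(3:ℕ)*b^(6:ℕ) + 1350*a^(4:ℕ)*b^(5:ℕ) + 1486*a^(5:ℕ)*b^(4:ℕ)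
        + 1402*a^(6:ℕ)*b^(3:ℕ) + 814*a^(7:ℕ)*b^(2:ℕ) + 200*a^(8:ℕ)*b + 302*b^(8:ℕ) + 1716*a*b^(7:ℕ) + 4052*a^(2:ℕ)*b^(6:ℕ)
        + 6845*a^(3:ℕ)*b^(5:ℕ) + 10338*a^(4:ℕ)*b^(4:ℕ) + 11606*a^(5:ℕ)*b^(3:ℕ) + 7400*a^(6:ℕ)*b^(2:ℕ) + 1925*a^(7:ℕ)*b + (-94)*b^(7:ℕ)
        + 96*a*b^(6:ℕ) + 3950*a^(2:ℕ)*b^(5:ℕ) + 19266*a^(3:ℕ)*b^(4:ℕ) + 35926*a^(4:ℕ)*b^(3:ℕ) + 29770*a^(5:ℕ)*b^(2:ℕ) + 9350*a^(6:ℕ)*b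
        + 200*a^(7:ℕ) + (-6230)*b^(6:ℕ) + (-19452)*a*b^(5:ℕ) + (-7578)*a^(2:ℕ)*b^(4:ℕ) + 43579*a^(3:ℕ)*b^(3:ℕ)
        + 64000*a^(4:ℕ)*b^(2:ℕ) + 28100*a^(5:ℕ)*b + 2000*a^(6:ℕ) + (-23520)*b^(5:ℕ) + (-52866)*a*b^(4:ℕ)
        + (-1918)*a^(2:ℕ)*b^(3:ℕ) + 76664*a^(3:ℕ)*b^(2:ℕ) + 56800*a^(4:ℕ)*b + 8600*a^(5:ℕ) + (-40488)*b^(4:ℕ)
        + (-49764)*a*b^(3:ℕ) + 44952*a^(2:ℕ)*b^(2:ℕ) + 77100*a^(3:ℕ)*b + 20800*a^(4:ℕ) + (-33376)*b^(3:ℕ) + 2968*a*b^(2:ℕ)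
        + 66600*a^(2:ℕ)*b + 30800*a^(3:ℕ) + (-7328)*b^(2:ℕ) + 32400*a*b + 28000*a^(2:ℕ) + 6400*b + 14400*a
        + 3200
      =
        (411041792 + (-97355776)*c + 31119872*c^(2:ℕ) + 29711200*c^(3:ℕ) + (-6363632)*c^(4:ℕ) + 419554*c^(5:ℕ)
          + (-50435)*c^(6:ℕ) + 800*c^(7:ℕ))
        + (761886720 + (-196514560)*c + 125801248*c^(2:ℕ) + (-163892)*c^(3:ℕ) + (-2038540)*c^(4:ℕ)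
          + (-74661)*c^(5:ℕ) + (-13840)*c^(6:ℕ) + 100*c^(7:ℕ))*e^(1:ℕ)
        + (433844992 + (-28664256)*c + 54584076*c^(2:ℕ) + (-3426984)*c^(3:ℕ) + (-690131)*c^(4:ℕ)
          + (-53482)*c^(5:ℕ) + (-1740)*c^(6:ℕ))*e^(2:ℕ)
        + (146382464 + 15059392*c + 10218702*c^(2:ℕ) + (-1352539)*c^(3:ℕ) + (-170826)*c^(4:ℕ) + (-8368)*c^(5:ℕ)
          + (-100)*c^(6:ℕ))*e^(3:ℕ)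
        + (34321264 + 6023520*c + 656196*c^(2:ℕ) + (-278368)*c^(3:ℕ) + (-21227)*c^(4:ℕ) + (-460)*c^(5:ℕ))*e^(4:ℕ)
        + (5681672 + 841300*c + (-75608)*c^(2:ℕ) + (-29807)*c^(3:ℕ) + (-1032)*c^(4:ℕ))*e^(5:ℕ)
        + (627332 + 37812*c + (-15615)*c^(2:ℕ) + (-1304)*c^(3:ℕ))*e^(6:ℕ)
        + (41054 + (-2093)*c + (-786)*c^(2:ℕ))*e^(7:ℕ)
        + (1200 + (-200)*c)*e^(8:ℕ) := by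
      have hbc : b = 6 - c := by linarith
      have hac : a = c + e := by linarith
      rw [hbc, hac]; ring
    rw [key]
    have m1 := mul_nonneg k1 (pow_nonneg he0 1)
    have m2 := mul_nonneg k2 (pow_nonneg he0 2)
    have m3 := mul_nonneg k3 (pow_nonneg he0 3)
    have m4 := mul_nonneg k4 (pow_nonneg he0 4)
    have m5 := mul_nonneg k5 (pow_nonneg he0 5)
    have m6 := mul_nonneg k6 (pow_nonneg he0 6)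
    have m7 := mul_nonneg k7 (pow_nonneg he0 7)
    have m8 := mul_nonneg k8 (pow_nonneg he0 8)
    linarith

theorem c2_false {R p ρ y Z : ℝ} (hR : 8 ≤ R) (hn : 2 < ρ) (hρ : ρ ≤ R)
    (hmom : ∀ t : ℝ, 2 * t * y ≤ Z + t ^(2:ℕ) * ((R - ρ) * ρ / R)) (hm : MI 2 2 R p ρ y Z)
    (hp : 2 * p = R * (R - 1) + 2) : False := by
  have hp1 : 1 ≤ p := by nlinarith
  have hH : 0 < 4 * (2 * p - ρ) - (2 - 2) * (4/5) * (ρ * (ρ - 2)) := by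
    nlinarith [mul_nonneg (sub_nonneg.mpr hρ) (sub_nonneg.mpr hρ)]
  have h := clear (by linarith) (by linarith) (by linarith) hmom hm hp1 (ρ - 2) R (4/5)
    (by linarith) (by norm_num) hH
  obtain ⟨a, ha⟩ : ∃ a : ℝ, a = ρ - 2 := ⟨_, rfl⟩
  obtain ⟨b, hb⟩ : ∃ b : ℝ, b = R - ρ := ⟨_, rfl⟩
  have hapos : 0 < a := by linarith
  have hF := c2_pos a b hapos (by linarith) (by linarith)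
  have hp' : p = (R * (R - 1) + 2) / 2 := by linarith
  have hρ' : ρ = a + 2 := by linarith
  have hR' : R = a + b + 2 := by linarith
  rw [hp', hR', hρ'] at h
  have hpos := mul_pos (by norm_num : (0 : ℝ) < 1 / (125/16)) (mul_pos hapos hF)
  exact absurd h (not_le.mpr (lt_of_lt_of_eq hpos (by ring)))

end Pool.Agent.EI97
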