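import Pool.Agent.EI97.Elim

set_option autoImplicit false

/-! Positivity of polynomials. -/

namespace Pool.Agent.EI97

theorem c3s3_k0 (c : ℝ) (h0 : 0 ≤ c) (h1 : c ≤ 23) :
    0 <
      554891816134656 + 165211705107072*c + (-91671080272512)*c^(2:ℕ) + 11978279256840*c^(3:ℕ)
      + (-434258917040)*c^(4:ℕ) + 7101027912*c^(5:ℕ) + (-179042880)*c^(6:ℕ) + 270400*c^(7:ℕ) := by
  rcases le_total c (23/2) with h2 | h2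
  · obtain ⟨x, hx⟩ : ∃ x : ℝ, x = c - 0 := ⟨_, rfl⟩
    obtain ⟨y, hy⟩ : ∃ y : ℝ, y = (23/2) - c := ⟨_, rfl⟩
    have hx0 : 0 ≤ x := by linarith
    have hy0 : 0 ≤ y := by linarith
    have e :
        554891816134656 + 165211705107072*c + (-91671080272512)*c^(2:ℕ) + 11978279256840*c^(3:ℕ)
        + (-434258917040)*c^(4:ℕ) + 7101027912*c^(5:ℕ) + (-179042880)*c^(6:ℕ) + 270400*c^(7:ℕ)
        = 41701381077617 + (65688375687300992/3404825447)*y^(7:ℕ)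
        + (703010259728716928/3404825447)*x*y^(6:ℕ) + (1286797622085897600/3404825447)*x^(2:ℕ)*y^(5:ℕ)
        + (519762943041825280/3404825447)*x^(3:ℕ)*y^(4:ℕ) + (3840/3404825447)*x^(4:ℕ)*y^(3:ℕ)
        + (766519161287426016/3404825447)*x^(5:ℕ)*y^(2:ℕ) + (883335369054007616/3404825447)*x^(6:ℕ)*y
        + (247449667570110624/3404825447)*x^(7:ℕ) := by
      subst hx hy; ring
    rw [e]; positivity
  · have _unused := h0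
    obtain ⟨x, hx⟩ : ∃ x : ℝ, x = c - (23/2) := ⟨_, rfl⟩
    obtain ⟨y, hy⟩ : ∃ y : ℝ, y = 23 - c := ⟨_, rfl⟩
    have hx0 : 0 ≤ x := by linarith
    have hy0 : 0 ≤ y := by linarith
    have e :
        554891816134656 + 165211705107072*c + (-91671080272512)*c^(2:ℕ) + 11978279256840*c^(3:ℕ)
        + (-434258917040)*c^(4:ℕ) + 7101027912*c^(5:ℕ) + (-179042880)*c^(6:ℕ) + 270400*c^(7:ℕ)
        = 197577869174400 + (9891194656248800/148035889)*y^(7:ℕ)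
        + (106143245373601024/148035889)*x*y^(6:ℕ) + (457968296022803232/148035889)*x^(2:ℕ)*y^(5:ℕ)
        + (1010984770547442880/148035889)*x^(3:ℕ)*y^(4:ℕ) + (1205232935586346880/148035889)*x^(4:ℕ)*y^(3:ℕ)
        + (740000216230756608/148035889)*x^(5:ℕ)*y^(2:ℕ) + (183995776982016000/148035889)*x^(6:ℕ)*y := by
      subst hx hy; ring
    rw [e]; positivity

theorem c3s3_k1 (c : ℝ) (h0 : 0 ≤ c) (h1 : c ≤ 23) :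
    0 ≤
      855349889606784 + (-175002760896912)*c + 10443519438248*c^(2:ℕ) + 1162203575548*c^(3:ℕ)
      + (-50105301504)*c^(4:ℕ) + 55081116*c^(5:ℕ) + (-18973760)*c^(6:ℕ) + 10400*c^(7:ℕ) := by
  rcases le_total c (23/2) with h2 | h2
  · obtain ⟨x, hx⟩ : ∃ x : ℝ, x = c - 0 := ⟨_, rfl⟩
    obtain ⟨y, hy⟩ : ∃ y : ℝ, y = (23/2) - c := ⟨_, rfl⟩
    have hx0 : 0 ≤ x := by linarith
    have hy0 : 0 ≤ y := by linarith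
    have e :
        855349889606784 + (-175002760896912)*c + 10443519438248*c^(2:ℕ) + 1162203575548*c^(3:ℕ)
        + (-50105301504)*c^(4:ℕ) + 55081116*c^(5:ℕ) + (-18973760)*c^(6:ℕ) + 10400*c^(7:ℕ)
        = (109484785869668352/3404825447)*y^(7:ℕ) + (508789437047424000/3404825447)*x*y^(6:ℕ)
        + (930344016072170752/3404825447)*x^(2:ℕ)*y^(5:ℕ) + (1078094524546966336/3404825447)*x^(3:ℕ)*y^(4:ℕ)
        + (1240587031550798592/3404825447)*x^(4:ℕ)*y^(3:ℕ) + (1225391139465575824/3404825447)*x^(5:ℕ)*y^(2:ℕ)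
        + (670404728444087712/3404825447)*x^(6:ℕ)*y + (138580871061408048/3404825447)*x^(7:ℕ) := by
      subst hx hy; ring
    rw [e]; positivity
  · have _unused := h0
    obtain ⟨x, hx⟩ : ∃ x : ℝ, x = c - (23/2) := ⟨_, rfl⟩
    obtain ⟨y, hy⟩ : ∃ y : ℝ, y = 23 - c := ⟨_, rfl⟩
    have hx0 : 0 ≤ x := by linarith
    have hy0 : 0 ≤ y := by linarith
    have e :
        855349889606784 + (-175002760896912)*c + 10443519438248*c^(2:ℕ) + 1162203575548*c^(3:ℕ)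
        + (-50105301504)*c^(4:ℕ) + 55081116*c^(5:ℕ) + (-18973760)*c^(6:ℕ) + 10400*c^(7:ℕ)
        = (138580871061408048/3404825447)*y^(7:ℕ) + (1269727466415624960/3404825447)*x*y^(6:ℕ)
        + (4821327567294799312/3404825447)*x^(2:ℕ)*y^(5:ℕ) + (9591684553653950368/3404825447)*x^(3:ℕ)*y^(4:ℕ)
        + (10509575094098083520/3404825447)*x^(4:ℕ)*y^(3:ℕ) + (6024636057921684352/3404825447)*x^(5:ℕ)*y^(2:ℕ)
        + (1423576189188812800/3404825447)*x^(6:ℕ)*y + (7047053836492800/3404825447)*x^(7:ℕ) := by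
      subst hx hy; ring
    rw [e]; positivity

theorem c3s3_k2 (c : ℝ) (h0 : 0 ≤ c) (h1 : c ≤ 23) :
    0 ≤
      105312308663952 + (-19956162077384)*c + 3046773598740*c^(2:ℕ) + 20801646838*c^(3:ℕ)
      + (-3786890864)*c^(4:ℕ) + (-52204874)*c^(5:ℕ) + (-735280)*c^(6:ℕ) := by
  obtain ⟨x, hx⟩ : ∃ x : ℝ, x = c - 0 := ⟨_, rfl⟩
  obtain ⟨y, hy⟩ : ∃ y : ℝ, y = 23 - c := ⟨_, rfl⟩
  have hx0 : 0 ≤ x := by linarith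
  have hy0 : 0 ≤ y := by linarith
  have e :
      105312308663952 + (-19956162077384)*c + 3046773598740*c^(2:ℕ) + 20801646838*c^(3:ℕ)
      + (-3786890864)*c^(4:ℕ) + (-52204874)*c^(5:ℕ) + (-735280)*c^(6:ℕ)
      = (105312308663952/148035889)*y^(6:ℕ) + (172882124203880/148035889)*x*y^(5:ℕ)
      + (896469224793580/148035889)*x^(2:ℕ)*y^(4:ℕ) + (4216395467492506/148035889)*x^(3:ℕ)*y^(3:ℕ)
      + (6359780339522934/148035889)*x^(4:ℕ)*y^(2:ℕ) + (3087705931371200/148035889)*x^(5:ℕ)*y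
      + (6573821623200/148035889)*x^(6:ℕ) := by
    subst hx hy; ring
  rw [e]; positivity

theorem c3s3_k3 (c : ℝ) (h0 : 0 ≤ c) (h1 : c ≤ 23) :
    0 ≤
      6455909037864 + 4108481836*c + 231435415914*c^(2:ℕ) + (-3577976323)*c^(3:ℕ) + (-232777548)*c^(4:ℕ)
      + (-2847923)*c^(5:ℕ) + (-10400)*c^(6:ℕ) := by
  obtain ⟨x, hx⟩ : ∃ x : ℝ, x = c - 0 := ⟨_, rfl⟩
  obtain ⟨y, hy⟩ : ∃ y : ℝ, y = 23 - c := ⟨_, rfl⟩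
  have hx0 : 0 ≤ x := by linarith
  have hy0 : 0 ≤ y := by linarith
  have e :
      6455909037864 + 4108481836*c + 231435415914*c^(2:ℕ) + (-3577976323)*c^(3:ℕ) + (-232777548)*c^(4:ℕ)
      + (-2847923)*c^(5:ℕ) + (-10400)*c^(6:ℕ)
      = (6455909037864/148035889)*y^(6:ℕ) + (38829949309412/148035889)*x*y^(5:ℕ)
      + (219740445997606/148035889)*x^(2:ℕ)*y^(4:ℕ) + (576247233731643/148035889)*x^(3:ℕ)*y^(3:ℕ)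
      + (636619180925585/148035889)*x^(4:ℕ)*y^(2:ℕ) + (249713943061200/148035889)*x^(5:ℕ)*y
      + (436016895600/148035889)*x^(6:ℕ) := by
    subst hx hy; ring
  rw [e]; positivity

theorem c3s3_k4 (c : ℝ) (h0 : 0 ≤ c) (h1 : c ≤ 23) :
    0 ≤
      480395323348 + 98254763610*c + 7117142639*c^(2:ℕ) + (-323739712)*c^(3:ℕ) + (-8079945)*c^(4:ℕ)
      + (-44720)*c^(5:ℕ) := by
  obtain ⟨x, hx⟩ : ∃ x : ℝ, x = c - 0 := ⟨_, rfl⟩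
  obtain ⟨y, hy⟩ : ∃ y : ℝ, y = 23 - c := ⟨_, rfl⟩
  have hx0 : 0 ≤ x := by linarith
  have hy0 : 0 ≤ y := by linarith
  have e :
      480395323348 + 98254763610*c + 7117142639*c^(2:ℕ) + (-323739712)*c^(3:ℕ) + (-8079945)*c^(4:ℕ)
      + (-44720)*c^(5:ℕ)
      = (480395323348/6436343)*y^(5:ℕ) + (4661836179770/6436343)*x*y^(4:ℕ)
      + (17608359941631/6436343)*x^(2:ℕ)*y^(3:ℕ) + (25719074903849/6436343)*x^(3:ℕ)*y^(2:ℕ)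
      + (12597338196400/6436343)*x^(4:ℕ)*y + (17349118800/6436343)*x^(5:ℕ) := by
    subst hx hy; ring
  rw [e]; positivity

theorem c3s3_k5 (c : ℝ) (h0 : 0 ≤ c) (h1 : c ≤ 23) :
    0 ≤
      39140678566 + 5635574906*c + (-1366619)*c^(2:ℕ) + (-11274428)*c^(3:ℕ) + (-108797)*c^(4:ℕ) := by
  obtain ⟨x, hx⟩ : ∃ x : ℝ, x = c - 0 := ⟨_, rfl⟩
  obtain ⟨y, hy⟩ : ∃ y : ℝ, y = 23 - c := ⟨_, rfl⟩
  have hx0 : 0 ≤ x := by linarith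
  have hy0 : 0 ≤ y := by linarith
  have e :
      39140678566 + 5635574906*c + (-1366619)*c^(2:ℕ) + (-11274428)*c^(3:ℕ) + (-108797)*c^(4:ℕ)
      = (39140678566/279841)*y^(4:ℕ) + (286180937102/279841)*x*y^(3:ℕ) + (622975798459/279841)*x^(2:ℕ)*y^(2:ℕ)
      + (406795534400/279841)*x^(3:ℕ)*y + (414133200/279841)*x^(4:ℕ) := by
    subst hx hy; ring
  rw [e]; positivity

theorem c3s3_k6 (c : ℝ) (h0 : 0 ≤ c) (h1 : c ≤ 23) :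
    0 ≤
      1933107446 + 112108370*c + (-5187902)*c^(2:ℕ) + (-144794)*c^(3:ℕ) := by
  obtain ⟨x, hx⟩ : ∃ x : ℝ, x = c - 0 := ⟨_, rfl⟩
  obtain ⟨y, hy⟩ : ∃ y : ℝ, y = 23 - c := ⟨_, rfl⟩
  have hx0 : 0 ≤ x := by linarith
  have hy0 : 0 ≤ y := by linarith
  have e :
      1933107446 + 112108370*c + (-5187902)*c^(2:ℕ) + (-144794)*c^(3:ℕ)
      = (1933107446/12167)*y^(3:ℕ) + (8377814848/12167)*x*y^(2:ℕ) + (8211907200/12167)*x^(2:ℕ)*y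
      + (5491200/12167)*x^(3:ℕ) := by
    subst hx hy; ring
  rw [e]; positivity

theorem c3s3_k7 (c : ℝ) (h0 : 0 ≤ c) (h1 : c ≤ 23) :
    0 ≤
      48256588 + (-76712)*c + (-87828)*c^(2:ℕ) := by
  obtain ⟨x, hx⟩ : ∃ x : ℝ, x = c - 0 := ⟨_, rfl⟩
  obtain ⟨y, hy⟩ : ∃ y : ℝ, y = 23 - c := ⟨_, rfl⟩
  have hx0 : 0 ≤ x := by linarith
  have hy0 : 0 ≤ y := by linarith
  have e :
      48256588 + (-76712)*c + (-87828)*c^(2:ℕ)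
      = (48256588/529)*y^(2:ℕ) + (94748800/529)*x*y + (31200/529)*x^(2:ℕ) := by
    subst hx hy; ring
  rw [e]; positivity

theorem c3s3_k8 (c : ℝ) (h0 : 0 ≤ c) (h1 : c ≤ 23) :
    0 ≤
      478400 + (-20800)*c := by
  obtain ⟨x, hx⟩ : ∃ x : ℝ, x = c - 0 := ⟨_, rfl⟩
  obtain ⟨y, hy⟩ : ∃ y : ℝ, y = 23 - c := ⟨_, rfl⟩
  have hx0 : 0 ≤ x := by linarith
  have hy0 : 0 ≤ y := by linarith
  have e :
      478400 + (-20800)*c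
      = 20800*y := by
    subst hx hy; ring
  rw [e]; positivity

theorem c3s3_pos (a b : ℝ) (ha : 0 < a) (hb : 0 ≤ b) (hab : 23 ≤ a + b) :
    0 <
      3289*b^(9:ℕ) + 24063*a*b^(8:ℕ) + 59072*a^(2:ℕ)*b^(7:ℕ) + 67210*a^(3:ℕ)*b^(6:ℕ) + 54665*a^(4:ℕ)*b^(5:ℕ) + 80379*a^(5:ℕ)*b^(4:ℕ)
      + 112398*a^(6:ℕ)*b^(3:ℕ) + 78572*a^(7:ℕ)*b^(2:ℕ) + 20800*a^(8:ℕ)*b + (-16887)*b^(8:ℕ) + (-75651)*a*b^(7:ℕ)
      + (-249871)*a^(2:ℕ)*b^(6:ℕ) + (-285277)*a^(3:ℕ)*b^(5:ℕ) + 360110*a^(4:ℕ)*b^(4:ℕ) + 1153500*a^(5:ℕ)*b^(3:ℕ)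
      + 988820*a^(6:ℕ)*b^(2:ℕ) + 289600*a^(7:ℕ)*b + (-824031)*b^(7:ℕ) + (-3866352)*a*b^(6:ℕ) + (-7341540)*a^(2:ℕ)*b^(5:ℕ)
      + (-5176205)*a^(3:ℕ)*b^(4:ℕ) + 1953677*a^(4:ℕ)*b^(3:ℕ) + 4657063*a^(5:ℕ)*b^(2:ℕ) + 1826400*a^(6:ℕ)*b + 31200*a^(7:ℕ)
      + (-7014215)*b^(6:ℕ) + (-27002814)*a*b^(5:ℕ) + (-37755786)*a^(2:ℕ)*b^(4:ℕ) + (-16608471)*a^(3:ℕ)*b^(3:ℕ)
      + 6996396*a^(4:ℕ)*b^(2:ℕ) + 6355200*a^(5:ℕ)*b + 468000*a^(6:ℕ) + (-28560285)*b^(5:ℕ) + (-84561033)*a*b^(4:ℕ)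
      + (-80171364)*a^(2:ℕ)*b^(3:ℕ) + (-13645257)*a^(3:ℕ)*b^(2:ℕ) + 12934800*a^(4:ℕ)*b + 2948400*a^(5:ℕ)
      + (-63742653)*b^(4:ℕ) + (-131541327)*a*b^(3:ℕ) + (-64515951)*a^(2:ℕ)*b^(2:ℕ) + 15008400*a^(3:ℕ)*b
      + 10108800*a^(4:ℕ) + (-77237901)*b^(3:ℕ) + (-87939270)*a*b^(2:ℕ) + 7473600*a^(2:ℕ)*b + 20358000*a^(3:ℕ)
      + (-43426773)*b^(2:ℕ) + (-2559600)*a*b + 24008400*a^(2:ℕ) + (-3790800)*b + 15163200*a + 3790800 := by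
  rcases le_total 23 b with h | h
  · obtain ⟨f, hf⟩ : ∃ f : ℝ, f = b - 23 := ⟨_, rfl⟩
    have hf0 : 0 ≤ f := by linarith
    have e :
        3289*b^(9:ℕ) + 24063*a*b^(8:ℕ) + 59072*a^(2:ℕ)*b^(7:ℕ) + 67210*a^(3:ℕ)*b^(6:ℕ) + 54665*a^(4:ℕ)*b^(5:ℕ) + 80379*a^(5:ℕ)*b^(4:ℕ)
        + 112398*a^(6:ℕ)*b^(3:ℕ) + 78572*a^(7:ℕ)*b^(2:ℕ) + 20800*a^(8:ℕ)*b + (-16887)*b^(8:ℕ) + (-75651)*a*b^(7:ℕ)
        + (-249871)*a^(2:ℕ)*b^(6:ℕ) + (-285277)*a^(3:ℕ)*b^(5:ℕ) + 360110*a^(4:ℕ)*b^(4:ℕ) + 1153500*a^(5:ℕ)*b^(3:ℕ)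
        + 988820*a^(6:ℕ)*b^(2:ℕ) + 289600*a^(7:ℕ)*b + (-824031)*b^(7:ℕ) + (-3866352)*a*b^(6:ℕ) + (-7341540)*a^(2:ℕ)*b^(5:ℕ)
        + (-5176205)*a^(3:ℕ)*b^(4:ℕ) + 1953677*a^(4:ℕ)*b^(3:ℕ) + 4657063*a^(5:ℕ)*b^(2:ℕ) + 1826400*a^(6:ℕ)*b + 31200*a^(7:ℕ)
        + (-7014215)*b^(6:ℕ) + (-27002814)*a*b^(5:ℕ) + (-37755786)*a^(2:ℕ)*b^(4:ℕ) + (-16608471)*a^(3:ℕ)*b^(3:ℕ)
        + 6996396*a^(4:ℕ)*b^(2:ℕ) + 6355200*a^(5:ℕ)*b + 468000*a^(6:ℕ) + (-28560285)*b^(5:ℕ) + (-84561033)*a*b^(4:ℕ)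
        + (-80171364)*a^(2:ℕ)*b^(3:ℕ) + (-13645257)*a^(3:ℕ)*b^(2:ℕ) + 12934800*a^(4:ℕ)*b + 2948400*a^(5:ℕ)
        + (-63742653)*b^(4:ℕ) + (-131541327)*a*b^(3:ℕ) + (-64515951)*a^(2:ℕ)*b^(2:ℕ) + 15008400*a^(3:ℕ)*b
        + 10108800*a^(4:ℕ) + (-77237901)*b^(3:ℕ) + (-87939270)*a*b^(2:ℕ) + 7473600*a^(2:ℕ)*b + 20358000*a^(3:ℕ)
        + (-43426773)*b^(2:ℕ) + (-2559600)*a*b + 24008400*a^(2:ℕ) + (-3790800)*b + 15163200*a + 3790800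
      =
        3289*f^(9:ℕ) + 24063*a*f^(8:ℕ) + 59072*a^(2:ℕ)*f^(7:ℕ) + 67210*a^(3:ℕ)*f^(6:ℕ) + 54665*a^(4:ℕ)*f^(5:ℕ) + 80379*a^(5:ℕ)*f^(4:ℕ)
        + 112398*a^(6:ℕ)*f^(3:ℕ) + 78572*a^(7:ℕ)*f^(2:ℕ) + 20800*a^(8:ℕ)*f + 663936*f^(8:ℕ) + 4351941*a*f^(7:ℕ)
        + 9260721*a^(2:ℕ)*f^(6:ℕ) + 8989703*a^(3:ℕ)*f^(5:ℕ) + 6646585*a^(4:ℕ)*f^(4:ℕ) + 8548368*a^(5:ℕ)*f^(3:ℕ)
        + 8744282*a^(6:ℕ)*f^(2:ℕ) + 3903912*a^(7:ℕ)*f + 478400*a^(8:ℕ) + 58704477*f^(7:ℕ) + 340374993*a*f^(6:ℕ)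
        + 614407110*a^(2:ℕ)*f^(5:ℕ) + 495328290*a^(3:ℕ)*f^(4:ℕ) + 324261647*a^(4:ℕ)*f^(3:ℕ) + 339371509*a^(5:ℕ)*f^(2:ℕ)
        + 225687746*a^(6:ℕ)*f + 48256588*a^(7:ℕ) + 2971636642*f^(6:ℕ) + 14994406827*a*f^(5:ℕ)
        + 22290756569*a^(2:ℕ)*f^(4:ℕ) + 14352946739*a^(3:ℕ)*f^(3:ℕ) + 7935879799*a^(4:ℕ)*f^(2:ℕ) + 5963069770*a^(5:ℕ)*f
        + 1933107446*a^(6:ℕ) + 94313354616*f^(5:ℕ) + 405281990952*a*f^(4:ℕ) + 475382804904*a^(2:ℕ)*f^(3:ℕ)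
        + 229823147134*a^(3:ℕ)*f^(2:ℕ) + 97448629220*a^(4:ℕ)*f + 39140678566*a^(5:ℕ) + 1926597947664*f^(4:ℕ)
        + 6840599469816*a*f^(3:ℕ) + 5916820093320*a^(2:ℕ)*f^(2:ℕ) + 1917472811556*a^(3:ℕ)*f + 480395323348*a^(4:ℕ)
        + 24877311296656*f^(3:ℕ) + 69723570706608*a*f^(2:ℕ) + 39323889190976*a^(2:ℕ)*f + 6455909037864*a^(3:ℕ)
        + 188643989288352*f^(2:ℕ) + 385627378224816*a*f + 105312308663952*a^(2:ℕ) + 690138184499712*f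
        + 855349889606784*a + 554891816134656 := by
      rw [hf]; ring
    rw [e]; positivity
  · obtain ⟨c, hc⟩ : ∃ c : ℝ, c = 23 - b := ⟨_, rfl⟩
    obtain ⟨e, he⟩ : ∃ e : ℝ, e = a - c := ⟨_, rfl⟩
    have hc0 : 0 ≤ c := by linarith
    have hc1 : c ≤ 23 := by linarith
    have he0 : 0 ≤ e := by linarith
    have k0 := c3s3_k0 c hc0 hc1
    have k1 := c3s3_k1 c hc0 hc1
    have k2 := c3s3_k2 c hc0 hc1
    have k3 := c3s3_k3 c hc0 hc1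
    have k4 := c3s3_k4 c hc0 hc1
    have k5 := c3s3_k5 c hc0 hc1
    have k6 := c3s3_k6 c hc0 hc1
    have k7 := c3s3_k7 c hc0 hc1
    have k8 := c3s3_k8 c hc0 hc1
    have key :
        3289*b^(9:ℕ) + 24063*a*b^(8:ℕ) + 59072*a^(2:ℕ)*b^(7:ℕ) + 67210*a^(3:ℕ)*b^(6:ℕ) + 54665*a^(4:ℕ)*b^(5:ℕ) + 80379*a^(5:ℕ)*b^(4:ℕ)
        + 112398*a^(6:ℕ)*b^(3:ℕ) + 78572*a^(7:ℕ)*b^(2:ℕ) + 20800*a^(8:ℕ)*b + (-16887)*b^(8:ℕ) + (-75651)*a*b^(7:ℕ)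
        + (-249871)*a^(2:ℕ)*b^(6:ℕ) + (-285277)*a^(3:ℕ)*b^(5:ℕ) + 360110*a^(4:ℕ)*b^(4:ℕ) + 1153500*a^(5:ℕ)*b^(3:ℕ)
        + 988820*a^(6:ℕ)*b^(2:ℕ) + 289600*a^(7:ℕ)*b + (-824031)*b^(7:ℕ) + (-3866352)*a*b^(6:ℕ) + (-7341540)*a^(2:ℕ)*b^(5:ℕ)
        + (-5176205)*a^(3:ℕ)*b^(4:ℕ) + 1953677*a^(4:ℕ)*b^(3:ℕ) + 4657063*a^(5:ℕ)*b^(2:ℕ) + 1826400*a^(6:ℕ)*b + 31200*a^(7:ℕ)
        + (-7014215)*b^(6:ℕ) + (-27002814)*a*b^(5:ℕ) + (-37755786)*a^(2:ℕ)*b^(4:ℕ) + (-16608471)*a^(3:ℕ)*b^(3:ℕ)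
        + 6996396*a^(4:ℕ)*b^(2:ℕ) + 6355200*a^(5:ℕ)*b + 468000*a^(6:ℕ) + (-28560285)*b^(5:ℕ) + (-84561033)*a*b^(4:ℕ)
        + (-80171364)*a^(2:ℕ)*b^(3:ℕ) + (-13645257)*a^(3:ℕ)*b^(2:ℕ) + 12934800*a^(4:ℕ)*b + 2948400*a^(5:ℕ)
        + (-63742653)*b^(4:ℕ) + (-131541327)*a*b^(3:ℕ) + (-64515951)*a^(2:ℕ)*b^(2:ℕ) + 15008400*a^(3:ℕ)*b
        + 10108800*a^(4:ℕ) + (-77237901)*b^(3:ℕ) + (-87939270)*a*b^(2:ℕ) + 7473600*a^(2:ℕ)*b + 20358000*a^(3:ℕ)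
        + (-43426773)*b^(2:ℕ) + (-2559600)*a*b + 24008400*a^(2:ℕ) + (-3790800)*b + 15163200*a + 3790800
      =
        (554891816134656 + 165211705107072*c + (-91671080272512)*c^(2:ℕ) + 11978279256840*c^(3:ℕ)
          + (-434258917040)*c^(4:ℕ) + 7101027912*c^(5:ℕ) + (-179042880)*c^(6:ℕ) + 270400*c^(7:ℕ))
        + (855349889606784 + (-175002760896912)*c + 10443519438248*c^(2:ℕ) + 1162203575548*c^(3:ℕ)
          + (-50105301504)*c^(4:ℕ) + 55081116*c^(5:ℕ) + (-18973760)*c^(6:ℕ) + 10400*c^(7:ℕ))*e^(1:ℕ)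
        + (105312308663952 + (-19956162077384)*c + 3046773598740*c^(2:ℕ) + 20801646838*c^(3:ℕ)
          + (-3786890864)*c^(4:ℕ) + (-52204874)*c^(5:ℕ) + (-735280)*c^(6:ℕ))*e^(2:ℕ)
        + (6455909037864 + 4108481836*c + 231435415914*c^(2:ℕ) + (-3577976323)*c^(3:ℕ)
          + (-232777548)*c^(4:ℕ) + (-2847923)*c^(5:ℕ) + (-10400)*c^(6:ℕ))*e^(3:ℕ)
        + (480395323348 + 98254763610*c + 7117142639*c^(2:ℕ) + (-323739712)*c^(3:ℕ) + (-8079945)*c^(4:ℕ)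
          + (-44720)*c^(5:ℕ))*e^(4:ℕ)
        + (39140678566 + 5635574906*c + (-1366619)*c^(2:ℕ) + (-11274428)*c^(3:ℕ) + (-108797)*c^(4:ℕ))*e^(5:ℕ)
        + (1933107446 + 112108370*c + (-5187902)*c^(2:ℕ) + (-144794)*c^(3:ℕ))*e^(6:ℕ)
        + (48256588 + (-76712)*c + (-87828)*c^(2:ℕ))*e^(7:ℕ)
        + (478400 + (-20800)*c)*e^(8:ℕ) := by
      have hbc : b = 23 - c := by linarith
      have hac : a = c + e := by linarith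
      rw [hbc, hac]; ring
    rw [key]
    have m1 := mul_nonneg k1 (pow_nonneg he0 1)
    have m2 := mul_nonneg k2 (pow_nonneg he0 2)
    have m3 := mul_nonneg k3 (pow_nonneg he0 3)
    have m4 := mul_nonneg k4 (pow_nonneg he0 4)
    have m5 := mul_nonneg k5 (pow_nonneg he0 5)
    have m6 := mul_nonneg k6 (pow_nonneg he0 6)
    have m7 := mul_nonneg k7 (pow_nonneg he0 7)
    have m8 := mul_nonneg k8 (pow_nonneg he0 8)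
    linarith

theorem c3s3_false {R p ρ y Z : ℝ} (hR : 26 ≤ R) (hn : 3 < ρ) (hρ : ρ ≤ R)
    (hmom : ∀ t : ℝ, 2 * t * y ≤ Z + t ^(2:ℕ) * ((R - ρ) * ρ / R)) (hm : MI 2 3 R p ρ y Z)
    (hp : 3 * p = R * (R - 2) + 3) : False := by
  have hp1 : 1 ≤ p := by nlinarith
  have hH : 0 < 4 * (3 * p - ρ) - (2 - 2) * (13/20) * (ρ * (ρ - 3)) := by
    nlinarith [mul_nonneg (sub_nonneg.mpr hρ) (sub_nonneg.mpr hρ)]
  have h := clear (by linarith) (by linarith) (by linarith) hmom hm hp1 (ρ - 3) R (13/20)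
    (by linarith) (by norm_num) hH
  obtain ⟨a, ha⟩ : ∃ a : ℝ, a = ρ - 3 := ⟨_, rfl⟩
  obtain ⟨b, hb⟩ : ∃ b : ℝ, b = R - ρ := ⟨_, rfl⟩
  have hapos : 0 < a := by linarith
  have hF := c3s3_pos a b hapos (by linarith) (by linarith)
  have hp' : p = (R * (R - 2) + 3) / 3 := by linarith
  have hρ' : ρ = a + 3 := by linarith
  have hR' : R = a + b + 3 := by linarith
  rw [hp', hR', hρ'] at h
  have hpos := mul_pos (by norm_num : (0 : ℝ) < 1 / (1000)) (mul_pos hapos hF)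
  exact absurd h (not_le.mpr (lt_of_lt_of_eq hpos (by ring)))

theorem c3s1_k0 (c : ℝ) (h0 : 0 ≤ c) (h1 : c ≤ 23) :
    0 <
      480621836518304 + 165119447386512*c + (-91162160706992)*c^(2:ℕ) + 11901977430264*c^(3:ℕ)
      + (-431877462176)*c^(4:ℕ) + 7078810952*c^(5:ℕ) + (-178502080)*c^(6:ℕ) + 270400*c^(7:ℕ) := by
  rcases le_total c (23/4) with h2 | h2
  · obtain ⟨x, hx⟩ : ∃ x : ℝ, x = c - 0 := ⟨_, rfl⟩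
    obtain ⟨y, hy⟩ : ∃ y : ℝ, y = (23/4) - c := ⟨_, rfl⟩
    have hx0 : 0 ≤ x := by linarith
    have hy0 : 0 ≤ y := by linarith
    have e :
        480621836518304 + 165119447386512*c + (-91162160706992)*c^(2:ℕ) + 11901977430264*c^(3:ℕ)
        + (-431877462176)*c^(4:ℕ) + 7078810952*c^(5:ℕ) + (-178502080)*c^(6:ℕ) + 270400*c^(7:ℕ)
        = 243954586993770 + (3877556216209965056/3404825447)*y^(7:ℕ)
        + (42698466412858277888/3404825447)*x*y^(6:ℕ) + (125379940130405662720/3404825447)*x^(2:ℕ)*y^(5:ℕ)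
        + (159208880031372576768/3404825447)*x^(3:ℕ)*y^(4:ℕ)
        + (93556130174111643648/3404825447)*x^(4:ℕ)*y^(3:ℕ) + (20895182470798851968/3404825447)*x^(5:ℕ)*y^(2:ℕ)
        + (81920/3404825447)*x^(6:ℕ)*y + (12018270498515520/3404825447)*x^(7:ℕ) := by
      subst hx hy; ring
    rw [e]; positivity
  · have _unused := h0
    rcases le_total c (23/2) with h3 | h3
    · obtain ⟨x, hx⟩ : ∃ x : ℝ, x = c - (23/4) := ⟨_, rfl⟩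
      obtain ⟨y, hy⟩ : ∃ y : ℝ, y = (23/2) - c := ⟨_, rfl⟩
      have hx0 : 0 ≤ x := by linarith
      have hy0 : 0 ≤ y := by linarith
      have e :
          480621836518304 + 165119447386512*c + (-91162160706992)*c^(2:ℕ) + 11901977430264*c^(3:ℕ)
          + (-431877462176)*c^(4:ℕ) + 7078810952*c^(5:ℕ) + (-178502080)*c^(6:ℕ) + 270400*c^(7:ℕ)
          = 244688124011501 + (10816/3404825447)*y^(7:ℕ) + (84127893489602432/3404825447)*x*y^(6:ℕ)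
          + (21652333512204573824/3404825447)*x^(2:ℕ)*y^(5:ℕ)
          + (118340170806008641792/3404825447)*x^(3:ℕ)*y^(4:ℕ)
          + (252876729482141425664/3404825447)*x^(4:ℕ)*y^(3:ℕ)
          + (263964707637572677632/3404825447)*x^(5:ℕ)*y^(2:ℕ)
          + (134803755649871800320/3404825447)*x^(6:ℕ)*y + (26944732971947757568/3404825447)*x^(7:ℕ) := by
        subst hx hy; ring
      rw [e]; positivity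
    · have _unused := h0
      obtain ⟨x, hx⟩ : ∃ x : ℝ, x = c - (23/2) := ⟨_, rfl⟩
      obtain ⟨y, hy⟩ : ∃ y : ℝ, y = 23 - c := ⟨_, rfl⟩
      have hx0 : 0 ≤ x := by linarith
      have hy0 : 0 ≤ y := by linarith
      have e :
          480621836518304 + 165119447386512*c + (-91162160706992)*c^(2:ℕ) + 11901977430264*c^(3:ℕ)
          + (-431877462176)*c^(4:ℕ) + 7078810952*c^(5:ℕ) + (-178502080)*c^(6:ℕ) + 270400*c^(7:ℕ)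
          = 65530632585600 + (10149473271559008/148035889)*y^(7:ℕ)
          + (107601594934719104/148035889)*x*y^(6:ℕ) + (460978193608353696/148035889)*x^(2:ℕ)*y^(5:ℕ)
          + (1013370695416352832/148035889)*x^(3:ℕ)*y^(4:ℕ) + (1205016779086393472/148035889)*x^(4:ℕ)*y^(3:ℕ)
          + (738700681304003840/148035889)*x^(5:ℕ)*y^(2:ℕ) + (183488496784384000/148035889)*x^(6:ℕ)*y := by
        subst hx hy; ring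
      rw [e]; positivity

theorem c3s1_k1 (c : ℝ) (h0 : 0 ≤ c) (h1 : c ≤ 23) :
    0 ≤
      831595450566720 + (-173760048255448)*c + 10318207833168*c^(2:ℕ) + 1159288167908*c^(3:ℕ)
      + (-49935081032)*c^(4:ℕ) + 56549596*c^(5:ℕ) + (-18952960)*c^(6:ℕ) + 10400*c^(7:ℕ) := by
  rcases le_total c (23/2) with h2 | h2
  · obtain ⟨x, hx⟩ : ∃ x : ℝ, x = c - 0 := ⟨_, rfl⟩
    obtain ⟨y, hy⟩ : ∃ y : ℝ, y = (23/2) - c := ⟨_, rfl⟩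
    have hx0 : 0 ≤ x := by linarith
    have hy0 : 0 ≤ y := by linarith
    have e :
        831595450566720 + (-173760048255448)*c + 10318207833168*c^(2:ℕ) + 1159288167908*c^(3:ℕ)
        + (-49935081032)*c^(4:ℕ) + 56549596*c^(5:ℕ) + (-18952960)*c^(6:ℕ) + 10400*c^(7:ℕ)
        = (106444217672540160/3404825447)*y^(7:ℕ) + (489334732675761664/3404825447)*x*y^(6:ℕ)
        + (875346447131094528/3404825447)*x^(2:ℕ)*y^(5:ℕ) + (987939810280939456/3404825447)*x^(3:ℕ)*y^(4:ℕ)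
        + (1147650740700532928/3404825447)*x^(4:ℕ)*y^(3:ℕ) + (1165541303099295440/3404825447)*x^(5:ℕ)*y^(2:ℕ)
        + (648444825346503264/3404825447)*x^(6:ℕ)*y + (135105794979323120/3404825447)*x^(7:ℕ) := by
      subst hx hy; ring
    rw [e]; positivity
  · have _unused := h0
    obtain ⟨x, hx⟩ : ∃ x : ℝ, x = c - (23/2) := ⟨_, rfl⟩
    obtain ⟨y, hy⟩ : ∃ y : ℝ, y = 23 - c := ⟨_, rfl⟩
    have hx0 : 0 ≤ x := by linarith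
    have hy0 : 0 ≤ y := by linarith
    have e :
        831595450566720 + (-173760048255448)*c + 10318207833168*c^(2:ℕ) + 1159288167908*c^(3:ℕ)
        + (-49935081032)*c^(4:ℕ) + 56549596*c^(5:ℕ) + (-18952960)*c^(6:ℕ) + 10400*c^(7:ℕ)
        = (135105794979323120/3404825447)*y^(7:ℕ) + (1243036304364020416/3404825447)*x*y^(6:ℕ)
        + (4733090177204398352/3404825447)*x^(2:ℕ)*y^(5:ℕ) + (9430695363712699232/3404825447)*x^(3:ℕ)*y^(4:ℕ)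
        + (10336459141628918592/3404825447)*x^(4:ℕ)*y^(3:ℕ) + (5916315028629740416/3404825447)*x^(5:ℕ)*y^(2:ℕ)
        + (1387696897257369600/3404825447)*x^(6:ℕ)*y + (2340724548198400/3404825447)*x^(7:ℕ) := by
      subst hx hy; ring
    rw [e]; positivity

theorem c3s1_k2 (c : ℝ) (h0 : 0 ≤ c) (h1 : c ≤ 23) :
    0 ≤
      102865005166384 + (-19931737920540)*c + 3032206904728*c^(2:ℕ) + 20945307994*c^(3:ℕ)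
      + (-3776599012)*c^(4:ℕ) + (-52115434)*c^(5:ℕ) + (-735280)*c^(6:ℕ) := by
  obtain ⟨x, hx⟩ : ∃ x : ℝ, x = c - 0 := ⟨_, rfl⟩
  obtain ⟨y, hy⟩ : ∃ y : ℝ, y = 23 - c := ⟨_, rfl⟩
  have hx0 : 0 ≤ x := by linarith
  have hy0 : 0 ≤ y := by linarith
  have e :
      102865005166384 + (-19931737920540)*c + 3032206904728*c^(2:ℕ) + 20945307994*c^(3:ℕ)
      + (-3776599012)*c^(4:ℕ) + (-52115434)*c^(5:ℕ) + (-735280)*c^(6:ℕ)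
      = (102865005166384/148035889)*y^(6:ℕ) + (158760058825884/148035889)*x*y^(5:ℕ)
      + (854862669234772/148035889)*x^(2:ℕ)*y^(4:ℕ) + (4143991754370926/148035889)*x^(3:ℕ)*y^(3:ℕ)
      + (6290577514350134/148035889)*x^(4:ℕ)*y^(2:ℕ) + (3056587370577600/148035889)*x^(5:ℕ)*y
      + (2186166559200/148035889)*x^(6:ℕ) := by
    subst hx hy; ring
  rw [e]; positivity

theorem c3s1_k3 (c : ℝ) (h0 : 0 ≤ c) (h1 : c ≤ 23) :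
    0 ≤
      6294697279904 + (-3087768666)*c + 230970177808*c^(2:ℕ) + (-3561242245)*c^(3:ℕ) + (-232497554)*c^(4:ℕ)
      + (-2847923)*c^(5:ℕ) + (-10400)*c^(6:ℕ) := by
  obtain ⟨x, hx⟩ : ∃ x : ℝ, x = c - 0 := ⟨_, rfl⟩
  obtain ⟨y, hy⟩ : ∃ y : ℝ, y = 23 - c := ⟨_, rfl⟩
  have hx0 : 0 ≤ x := by linarith
  have hy0 : 0 ≤ y := by linarith
  have e :
      6294697279904 + (-3087768666)*c + 230970177808*c^(2:ℕ) + (-3561242245)*c^(3:ℕ) + (-232497554)*c^(4:ℕ)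
      + (-2847923)*c^(5:ℕ) + (-10400)*c^(6:ℕ)
      = (6294697279904/148035889)*y^(6:ℕ) + (37697165000106/148035889)*x*y^(5:ℕ)
      + (216248589862402/148035889)*x^(2:ℕ)*y^(4:ℕ) + (570587020651713/148035889)*x^(3:ℕ)*y^(3:ℕ)
      + (631758365574313/148035889)*x^(4:ℕ)*y^(2:ℕ) + (247702178056400/148035889)*x^(5:ℕ)*y
      + (145137746000/148035889)*x^(6:ℕ) := by
    subst hx hy; ring
  rw [e]; positivity

theorem c3s1_k4 (c : ℝ) (h0 : 0 ≤ c) (h1 : c ≤ 23) :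
    0 ≤
      472190059986 + 97829590730*c + 7119306293*c^(2:ℕ) + (-323306604)*c^(3:ℕ) + (-8079945)*c^(4:ℕ)
      + (-44720)*c^(5:ℕ) := by
  obtain ⟨x, hx⟩ : ∃ x : ℝ, x = c - 0 := ⟨_, rfl⟩
  obtain ⟨y, hy⟩ : ∃ y : ℝ, y = 23 - c := ⟨_, rfl⟩
  have hx0 : 0 ≤ x := by linarith
  have hy0 : 0 ≤ y := by linarith
  have e :
      472190059986 + 97829590730*c + 7119306293*c^(2:ℕ) + (-323306604)*c^(3:ℕ) + (-8079945)*c^(4:ℕ)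
      + (-44720)*c^(5:ℕ)
      = (472190059986/6436343)*y^(5:ℕ) + (4611030886720/6436343)*x*y^(4:ℕ)
      + (17488335976017/6436343)*x^(2:ℕ)*y^(3:ℕ) + (25587051756723/6436343)*x^(3:ℕ)*y^(2:ℕ)
      + (12531168943600/6436343)*x^(4:ℕ)*y + (5779077200/6436343)*x^(5:ℕ) := by
    subst hx hy; ring
  rw [e]; positivity

theorem c3s1_k5 (c : ℝ) (h0 : 0 ≤ c) (h1 : c ≤ 23) :
    0 ≤
      38864120508 + 5629600198*c + (-1106021)*c^(2:ℕ) + (-11274428)*c^(3:ℕ) + (-108797)*c^(4:ℕ) := by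
  obtain ⟨x, hx⟩ : ∃ x : ℝ, x = c - 0 := ⟨_, rfl⟩
  obtain ⟨y, hy⟩ : ∃ y : ℝ, y = 23 - c := ⟨_, rfl⟩
  have hx0 : 0 ≤ x := by linarith
  have hy0 : 0 ≤ y := by linarith
  have e :
      38864120508 + 5629600198*c + (-1106021)*c^(2:ℕ) + (-11274428)*c^(3:ℕ) + (-108797)*c^(4:ℕ)
      = (38864120508/279841)*y^(4:ℕ) + (284937286586/279841)*x*y^(3:ℕ) + (621042051601/279841)*x^(2:ℕ)*y^(2:ℕ)
      + (405552760000/279841)*x^(3:ℕ)*y + (138013200/279841)*x^(4:ℕ) := by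
    subst hx hy; ring
  rw [e]; positivity

theorem c3s1_k6 (c : ℝ) (h0 : 0 ≤ c) (h1 : c ≤ 23) :
    0 ≤
      1928489846 + 112149970*c + (-5187902)*c^(2:ℕ) + (-144794)*c^(3:ℕ) := by
  obtain ⟨x, hx⟩ : ∃ x : ℝ, x = c - 0 := ⟨_, rfl⟩
  obtain ⟨y, hy⟩ : ∃ y : ℝ, y = 23 - c := ⟨_, rfl⟩
  have hx0 : 0 ≤ x := by linarith
  have hy0 : 0 ≤ y := by linarith
  have e :
      1928489846 + 112149970*c + (-5187902)*c^(2:ℕ) + (-144794)*c^(3:ℕ)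
      = (1928489846/12167)*y^(3:ℕ) + (8364918848/12167)*x*y^(2:ℕ) + (8199968000/12167)*x^(2:ℕ)*y
      + (1830400/12167)*x^(3:ℕ) := by
    subst hx hy; ring
  rw [e]; positivity

theorem c3s1_k7 (c : ℝ) (h0 : 0 ≤ c) (h1 : c ≤ 23) :
    0 ≤
      48235788 + (-76712)*c + (-87828)*c^(2:ℕ) := by
  obtain ⟨x, hx⟩ : ∃ x : ℝ, x = c - 0 := ⟨_, rfl⟩
  obtain ⟨y, hy⟩ : ∃ y : ℝ, y = 23 - c := ⟨_, rfl⟩
  have hx0 : 0 ≤ x := by linarith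
  have hy0 : 0 ≤ y := by linarith
  have e :
      48235788 + (-76712)*c + (-87828)*c^(2:ℕ)
      = (48235788/529)*y^(2:ℕ) + (94707200/529)*x*y + (10400/529)*x^(2:ℕ) := by
    subst hx hy; ring
  rw [e]; positivity

theorem c3s1_k8 (c : ℝ) (h0 : 0 ≤ c) (h1 : c ≤ 23) :
    0 ≤
      478400 + (-20800)*c := by
  obtain ⟨x, hx⟩ : ∃ x : ℝ, x = c - 0 := ⟨_, rfl⟩
  obtain ⟨y, hy⟩ : ∃ y : ℝ, y = 23 - c := ⟨_, rfl⟩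
  have hx0 : 0 ≤ x := by linarith
  have hy0 : 0 ≤ y := by linarith
  have e :
      478400 + (-20800)*c
      = 20800*y := by
    subst hx hy; ring
  rw [e]; positivity

theorem c3s1_pos (a b : ℝ) (ha : 0 < a) (hb : 0 ≤ b) (hab : 23 ≤ a + b) :
    0 <
      3289*b^(9:ℕ) + 24063*a*b^(8:ℕ) + 59072*a^(2:ℕ)*b^(7:ℕ) + 67210*a^(3:ℕ)*b^(6:ℕ) + 54665*a^(4:ℕ)*b^(5:ℕ) + 80379*a^(5:ℕ)*b^(4:ℕ)
      + 112398*a^(6:ℕ)*b^(3:ℕ) + 78572*a^(7:ℕ)*b^(2:ℕ) + 20800*a^(8:ℕ)*b + (-16887)*b^(8:ℕ) + (-75651)*a*b^(7:ℕ)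
      + (-249871)*a^(2:ℕ)*b^(6:ℕ) + (-285277)*a^(3:ℕ)*b^(5:ℕ) + 360110*a^(4:ℕ)*b^(4:ℕ) + 1153500*a^(5:ℕ)*b^(3:ℕ)
      + 988820*a^(6:ℕ)*b^(2:ℕ) + 289600*a^(7:ℕ)*b + (-847587)*b^(7:ℕ) + (-4009092)*a*b^(6:ℕ) + (-7644466)*a^(2:ℕ)*b^(5:ℕ)
      + (-5582663)*a^(3:ℕ)*b^(4:ℕ) + 1471559*a^(4:ℕ)*b^(3:ℕ) + 4231261*a^(5:ℕ)*b^(2:ℕ) + 1639200*a^(6:ℕ)*b + 10400*a^(7:ℕ)
      + (-7070843)*b^(6:ℕ) + (-27569148)*a*b^(5:ℕ) + (-39364674)*a^(2:ℕ)*b^(4:ℕ) + (-19898717)*a^(3:ℕ)*b^(3:ℕ)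
      + 3035732*a^(4:ℕ)*b^(2:ℕ) + 4211200*a^(5:ℕ)*b + 156000*a^(6:ℕ) + (-26909025)*b^(5:ℕ) + (-81705651)*a*b^(4:ℕ)
      + (-83593902)*a^(2:ℕ)*b^(3:ℕ) + (-26647757)*a^(3:ℕ)*b^(2:ℕ) + 2629200*a^(4:ℕ)*b + 951600*a^(5:ℕ)
      + (-51933921)*b^(4:ℕ) + (-114260337)*a*b^(3:ℕ) + (-74266575)*a^(2:ℕ)*b^(2:ℕ) + (-8561200)*a^(3:ℕ)*b
      + 2995200*a^(4:ℕ) + (-46931573)*b^(3:ℕ) + (-65079816)*a*b^(2:ℕ) + (-14925600)*a^(2:ℕ)*b + 5059600*a^(3:ℕ)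
      + (-13904397)*b^(2:ℕ) + (-5430000)*a*b + 4258800*a^(2:ℕ) + (-702000)*b + 1404000*a + 140400 := by
  rcases le_total 23 b with h | h
  · obtain ⟨f, hf⟩ : ∃ f : ℝ, f = b - 23 := ⟨_, rfl⟩
    have hf0 : 0 ≤ f := by linarith
    have e :
        3289*b^(9:ℕ) + 24063*a*b^(8:ℕ) + 59072*a^(2:ℕ)*b^(7:ℕ) + 67210*a^(3:ℕ)*b^(6:ℕ) + 54665*a^(4:ℕ)*b^(5:ℕ) + 80379*a^(5:ℕ)*b^(4:ℕ)
        + 112398*a^(6:ℕ)*b^(3:ℕ) + 78572*a^(7:ℕ)*b^(2:ℕ) + 20800*a^(8:ℕ)*b + (-16887)*b^(8:ℕ) + (-75651)*a*b^(7:ℕ)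
        + (-249871)*a^(2:ℕ)*b^(6:ℕ) + (-285277)*a^(3:ℕ)*b^(5:ℕ) + 360110*a^(4:ℕ)*b^(4:ℕ) + 1153500*a^(5:ℕ)*b^(3:ℕ)
        + 988820*a^(6:ℕ)*b^(2:ℕ) + 289600*a^(7:ℕ)*b + (-847587)*b^(7:ℕ) + (-4009092)*a*b^(6:ℕ) + (-7644466)*a^(2:ℕ)*b^(5:ℕ)
        + (-5582663)*a^(3:ℕ)*b^(4:ℕ) + 1471559*a^(4:ℕ)*b^(3:ℕ) + 4231261*a^(5:ℕ)*b^(2:ℕ) + 1639200*a^(6:ℕ)*b + 10400*a^(7:ℕ)
        + (-7070843)*b^(6:ℕ) + (-27569148)*a*b^(5:ℕ) + (-39364674)*a^(2:ℕ)*b^(4:ℕ) + (-19898717)*a^(3:ℕ)*b^(3:ℕ)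
        + 3035732*a^(4:ℕ)*b^(2:ℕ) + 4211200*a^(5:ℕ)*b + 156000*a^(6:ℕ) + (-26909025)*b^(5:ℕ) + (-81705651)*a*b^(4:ℕ)
        + (-83593902)*a^(2:ℕ)*b^(3:ℕ) + (-26647757)*a^(3:ℕ)*b^(2:ℕ) + 2629200*a^(4:ℕ)*b + 951600*a^(5:ℕ)
        + (-51933921)*b^(4:ℕ) + (-114260337)*a*b^(3:ℕ) + (-74266575)*a^(2:ℕ)*b^(2:ℕ) + (-8561200)*a^(3:ℕ)*b
        + 2995200*a^(4:ℕ) + (-46931573)*b^(3:ℕ) + (-65079816)*a*b^(2:ℕ) + (-14925600)*a^(2:ℕ)*b + 5059600*a^(3:ℕ)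
        + (-13904397)*b^(2:ℕ) + (-5430000)*a*b + 4258800*a^(2:ℕ) + (-702000)*b + 1404000*a + 140400
      =
        3289*f^(9:ℕ) + 24063*a*f^(8:ℕ) + 59072*a^(2:ℕ)*f^(7:ℕ) + 67210*a^(3:ℕ)*f^(6:ℕ) + 54665*a^(4:ℕ)*f^(5:ℕ) + 80379*a^(5:ℕ)*f^(4:ℕ)
        + 112398*a^(6:ℕ)*f^(3:ℕ) + 78572*a^(7:ℕ)*f^(2:ℕ) + 20800*a^(8:ℕ)*f + 663936*f^(8:ℕ) + 4351941*a*f^(7:ℕ)
        + 9260721*a^(2:ℕ)*f^(6:ℕ) + 8989703*a^(3:ℕ)*f^(5:ℕ) + 6646585*a^(4:ℕ)*f^(4:ℕ) + 8548368*a^(5:ℕ)*f^(3:ℕ)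
        + 8744282*a^(6:ℕ)*f^(2:ℕ) + 3903912*a^(7:ℕ)*f + 478400*a^(8:ℕ) + 58680921*f^(7:ℕ) + 340232253*a*f^(6:ℕ)
        + 614104184*a^(2:ℕ)*f^(5:ℕ) + 494921832*a^(3:ℕ)*f^(4:ℕ) + 323779529*a^(4:ℕ)*f^(3:ℕ) + 338945707*a^(5:ℕ)*f^(2:ℕ)
        + 225500546*a^(6:ℕ)*f + 48235788*a^(7:ℕ) + 2967787498*f^(6:ℕ) + 14974142373*a*f^(5:ℕ)
        + 22254311191*a^(2:ℕ)*f^(4:ℕ) + 14312262357*a^(3:ℕ)*f^(3:ℕ) + 7898652993*a^(4:ℕ)*f^(2:ℕ) + 5941338878*a^(5:ℕ)*f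
        + 1928489846*a^(6:ℕ) + 94045507608*f^(5:ℕ) + 404087076024*a*f^(4:ℕ) + 473628886130*a^(2:ℕ)*f^(3:ℕ)
        + 228293019968*a^(3:ℕ)*f^(2:ℕ) + 96491011810*a^(4:ℕ)*f + 38864120508*a^(5:ℕ) + 1916319103296*f^(4:ℕ)
        + 6803149187490*a*f^(3:ℕ) + 5874610570642*a^(2:ℕ)*f^(2:ℕ) + 1891848008610*a^(3:ℕ)*f + 472190059986*a^(4:ℕ)
        + 24642665603348*f^(3:ℕ) + 69065775513960*a*f^(2:ℕ) + 38815829760252*a^(2:ℕ)*f + 6294697279904*a^(3:ℕ)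
        + 185462892714840*f^(2:ℕ) + 379490058588216*a*f + 102865005166384*a^(2:ℕ) + 666476003180208*f
        + 831595450566720*a + 480621836518304 := by
      rw [hf]; ring
    rw [e]; positivity
  · obtain ⟨c, hc⟩ : ∃ c : ℝ, c = 23 - b := ⟨_, rfl⟩
    obtain ⟨e, he⟩ : ∃ e : ℝ, e = a - c := ⟨_, rfl⟩
    have hc0 : 0 ≤ c := by linarith
    have hc1 : c ≤ 23 := by linarith
    have he0 : 0 ≤ e := by linarith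
    have k0 := c3s1_k0 c hc0 hc1
    have k1 := c3s1_k1 c hc0 hc1
    have k2 := c3s1_k2 c hc0 hc1
    have k3 := c3s1_k3 c hc0 hc1
    have k4 := c3s1_k4 c hc0 hc1
    have k5 := c3s1_k5 c hc0 hc1
    have k6 := c3s1_k6 c hc0 hc1
    have k7 := c3s1_k7 c hc0 hc1
    have k8 := c3s1_k8 c hc0 hc1
    have key :
        3289*b^(9:ℕ) + 24063*a*b^(8:ℕ) + 59072*a^(2:ℕ)*b^(7:ℕ) + 67210*a^(3:ℕ)*b^(6:ℕ) + 54665*a^(4:ℕ)*b^(5:ℕ) + 80379*a^(5:ℕ)*b^(4:ℕ)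
        + 112398*a^(6:ℕ)*b^(3:ℕ) + 78572*a^(7:ℕ)*b^(2:ℕ) + 20800*a^(8:ℕ)*b + (-16887)*b^(8:ℕ) + (-75651)*a*b^(7:ℕ)
        + (-249871)*a^(2:ℕ)*b^(6:ℕ) + (-285277)*a^(3:ℕ)*b^(5:ℕ) + 360110*a^(4:ℕ)*b^(4:ℕ) + 1153500*a^(5:ℕ)*b^(3:ℕ)
        + 988820*a^(6:ℕ)*b^(2:ℕ) + 289600*a^(7:ℕ)*b + (-847587)*b^(7:ℕ) + (-4009092)*a*b^(6:ℕ) + (-7644466)*a^(2:ℕ)*b^(5:ℕ)
        + (-5582663)*a^(3:ℕ)*b^(4:ℕ) + 1471559*a^(4:ℕ)*b^(3:ℕ) + 4231261*a^(5:ℕ)*b^(2:ℕ) + 1639200*a^(6:ℕ)*b + 10400*a^(7:ℕ)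
        + (-7070843)*b^(6:ℕ) + (-27569148)*a*b^(5:ℕ) + (-39364674)*a^(2:ℕ)*b^(4:ℕ) + (-19898717)*a^(3:ℕ)*b^(3:ℕ)
        + 3035732*a^(4:ℕ)*b^(2:ℕ) + 4211200*a^(5:ℕ)*b + 156000*a^(6:ℕ) + (-26909025)*b^(5:ℕ) + (-81705651)*a*b^(4:ℕ)
        + (-83593902)*a^(2:ℕ)*b^(3:ℕ) + (-26647757)*a^(3:ℕ)*b^(2:ℕ) + 2629200*a^(4:ℕ)*b + 951600*a^(5:ℕ)
        + (-51933921)*b^(4:ℕ) + (-114260337)*a*b^(3:ℕ) + (-74266575)*a^(2:ℕ)*b^(2:ℕ) + (-8561200)*a^(3:ℕ)*b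
        + 2995200*a^(4:ℕ) + (-46931573)*b^(3:ℕ) + (-65079816)*a*b^(2:ℕ) + (-14925600)*a^(2:ℕ)*b + 5059600*a^(3:ℕ)
        + (-13904397)*b^(2:ℕ) + (-5430000)*a*b + 4258800*a^(2:ℕ) + (-702000)*b + 1404000*a + 140400
      =
        (480621836518304 + 165119447386512*c + (-91162160706992)*c^(2:ℕ) + 11901977430264*c^(3:ℕ)
          + (-431877462176)*c^(4:ℕ) + 7078810952*c^(5:ℕ) + (-178502080)*c^(6:ℕ) + 270400*c^(7:ℕ))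
        + (831595450566720 + (-173760048255448)*c + 10318207833168*c^(2:ℕ) + 1159288167908*c^(3:ℕ)
          + (-49935081032)*c^(4:ℕ) + 56549596*c^(5:ℕ) + (-18952960)*c^(6:ℕ) + 10400*c^(7:ℕ))*e^(1:ℕ)
        + (102865005166384 + (-19931737920540)*c + 3032206904728*c^(2:ℕ) + 20945307994*c^(3:ℕ)
          + (-3776599012)*c^(4:ℕ) + (-52115434)*c^(5:ℕ) + (-735280)*c^(6:ℕ))*e^(2:ℕ)
        + (6294697279904 + (-3087768666)*c + 230970177808*c^(2:ℕ) + (-3561242245)*c^(3:ℕ)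
          + (-232497554)*c^(4:ℕ) + (-2847923)*c^(5:ℕ) + (-10400)*c^(6:ℕ))*e^(3:ℕ)
        + (472190059986 + 97829590730*c + 7119306293*c^(2:ℕ) + (-323306604)*c^(3:ℕ) + (-8079945)*c^(4:ℕ)
          + (-44720)*c^(5:ℕ))*e^(4:ℕ)
        + (38864120508 + 5629600198*c + (-1106021)*c^(2:ℕ) + (-11274428)*c^(3:ℕ) + (-108797)*c^(4:ℕ))*e^(5:ℕ)
        + (1928489846 + 112149970*c + (-5187902)*c^(2:ℕ) + (-144794)*c^(3:ℕ))*e^(6:ℕ)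
        + (48235788 + (-76712)*c + (-87828)*c^(2:ℕ))*e^(7:ℕ)
        + (478400 + (-20800)*c)*e^(8:ℕ) := by
      have hbc : b = 23 - c := by linarith
      have hac : a = c + e := by linarith
      rw [hbc, hac]; ring
    rw [key]
    have m1 := mul_nonneg k1 (pow_nonneg he0 1)
    have m2 := mul_nonneg k2 (pow_nonneg he0 2)
    have m3 := mul_nonneg k3 (pow_nonneg he0 3)
    have m4 := mul_nonneg k4 (pow_nonneg he0 4)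
    have m5 := mul_nonneg k5 (pow_nonneg he0 5)
    have m6 := mul_nonneg k6 (pow_nonneg he0 6)
    have m7 := mul_nonneg k7 (pow_nonneg he0 7)
    have m8 := mul_nonneg k8 (pow_nonneg he0 8)
    linarith

theorem c3s1_false {R p ρ y Z : ℝ} (hR : 26 ≤ R) (hn : 3 < ρ) (hρ : ρ ≤ R)
    (hmom : ∀ t : ℝ, 2 * t * y ≤ Z + t ^(2:ℕ) * ((R - ρ) * ρ / R)) (hm : MI 2 3 R p ρ y Z)
    (hp : 3 * p = R * (R - 2) + 1) : False := by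
  have hp1 : 1 ≤ p := by nlinarith
  have hH : 0 < 4 * (3 * p - ρ) - (2 - 2) * (13/20) * (ρ * (ρ - 3)) := by
    nlinarith [mul_nonneg (sub_nonneg.mpr hρ) (sub_nonneg.mpr hρ)]
  have h := clear (by linarith) (by linarith) (by linarith) hmom hm hp1 (ρ - 3) R (13/20)
    (by linarith) (by norm_num) hH
  obtain ⟨a, ha⟩ : ∃ a : ℝ, a = ρ - 3 := ⟨_, rfl⟩
  obtain ⟨b, hb⟩ : ∃ b : ℝ, b = R - ρ := ⟨_, rfl⟩
  have hapos : 0 < a := by linarith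
  have hF := c3s1_pos a b hapos (by linarith) (by linarith)
  have hp' : p = (R * (R - 2) + 1) / 3 := by linarith
  have hρ' : ρ = a + 3 := by linarith
  have hR' : R = a + b + 3 := by linarith
  rw [hp', hR', hρ'] at h
  have hpos := mul_pos (by norm_num : (0 : ℝ) < 1 / (1000)) (mul_pos hapos hF)
  exact absurd h (not_le.mpr (lt_of_lt_of_eq hpos (by ring)))

end Pool.Agent.EI97
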