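import Pool.Agent.EI97.Elim

set_option autoImplicit false

/-! Positivity of polynomials. -/

namespace Pool.Agent.EI97

theorem h2s2_k0 (c : ℝ) (h0 : 0 ≤ c) (h1 : c ≤ 6) :
    0 <
      3765698560 + (-5086115840)*c + 954104320*c^(2:ℕ) + 943959200*c^(3:ℕ) + (-167069200)*c^(4:ℕ)
      + 9368810*c^(5:ℕ) + (-1392175)*c^(6:ℕ) + 22200*c^(7:ℕ) + (-2800)*c^(8:ℕ) := by
  rcases le_total c (3/2) with h2 | h2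
  · obtain ⟨x, hx⟩ : ∃ x : ℝ, x = c - 0 := ⟨_, rfl⟩
    obtain ⟨y, hy⟩ : ∃ y : ℝ, y = (3/2) - c := ⟨_, rfl⟩
    have hx0 : 0 ≤ x := by linarith
    have hy0 : 0 ≤ y := by linarith
    have e :
        3765698560 + (-5086115840)*c + 954104320*c^(2:ℕ) + 943959200*c^(3:ℕ) + (-167069200)*c^(4:ℕ)
        + 9368810*c^(5:ℕ) + (-1392175)*c^(6:ℕ) + 22200*c^(7:ℕ) + (-2800)*c^(8:ℕ)
        = 157478679 + (923704289536/6561)*y^(8:ℕ) + (5436565833728/6561)*x*y^(7:ℕ)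
        + (12741804817408/6561)*x^(2:ℕ)*y^(6:ℕ) + (14825967358976/6561)*x^(3:ℕ)*y^(5:ℕ)
        + (8406746763520/6561)*x^(4:ℕ)*y^(4:ℕ) + (1669258812656/6561)*x^(5:ℕ)*y^(3:ℕ) + (4468/6561)*x^(6:ℕ)*y^(2:ℕ)
        + (273973317608/6561)*x^(7:ℕ)*y + (133491077236/6561)*x^(8:ℕ) := by
      subst hx hy; ring
    rw [e]; positivity
  · have _unused := h0
    rcases le_total c 3 with h3 | h3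
    · obtain ⟨x, hx⟩ : ∃ x : ℝ, x = c - (3/2) := ⟨_, rfl⟩
      obtain ⟨y, hy⟩ : ∃ y : ℝ, y = 3 - c := ⟨_, rfl⟩
      have hx0 : 0 ≤ x := by linarith
      have hy0 : 0 ≤ y := by linarith
      have e :
          3765698560 + (-5086115840)*c + 954104320*c^(2:ℕ) + 943959200*c^(3:ℕ) + (-167069200)*c^(4:ℕ)
          + 9368810*c^(5:ℕ) + (-1392175)*c^(6:ℕ) + 22200*c^(7:ℕ) + (-2800)*c^(8:ℕ)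
          = 678928199 + (116/6561)*y^(8:ℕ) + (793955301208/6561)*x*y^(7:ℕ) + (7377624049028/6561)*x^(2:ℕ)*y^(6:ℕ)
          + (27645484844896/6561)*x^(3:ℕ)*y^(5:ℕ) + (55167261080720/6561)*x^(4:ℕ)*y^(4:ℕ)
          + (63973107185536/6561)*x^(5:ℕ)*y^(3:ℕ) + (43375409862848/6561)*x^(6:ℕ)*y^(2:ℕ)
          + (15981125590528/6561)*x^(7:ℕ)*y + (2473359558656/6561)*x^(8:ℕ) := by
        subst hx hy; ring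
      rw [e]; positivity
    · have _unused := h0
      obtain ⟨x, hx⟩ : ∃ x : ℝ, x = c - 3 := ⟨_, rfl⟩
      obtain ⟨y, hy⟩ : ∃ y : ℝ, y = 6 - c := ⟨_, rfl⟩
      have hx0 : 0 ≤ x := by linarith
      have hy0 : 0 ≤ y := by linarith
      have e :
          3765698560 + (-5086115840)*c + 954104320*c^(2:ℕ) + 943959200*c^(3:ℕ) + (-167069200)*c^(4:ℕ)
          + 9368810*c^(5:ℕ) + (-1392175)*c^(6:ℕ) + 22200*c^(7:ℕ) + (-2800)*c^(8:ℕ)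
          = 4380467200 + (1986673925/2187)*y^(8:ℕ) + (25804200980/2187)*x*y^(7:ℕ)
          + (42989731715/729)*x^(2:ℕ)*y^(6:ℕ) + (334679126290/2187)*x^(3:ℕ)*y^(5:ℕ)
          + (497284366600/2187)*x^(4:ℕ)*y^(4:ℕ) + (142854277520/729)*x^(5:ℕ)*y^(3:ℕ)
          + (200100511760/2187)*x^(6:ℕ)*y^(2:ℕ) + (39300711200/2187)*x^(7:ℕ)*y := by
        subst hx hy; ring
      rw [e]; positivity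

theorem h2s2_k1 (c : ℝ) (h0 : 0 ≤ c) (h1 : c ≤ 6) :
    0 ≤
      13876561920 + (-8548064512)*c + 3888558048*c^(2:ℕ) + 165798836*c^(3:ℕ) + (-68602040)*c^(4:ℕ)
      + (-2636245)*c^(5:ℕ) + (-425712)*c^(6:ℕ) + (-15320)*c^(7:ℕ) + (-400)*c^(8:ℕ) := by
  obtain ⟨x, hx⟩ : ∃ x : ℝ, x = c - 0 := ⟨_, rfl⟩
  obtain ⟨y, hy⟩ : ∃ y : ℝ, y = 6 - c := ⟨_, rfl⟩
  have hx0 : 0 ≤ x := by linarith
  have hy0 : 0 ≤ y := by linarith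
  have e :
      13876561920 + (-8548064512)*c + 3888558048*c^(2:ℕ) + 165798836*c^(3:ℕ) + (-68602040)*c^(4:ℕ)
      + (-2636245)*c^(5:ℕ) + (-425712)*c^(6:ℕ) + (-15320)*c^(7:ℕ) + (-400)*c^(8:ℕ)
      = (18068440/2187)*y^(8:ℕ) + (25921922/729)*x*y^(7:ℕ) + (441440401/4374)*x^(2:ℕ)*y^(6:ℕ)
      + (5997629437/17496)*x^(3:ℕ)*y^(5:ℕ) + (527099395/648)*x^(4:ℕ)*y^(4:ℕ) + (18372383165/17496)*x^(5:ℕ)*y^(3:ℕ)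
      + (12027339911/17496)*x^(6:ℕ)*y^(2:ℕ) + (537918595/2916)*x^(7:ℕ)*y + (5414900/2187)*x^(8:ℕ) := by
    subst hx hy; ring
  rw [e]; positivity

theorem h2s2_k2 (c : ℝ) (h0 : 0 ≤ c) (h1 : c ≤ 6) :
    0 ≤
      8857413888 + (-2343733568)*c + 1971152580*c^(2:ℕ) + (-61886832)*c^(3:ℕ) + (-24263257)*c^(4:ℕ)
      + (-1723868)*c^(5:ℕ) + (-109528)*c^(6:ℕ) + (-2640)*c^(7:ℕ) := by
  obtain ⟨x, hx⟩ : ∃ x : ℝ, x = c - 0 := ⟨_, rfl⟩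
  obtain ⟨y, hy⟩ : ∃ y : ℝ, y = 6 - c := ⟨_, rfl⟩
  have hx0 : 0 ≤ x := by linarith
  have hy0 : 0 ≤ y := by linarith
  have e :
      8857413888 + (-2343733568)*c + 1971152580*c^(2:ℕ) + (-61886832)*c^(3:ℕ) + (-24263257)*c^(4:ℕ)
      + (-1723868)*c^(5:ℕ) + (-109528)*c^(6:ℕ) + (-2640)*c^(7:ℕ)
      = (23066182/729)*y^(7:ℕ) + (124842437/729)*x*y^(6:ℕ) + (399520315/648)*x^(2:ℕ)*y^(5:ℕ)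
      + (9177361951/5832)*x^(3:ℕ)*y^(4:ℕ) + (13613770475/5832)*x^(4:ℕ)*y^(3:ℕ) + (127762069/72)*x^(5:ℕ)*y^(2:ℕ)
      + (1590723475/2916)*x^(6:ℕ)*y + (4400525/729)*x^(7:ℕ) := by
    subst hx hy; ring
  rw [e]; positivity

theorem h2s2_k3 (c : ℝ) (h0 : 0 ≤ c) (h1 : c ≤ 6) :
    0 ≤
      3148951424 + 177266368*c + 430776306*c^(2:ℕ) + (-38765925)*c^(3:ℕ) + (-5889168)*c^(4:ℕ)
      + (-362672)*c^(5:ℕ) + (-11008)*c^(6:ℕ) := by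
  obtain ⟨x, hx⟩ : ∃ x : ℝ, x = c - 0 := ⟨_, rfl⟩
  obtain ⟨y, hy⟩ : ∃ y : ℝ, y = 6 - c := ⟨_, rfl⟩
  have hx0 : 0 ≤ x := by linarith
  have hy0 : 0 ≤ y := by linarith
  have e :
      3148951424 + 177266368*c + 430776306*c^(2:ℕ) + (-38765925)*c^(3:ℕ) + (-5889168)*c^(4:ℕ)
      + (-362672)*c^(5:ℕ) + (-11008)*c^(6:ℕ)
      = (49202366/729)*y^(6:ℕ) + (34648102/81)*x*y^(5:ℕ) + (2835842059/1944)*x^(2:ℕ)*y^(4:ℕ)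
      + (15909169853/5832)*x^(3:ℕ)*y^(3:ℕ) + (547061363/216)*x^(4:ℕ)*y^(2:ℕ) + (1793262805/1944)*x^(5:ℕ)*y
      + (23810525/2916)*x^(6:ℕ) := by
    subst hx hy; ring
  rw [e]; positivity

theorem h2s2_k4 (c : ℝ) (h0 : 0 ≤ c) (h1 : c ≤ 6) :
    0 ≤
      801471744 + 181837032*c + 38827712*c^(2:ℕ) + (-9069068)*c^(3:ℕ) + (-818428)*c^(4:ℕ) + (-28192)*c^(5:ℕ) := by
  obtain ⟨x, hx⟩ : ∃ x : ℝ, x = c - 0 := ⟨_, rfl⟩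
  obtain ⟨y, hy⟩ : ∃ y : ℝ, y = 6 - c := ⟨_, rfl⟩
  have hx0 : 0 ≤ x := by linarith
  have hy0 : 0 ≤ y := by linarith
  have e :
      801471744 + 181837032*c + 38827712*c^(2:ℕ) + (-9069068)*c^(3:ℕ) + (-818428)*c^(4:ℕ) + (-28192)*c^(5:ℕ)
      = (2782888/27)*y^(5:ℕ) + (35405423/54)*x*y^(4:ℕ) + (47835430/27)*x^(2:ℕ)*y^(3:ℕ) + (58317100/27)*x^(3:ℕ)*y^(2:ℕ)
      + (26341390/27)*x^(4:ℕ)*y + (357425/54)*x^(5:ℕ) := by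
    subst hx hy; ring
  rw [e]; positivity

theorem h2s2_k5 (c : ℝ) (h0 : 0 ≤ c) (h1 : c ≤ 6) :
    0 ≤
      149172864 + 31748396*c + (-1095764)*c^(2:ℕ) + (-1077796)*c^(3:ℕ) + (-48800)*c^(4:ℕ) := by
  obtain ⟨x, hx⟩ : ∃ x : ℝ, x = c - 0 := ⟨_, rfl⟩
  obtain ⟨y, hy⟩ : ∃ y : ℝ, y = 6 - c := ⟨_, rfl⟩
  have hx0 : 0 ≤ x := by linarith
  have hy0 : 0 ≤ y := by linarith
  have e :
      149172864 + 31748396*c + (-1095764)*c^(2:ℕ) + (-1077796)*c^(3:ℕ) + (-48800)*c^(4:ℕ)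
      = (3107768/27)*y^(4:ℕ) + (10933081/18)*x*y^(3:ℕ) + (6606763/6)*x^(2:ℕ)*y^(2:ℕ) + (35685985/54)*x^(3:ℕ)*y
      + (57875/18)*x^(4:ℕ) := by
    subst hx hy; ring
  rw [e]; positivity

theorem h2s2_k6 (c : ℝ) (h0 : 0 ≤ c) (h1 : c ≤ 6) :
    0 ≤
      18574416 + 1904112*c + (-502572)*c^(2:ℕ) + (-54256)*c^(3:ℕ) := by
  obtain ⟨x, hx⟩ : ∃ x : ℝ, x = c - 0 := ⟨_, rfl⟩
  obtain ⟨y, hy⟩ : ∃ y : ℝ, y = 6 - c := ⟨_, rfl⟩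
  have hx0 : 0 ≤ x := by linarith
  have hy0 : 0 ≤ y := by linarith
  have e :
      18574416 + 1904112*c + (-502572)*c^(2:ℕ) + (-54256)*c^(3:ℕ)
      = (257978/3)*y^(3:ℕ) + 310870*x*y^(2:ℕ) + 280000*x^(2:ℕ)*y + (2600/3)*x^(3:ℕ) := by
    subst hx hy; ring
  rw [e]; positivity

theorem h2s2_k7 (c : ℝ) (h0 : 0 ≤ c) (h1 : c ≤ 6) :
    0 ≤
      1350360 + (-43020)*c + (-30240)*c^(2:ℕ) := by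
  obtain ⟨x, hx⟩ : ∃ x : ℝ, x = c - 0 := ⟨_, rfl⟩
  obtain ⟨y, hy⟩ : ∃ y : ℝ, y = 6 - c := ⟨_, rfl⟩
  have hx0 : 0 ≤ x := by linarith
  have hy0 : 0 ≤ y := by linarith
  have e :
      1350360 + (-43020)*c + (-30240)*c^(2:ℕ)
      = 37510*y^(2:ℕ) + 67850*x*y + 100*x^(2:ℕ) := by
    subst hx hy; ring
  rw [e]; positivity

theorem h2s2_k8 (c : ℝ) (h0 : 0 ≤ c) (h1 : c ≤ 6) :
    0 ≤
      43200 + (-7200)*c := by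
  obtain ⟨x, hx⟩ : ∃ x : ℝ, x = c - 0 := ⟨_, rfl⟩
  obtain ⟨y, hy⟩ : ∃ y : ℝ, y = 6 - c := ⟨_, rfl⟩
  have hx0 : 0 ≤ x := by linarith
  have hy0 : 0 ≤ y := by linarith
  have e :
      43200 + (-7200)*c
      = 7200*y := by
    subst hx hy; ring
  rw [e]; positivity

theorem h2s2_pos (a b : ℝ) (ha : 0 < a) (hb : 0 ≤ b) (hab : 6 ≤ a + b) :
    0 <
      1840*b^(9:ℕ) + 12080*a*b^(8:ℕ) + 31168*a^(2:ℕ)*b^(7:ℕ) + 43680*a^(3:ℕ)*b^(6:ℕ) + 43632*a^(4:ℕ)*b^(5:ℕ) + 44896*a^(5:ℕ)*b^(4:ℕ)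
      + 44176*a^(6:ℕ)*b^(3:ℕ) + 27360*a^(7:ℕ)*b^(2:ℕ) + 7200*a^(8:ℕ)*b + 9320*b^(8:ℕ) + 51016*a*b^(7:ℕ) + 111264*a^(2:ℕ)*b^(6:ℕ)
      + 167900*a^(3:ℕ)*b^(5:ℕ) + 252712*a^(4:ℕ)*b^(4:ℕ) + 307480*a^(5:ℕ)*b^(3:ℕ) + 213000*a^(6:ℕ)*b^(2:ℕ) + 60300*a^(7:ℕ)*b
      + (-25660)*b^(7:ℕ) + (-139492)*a*b^(6:ℕ) + (-259500)*a^(2:ℕ)*b^(5:ℕ) + (-14376)*a^(3:ℕ)*b^(4:ℕ) + 518560*a^(4:ℕ)*b^(3:ℕ)
      + 604948*a^(5:ℕ)*b^(2:ℕ) + 221400*a^(6:ℕ)*b + 3600*a^(7:ℕ) + (-301330)*b^(6:ℕ) + (-1243194)*a*b^(5:ℕ)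
      + (-1794570)*a^(2:ℕ)*b^(4:ℕ) + (-715443)*a^(3:ℕ)*b^(3:ℕ) + 536980*a^(4:ℕ)*b^(2:ℕ) + 440740*a^(5:ℕ)*b + 36000*a^(6:ℕ)
      + (-924400)*b^(5:ℕ) + (-2940326)*a*b^(4:ℕ) + (-3029082)*a^(2:ℕ)*b^(3:ℕ) + (-663192)*a^(3:ℕ)*b^(2:ℕ)
      + 500520*a^(4:ℕ)*b + 149400*a^(5:ℕ) + (-1368520)*b^(4:ℕ) + (-3076940)*a*b^(3:ℕ) + (-1727352)*a^(2:ℕ)*b^(2:ℕ)
      + 341540*a^(3:ℕ)*b + 331200*a^(4:ℕ) + (-1005760)*b^(3:ℕ) + (-1235864)*a*b^(2:ℕ) + 172760*a^(2:ℕ)*b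
      + 419600*a^(3:ℕ) + (-289120)*b^(2:ℕ) + 77200*a*b + 300000*a^(2:ℕ) + 16640*b + 110400*a + 16000 := by
  rcases le_total 6 b with h | h
  · obtain ⟨f, hf⟩ : ∃ f : ℝ, f = b - 6 := ⟨_, rfl⟩
    have hf0 : 0 ≤ f := by linarith
    have e :
        1840*b^(9:ℕ) + 12080*a*b^(8:ℕ) + 31168*a^(2:ℕ)*b^(7:ℕ) + 43680*a^(3:ℕ)*b^(6:ℕ) + 43632*a^(4:ℕ)*b^(5:ℕ) + 44896*a^(5:ℕ)*b^(4:ℕ)
        + 44176*a^(6:ℕ)*b^(3:ℕ) + 27360*a^(7:ℕ)*b^(2:ℕ) + 7200*a^(8:ℕ)*b + 9320*b^(8:ℕ) + 51016*a*b^(7:ℕ) + 111264*a^(2:ℕ)*b^(6:ℕ)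
        + 167900*a^(3:ℕ)*b^(5:ℕ) + 252712*a^(4:ℕ)*b^(4:ℕ) + 307480*a^(5:ℕ)*b^(3:ℕ) + 213000*a^(6:ℕ)*b^(2:ℕ) + 60300*a^(7:ℕ)*b
        + (-25660)*b^(7:ℕ) + (-139492)*a*b^(6:ℕ) + (-259500)*a^(2:ℕ)*b^(5:ℕ) + (-14376)*a^(3:ℕ)*b^(4:ℕ)
        + 518560*a^(4:ℕ)*b^(3:ℕ) + 604948*a^(5:ℕ)*b^(2:ℕ) + 221400*a^(6:ℕ)*b + 3600*a^(7:ℕ) + (-301330)*b^(6:ℕ)
        + (-1243194)*a*b^(5:ℕ) + (-1794570)*a^(2:ℕ)*b^(4:ℕ) + (-715443)*a^(3:ℕ)*b^(3:ℕ) + 536980*a^(4:ℕ)*b^(2:ℕ)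
        + 440740*a^(5:ℕ)*b + 36000*a^(6:ℕ) + (-924400)*b^(5:ℕ) + (-2940326)*a*b^(4:ℕ) + (-3029082)*a^(2:ℕ)*b^(3:ℕ)
        + (-663192)*a^(3:ℕ)*b^(2:ℕ) + 500520*a^(4:ℕ)*b + 149400*a^(5:ℕ) + (-1368520)*b^(4:ℕ) + (-3076940)*a*b^(3:ℕ)
        + (-1727352)*a^(2:ℕ)*b^(2:ℕ) + 341540*a^(3:ℕ)*b + 331200*a^(4:ℕ) + (-1005760)*b^(3:ℕ) + (-1235864)*a*b^(2:ℕ)
        + 172760*a^(2:ℕ)*b + 419600*a^(3:ℕ) + (-289120)*b^(2:ℕ) + 77200*a*b + 300000*a^(2:ℕ) + 16640*b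
        + 110400*a + 16000
      =
        1840*f^(9:ℕ) + 12080*a*f^(8:ℕ) + 31168*a^(2:ℕ)*f^(7:ℕ) + 43680*a^(3:ℕ)*f^(6:ℕ) + 43632*a^(4:ℕ)*f^(5:ℕ) + 44896*a^(5:ℕ)*f^(4:ℕ)
        + 44176*a^(6:ℕ)*f^(3:ℕ) + 27360*a^(7:ℕ)*f^(2:ℕ) + 7200*a^(8:ℕ)*f + 108680*f^(8:ℕ) + 630856*a*f^(7:ℕ)
        + 1420320*a^(2:ℕ)*f^(6:ℕ) + 1740380*a^(3:ℕ)*f^(5:ℕ) + 1561672*a^(4:ℕ)*f^(4:ℕ) + 1384984*a^(5:ℕ)*f^(3:ℕ)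
        + 1008168*a^(6:ℕ)*f^(2:ℕ) + 388620*a^(7:ℕ)*f + 43200*a^(8:ℕ) + 2806340*f^(7:ℕ) + 14179820*a*f^(6:ℕ)
        + 27309012*a^(2:ℕ)*f^(5:ℕ) + 28609824*a^(3:ℕ)*f^(4:ℕ) + 22291168*a^(4:ℕ)*f^(3:ℕ) + 15837124*a^(5:ℕ)*f^(2:ℕ)
        + 7548408*a^(6:ℕ)*f + 1350360*a^(7:ℕ) + 41400470*f^(6:ℕ) + 178422870*a*f^(5:ℕ) + 286133070*a^(2:ℕ)*f^(4:ℕ)
        + 248081133*a^(3:ℕ)*f^(3:ℕ) + 158701972*a^(4:ℕ)*f^(2:ℕ) + 79698100*a^(5:ℕ)*f + 18574416*a^(6:ℕ) + 382028120*f^(5:ℕ)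
        + 1366016734*a*f^(4:ℕ) + 1754922198*a^(2:ℕ)*f^(3:ℕ) + 1195156818*a^(3:ℕ)*f^(2:ℕ) + 564027288*a^(4:ℕ)*f
        + 149172864*a^(5:ℕ) + 2262489920*f^(4:ℕ) + 6450594196*a*f^(3:ℕ) + 6248183940*a^(2:ℕ)*f^(2:ℕ)
        + 3028620608*a^(3:ℕ)*f + 801471744*a^(4:ℕ) + 8437283840*f^(3:ℕ) + 18022879456*a*f^(2:ℕ)
        + 11790587840*a^(2:ℕ)*f + 3148951424*a^(3:ℕ) + 18359582720*f^(2:ℕ) + 26262892288*a*f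
        + 8857413888*a^(2:ℕ) + 18962677760*f + 13876561920*a + 3765698560 := by
      rw [hf]; ring
    rw [e]; positivity
  · obtain ⟨c, hc⟩ : ∃ c : ℝ, c = 6 - b := ⟨_, rfl⟩
    obtain ⟨e, he⟩ : ∃ e : ℝ, e = a - c := ⟨_, rfl⟩
    have hc0 : 0 ≤ c := by linarith
    have hc1 : c ≤ 6 := by linarith
    have he0 : 0 ≤ e := by linarith
    have k0 := h2s2_k0 c hc0 hc1
    have k1 := h2s2_k1 c hc0 hc1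
    have k2 := h2s2_k2 c hc0 hc1
    have k3 := h2s2_k3 c hc0 hc1
    have k4 := h2s2_k4 c hc0 hc1
    have k5 := h2s2_k5 c hc0 hc1
    have k6 := h2s2_k6 c hc0 hc1
    have k7 := h2s2_k7 c hc0 hc1
    have k8 := h2s2_k8 c hc0 hc1
    have key :
        1840*b^(9:ℕ) + 12080*a*b^(8:ℕ) + 31168*a^(2:ℕ)*b^(7:ℕ) + 43680*a^(3:ℕ)*b^(6:ℕ) + 43632*a^(4:ℕ)*b^(5:ℕ) + 44896*a^(5:ℕ)*b^(4:ℕ)
        + 44176*a^(6:ℕ)*b^(3:ℕ) + 27360*a^(7:ℕ)*b^(2:ℕ) + 7200*a^(8:ℕ)*b + 9320*b^(8:ℕ) + 51016*a*b^(7:ℕ) + 111264*a^(2:ℕ)*b^(6:ℕ)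
        + 167900*a^(3:ℕ)*b^(5:ℕ) + 252712*a^(4:ℕ)*b^(4:ℕ) + 307480*a^(5:ℕ)*b^(3:ℕ) + 213000*a^(6:ℕ)*b^(2:ℕ) + 60300*a^(7:ℕ)*b
        + (-25660)*b^(7:ℕ) + (-139492)*a*b^(6:ℕ) + (-259500)*a^(2:ℕ)*b^(5:ℕ) + (-14376)*a^(3:ℕ)*b^(4:ℕ)
        + 518560*a^(4:ℕ)*b^(3:ℕ) + 604948*a^(5:ℕ)*b^(2:ℕ) + 221400*a^(6:ℕ)*b + 3600*a^(7:ℕ) + (-301330)*b^(6:ℕ)
        + (-1243194)*a*b^(5:ℕ) + (-1794570)*a^(2:ℕ)*b^(4:ℕ) + (-715443)*a^(3:ℕ)*b^(3:ℕ) + 536980*a^(4:ℕ)*b^(2:ℕ)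
        + 440740*a^(5:ℕ)*b + 36000*a^(6:ℕ) + (-924400)*b^(5:ℕ) + (-2940326)*a*b^(4:ℕ) + (-3029082)*a^(2:ℕ)*b^(3:ℕ)
        + (-663192)*a^(3:ℕ)*b^(2:ℕ) + 500520*a^(4:ℕ)*b + 149400*a^(5:ℕ) + (-1368520)*b^(4:ℕ) + (-3076940)*a*b^(3:ℕ)
        + (-1727352)*a^(2:ℕ)*b^(2:ℕ) + 341540*a^(3:ℕ)*b + 331200*a^(4:ℕ) + (-1005760)*b^(3:ℕ) + (-1235864)*a*b^(2:ℕ)
        + 172760*a^(2:ℕ)*b + 419600*a^(3:ℕ) + (-289120)*b^(2:ℕ) + 77200*a*b + 300000*a^(2:ℕ) + 16640*b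
        + 110400*a + 16000
      =
        (3765698560 + (-5086115840)*c + 954104320*c^(2:ℕ) + 943959200*c^(3:ℕ) + (-167069200)*c^(4:ℕ)
          + 9368810*c^(5:ℕ) + (-1392175)*c^(6:ℕ) + 22200*c^(7:ℕ) + (-2800)*c^(8:ℕ))
        + (13876561920 + (-8548064512)*c + 3888558048*c^(2:ℕ) + 165798836*c^(3:ℕ) + (-68602040)*c^(4:ℕ)
          + (-2636245)*c^(5:ℕ) + (-425712)*c^(6:ℕ) + (-15320)*c^(7:ℕ) + (-400)*c^(8:ℕ))*e^(1:ℕ)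
        + (8857413888 + (-2343733568)*c + 1971152580*c^(2:ℕ) + (-61886832)*c^(3:ℕ) + (-24263257)*c^(4:ℕ)
          + (-1723868)*c^(5:ℕ) + (-109528)*c^(6:ℕ) + (-2640)*c^(7:ℕ))*e^(2:ℕ)
        + (3148951424 + 177266368*c + 430776306*c^(2:ℕ) + (-38765925)*c^(3:ℕ) + (-5889168)*c^(4:ℕ)
          + (-362672)*c^(5:ℕ) + (-11008)*c^(6:ℕ))*e^(3:ℕ)
        + (801471744 + 181837032*c + 38827712*c^(2:ℕ) + (-9069068)*c^(3:ℕ) + (-818428)*c^(4:ℕ)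
          + (-28192)*c^(5:ℕ))*e^(4:ℕ)
        + (149172864 + 31748396*c + (-1095764)*c^(2:ℕ) + (-1077796)*c^(3:ℕ) + (-48800)*c^(4:ℕ))*e^(5:ℕ)
        + (18574416 + 1904112*c + (-502572)*c^(2:ℕ) + (-54256)*c^(3:ℕ))*e^(6:ℕ)
        + (1350360 + (-43020)*c + (-30240)*c^(2:ℕ))*e^(7:ℕ)
        + (43200 + (-7200)*c)*e^(8:ℕ) := by
      have hbc : b = 6 - c := by linarith
      have hac : a = c + e := by linarith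
      rw [hbc, hac]; ring
    rw [key]
    have m1 := mul_nonneg k1 (pow_nonneg he0 1)
    have m2 := mul_nonneg k2 (pow_nonneg he0 2)
    have m3 := mul_nonneg k3 (pow_nonneg he0 3)
    have m4 := mul_nonneg k4 (pow_nonneg he0 4)
    have m5 := mul_nonneg k5 (pow_nonneg he0 5)
    have m6 := mul_nonneg k6 (pow_nonneg he0 6)
    have m7 := mul_nonneg k7 (pow_nonneg he0 7)
    have m8 := mul_nonneg k8 (pow_nonneg he0 8)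
    linarith

theorem h2s2_false {R p ρ y Z : ℝ} (hR : 8 ≤ R) (hn : 2 < ρ) (hρ : ρ ≤ R)
    (hmom : ∀ t : ℝ, 2 * t * y ≤ Z + t ^(2:ℕ) * ((R - ρ) * ρ / R)) (hm : MI 4 2 R p ρ y Z)
    (hp : 2 * p = R * (2 * R - 3) + 2) : False := by
  have hp1 : 1 ≤ p := by nlinarith
  have hH : 0 < 4 * (2 * p - ρ) - (2 - 4) * (4/5) * (ρ * (ρ - 2)) := by
    nlinarith [mul_nonneg (sub_nonneg.mpr hρ) (sub_nonneg.mpr hρ)]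
  have h := clear (by linarith) (by linarith) (by linarith) hmom hm hp1 (ρ - 2) R (4/5)
    (by linarith) (by norm_num) hH
  obtain ⟨a, ha⟩ : ∃ a : ℝ, a = ρ - 2 := ⟨_, rfl⟩
  obtain ⟨b, hb⟩ : ∃ b : ℝ, b = R - ρ := ⟨_, rfl⟩
  have hapos : 0 < a := by linarith
  have hF := h2s2_pos a b hapos (by linarith) (by linarith)
  have hp' : p = (R * (2 * R - 3) + 2) / 2 := by linarith
  have hρ' : ρ = a + 2 := by linarith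
  have hR' : R = a + b + 2 := by linarith
  rw [hp', hR', hρ'] at h
  have hpos := mul_pos (by norm_num : (0 : ℝ) < 1 / (625/16)) (mul_pos hapos hF)
  exact absurd h (not_le.mpr (lt_of_lt_of_eq hpos (by ring)))

theorem h2s1_k0 (c : ℝ) (h0 : 0 ≤ c) (h1 : c ≤ 7) :
    0 <
      48170920320 + (-25504891072)*c + 2527934656*c^(2:ℕ) + 2117990844*c^(3:ℕ) + (-314838492)*c^(4:ℕ)
      + 16391181*c^(5:ℕ) + (-2043303)*c^(6:ℕ) + 29840*c^(7:ℕ) + (-3200)*c^(8:ℕ) := by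
  obtain ⟨x, hx⟩ : ∃ x : ℝ, x = c - 0 := ⟨_, rfl⟩
  obtain ⟨y, hy⟩ : ∃ y : ℝ, y = 7 - c := ⟨_, rfl⟩
  have hx0 : 0 ≤ x := by linarith
  have hy0 : 0 ≤ y := by linarith
  have e :
      48170920320 + (-25504891072)*c + 2527934656*c^(2:ℕ) + 2117990844*c^(3:ℕ) + (-314838492)*c^(4:ℕ)
      + 16391181*c^(5:ℕ) + (-2043303)*c^(6:ℕ) + 29840*c^(7:ℕ) + (-3200)*c^(8:ℕ)
      = 5270305500 + (6128659260/823543)*y^(8:ℕ) + (3360626144/117649)*x*y^(7:ℕ)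
      + (1537680624/117649)*x^(2:ℕ)*y^(6:ℕ) + (2508144708/117649)*x^(3:ℕ)*y^(5:ℕ)
      + (30383750512/117649)*x^(4:ℕ)*y^(4:ℕ) + (9176671653/16807)*x^(5:ℕ)*y^(3:ℕ)
      + (53576380842/117649)*x^(6:ℕ)*y^(2:ℕ) + (116510373745/823543)*x^(7:ℕ)*y := by
    subst hx hy; ring
  rw [e]; positivity

theorem h2s1_k1 (c : ℝ) (h0 : 0 ≤ c) (h1 : c ≤ 7) :
    0 ≤
      62841676088 + (-29806744092)*c + 8706138788*c^(2:ℕ) + 376845698*c^(3:ℕ) + (-110364471)*c^(4:ℕ)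
      + (-3577813)*c^(5:ℕ) + (-542992)*c^(6:ℕ) + (-17400)*c^(7:ℕ) + (-400)*c^(8:ℕ) := by
  obtain ⟨x, hx⟩ : ∃ x : ℝ, x = c - 0 := ⟨_, rfl⟩
  obtain ⟨y, hy⟩ : ∃ y : ℝ, y = 7 - c := ⟨_, rfl⟩
  have hx0 : 0 ≤ x := by linarith
  have hy0 : 0 ≤ y := by linarith
  have e :
      62841676088 + (-29806744092)*c + 8706138788*c^(2:ℕ) + 376845698*c^(3:ℕ) + (-110364471)*c^(4:ℕ)
      + (-3577813)*c^(5:ℕ) + (-542992)*c^(6:ℕ) + (-17400)*c^(7:ℕ) + (-400)*c^(8:ℕ)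
      = (62841676088/5764801)*y^(8:ℕ) + (294086200060/5764801)*x*y^(7:ℕ) + (103662467224/823543)*x^(2:ℕ)*y^(6:ℕ)
      + (260915051070/823543)*x^(3:ℕ)*y^(5:ℕ) + (553797472857/823543)*x^(4:ℕ)*y^(4:ℕ)
      + (703000804599/823543)*x^(5:ℕ)*y^(3:ℕ) + (462196908279/823543)*x^(6:ℕ)*y^(2:ℕ)
      + (865666255365/5764801)*x^(7:ℕ)*y + (4417910100/5764801)*x^(8:ℕ) := by
    subst hx hy; ring
  rw [e]; positivity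

theorem h2s1_k2 (c : ℝ) (h0 : 0 ≤ c) (h1 : c ≤ 7) :
    0 ≤
      27846139652 + (-7882370086)*c + 3916578962*c^(2:ℕ) + (-80213199)*c^(3:ℕ) + (-34233045)*c^(4:ℕ)
      + (-2172884)*c^(5:ℕ) + (-124072)*c^(6:ℕ) + (-2640)*c^(7:ℕ) := by
  obtain ⟨x, hx⟩ : ∃ x : ℝ, x = c - 0 := ⟨_, rfl⟩
  obtain ⟨y, hy⟩ : ∃ y : ℝ, y = 7 - c := ⟨_, rfl⟩
  have hx0 : 0 ≤ x := by linarith
  have hy0 : 0 ≤ y := by linarith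
  have e :
      27846139652 + (-7882370086)*c + 3916578962*c^(2:ℕ) + (-80213199)*c^(3:ℕ) + (-34233045)*c^(4:ℕ)
      + (-2172884)*c^(5:ℕ) + (-124072)*c^(6:ℕ) + (-2640)*c^(7:ℕ)
      = (27846139652/823543)*y^(7:ℕ) + (19963769566/117649)*x*y^(6:ℕ) + (63660251174/117649)*x^(2:ℕ)*y^(5:ℕ)
      + (22020709127/16807)*x^(3:ℕ)*y^(4:ℕ) + (228280102441/117649)*x^(4:ℕ)*y^(3:ℕ)
      + (175437816711/117649)*x^(5:ℕ)*y^(2:ℕ) + (54165125425/117649)*x^(6:ℕ)*y + (1584488250/823543)*x^(7:ℕ) := by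
    subst hx hy; ring
  rw [e]; positivity

theorem h2s1_k3 (c : ℝ) (h0 : 0 ≤ c) (h1 : c ≤ 7) :
    0 ≤
      7421170160 + (-112819798)*c + 768247961*c^(2:ℕ) + (-52415571)*c^(3:ℕ) + (-7416124)*c^(4:ℕ)
      + (-409392)*c^(5:ℕ) + (-11008)*c^(6:ℕ) := by
  obtain ⟨x, hx⟩ : ∃ x : ℝ, x = c - 0 := ⟨_, rfl⟩
  obtain ⟨y, hy⟩ : ∃ y : ℝ, y = 7 - c := ⟨_, rfl⟩
  have hx0 : 0 ≤ x := by linarith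
  have hy0 : 0 ≤ y := by linarith
  have e :
      7421170160 + (-112819798)*c + 768247961*c^(2:ℕ) + (-52415571)*c^(3:ℕ) + (-7416124)*c^(4:ℕ)
      + (-409392)*c^(5:ℕ) + (-11008)*c^(6:ℕ)
      = (7421170160/117649)*y^(6:ℕ) + (43737282374/117649)*x*y^(5:ℕ) + (145013009559/117649)*x^(2:ℕ)*y^(4:ℕ)
      + (273124076843/117649)*x^(3:ℕ)*y^(3:ℕ) + (257543330791/117649)*x^(4:ℕ)*y^(2:ℕ)
      + (94726427035/117649)*x^(5:ℕ)*y + (315195550/117649)*x^(6:ℕ) := by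
    subst hx hy; ring
  rw [e]; positivity

theorem h2s1_k4 (c : ℝ) (h0 : 0 ≤ c) (h1 : c ≤ 7) :
    0 ≤
      1516097620 + 272915050*c + 64552396*c^(2:ℕ) + (-11270384)*c^(3:ℕ) + (-921468)*c^(4:ℕ) + (-28192)*c^(5:ℕ) := by
  obtain ⟨x, hx⟩ : ∃ x : ℝ, x = c - 0 := ⟨_, rfl⟩
  obtain ⟨y, hy⟩ : ∃ y : ℝ, y = 7 - c := ⟨_, rfl⟩
  have hx0 : 0 ≤ x := by linarith
  have hy0 : 0 ≤ y := by linarith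
  have e :
      1516097620 + 272915050*c + 64552396*c^(2:ℕ) + (-11270384)*c^(3:ℕ) + (-921468)*c^(4:ℕ) + (-28192)*c^(5:ℕ)
      = (1516097620/16807)*y^(5:ℕ) + (9490893450/16807)*x*y^(4:ℕ) + (25965665004/16807)*x^(2:ℕ)*y^(3:ℕ)
      + (32246868800/16807)*x^(3:ℕ)*y^(2:ℕ) + (14767383620/16807)*x^(4:ℕ)*y + (37561050/16807)*x^(5:ℕ) := by
    subst hx hy; ring
  rw [e]; positivity

theorem h2s1_k5 (c : ℝ) (h0 : 0 ≤ c) (h1 : c ≤ 7) :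
    0 ≤
      243299452 + 47225630*c + (-808964)*c^(2:ℕ) + (-1208132)*c^(3:ℕ) + (-48800)*c^(4:ℕ) := by
  obtain ⟨x, hx⟩ : ∃ x : ℝ, x = c - 0 := ⟨_, rfl⟩
  obtain ⟨y, hy⟩ : ∃ y : ℝ, y = 7 - c := ⟨_, rfl⟩
  have hx0 : 0 ≤ x := by linarith
  have hy0 : 0 ≤ y := by linarith
  have e :
      243299452 + 47225630*c + (-808964)*c^(2:ℕ) + (-1208132)*c^(3:ℕ) + (-48800)*c^(4:ℕ)
      = (243299452/2401)*y^(4:ℕ) + (1303777218/2401)*x*y^(3:ℕ) + (2411895706/2401)*x^(2:ℕ)*y^(2:ℕ)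
      + (1471268290/2401)*x^(3:ℕ)*y + (2681550/2401)*x^(4:ℕ) := by
    subst hx hy; ring
  rw [e]; positivity

theorem h2s1_k6 (c : ℝ) (h0 : 0 ≤ c) (h1 : c ≤ 7) :
    0 ≤
      27043768 + 2670708*c + (-551484)*c^(2:ℕ) + (-54256)*c^(3:ℕ) := by
  obtain ⟨x, hx⟩ : ∃ x : ℝ, x = c - 0 := ⟨_, rfl⟩
  obtain ⟨y, hy⟩ : ∃ y : ℝ, y = 7 - c := ⟨_, rfl⟩
  have hx0 : 0 ≤ x := by linarith
  have hy0 : 0 ≤ y := by linarith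
  have e :
      27043768 + 2670708*c + (-551484)*c^(2:ℕ) + (-54256)*c^(3:ℕ)
      = (27043768/343)*y^(3:ℕ) + (99826260/343)*x*y^(2:ℕ) + (91498500/343)*x^(2:ℕ)*y + (106200/343)*x^(3:ℕ) := by
    subst hx hy; ring
  rw [e]; positivity

theorem h2s1_k7 (c : ℝ) (h0 : 0 ≤ c) (h1 : c ≤ 7) :
    0 ≤
      1764540 + (-40140)*c + (-30240)*c^(2:ℕ) := by
  obtain ⟨x, hx⟩ : ∃ x : ℝ, x = c - 0 := ⟨_, rfl⟩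
  obtain ⟨y, hy⟩ : ∃ y : ℝ, y = 7 - c := ⟨_, rfl⟩
  have hx0 : 0 ≤ x := by linarith
  have hy0 : 0 ≤ y := by linarith
  have e :
      1764540 + (-40140)*c + (-30240)*c^(2:ℕ)
      = (1764540/49)*y^(2:ℕ) + (3248100/49)*x*y + (1800/49)*x^(2:ℕ) := by
    subst hx hy; ring
  rw [e]; positivity

theorem h2s1_k8 (c : ℝ) (h0 : 0 ≤ c) (h1 : c ≤ 7) :
    0 ≤
      50400 + (-7200)*c := by
  obtain ⟨x, hx⟩ : ∃ x : ℝ, x = c - 0 := ⟨_, rfl⟩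
  obtain ⟨y, hy⟩ : ∃ y : ℝ, y = 7 - c := ⟨_, rfl⟩
  have hx0 : 0 ≤ x := by linarith
  have hy0 : 0 ≤ y := by linarith
  have e :
      50400 + (-7200)*c
      = 7200*y := by
    subst hx hy; ring
  rw [e]; positivity

theorem h2s1_pos (a b : ℝ) (ha : 0 < a) (hb : 0 ≤ b) (hab : 7 ≤ a + b) :
    0 <
      1840*b^(9:ℕ) + 12080*a*b^(8:ℕ) + 31168*a^(2:ℕ)*b^(7:ℕ) + 43680*a^(3:ℕ)*b^(6:ℕ) + 43632*a^(4:ℕ)*b^(5:ℕ) + 44896*a^(5:ℕ)*b^(4:ℕ)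
      + 44176*a^(6:ℕ)*b^(3:ℕ) + 27360*a^(7:ℕ)*b^(2:ℕ) + 7200*a^(8:ℕ)*b + 9320*b^(8:ℕ) + 51016*a*b^(7:ℕ) + 111264*a^(2:ℕ)*b^(6:ℕ)
      + 167900*a^(3:ℕ)*b^(5:ℕ) + 252712*a^(4:ℕ)*b^(4:ℕ) + 307480*a^(5:ℕ)*b^(3:ℕ) + 213000*a^(6:ℕ)*b^(2:ℕ) + 60300*a^(7:ℕ)*b
      + (-28500)*b^(7:ℕ) + (-154892)*a*b^(6:ℕ) + (-293064)*a^(2:ℕ)*b^(5:ℕ) + (-60788)*a^(3:ℕ)*b^(4:ℕ) + 468228*a^(4:ℕ)*b^(3:ℕ)
      + 565624*a^(5:ℕ)*b^(2:ℕ) + 205200*a^(6:ℕ)*b + 1800*a^(7:ℕ) + (-317050)*b^(6:ℕ) + (-1320162)*a*b^(5:ℕ)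
      + (-1965376)*a^(2:ℕ)*b^(4:ℕ) + (-969521)*a^(3:ℕ)*b^(3:ℕ) + 292890*a^(4:ℕ)*b^(2:ℕ) + 321370*a^(5:ℕ)*b + 18000*a^(6:ℕ)
      + (-933890)*b^(5:ℕ) + (-3038520)*a*b^(4:ℕ) + (-3380730)*a^(2:ℕ)*b^(3:ℕ) + (-1218306)*a^(3:ℕ)*b^(2:ℕ)
      + 129210*a^(4:ℕ)*b + 73350*a^(5:ℕ) + (-1274690)*b^(4:ℕ) + (-3049760)*a*b^(3:ℕ) + (-2175586)*a^(2:ℕ)*b^(2:ℕ)
      + (-230775)*a^(3:ℕ)*b + 154800*a^(4:ℕ) + (-792770)*b^(3:ℕ) + (-1191592)*a*b^(2:ℕ) + (-237240)*a^(2:ℕ)*b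
      + 176650*a^(3:ℕ) + (-157980)*b^(2:ℕ) + (-31490)*a*b + 102300*a^(2:ℕ) + 1160*b + 24600*a + 2000 := by
  rcases le_total 7 b with h | h
  · obtain ⟨f, hf⟩ : ∃ f : ℝ, f = b - 7 := ⟨_, rfl⟩
    have hf0 : 0 ≤ f := by linarith
    have e :
        1840*b^(9:ℕ) + 12080*a*b^(8:ℕ) + 31168*a^(2:ℕ)*b^(7:ℕ) + 43680*a^(3:ℕ)*b^(6:ℕ) + 43632*a^(4:ℕ)*b^(5:ℕ) + 44896*a^(5:ℕ)*b^(4:ℕ)
        + 44176*a^(6:ℕ)*b^(3:ℕ) + 27360*a^(7:ℕ)*b^(2:ℕ) + 7200*a^(8:ℕ)*b + 9320*b^(8:ℕ) + 51016*a*b^(7:ℕ) + 111264*a^(2:ℕ)*b^(6:ℕ)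
        + 167900*a^(3:ℕ)*b^(5:ℕ) + 252712*a^(4:ℕ)*b^(4:ℕ) + 307480*a^(5:ℕ)*b^(3:ℕ) + 213000*a^(6:ℕ)*b^(2:ℕ) + 60300*a^(7:ℕ)*b
        + (-28500)*b^(7:ℕ) + (-154892)*a*b^(6:ℕ) + (-293064)*a^(2:ℕ)*b^(5:ℕ) + (-60788)*a^(3:ℕ)*b^(4:ℕ)
        + 468228*a^(4:ℕ)*b^(3:ℕ) + 565624*a^(5:ℕ)*b^(2:ℕ) + 205200*a^(6:ℕ)*b + 1800*a^(7:ℕ) + (-317050)*b^(6:ℕ)
        + (-1320162)*a*b^(5:ℕ) + (-1965376)*a^(2:ℕ)*b^(4:ℕ) + (-969521)*a^(3:ℕ)*b^(3:ℕ) + 292890*a^(4:ℕ)*b^(2:ℕ)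
        + 321370*a^(5:ℕ)*b + 18000*a^(6:ℕ) + (-933890)*b^(5:ℕ) + (-3038520)*a*b^(4:ℕ) + (-3380730)*a^(2:ℕ)*b^(3:ℕ)
        + (-1218306)*a^(3:ℕ)*b^(2:ℕ) + 129210*a^(4:ℕ)*b + 73350*a^(5:ℕ) + (-1274690)*b^(4:ℕ) + (-3049760)*a*b^(3:ℕ)
        + (-2175586)*a^(2:ℕ)*b^(2:ℕ) + (-230775)*a^(3:ℕ)*b + 154800*a^(4:ℕ) + (-792770)*b^(3:ℕ) + (-1191592)*a*b^(2:ℕ)
        + (-237240)*a^(2:ℕ)*b + 176650*a^(3:ℕ) + (-157980)*b^(2:ℕ) + (-31490)*a*b + 102300*a^(2:ℕ) + 1160*b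
        + 24600*a + 2000
      =
        1840*f^(9:ℕ) + 12080*a*f^(8:ℕ) + 31168*a^(2:ℕ)*f^(7:ℕ) + 43680*a^(3:ℕ)*f^(6:ℕ) + 43632*a^(4:ℕ)*f^(5:ℕ) + 44896*a^(5:ℕ)*f^(4:ℕ)
        + 44176*a^(6:ℕ)*f^(3:ℕ) + 27360*a^(7:ℕ)*f^(2:ℕ) + 7200*a^(8:ℕ)*f + 125240*f^(8:ℕ) + 727496*a*f^(7:ℕ)
        + 1638496*a^(2:ℕ)*f^(6:ℕ) + 2002460*a^(3:ℕ)*f^(5:ℕ) + 1779832*a^(4:ℕ)*f^(4:ℕ) + 1564568*a^(5:ℕ)*f^(3:ℕ)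
        + 1140696*a^(6:ℕ)*f^(2:ℕ) + 443340*a^(7:ℕ)*f + 50400*a^(8:ℕ) + 3739180*f^(7:ℕ) + 18918652*a*f^(6:ℕ)
        + 36451896*a^(2:ℕ)*f^(5:ℕ) + 37920512*a^(3:ℕ)*f^(4:ℕ) + 28923844*a^(4:ℕ)*f^(3:ℕ) + 20222128*a^(5:ℕ)*f^(2:ℕ)
        + 9681072*a^(6:ℕ)*f + 1764540*a^(7:ℕ) + 64087570*f^(6:ℕ) + 276702478*a*f^(5:ℕ) + 443728264*a^(2:ℕ)*f^(4:ℕ)
        + 379244215*a^(3:ℕ)*f^(3:ℕ) + 234080766*a^(4:ℕ)*f^(2:ℕ) + 115036978*a^(5:ℕ)*f + 27043768*a^(6:ℕ)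
        + 692089910*f^(5:ℕ) + 2479642870*a*f^(4:ℕ) + 3180461302*a^(2:ℕ)*f^(3:ℕ) + 2109582281*a^(3:ℕ)*f^(2:ℕ)
        + 943582210*a^(4:ℕ)*f + 243299452*a^(5:ℕ) + 4853812190*f^(4:ℕ) + 13859162100*a*f^(3:ℕ)
        + 13351624076*a^(2:ℕ)*f^(2:ℕ) + 6177210278*a^(3:ℕ)*f + 1516097620*a^(4:ℕ) + 21891688190*f^(3:ℕ)
        + 46734389440*a*f^(2:ℕ) + 30145880566*a^(2:ℕ)*f + 7421170160*a^(3:ℕ) + 60180818400*f^(2:ℕ)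
        + 85499023396*a*f + 27846139652*a^(2:ℕ) + 88346567160*f + 62841676088*a + 48170920320 := by
      rw [hf]; ring
    rw [e]; positivity
  · obtain ⟨c, hc⟩ : ∃ c : ℝ, c = 7 - b := ⟨_, rfl⟩
    obtain ⟨e, he⟩ : ∃ e : ℝ, e = a - c := ⟨_, rfl⟩
    have hc0 : 0 ≤ c := by linarith
    have hc1 : c ≤ 7 := by linarith
    have he0 : 0 ≤ e := by linarith
    have k0 := h2s1_k0 c hc0 hc1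
    have k1 := h2s1_k1 c hc0 hc1
    have k2 := h2s1_k2 c hc0 hc1
    have k3 := h2s1_k3 c hc0 hc1
    have k4 := h2s1_k4 c hc0 hc1
    have k5 := h2s1_k5 c hc0 hc1
    have k6 := h2s1_k6 c hc0 hc1
    have k7 := h2s1_k7 c hc0 hc1
    have k8 := h2s1_k8 c hc0 hc1
    have key :
        1840*b^(9:ℕ) + 12080*a*b^(8:ℕ) + 31168*a^(2:ℕ)*b^(7:ℕ) + 43680*a^(3:ℕ)*b^(6:ℕ) + 43632*a^(4:ℕ)*b^(5:ℕ) + 44896*a^(5:ℕ)*b^(4:ℕ)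
        + 44176*a^(6:ℕ)*b^(3:ℕ) + 27360*a^(7:ℕ)*b^(2:ℕ) + 7200*a^(8:ℕ)*b + 9320*b^(8:ℕ) + 51016*a*b^(7:ℕ) + 111264*a^(2:ℕ)*b^(6:ℕ)
        + 167900*a^(3:ℕ)*b^(5:ℕ) + 252712*a^(4:ℕ)*b^(4:ℕ) + 307480*a^(5:ℕ)*b^(3:ℕ) + 213000*a^(6:ℕ)*b^(2:ℕ) + 60300*a^(7:ℕ)*b
        + (-28500)*b^(7:ℕ) + (-154892)*a*b^(6:ℕ) + (-293064)*a^(2:ℕ)*b^(5:ℕ) + (-60788)*a^(3:ℕ)*b^(4:ℕ)
        + 468228*a^(4:ℕ)*b^(3:ℕ) + 565624*a^(5:ℕ)*b^(2:ℕ) + 205200*a^(6:ℕ)*b + 1800*a^(7:ℕ) + (-317050)*b^(6:ℕ)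
        + (-1320162)*a*b^(5:ℕ) + (-1965376)*a^(2:ℕ)*b^(4:ℕ) + (-969521)*a^(3:ℕ)*b^(3:ℕ) + 292890*a^(4:ℕ)*b^(2:ℕ)
        + 321370*a^(5:ℕ)*b + 18000*a^(6:ℕ) + (-933890)*b^(5:ℕ) + (-3038520)*a*b^(4:ℕ) + (-3380730)*a^(2:ℕ)*b^(3:ℕ)
        + (-1218306)*a^(3:ℕ)*b^(2:ℕ) + 129210*a^(4:ℕ)*b + 73350*a^(5:ℕ) + (-1274690)*b^(4:ℕ) + (-3049760)*a*b^(3:ℕ)
        + (-2175586)*a^(2:ℕ)*b^(2:ℕ) + (-230775)*a^(3:ℕ)*b + 154800*a^(4:ℕ) + (-792770)*b^(3:ℕ) + (-1191592)*a*b^(2:ℕ)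
        + (-237240)*a^(2:ℕ)*b + 176650*a^(3:ℕ) + (-157980)*b^(2:ℕ) + (-31490)*a*b + 102300*a^(2:ℕ) + 1160*b
        + 24600*a + 2000
      =
        (48170920320 + (-25504891072)*c + 2527934656*c^(2:ℕ) + 2117990844*c^(3:ℕ) + (-314838492)*c^(4:ℕ)
          + 16391181*c^(5:ℕ) + (-2043303)*c^(6:ℕ) + 29840*c^(7:ℕ) + (-3200)*c^(8:ℕ))
        + (62841676088 + (-29806744092)*c + 8706138788*c^(2:ℕ) + 376845698*c^(3:ℕ) + (-110364471)*c^(4:ℕ)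
          + (-3577813)*c^(5:ℕ) + (-542992)*c^(6:ℕ) + (-17400)*c^(7:ℕ) + (-400)*c^(8:ℕ))*e^(1:ℕ)
        + (27846139652 + (-7882370086)*c + 3916578962*c^(2:ℕ) + (-80213199)*c^(3:ℕ) + (-34233045)*c^(4:ℕ)
          + (-2172884)*c^(5:ℕ) + (-124072)*c^(6:ℕ) + (-2640)*c^(7:ℕ))*e^(2:ℕ)
        + (7421170160 + (-112819798)*c + 768247961*c^(2:ℕ) + (-52415571)*c^(3:ℕ) + (-7416124)*c^(4:ℕ)
          + (-409392)*c^(5:ℕ) + (-11008)*c^(6:ℕ))*e^(3:ℕ)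
        + (1516097620 + 272915050*c + 64552396*c^(2:ℕ) + (-11270384)*c^(3:ℕ) + (-921468)*c^(4:ℕ)
          + (-28192)*c^(5:ℕ))*e^(4:ℕ)
        + (243299452 + 47225630*c + (-808964)*c^(2:ℕ) + (-1208132)*c^(3:ℕ) + (-48800)*c^(4:ℕ))*e^(5:ℕ)
        + (27043768 + 2670708*c + (-551484)*c^(2:ℕ) + (-54256)*c^(3:ℕ))*e^(6:ℕ)
        + (1764540 + (-40140)*c + (-30240)*c^(2:ℕ))*e^(7:ℕ)
        + (50400 + (-7200)*c)*e^(8:ℕ) := by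
      have hbc : b = 7 - c := by linarith
      have hac : a = c + e := by linarith
      rw [hbc, hac]; ring
    rw [key]
    have m1 := mul_nonneg k1 (pow_nonneg he0 1)
    have m2 := mul_nonneg k2 (pow_nonneg he0 2)
    have m3 := mul_nonneg k3 (pow_nonneg he0 3)
    have m4 := mul_nonneg k4 (pow_nonneg he0 4)
    have m5 := mul_nonneg k5 (pow_nonneg he0 5)
    have m6 := mul_nonneg k6 (pow_nonneg he0 6)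
    have m7 := mul_nonneg k7 (pow_nonneg he0 7)
    have m8 := mul_nonneg k8 (pow_nonneg he0 8)
    linarith

theorem h2s1_false {R p ρ y Z : ℝ} (hR : 9 ≤ R) (hn : 2 < ρ) (hρ : ρ ≤ R)
    (hmom : ∀ t : ℝ, 2 * t * y ≤ Z + t ^(2:ℕ) * ((R - ρ) * ρ / R)) (hm : MI 4 2 R p ρ y Z)
    (hp : 2 * p = R * (2 * R - 3) + 1) : False := by
  have hp1 : 1 ≤ p := by nlinarith
  have hH : 0 < 4 * (2 * p - ρ) - (2 - 4) * (4/5) * (ρ * (ρ - 2)) := by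
    nlinarith [mul_nonneg (sub_nonneg.mpr hρ) (sub_nonneg.mpr hρ)]
  have h := clear (by linarith) (by linarith) (by linarith) hmom hm hp1 (ρ - 2) R (4/5)
    (by linarith) (by norm_num) hH
  obtain ⟨a, ha⟩ : ∃ a : ℝ, a = ρ - 2 := ⟨_, rfl⟩
  obtain ⟨b, hb⟩ : ∃ b : ℝ, b = R - ρ := ⟨_, rfl⟩
  have hapos : 0 < a := by linarith
  have hF := h2s1_pos a b hapos (by linarith) (by linarith)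
  have hp' : p = (R * (2 * R - 3) + 1) / 2 := by linarith
  have hρ' : ρ = a + 2 := by linarith
  have hR' : R = a + b + 2 := by linarith
  rw [hp', hR', hρ'] at h
  have hpos := mul_pos (by norm_num : (0 : ℝ) < 1 / (625/16)) (mul_pos hapos hF)
  exact absurd h (not_le.mpr (lt_of_lt_of_eq hpos (by ring)))

end Pool.Agent.EI97
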