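import Pool.Agent.EI97.Elim

set_option autoImplicit false

/-! Positivity of polynomials. -/

namespace Pool.Agent.EI97

theorem h3s3_k0 (c : ℝ) (h0 : 0 ≤ c) (h1 : c ≤ 27) :
    0 <
      27962253000000000 + 5799123284625000*c + (-2521273164795000)*c^(2:ℕ) + 226878916806900*c^(3:ℕ)
      + (-6249942834300)*c^(4:ℕ) + 88898369412*c^(5:ℕ) + (-2073749996)*c^(6:ℕ) + 8739520*c^(7:ℕ)
      + (-185600)*c^(8:ℕ) := by
  rcases le_total c (27/4) with h2 | h2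
  · obtain ⟨x, hx⟩ : ∃ x : ℝ, x = c - 0 := ⟨_, rfl⟩
    obtain ⟨y, hy⟩ : ∃ y : ℝ, y = (27/4) - c := ⟨_, rfl⟩
    have hx0 : 0 ≤ x := by linarith
    have hy0 : 0 ≤ y := by linarith
    have e :
        27962253000000000 + 5799123284625000*c + (-2521273164795000)*c^(2:ℕ) + 226878916806900*c^(3:ℕ)
        + (-6249942834300)*c^(4:ℕ) + 88898369412*c^(5:ℕ) + (-2073749996)*c^(6:ℕ) + 8739520*c^(7:ℕ)
        + (-185600)*c^(8:ℕ)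
        = 10086545122890274 + (1171502391434263003136/282429536481)*y^(8:ℕ)
        + (11937365700647096025088/282429536481)*x*y^(7:ℕ)
        + (43231011614663074807808/282429536481)*x^(2:ℕ)*y^(6:ℕ)
        + (78878357399486618300416/282429536481)*x^(3:ℕ)*y^(5:ℕ)
        + (80878947077067294110720/282429536481)*x^(4:ℕ)*y^(4:ℕ)
        + (47230419048184100584192/282429536481)*x^(5:ℕ)*y^(3:ℕ)
        + (14605732598698025325632/282429536481)*x^(6:ℕ)*y^(2:ℕ)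
        + (1841103952466813266048/282429536481)*x^(7:ℕ)*y + (54848/282429536481)*x^(8:ℕ) := by
      subst hx hy; ring
    rw [e]; positivity
  · have _unused := h0
    rcases le_total c (27/2) with h3 | h3
    · obtain ⟨x, hx⟩ : ∃ x : ℝ, x = c - (27/4) := ⟨_, rfl⟩
      obtain ⟨y, hy⟩ : ∃ y : ℝ, y = (27/2) - c := ⟨_, rfl⟩
      have hx0 : 0 ≤ x := by linarith
      have hy0 : 0 ≤ y := by linarith
      have e :
          27962253000000000 + 5799123284625000*c + (-2521273164795000)*c^(2:ℕ)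
          + 226878916806900*c^(3:ℕ) + (-6249942834300)*c^(4:ℕ) + 88898369412*c^(5:ℕ) + (-2073749996)*c^(6:ℕ)
          + 8739520*c^(7:ℕ) + (-185600)*c^(8:ℕ)
          = 2834707563865984 + (475256426268215924288/282429536481)*y^(8:ℕ)
          + (1960947457678914567040/282429536481)*x*y^(7:ℕ)
          + (2137457199672690088256/282429536481)*x^(2:ℕ)*y^(6:ℕ) + (2235904/282429536481)*x^(3:ℕ)*y^(5:ℕ)
          + (2677555665175265603840/282429536481)*x^(4:ℕ)*y^(4:ℕ)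
          + (11449819570976521308160/282429536481)*x^(5:ℕ)*y^(3:ℕ)
          + (14083220777968082926592/282429536481)*x^(6:ℕ)*y^(2:ℕ)
          + (7427314230625450860544/282429536481)*x^(7:ℕ)*y
          + (1464538771274663555072/282429536481)*x^(8:ℕ) := by
        subst hx hy; ring
      rw [e]; positivity
    · have _unused := h0
      obtain ⟨x, hx⟩ : ∃ x : ℝ, x = c - (27/2) := ⟨_, rfl⟩
      obtain ⟨y, hy⟩ : ∃ y : ℝ, y = 27 - c := ⟨_, rfl⟩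
      have hx0 : 0 ≤ x := by linarith
      have hy0 : 0 ≤ y := by linarith
      have e :
          27962253000000000 + 5799123284625000*c + (-2521273164795000)*c^(2:ℕ)
          + 226878916806900*c^(3:ℕ) + (-6249942834300)*c^(4:ℕ) + 88898369412*c^(5:ℕ) + (-2073749996)*c^(6:ℕ)
          + 8739520*c^(7:ℕ) + (-185600)*c^(8:ℕ)
          = 1893035940480000 + (100965681228784/4782969)*y^(8:ℕ) + (458394219856576/1594323)*x*y^(7:ℕ)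
          + (2539765499069648/1594323)*x^(2:ℕ)*y^(6:ℕ) + (22009470707149280/4782969)*x^(3:ℕ)*y^(5:ℕ)
          + (4001742409430080/531441)*x^(4:ℕ)*y^(4:ℕ) + (11246074473228416/1594323)*x^(5:ℕ)*y^(3:ℕ)
          + (16920031428046336/4782969)*x^(6:ℕ)*y^(2:ℕ) + (1177995407998976/1594323)*x^(7:ℕ)*y := by
        subst hx hy; ring
      rw [e]; positivity

theorem h3s3_k1 (c : ℝ) (h0 : 0 ≤ c) (h1 : c ≤ 27) :
    0 ≤
      25236377384625000 + (-4134178916077500)*c + 65824525249200*c^(2:ℕ) + 22762420982640*c^(3:ℕ)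
      + (-640473732420)*c^(4:ℕ) + 126108420*c^(5:ℕ) + (-154412220)*c^(6:ℕ) + (-858720)*c^(7:ℕ) + (-6400)*c^(8:ℕ) := by
  rcases le_total c (27/2) with h2 | h2
  · obtain ⟨x, hx⟩ : ∃ x : ℝ, x = c - 0 := ⟨_, rfl⟩
    obtain ⟨y, hy⟩ : ∃ y : ℝ, y = (27/2) - c := ⟨_, rfl⟩
    have hx0 : 0 ≤ x := by linarith
    have hy0 : 0 ≤ y := by linarith
    have e :
        25236377384625000 + (-4134178916077500)*c + 65824525249200*c^(2:ℕ) + 22762420982640*c^(3:ℕ)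
        + (-640473732420)*c^(4:ℕ) + 126108420*c^(5:ℕ) + (-154412220)*c^(6:ℕ) + (-858720)*c^(7:ℕ) + (-6400)*c^(8:ℕ)
        = (8862157216000000/387420489)*y^(8:ℕ) + (51298187311040000/387420489)*x*y^(7:ℕ)
        + (115159678745228800/387420489)*x^(2:ℕ)*y^(6:ℕ) + (129643674764533760/387420489)*x^(3:ℕ)*y^(5:ℕ)
        + (88438257795689920/387420489)*x^(4:ℕ)*y^(4:ℕ) + (61373964187844960/387420489)*x^(5:ℕ)*y^(3:ℕ)
        + (51327199801704880/387420489)*x^(6:ℕ)*y^(2:ℕ) + (26810540035220480/387420489)*x^(7:ℕ)*y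
        + (5336593248886000/387420489)*x^(8:ℕ) := by
      subst hx hy; ring
    rw [e]; positivity
  · have _unused := h0
    obtain ⟨x, hx⟩ : ∃ x : ℝ, x = c - (27/2) := ⟨_, rfl⟩
    obtain ⟨y, hy⟩ : ∃ y : ℝ, y = 27 - c := ⟨_, rfl⟩
    have hx0 : 0 ≤ x := by linarith
    have hy0 : 0 ≤ y := by linarith
    have e :
        25236377384625000 + (-4134178916077500)*c + 65824525249200*c^(2:ℕ) + 22762420982640*c^(3:ℕ)
        + (-640473732420)*c^(4:ℕ) + 126108420*c^(5:ℕ) + (-154412220)*c^(6:ℕ) + (-858720)*c^(7:ℕ) + (-6400)*c^(8:ℕ)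
        = (5336593248886000/387420489)*y^(8:ℕ) + (58574951946955520/387420489)*x*y^(7:ℕ)
        + (273678083183850160/387420489)*x^(2:ℕ)*y^(6:ℕ) + (693260845975021280/387420489)*x^(3:ℕ)*y^(5:ℕ)
        + (1024363832910118720/387420489)*x^(4:ℕ)*y^(4:ℕ) + (884528470640211200/387420489)*x^(5:ℕ)*y^(3:ℕ)
        + (414918832971708160/387420489)*x^(6:ℕ)*y^(2:ℕ) + (82095457937776640/387420489)*x^(7:ℕ)*y
        + (159904694272000/387420489)*x^(8:ℕ) := by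
      subst hx hy; ring
    rw [e]; positivity

theorem h3s3_k2 (c : ℝ) (h0 : 0 ≤ c) (h1 : c ≤ 27) :
    0 ≤
      2559520888717500 + (-522000330623550)*c + 41476171304070*c^(2:ℕ) + 737419393317*c^(3:ℕ)
      + (-43598116719)*c^(4:ℕ) + (-444092951)*c^(5:ℕ) + (-8282595)*c^(6:ℕ) + (-40000)*c^(7:ℕ) := by
  rcases le_total c (27/2) with h2 | h2
  · obtain ⟨x, hx⟩ : ∃ x : ℝ, x = c - 0 := ⟨_, rfl⟩
    obtain ⟨y, hy⟩ : ∃ y : ℝ, y = (27/2) - c := ⟨_, rfl⟩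
    have hx0 : 0 ≤ x := by linarith
    have hy0 : 0 ≤ y := by linarith
    have e :
        2559520888717500 + (-522000330623550)*c + 41476171304070*c^(2:ℕ) + 737419393317*c^(3:ℕ)
        + (-43598116719)*c^(4:ℕ) + (-444092951)*c^(5:ℕ) + (-8282595)*c^(6:ℕ) + (-40000)*c^(7:ℕ)
        = (1348224994880000/43046721)*y^(7:ℕ) + (5725572613059200/43046721)*x*y^(6:ℕ)
        + (3340807743688640/14348907)*x^(2:ℕ)*y^(5:ℕ) + (12372097313980432/43046721)*x^(3:ℕ)*y^(4:ℕ)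
        + (15824941735530904/43046721)*x^(4:ℕ)*y^(3:ℕ) + (5263572117102308/14348907)*x^(5:ℕ)*y^(2:ℕ)
        + (8372331047392094/43046721)*x^(6:ℕ)*y + (1677812861682362/43046721)*x^(7:ℕ) := by
      subst hx hy; ring
    rw [e]; positivity
  · have _unused := h0
    obtain ⟨x, hx⟩ : ∃ x : ℝ, x = c - (27/2) := ⟨_, rfl⟩
    obtain ⟨y, hy⟩ : ∃ y : ℝ, y = 27 - c := ⟨_, rfl⟩
    have hx0 : 0 ≤ x := by linarith
    have hy0 : 0 ≤ y := by linarith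
    have e :
        2559520888717500 + (-522000330623550)*c + 41476171304070*c^(2:ℕ) + 737419393317*c^(3:ℕ)
        + (-43598116719)*c^(4:ℕ) + (-444092951)*c^(5:ℕ) + (-8282595)*c^(6:ℕ) + (-40000)*c^(7:ℕ)
        = (1677812861682362/43046721)*y^(7:ℕ) + (15117049016160974/43046721)*x*y^(6:ℕ)
        + (18753008054640068/14348907)*x^(2:ℕ)*y^(5:ℕ) + (109529960205074056/43046721)*x^(3:ℕ)*y^(4:ℕ)
        + (117403452441397840/43046721)*x^(4:ℕ)*y^(3:ℕ) + (21933219593691200/14348907)*x^(5:ℕ)*y^(2:ℕ)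
        + (15132820958541824/43046721)*x^(6:ℕ)*y + (24720554393600/43046721)*x^(7:ℕ) := by
      subst hx hy; ring
    rw [e]; positivity

theorem h3s3_k3 (c : ℝ) (h0 : 0 ≤ c) (h1 : c ≤ 27) :
    0 ≤
      95250542934150 + (-14112242949105)*c + 3203528917746*c^(2:ℕ) + (-21306562315)*c^(3:ℕ)
      + (-2213724504)*c^(4:ℕ) + (-26386230)*c^(5:ℕ) + (-187010)*c^(6:ℕ) := by
  obtain ⟨x, hx⟩ : ∃ x : ℝ, x = c - 0 := ⟨_, rfl⟩
  obtain ⟨y, hy⟩ : ∃ y : ℝ, y = 27 - c := ⟨_, rfl⟩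
  have hx0 : 0 ≤ x := by linarith
  have hy0 : 0 ≤ y := by linarith
  have e :
      95250542934150 + (-14112242949105)*c + 3203528917746*c^(2:ℕ) + (-21306562315)*c^(3:ℕ)
      + (-2213724504)*c^(4:ℕ) + (-26386230)*c^(5:ℕ) + (-187010)*c^(6:ℕ)
      = (3527797886450/14348907)*y^(6:ℕ) + (2351514789865/4782969)*x*y^(5:ℕ)
      + (22950344776789/4782969)*x^(2:ℕ)*y^(4:ℕ) + (259882167426883/14348907)*x^(3:ℕ)*y^(3:ℕ)
      + (113532010761805/4782969)*x^(4:ℕ)*y^(2:ℕ) + (49607013541648/4782969)*x^(5:ℕ)*y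
      + (99498821120/14348907)*x^(6:ℕ) := by
    subst hx hy; ring
  rw [e]; positivity

theorem h3s3_k4 (c : ℝ) (h0 : 0 ≤ c) (h1 : c ≤ 27) :
    0 ≤
      3271626063765 + 785391787701*c + 99386015331*c^(2:ℕ) + (-2659637069)*c^(3:ℕ) + (-70149944)*c^(4:ℕ)
      + (-502280)*c^(5:ℕ) := by
  obtain ⟨x, hx⟩ : ∃ x : ℝ, x = c - 0 := ⟨_, rfl⟩
  obtain ⟨y, hy⟩ : ∃ y : ℝ, y = 27 - c := ⟨_, rfl⟩
  have hx0 : 0 ≤ x := by linarith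
  have hy0 : 0 ≤ y := by linarith
  have e :
      3271626063765 + 785391787701*c + 99386015331*c^(2:ℕ) + (-2659637069)*c^(3:ℕ) + (-70149944)*c^(4:ℕ)
      + (-502280)*c^(5:ℕ)
      = (121171335695/531441)*y^(5:ℕ) + (1391248466176/531441)*x*y^(4:ℕ) + (7036702921691/531441)*x^(2:ℕ)*y^(3:ℕ)
      + (12035455901666/531441)*x^(3:ℕ)*y^(2:ℕ) + (6539178876736/531441)*x^(4:ℕ)*y
      + (3416580800/531441)*x^(5:ℕ) := by
    subst hx hy; ring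
  rw [e]; positivity

theorem h3s3_k5 (c : ℝ) (h0 : 0 ≤ c) (h1 : c ≤ 27) :
    0 ≤
      293920375104 + 57567305910*c + 621959508*c^(2:ℕ) + (-90557402)*c^(3:ℕ) + (-973400)*c^(4:ℕ) := by
  obtain ⟨x, hx⟩ : ∃ x : ℝ, x = c - 0 := ⟨_, rfl⟩
  obtain ⟨y, hy⟩ : ∃ y : ℝ, y = 27 - c := ⟨_, rfl⟩
  have hx0 : 0 ≤ x := by linarith
  have hy0 : 0 ≤ y := by linarith
  have e :
      293920375104 + 57567305910*c + 621959508*c^(2:ℕ) + (-90557402)*c^(3:ℕ) + (-973400)*c^(4:ℕ)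
      = (32657819456/59049)*y^(4:ℕ) + (303333195554/59049)*x*y^(3:ℕ) + (254810463358/19683)*x^(2:ℕ)*y^(2:ℕ)
      + (551445433136/59049)*x^(3:ℕ)*y + (211122560/59049)*x^(4:ℕ) := by
    subst hx hy; ring
  rw [e]; positivity

theorem h3s3_k6 (c : ℝ) (h0 : 0 ≤ c) (h1 : c ≤ 27) :
    0 ≤
      16272285399 + 1185076470*c + (-35187281)*c^(2:ℕ) + (-1148000)*c^(3:ℕ) := by
  obtain ⟨x, hx⟩ : ∃ x : ℝ, x = c - 0 := ⟨_, rfl⟩
  obtain ⟨y, hy⟩ : ∃ y : ℝ, y = 27 - c := ⟨_, rfl⟩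
  have hx0 : 0 ≤ x := by linarith
  have hy0 : 0 ≤ y := by linarith
  have e :
      16272285399 + 1185076470*c + (-35187281)*c^(2:ℕ) + (-1148000)*c^(3:ℕ)
      = (602677237/729)*y^(3:ℕ) + (997702727/243)*x*y^(2:ℕ) + (358680896/81)*x^(2:ℕ)*y + (805120/729)*x^(3:ℕ) := by
    subst hx hy; ring
  rw [e]; positivity

theorem h3s3_k7 (c : ℝ) (h0 : 0 ≤ c) (h1 : c ≤ 27) :
    0 ≤
      406327986 + 2285252*c + (-641870)*c^(2:ℕ) := by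
  obtain ⟨x, hx⟩ : ∃ x : ℝ, x = c - 0 := ⟨_, rfl⟩
  obtain ⟨y, hy⟩ : ∃ y : ℝ, y = 27 - c := ⟨_, rfl⟩
  have hx0 : 0 ≤ x := by linarith
  have hy0 : 0 ≤ y := by linarith
  have e :
      406327986 + 2285252*c + (-641870)*c^(2:ℕ)
      = (45147554/81)*y^(2:ℕ) + (97150864/81)*x*y + (11840/81)*x^(2:ℕ) := by
    subst hx hy; ring
  rw [e]; positivity

theorem h3s3_k8 (c : ℝ) (h0 : 0 ≤ c) (h1 : c ≤ 27) :
    0 ≤
      3836160 + (-142080)*c := by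
  obtain ⟨x, hx⟩ : ∃ x : ℝ, x = c - 0 := ⟨_, rfl⟩
  obtain ⟨y, hy⟩ : ∃ y : ℝ, y = 27 - c := ⟨_, rfl⟩
  have hx0 : 0 ≤ x := by linarith
  have hy0 : 0 ≤ y := by linarith
  have e :
      3836160 + (-142080)*c
      = 142080*y := by
    subst hx hy; ring
  rw [e]; positivity

theorem h3s3_pos (a b : ℝ) (ha : 0 < a) (hb : 0 ≤ b) (hab : 27 ≤ a + b) :
    0 <
      23680*b^(9:ℕ) + 186240*a*b^(8:ℕ) + 477620*a^(2:ℕ)*b^(7:ℕ) + 539140*a^(3:ℕ)*b^(6:ℕ) + 335430*a^(4:ℕ)*b^(5:ℕ)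
      + 391810*a^(5:ℕ)*b^(4:ℕ) + 633150*a^(6:ℕ)*b^(3:ℕ) + 494770*a^(7:ℕ)*b^(2:ℕ) + 142080*a^(8:ℕ)*b + (-206400)*b^(8:ℕ)
      + (-1019556)*a*b^(7:ℕ) + (-3106756)*a^(2:ℕ)*b^(6:ℕ) + (-4884686)*a^(3:ℕ)*b^(5:ℕ) + (-1907819)*a^(4:ℕ)*b^(4:ℕ)
      + 3952904*a^(5:ℕ)*b^(3:ℕ) + 4943285*a^(6:ℕ)*b^(2:ℕ) + 1686448*a^(7:ℕ)*b + (-6810720)*b^(7:ℕ) + (-34051728)*a*b^(6:ℕ)
      + (-71512519)*a^(2:ℕ)*b^(5:ℕ) + (-71694328)*a^(3:ℕ)*b^(4:ℕ) + (-24473179)*a^(4:ℕ)*b^(3:ℕ) + 10426230*a^(5:ℕ)*b^(2:ℕ)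
      + 7582992*a^(6:ℕ)*b + 106560*a^(7:ℕ) + (-52004080)*b^(6:ℕ) + (-219315525)*a*b^(5:ℕ)
      + (-359355078)*a^(2:ℕ)*b^(4:ℕ) + (-262231517)*a^(3:ℕ)*b^(3:ℕ) + (-61792329)*a^(4:ℕ)*b^(2:ℕ) + 10404096*a^(5:ℕ)*b
      + 1598400*a^(6:ℕ) + (-189912240)*b^(5:ℕ) + (-640602165)*a*b^(4:ℕ) + (-777201051)*a^(2:ℕ)*b^(3:ℕ)
      + (-366504189)*a^(3:ℕ)*b^(2:ℕ) + (-30151584)*a^(4:ℕ)*b + 9835200*a^(5:ℕ) + (-368940960)*b^(4:ℕ)
      + (-926331795)*a*b^(3:ℕ) + (-723412152)*a^(2:ℕ)*b^(2:ℕ) + (-129667104)*a^(3:ℕ)*b + 31708800*a^(4:ℕ)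
      + (-367761600)*b^(3:ℕ) + (-591136623)*a*b^(2:ℕ) + (-170767872)*a^(2:ℕ)*b + 56514240*a^(3:ℕ)
      + (-156083760)*b^(2:ℕ) + (-84277584)*a*b + 53576640*a^(2:ℕ) + (-14405040)*b + 23561280*a
      + 3732480 := by
  rcases le_total 27 b with h | h
  · obtain ⟨f, hf⟩ : ∃ f : ℝ, f = b - 27 := ⟨_, rfl⟩
    have hf0 : 0 ≤ f := by linarith
    have e :
        23680*b^(9:ℕ) + 186240*a*b^(8:ℕ) + 477620*a^(2:ℕ)*b^(7:ℕ) + 539140*a^(3:ℕ)*b^(6:ℕ) + 335430*a^(4:ℕ)*b^(5:ℕ)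
        + 391810*a^(5:ℕ)*b^(4:ℕ) + 633150*a^(6:ℕ)*b^(3:ℕ) + 494770*a^(7:ℕ)*b^(2:ℕ) + 142080*a^(8:ℕ)*b + (-206400)*b^(8:ℕ)
        + (-1019556)*a*b^(7:ℕ) + (-3106756)*a^(2:ℕ)*b^(6:ℕ) + (-4884686)*a^(3:ℕ)*b^(5:ℕ) + (-1907819)*a^(4:ℕ)*b^(4:ℕ)
        + 3952904*a^(5:ℕ)*b^(3:ℕ) + 4943285*a^(6:ℕ)*b^(2:ℕ) + 1686448*a^(7:ℕ)*b + (-6810720)*b^(7:ℕ)
        + (-34051728)*a*b^(6:ℕ) + (-71512519)*a^(2:ℕ)*b^(5:ℕ) + (-71694328)*a^(3:ℕ)*b^(4:ℕ) + (-24473179)*a^(4:ℕ)*b^(3:ℕ)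
        + 10426230*a^(5:ℕ)*b^(2:ℕ) + 7582992*a^(6:ℕ)*b + 106560*a^(7:ℕ) + (-52004080)*b^(6:ℕ) + (-219315525)*a*b^(5:ℕ)
        + (-359355078)*a^(2:ℕ)*b^(4:ℕ) + (-262231517)*a^(3:ℕ)*b^(3:ℕ) + (-61792329)*a^(4:ℕ)*b^(2:ℕ) + 10404096*a^(5:ℕ)*b
        + 1598400*a^(6:ℕ) + (-189912240)*b^(5:ℕ) + (-640602165)*a*b^(4:ℕ) + (-777201051)*a^(2:ℕ)*b^(3:ℕ)
        + (-366504189)*a^(3:ℕ)*b^(2:ℕ) + (-30151584)*a^(4:ℕ)*b + 9835200*a^(5:ℕ) + (-368940960)*b^(4:ℕ)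
        + (-926331795)*a*b^(3:ℕ) + (-723412152)*a^(2:ℕ)*b^(2:ℕ) + (-129667104)*a^(3:ℕ)*b + 31708800*a^(4:ℕ)
        + (-367761600)*b^(3:ℕ) + (-591136623)*a*b^(2:ℕ) + (-170767872)*a^(2:ℕ)*b + 56514240*a^(3:ℕ)
        + (-156083760)*b^(2:ℕ) + (-84277584)*a*b + 53576640*a^(2:ℕ) + (-14405040)*b + 23561280*a
        + 3732480
      =
        23680*f^(9:ℕ) + 186240*a*f^(8:ℕ) + 477620*a^(2:ℕ)*f^(7:ℕ) + 539140*a^(3:ℕ)*f^(6:ℕ) + 335430*a^(4:ℕ)*f^(5:ℕ)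
        + 391810*a^(5:ℕ)*f^(4:ℕ) + 633150*a^(6:ℕ)*f^(3:ℕ) + 494770*a^(7:ℕ)*f^(2:ℕ) + 142080*a^(8:ℕ)*f + 5547840*f^(8:ℕ)
        + 39208284*a*f^(7:ℕ) + 87163424*a^(2:ℕ)*f^(6:ℕ) + 82455994*a^(3:ℕ)*f^(5:ℕ) + 43375231*a^(4:ℕ)*f^(4:ℕ)
        + 46268384*a^(5:ℕ)*f^(3:ℕ) + 56228435*a^(6:ℕ)*f^(2:ℕ) + 28404028*a^(7:ℕ)*f + 3836160*a^(8:ℕ) + 570064800*f^(7:ℕ)
        + 3574783068*a*f^(6:ℕ) + 6737077589*a^(2:ℕ)*f^(5:ℕ) + 5164368962*a^(3:ℕ)*f^(4:ℕ) + 2214767069*a^(4:ℕ)*f^(3:ℕ)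
        + 2044388394*a^(5:ℕ)*f^(2:ℕ) + 1659219432*a^(6:ℕ)*f + 406327986*a^(7:ℕ) + 33599582000*f^(6:ℕ)
        + 183938589255*a*f^(5:ℕ) + 285048884097*a^(2:ℕ)*f^(4:ℕ) + 168623272519*a^(3:ℕ)*f^(3:ℕ)
        + 55633766766*a^(4:ℕ)*f^(2:ℕ) + 40066406484*a^(5:ℕ)*f + 16272285399*a^(6:ℕ) + 1245266010000*f^(5:ℕ)
        + 5823308958900*a*f^(4:ℕ) + 7100020384755*a^(2:ℕ)*f^(3:ℕ) + 3001165517982*a^(3:ℕ)*f^(2:ℕ)
        + 684210087819*a^(4:ℕ)*f + 293920375104*a^(5:ℕ) + 29847676500000*f^(4:ℕ) + 115613154727875*a*f^(3:ℕ)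
        + 103442656533975*a^(2:ℕ)*f^(2:ℕ) + 27198747204165*a^(3:ℕ)*f + 3271626063765*a^(4:ℕ)
        + 456196482000000*f^(3:ℕ) + 1395576815298750*a*f^(2:ℕ) + 807751959426000*a^(2:ℕ)*f
        + 95250542934150*a^(3:ℕ) + 4172426640000000*f^(2:ℕ) + 9253220693512500*a*f
        + 2559520888717500*a^(2:ℕ) + 19437254100000000*f + 25236377384625000*a + 27962253000000000 := by
      rw [hf]; ring
    rw [e]; positivity
  · obtain ⟨c, hc⟩ : ∃ c : ℝ, c = 27 - b := ⟨_, rfl⟩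
    obtain ⟨e, he⟩ : ∃ e : ℝ, e = a - c := ⟨_, rfl⟩
    have hc0 : 0 ≤ c := by linarith
    have hc1 : c ≤ 27 := by linarith
    have he0 : 0 ≤ e := by linarith
    have k0 := h3s3_k0 c hc0 hc1
    have k1 := h3s3_k1 c hc0 hc1
    have k2 := h3s3_k2 c hc0 hc1
    have k3 := h3s3_k3 c hc0 hc1
    have k4 := h3s3_k4 c hc0 hc1
    have k5 := h3s3_k5 c hc0 hc1
    have k6 := h3s3_k6 c hc0 hc1
    have k7 := h3s3_k7 c hc0 hc1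
    have k8 := h3s3_k8 c hc0 hc1
    have key :
        23680*b^(9:ℕ) + 186240*a*b^(8:ℕ) + 477620*a^(2:ℕ)*b^(7:ℕ) + 539140*a^(3:ℕ)*b^(6:ℕ) + 335430*a^(4:ℕ)*b^(5:ℕ)
        + 391810*a^(5:ℕ)*b^(4:ℕ) + 633150*a^(6:ℕ)*b^(3:ℕ) + 494770*a^(7:ℕ)*b^(2:ℕ) + 142080*a^(8:ℕ)*b + (-206400)*b^(8:ℕ)
        + (-1019556)*a*b^(7:ℕ) + (-3106756)*a^(2:ℕ)*b^(6:ℕ) + (-4884686)*a^(3:ℕ)*b^(5:ℕ) + (-1907819)*a^(4:ℕ)*b^(4:ℕ)
        + 3952904*a^(5:ℕ)*b^(3:ℕ) + 4943285*a^(6:ℕ)*b^(2:ℕ) + 1686448*a^(7:ℕ)*b + (-6810720)*b^(7:ℕ)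
        + (-34051728)*a*b^(6:ℕ) + (-71512519)*a^(2:ℕ)*b^(5:ℕ) + (-71694328)*a^(3:ℕ)*b^(4:ℕ) + (-24473179)*a^(4:ℕ)*b^(3:ℕ)
        + 10426230*a^(5:ℕ)*b^(2:ℕ) + 7582992*a^(6:ℕ)*b + 106560*a^(7:ℕ) + (-52004080)*b^(6:ℕ) + (-219315525)*a*b^(5:ℕ)
        + (-359355078)*a^(2:ℕ)*b^(4:ℕ) + (-262231517)*a^(3:ℕ)*b^(3:ℕ) + (-61792329)*a^(4:ℕ)*b^(2:ℕ) + 10404096*a^(5:ℕ)*b
        + 1598400*a^(6:ℕ) + (-189912240)*b^(5:ℕ) + (-640602165)*a*b^(4:ℕ) + (-777201051)*a^(2:ℕ)*b^(3:ℕ)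
        + (-366504189)*a^(3:ℕ)*b^(2:ℕ) + (-30151584)*a^(4:ℕ)*b + 9835200*a^(5:ℕ) + (-368940960)*b^(4:ℕ)
        + (-926331795)*a*b^(3:ℕ) + (-723412152)*a^(2:ℕ)*b^(2:ℕ) + (-129667104)*a^(3:ℕ)*b + 31708800*a^(4:ℕ)
        + (-367761600)*b^(3:ℕ) + (-591136623)*a*b^(2:ℕ) + (-170767872)*a^(2:ℕ)*b + 56514240*a^(3:ℕ)
        + (-156083760)*b^(2:ℕ) + (-84277584)*a*b + 53576640*a^(2:ℕ) + (-14405040)*b + 23561280*a
        + 3732480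
      =
        (27962253000000000 + 5799123284625000*c + (-2521273164795000)*c^(2:ℕ)
          + 226878916806900*c^(3:ℕ) + (-6249942834300)*c^(4:ℕ) + 88898369412*c^(5:ℕ) + (-2073749996)*c^(6:ℕ)
          + 8739520*c^(7:ℕ) + (-185600)*c^(8:ℕ))
        + (25236377384625000 + (-4134178916077500)*c + 65824525249200*c^(2:ℕ) + 22762420982640*c^(3:ℕ)
          + (-640473732420)*c^(4:ℕ) + 126108420*c^(5:ℕ) + (-154412220)*c^(6:ℕ) + (-858720)*c^(7:ℕ)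
          + (-6400)*c^(8:ℕ))*e^(1:ℕ)
        + (2559520888717500 + (-522000330623550)*c + 41476171304070*c^(2:ℕ) + 737419393317*c^(3:ℕ)
          + (-43598116719)*c^(4:ℕ) + (-444092951)*c^(5:ℕ) + (-8282595)*c^(6:ℕ) + (-40000)*c^(7:ℕ))*e^(2:ℕ)
        + (95250542934150 + (-14112242949105)*c + 3203528917746*c^(2:ℕ) + (-21306562315)*c^(3:ℕ)
          + (-2213724504)*c^(4:ℕ) + (-26386230)*c^(5:ℕ) + (-187010)*c^(6:ℕ))*e^(3:ℕ)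
        + (3271626063765 + 785391787701*c + 99386015331*c^(2:ℕ) + (-2659637069)*c^(3:ℕ)
          + (-70149944)*c^(4:ℕ) + (-502280)*c^(5:ℕ))*e^(4:ℕ)
        + (293920375104 + 57567305910*c + 621959508*c^(2:ℕ) + (-90557402)*c^(3:ℕ) + (-973400)*c^(4:ℕ))*e^(5:ℕ)
        + (16272285399 + 1185076470*c + (-35187281)*c^(2:ℕ) + (-1148000)*c^(3:ℕ))*e^(6:ℕ)
        + (406327986 + 2285252*c + (-641870)*c^(2:ℕ))*e^(7:ℕ)
        + (3836160 + (-142080)*c)*e^(8:ℕ) := by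
      have hbc : b = 27 - c := by linarith
      have hac : a = c + e := by linarith
      rw [hbc, hac]; ring
    rw [key]
    have m1 := mul_nonneg k1 (pow_nonneg he0 1)
    have m2 := mul_nonneg k2 (pow_nonneg he0 2)
    have m3 := mul_nonneg k3 (pow_nonneg he0 3)
    have m4 := mul_nonneg k4 (pow_nonneg he0 4)
    have m5 := mul_nonneg k5 (pow_nonneg he0 5)
    have m6 := mul_nonneg k6 (pow_nonneg he0 6)
    have m7 := mul_nonneg k7 (pow_nonneg he0 7)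
    have m8 := mul_nonneg k8 (pow_nonneg he0 8)
    linarith

theorem h3s3_false {R p ρ y Z : ℝ} (hR : 30 ≤ R) (hn : 3 < ρ) (hρ : ρ ≤ R)
    (hmom : ∀ t : ℝ, 2 * t * y ≤ Z + t ^(2:ℕ) * ((R - ρ) * ρ / R)) (hm : MI 4 3 R p ρ y Z)
    (hp : 3 * p = R * (2 * R - 5) + 3) : False := by
  have hp1 : 1 ≤ p := by nlinarith
  have hH : 0 < 4 * (3 * p - ρ) - (2 - 4) * (5/8) * (ρ * (ρ - 3)) := by
    nlinarith [mul_nonneg (sub_nonneg.mpr hρ) (sub_nonneg.mpr hρ)]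
  have h := clear (by linarith) (by linarith) (by linarith) hmom hm hp1 (ρ - 3) R (5/8)
    (by linarith) (by norm_num) hH
  obtain ⟨a, ha⟩ : ∃ a : ℝ, a = ρ - 3 := ⟨_, rfl⟩
  obtain ⟨b, hb⟩ : ∃ b : ℝ, b = R - ρ := ⟨_, rfl⟩
  have hapos : 0 < a := by linarith
  have hF := h3s3_pos a b hapos (by linarith) (by linarith)
  have hp' : p = (R * (2 * R - 5) + 3) / 3 := by linarith
  have hρ' : ρ = a + 3 := by linarith
  have hR' : R = a + b + 3 := by linarith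
  rw [hp', hR', hρ'] at h
  have hpos := mul_pos (by norm_num : (0 : ℝ) < 1 / (1024)) (mul_pos hapos hF)
  exact absurd h (not_le.mpr (lt_of_lt_of_eq hpos (by ring)))

theorem h3s2_k0 (c : ℝ) (h0 : 0 ≤ c) (h1 : c ≤ 27) :
    0 <
      27552467284560000 + 5795718032886804*c + (-2518494755675484)*c^(2:ℕ) + 226605496093032*c^(3:ℕ)
      + (-6243258069944)*c^(4:ℕ) + 88844527940*c^(5:ℕ) + (-2072599276)*c^(6:ℕ) + 8739520*c^(7:ℕ)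
      + (-185600)*c^(8:ℕ) := by
  rcases le_total c (27/4) with h2 | h2
  · obtain ⟨x, hx⟩ : ∃ x : ℝ, x = c - 0 := ⟨_, rfl⟩
    obtain ⟨y, hy⟩ : ∃ y : ℝ, y = (27/4) - c := ⟨_, rfl⟩
    have hx0 : 0 ≤ x := by linarith
    have hy0 : 0 ≤ y := by linarith
    have e :
        27552467284560000 + 5795718032886804*c + (-2518494755675484)*c^(2:ℕ) + 226605496093032*c^(3:ℕ)
        + (-6243258069944)*c^(4:ℕ) + 88844527940*c^(5:ℕ) + (-2072599276)*c^(6:ℕ) + 8739520*c^(7:ℕ)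
        + (-185600)*c^(8:ℕ)
        = 9709507098423886 + (1169356238758616367104/282429536481)*y^(8:ℕ)
        + (11918690104841000648704/282429536481)*x*y^(7:ℕ)
        + (43168671004114841845760/282429536481)*x^(2:ℕ)*y^(6:ℕ)
        + (78770805796620082438144/282429536481)*x^(3:ℕ)*y^(5:ℕ)
        + (80773792509850689529856/282429536481)*x^(4:ℕ)*y^(4:ℕ)
        + (47171916456153942047488/282429536481)*x^(5:ℕ)*y^(3:ℕ)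
        + (14588657251455497546816/282429536481)*x^(6:ℕ)*y^(2:ℕ)
        + (1839117065486591080576/282429536481)*x^(7:ℕ)*y + (51776/282429536481)*x^(8:ℕ) := by
      subst hx hy; ring
    rw [e]; positivity
  · have _unused := h0
    rcases le_total c (27/2) with h3 | h3
    · obtain ⟨x, hx⟩ : ∃ x : ℝ, x = c - (27/4) := ⟨_, rfl⟩
      obtain ⟨y, hy⟩ : ∃ y : ℝ, y = (27/2) - c := ⟨_, rfl⟩
      have hx0 : 0 ≤ x := by linarith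
      have hy0 : 0 ≤ y := by linarith
      have e :
          27552467284560000 + 5795718032886804*c + (-2518494755675484)*c^(2:ℕ)
          + 226605496093032*c^(3:ℕ) + (-6243258069944)*c^(4:ℕ) + 88844527940*c^(5:ℕ) + (-2072599276)*c^(6:ℕ)
          + 8739520*c^(7:ℕ) + (-185600)*c^(8:ℕ)
          = 2463254509998767 + (474890409635028650560/282429536481)*y^(8:ℕ)
          + (1960006211593638538112/282429536481)*x*y^(7:ℕ)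
          + (2137949804424028983616/282429536481)*x^(2:ℕ)*y^(6:ℕ) + (2473472/282429536481)*x^(3:ℕ)*y^(5:ℕ)
          + (2663613373847679206656/282429536481)*x^(4:ℕ)*y^(4:ℕ)
          + (11416342535978048583680/282429536481)*x^(5:ℕ)*y^(3:ℕ)
          + (14049543780606630771712/282429536481)*x^(6:ℕ)*y^(2:ℕ)
          + (7411238393627085332480/282429536481)*x^(7:ℕ)*y
          + (1461537353763436441600/282429536481)*x^(8:ℕ) := by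
        subst hx hy; ring
      rw [e]; positivity
    · have _unused := h0
      obtain ⟨x, hx⟩ : ∃ x : ℝ, x = c - (27/2) := ⟨_, rfl⟩
      obtain ⟨y, hy⟩ : ∃ y : ℝ, y = 27 - c := ⟨_, rfl⟩
      have hx0 : 0 ≤ x := by linarith
      have hy0 : 0 ≤ y := by linarith
      have e :
          27552467284560000 + 5795718032886804*c + (-2518494755675484)*c^(2:ℕ)
          + 226605496093032*c^(3:ℕ) + (-6243258069944)*c^(4:ℕ) + 88844527940*c^(5:ℕ) + (-2072599276)*c^(6:ℕ)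
          + 8739520*c^(7:ℕ) + (-185600)*c^(8:ℕ)
          = 1260832849920000 + (2751234674494096/129140163)*y^(8:ℕ)
          + (37302874497005888/129140163)*x*y^(7:ℕ) + (22910004251783888/14348907)*x^(2:ℕ)*y^(6:ℕ)
          + (594860405139686048/129140163)*x^(3:ℕ)*y^(5:ℕ) + (972727188516867328/129140163)*x^(4:ℕ)*y^(4:ℕ)
          + (11244925490539520/1594323)*x^(5:ℕ)*y^(3:ℕ) + (456678511427651584/129140163)*x^(6:ℕ)*y^(2:ℕ)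
          + (95368696928927744/129140163)*x^(7:ℕ)*y := by
        subst hx hy; ring
      rw [e]; positivity

theorem h3s2_k1 (c : ℝ) (h0 : 0 ≤ c) (h1 : c ≤ 27) :
    0 ≤
      25121759297262804 + (-4128594191592096)*c + 65496205347000*c^(2:ℕ) + 22750485791772*c^(3:ℕ)
      + (-640046189328)*c^(4:ℕ) + 129141540*c^(5:ℕ) + (-154372540)*c^(6:ℕ) + (-858720)*c^(7:ℕ) + (-6400)*c^(8:ℕ) := by
  rcases le_total c (27/2) with h2 | h2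
  · obtain ⟨x, hx⟩ : ∃ x : ℝ, x = c - 0 := ⟨_, rfl⟩
    obtain ⟨y, hy⟩ : ∃ y : ℝ, y = (27/2) - c := ⟨_, rfl⟩
    have hx0 : 0 ≤ x := by linarith
    have hy0 : 0 ≤ y := by linarith
    have e :
        25121759297262804 + (-4128594191592096)*c + 65496205347000*c^(2:ℕ) + 22750485791772*c^(3:ℕ)
        + (-640046189328)*c^(4:ℕ) + 129141540*c^(5:ℕ) + (-154372540)*c^(6:ℕ) + (-858720)*c^(7:ℕ) + (-6400)*c^(8:ℕ)
        = (238191495559232512/10460353203)*y^(8:ℕ) + (1377071907950071808/10460353203)*x*y^(7:ℕ)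
        + (3083318922831608320/10460353203)*x^(2:ℕ)*y^(6:ℕ) + (3450850553905619840/10460353203)*x^(3:ℕ)*y^(5:ℕ)
        + (2327012549847523456/10460353203)*x^(4:ℕ)*y^(4:ℕ) + (1607679138903842336/10460353203)*x^(5:ℕ)*y^(3:ℕ)
        + (1359971696622202384/10460353203)*x^(6:ℕ)*y^(2:ℕ) + (715980180763251584/10460353203)*x^(7:ℕ)*y
        + (143020170401719696/10460353203)*x^(8:ℕ) := by
      subst hx hy; ring
    rw [e]; positivity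
  · have _unused := h0
    obtain ⟨x, hx⟩ : ∃ x : ℝ, x = c - (27/2) := ⟨_, rfl⟩
    obtain ⟨y, hy⟩ : ∃ y : ℝ, y = 27 - c := ⟨_, rfl⟩
    have hx0 : 0 ≤ x := by linarith
    have hy0 : 0 ≤ y := by linarith
    have e :
        25121759297262804 + (-4128594191592096)*c + 65496205347000*c^(2:ℕ) + 22750485791772*c^(3:ℕ)
        + (-640046189328)*c^(4:ℕ) + 129141540*c^(5:ℕ) + (-154372540)*c^(6:ℕ) + (-858720)*c^(7:ℕ) + (-6400)*c^(8:ℕ)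
        = (143020170401719696/10460353203)*y^(8:ℕ) + (1572342545664263552/10460353203)*x*y^(7:ℕ)
        + (7354508250929286160/10460353203)*x^(2:ℕ)*y^(6:ℕ)
        + (18642682376419877024/10460353203)*x^(3:ℕ)*y^(5:ℕ)
        + (27556663194356859136/10460353203)*x^(4:ℕ)*y^(4:ℕ)
        + (23796799880734064000/10460353203)*x^(5:ℕ)*y^(3:ℕ)
        + (11158856759736268288/10460353203)*x^(6:ℕ)*y^(2:ℕ) + (2204166880209403904/10460353203)*x^(7:ℕ)*y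
        + (2876361342976000/10460353203)*x^(8:ℕ) := by
      subst hx hy; ring
    rw [e]; positivity

theorem h3s2_k2 (c : ℝ) (h0 : 0 ≤ c) (h1 : c ≤ 27) :
    0 ≤
      2549552809290588 + (-521773248744915)*c + 41435157165285*c^(2:ℕ) + 737618015298*c^(3:ℕ)
      + (-43576007750)*c^(4:ℕ) + (-443924311)*c^(5:ℕ) + (-8282595)*c^(6:ℕ) + (-40000)*c^(7:ℕ) := by
  rcases le_total c (27/2) with h2 | h2
  · obtain ⟨x, hx⟩ : ∃ x : ℝ, x = c - 0 := ⟨_, rfl⟩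
    obtain ⟨y, hy⟩ : ∃ y : ℝ, y = (27/2) - c := ⟨_, rfl⟩
    have hx0 : 0 ≤ x := by linarith
    have hy0 : 0 ≤ y := by linarith
    have e :
        2549552809290588 + (-521773248744915)*c + 41435157165285*c^(2:ℕ) + 737618015298*c^(3:ℕ)
        + (-43576007750)*c^(4:ℕ) + (-443924311)*c^(5:ℕ) + (-8282595)*c^(6:ℕ) + (-40000)*c^(7:ℕ)
        = (36260306621021696/1162261467)*y^(7:ℕ) + (153641682588128192/1162261467)*x*y^(6:ℕ)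
        + (89261194619910752/387420489)*x^(2:ℕ)*y^(5:ℕ) + (329214141803805376/1162261467)*x^(3:ℕ)*y^(4:ℕ)
        + (422158691191665424/1162261467)*x^(4:ℕ)*y^(3:ℕ) + (141012408870624500/387420489)*x^(5:ℕ)*y^(2:ℕ)
        + (224851899634686242/1162261467)*x^(6:ℕ)*y + (45114939844618550/1162261467)*x^(7:ℕ) := by
      subst hx hy; ring
    rw [e]; positivity
  · have _unused := h0
    obtain ⟨x, hx⟩ : ∃ x : ℝ, x = c - (27/2) := ⟨_, rfl⟩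
    obtain ⟨y, hy⟩ : ∃ y : ℝ, y = 27 - c := ⟨_, rfl⟩
    have hx0 : 0 ≤ x := by linarith
    have hy0 : 0 ≤ y := by linarith
    have e :
        2549552809290588 + (-521773248744915)*c + 41435157165285*c^(2:ℕ) + 737618015298*c^(3:ℕ)
        + (-43576007750)*c^(4:ℕ) + (-443924311)*c^(5:ℕ) + (-8282595)*c^(6:ℕ) + (-40000)*c^(7:ℕ)
        = (45114939844618550/1162261467)*y^(7:ℕ) + (406757258189973458/1162261467)*x*y^(6:ℕ)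
        + (504823125981198932/387420489)*x^(2:ℕ)*y^(5:ℕ) + (2949282753339089056/1162261467)*x^(3:ℕ)*y^(4:ℕ)
        + (3161496048182011264/1162261467)*x^(4:ℕ)*y^(3:ℕ) + (590484823523992448/387420489)*x^(5:ℕ)*y^(2:ℕ)
        + (406905380140802048/1162261467)*x^(6:ℕ)*y + (444773551308800/1162261467)*x^(7:ℕ) := by
      subst hx hy; ring
    rw [e]; positivity

theorem h3s2_k3 (c : ℝ) (h0 : 0 ≤ c) (h1 : c ≤ 27) :
    0 ≤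
      94725654458797 + (-14126101838279)*c + 3202260912991*c^(2:ℕ) + (-21273702923)*c^(3:ℕ)
      + (-2213196274)*c^(4:ℕ) + (-26386230)*c^(5:ℕ) + (-187010)*c^(6:ℕ) := by
  obtain ⟨x, hx⟩ : ∃ x : ℝ, x = c - 0 := ⟨_, rfl⟩
  obtain ⟨y, hy⟩ : ∃ y : ℝ, y = 27 - c := ⟨_, rfl⟩
  have hx0 : 0 ≤ x := by linarith
  have hy0 : 0 ≤ y := by linarith
  have e :
      94725654458797 + (-14126101838279)*c + 3202260912991*c^(2:ℕ) + (-21273702923)*c^(3:ℕ)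
      + (-2213196274)*c^(4:ℕ) + (-26386230)*c^(5:ℕ) + (-187010)*c^(6:ℕ)
      = (94725654458797/387420489)*y^(6:ℕ) + (62316392373083/129140163)*x*y^(5:ℕ)
      + (616103091428243/129140163)*x^(2:ℕ)*y^(4:ℕ) + (6999528120488957/387420489)*x^(3:ℕ)*y^(3:ℕ)
      + (3060384143006066/129140163)*x^(4:ℕ)*y^(2:ℕ) + (1337317358171456/129140163)*x^(5:ℕ)*y
      + (1790508712960/387420489)*x^(6:ℕ) := by
    subst hx hy; ring
  rw [e]; positivity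

theorem h3s2_k4 (c : ℝ) (h0 : 0 ≤ c) (h1 : c ≤ 27) :
    0 ≤
      3249843401112 + 784452090319*c + 99387059894*c^(2:ℕ) + (-2658842689)*c^(3:ℕ) + (-70149944)*c^(4:ℕ)
      + (-502280)*c^(5:ℕ) := by
  obtain ⟨x, hx⟩ : ∃ x : ℝ, x = c - 0 := ⟨_, rfl⟩
  obtain ⟨y, hy⟩ : ∃ y : ℝ, y = 27 - c := ⟨_, rfl⟩
  have hx0 : 0 ≤ x := by linarith
  have hy0 : 0 ≤ y := by linarith
  have e :
      3249843401112 + 784452090319*c + 99387059894*c^(2:ℕ) + (-2658842689)*c^(3:ℕ) + (-70149944)*c^(4:ℕ)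
      + (-502280)*c^(5:ℕ)
      = (1083281133704/4782969)*y^(5:ℕ) + (12476474481391/4782969)*x*y^(4:ℕ)
      + (63224142142766/4782969)*x^(2:ℕ)*y^(3:ℕ) + (108201723994463/4782969)*x^(3:ℕ)*y^(2:ℕ)
      + (58793661687904/4782969)*x^(4:ℕ)*y + (20496819200/4782969)*x^(5:ℕ) := by
    subst hx hy; ring
  rw [e]; positivity

theorem h3s2_k5 (c : ℝ) (h0 : 0 ≤ c) (h1 : c ≤ 27) :
    0 ≤
      293287358294 + 57554817170*c + 622421498*c^(2:ℕ) + (-90557402)*c^(3:ℕ) + (-973400)*c^(4:ℕ) := by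
  obtain ⟨x, hx⟩ : ∃ x : ℝ, x = c - 0 := ⟨_, rfl⟩
  obtain ⟨y, hy⟩ : ∃ y : ℝ, y = 27 - c := ⟨_, rfl⟩
  have hx0 : 0 ≤ x := by linarith
  have hy0 : 0 ≤ y := by linarith
  have e :
      293287358294 + 57554817170*c + 622421498*c^(2:ℕ) + (-90557402)*c^(3:ℕ) + (-973400)*c^(4:ℕ)
      = (293287358294/531441)*y^(4:ℕ) + (2727129496766/531441)*x*y^(3:ℕ) + (2291803204192/177147)*x^(2:ℕ)*y^(2:ℕ)
      + (4960138824464/531441)*x^(3:ℕ)*y + (1266680960/531441)*x^(4:ℕ) := by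
    subst hx hy; ring
  rw [e]; positivity

theorem h3s2_k6 (c : ℝ) (h0 : 0 ≤ c) (h1 : c ≤ 27) :
    0 ≤
      16263000279 + 1185151990*c + (-35187281)*c^(2:ℕ) + (-1148000)*c^(3:ℕ) := by
  obtain ⟨x, hx⟩ : ∃ x : ℝ, x = c - 0 := ⟨_, rfl⟩
  obtain ⟨y, hy⟩ : ∃ y : ℝ, y = 27 - c := ⟨_, rfl⟩
  have hx0 : 0 ≤ x := by linarith
  have hy0 : 0 ≤ y := by linarith
  have e :
      16263000279 + 1185151990*c + (-35187281)*c^(2:ℕ) + (-1148000)*c^(3:ℕ)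
      = (1807000031/2187)*y^(3:ℕ) + (997384007/243)*x*y^(2:ℕ) + (3227247424/729)*x^(2:ℕ)*y
      + (1610240/2187)*x^(3:ℕ) := by
    subst hx hy; ring
  rw [e]; positivity

theorem h3s2_k7 (c : ℝ) (h0 : 0 ≤ c) (h1 : c ≤ 27) :
    0 ≤
      406292466 + 2285252*c + (-641870)*c^(2:ℕ) := by
  obtain ⟨x, hx⟩ : ∃ x : ℝ, x = c - 0 := ⟨_, rfl⟩
  obtain ⟨y, hy⟩ : ∃ y : ℝ, y = 27 - c := ⟨_, rfl⟩
  have hx0 : 0 ≤ x := by linarith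
  have hy0 : 0 ≤ y := by linarith
  have e :
      406292466 + 2285252*c + (-641870)*c^(2:ℕ)
      = (135430822/243)*y^(2:ℕ) + (291428912/243)*x*y + (23680/243)*x^(2:ℕ) := by
    subst hx hy; ring
  rw [e]; positivity

theorem h3s2_k8 (c : ℝ) (h0 : 0 ≤ c) (h1 : c ≤ 27) :
    0 ≤
      3836160 + (-142080)*c := by
  obtain ⟨x, hx⟩ : ∃ x : ℝ, x = c - 0 := ⟨_, rfl⟩
  obtain ⟨y, hy⟩ : ∃ y : ℝ, y = 27 - c := ⟨_, rfl⟩
  have hx0 : 0 ≤ x := by linarith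
  have hy0 : 0 ≤ y := by linarith
  have e :
      3836160 + (-142080)*c
      = 142080*y := by
    subst hx hy; ring
  rw [e]; positivity

theorem h3s2_pos (a b : ℝ) (ha : 0 < a) (hb : 0 ≤ b) (hab : 27 ≤ a + b) :
    0 <
      23680*b^(9:ℕ) + 186240*a*b^(8:ℕ) + 477620*a^(2:ℕ)*b^(7:ℕ) + 539140*a^(3:ℕ)*b^(6:ℕ) + 335430*a^(4:ℕ)*b^(5:ℕ)
      + 391810*a^(5:ℕ)*b^(4:ℕ) + 633150*a^(6:ℕ)*b^(3:ℕ) + 494770*a^(7:ℕ)*b^(2:ℕ) + 142080*a^(8:ℕ)*b + (-206400)*b^(8:ℕ)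
      + (-1019556)*a*b^(7:ℕ) + (-3106756)*a^(2:ℕ)*b^(6:ℕ) + (-4884686)*a^(3:ℕ)*b^(5:ℕ) + (-1907819)*a^(4:ℕ)*b^(4:ℕ)
      + 3952904*a^(5:ℕ)*b^(3:ℕ) + 4943285*a^(6:ℕ)*b^(2:ℕ) + 1686448*a^(7:ℕ)*b + (-6854880)*b^(7:ℕ) + (-34333968)*a*b^(6:ℕ)
      + (-72121569)*a^(2:ℕ)*b^(5:ℕ) + (-72477318)*a^(3:ℕ)*b^(4:ℕ) + (-25333609)*a^(4:ℕ)*b^(3:ℕ) + 9689180*a^(5:ℕ)*b^(2:ℕ)
      + 7258832*a^(6:ℕ)*b + 71040*a^(7:ℕ) + (-52042480)*b^(6:ℕ) + (-220074771)*a*b^(5:ℕ) + (-361724557)*a^(2:ℕ)*b^(4:ℕ)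
      + (-267164737)*a^(3:ℕ)*b^(3:ℕ) + (-67886036)*a^(4:ℕ)*b^(2:ℕ) + 6982816*a^(5:ℕ)*b + 1065600*a^(6:ℕ)
      + (-186207600)*b^(5:ℕ) + (-631819212)*a*b^(4:ℕ) + (-775942873)*a^(2:ℕ)*b^(3:ℕ) + (-381498436)*a^(3:ℕ)*b^(2:ℕ)
      + (-44717664)*a^(4:ℕ)*b + 6502400*a^(5:ℕ) + (-345075600)*b^(4:ℕ) + (-880458771)*a*b^(3:ℕ)
      + (-715359105)*a^(2:ℕ)*b^(2:ℕ) + (-156418384)*a^(3:ℕ)*b + 20486400*a^(4:ℕ) + (-309834800)*b^(3:ℕ)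
      + (-521565738)*a*b^(2:ℕ) + (-180046512)*a^(2:ℕ)*b + 34687360*a^(3:ℕ) + (-101911680)*b^(2:ℕ)
      + (-62866176)*a*b + 29381760*a^(2:ℕ) + (-6955200)*b + 9918720*a + 1105920 := by
  rcases le_total 27 b with h | h
  · obtain ⟨f, hf⟩ : ∃ f : ℝ, f = b - 27 := ⟨_, rfl⟩
    have hf0 : 0 ≤ f := by linarith
    have e :
        23680*b^(9:ℕ) + 186240*a*b^(8:ℕ) + 477620*a^(2:ℕ)*b^(7:ℕ) + 539140*a^(3:ℕ)*b^(6:ℕ) + 335430*a^(4:ℕ)*b^(5:ℕ)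
        + 391810*a^(5:ℕ)*b^(4:ℕ) + 633150*a^(6:ℕ)*b^(3:ℕ) + 494770*a^(7:ℕ)*b^(2:ℕ) + 142080*a^(8:ℕ)*b + (-206400)*b^(8:ℕ)
        + (-1019556)*a*b^(7:ℕ) + (-3106756)*a^(2:ℕ)*b^(6:ℕ) + (-4884686)*a^(3:ℕ)*b^(5:ℕ) + (-1907819)*a^(4:ℕ)*b^(4:ℕ)
        + 3952904*a^(5:ℕ)*b^(3:ℕ) + 4943285*a^(6:ℕ)*b^(2:ℕ) + 1686448*a^(7:ℕ)*b + (-6854880)*b^(7:ℕ)
        + (-34333968)*a*b^(6:ℕ) + (-72121569)*a^(2:ℕ)*b^(5:ℕ) + (-72477318)*a^(3:ℕ)*b^(4:ℕ) + (-25333609)*a^(4:ℕ)*b^(3:ℕ)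
        + 9689180*a^(5:ℕ)*b^(2:ℕ) + 7258832*a^(6:ℕ)*b + 71040*a^(7:ℕ) + (-52042480)*b^(6:ℕ) + (-220074771)*a*b^(5:ℕ)
        + (-361724557)*a^(2:ℕ)*b^(4:ℕ) + (-267164737)*a^(3:ℕ)*b^(3:ℕ) + (-67886036)*a^(4:ℕ)*b^(2:ℕ) + 6982816*a^(5:ℕ)*b
        + 1065600*a^(6:ℕ) + (-186207600)*b^(5:ℕ) + (-631819212)*a*b^(4:ℕ) + (-775942873)*a^(2:ℕ)*b^(3:ℕ)
        + (-381498436)*a^(3:ℕ)*b^(2:ℕ) + (-44717664)*a^(4:ℕ)*b + 6502400*a^(5:ℕ) + (-345075600)*b^(4:ℕ)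
        + (-880458771)*a*b^(3:ℕ) + (-715359105)*a^(2:ℕ)*b^(2:ℕ) + (-156418384)*a^(3:ℕ)*b + 20486400*a^(4:ℕ)
        + (-309834800)*b^(3:ℕ) + (-521565738)*a*b^(2:ℕ) + (-180046512)*a^(2:ℕ)*b + 34687360*a^(3:ℕ)
        + (-101911680)*b^(2:ℕ) + (-62866176)*a*b + 29381760*a^(2:ℕ) + (-6955200)*b + 9918720*a
        + 1105920
      =
        23680*f^(9:ℕ) + 186240*a*f^(8:ℕ) + 477620*a^(2:ℕ)*f^(7:ℕ) + 539140*a^(3:ℕ)*f^(6:ℕ) + 335430*a^(4:ℕ)*f^(5:ℕ)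
        + 391810*a^(5:ℕ)*f^(4:ℕ) + 633150*a^(6:ℕ)*f^(3:ℕ) + 494770*a^(7:ℕ)*f^(2:ℕ) + 142080*a^(8:ℕ)*f + 5547840*f^(8:ℕ)
        + 39208284*a*f^(7:ℕ) + 87163424*a^(2:ℕ)*f^(6:ℕ) + 82455994*a^(3:ℕ)*f^(5:ℕ) + 43375231*a^(4:ℕ)*f^(4:ℕ)
        + 46268384*a^(5:ℕ)*f^(3:ℕ) + 56228435*a^(6:ℕ)*f^(2:ℕ) + 28404028*a^(7:ℕ)*f + 3836160*a^(8:ℕ) + 570020640*f^(7:ℕ)
        + 3574500828*a*f^(6:ℕ) + 6736468539*a^(2:ℕ)*f^(5:ℕ) + 5163585972*a^(3:ℕ)*f^(4:ℕ) + 2213906639*a^(4:ℕ)*f^(3:ℕ)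
        + 2043651344*a^(5:ℕ)*f^(2:ℕ) + 1658895272*a^(6:ℕ)*f + 406292466*a^(7:ℕ) + 33591197360*f^(6:ℕ)
        + 183892107129*a*f^(5:ℕ) + 284964292868*a^(2:ℕ)*f^(4:ℕ) + 168533776379*a^(3:ℕ)*f^(3:ℕ)
        + 55557978229*a^(4:ℕ)*f^(2:ℕ) + 40023184504*a^(5:ℕ)*f + 16263000279*a^(6:ℕ) + 1244587448400*f^(5:ℕ)
        + 5820128949243*a*f^(4:ℕ) + 7095325764701*a^(2:ℕ)*f^(3:ℕ) + 2997326134655*a^(3:ℕ)*f^(2:ℕ)
        + 681984701151*a^(4:ℕ)*f + 293287358294*a^(5:ℕ) + 29817358542960*f^(4:ℕ) + 115497507658083*a*f^(3:ℕ)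
        + 103312523086794*a^(2:ℕ)*f^(2:ℕ) + 27125475442727*a^(3:ℕ)*f + 3249843401112*a^(4:ℕ)
        + 455389612457680*f^(3:ℕ) + 1393219666213221*a*f^(2:ℕ) + 805950212121306*a^(2:ℕ)*f
        + 94725654458797*a^(3:ℕ) + 4159652245207200*f^(2:ℕ) + 9227699810173272*a*f
        + 2549552809290588*a^(2:ℕ) + 19326041264376000*f + 25121759297262804*a + 27552467284560000 := by
      rw [hf]; ring
    rw [e]; positivity
  · obtain ⟨c, hc⟩ : ∃ c : ℝ, c = 27 - b := ⟨_, rfl⟩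
    obtain ⟨e, he⟩ : ∃ e : ℝ, e = a - c := ⟨_, rfl⟩
    have hc0 : 0 ≤ c := by linarith
    have hc1 : c ≤ 27 := by linarith
    have he0 : 0 ≤ e := by linarith
    have k0 := h3s2_k0 c hc0 hc1
    have k1 := h3s2_k1 c hc0 hc1
    have k2 := h3s2_k2 c hc0 hc1
    have k3 := h3s2_k3 c hc0 hc1
    have k4 := h3s2_k4 c hc0 hc1
    have k5 := h3s2_k5 c hc0 hc1
    have k6 := h3s2_k6 c hc0 hc1
    have k7 := h3s2_k7 c hc0 hc1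
    have k8 := h3s2_k8 c hc0 hc1
    have key :
        23680*b^(9:ℕ) + 186240*a*b^(8:ℕ) + 477620*a^(2:ℕ)*b^(7:ℕ) + 539140*a^(3:ℕ)*b^(6:ℕ) + 335430*a^(4:ℕ)*b^(5:ℕ)
        + 391810*a^(5:ℕ)*b^(4:ℕ) + 633150*a^(6:ℕ)*b^(3:ℕ) + 494770*a^(7:ℕ)*b^(2:ℕ) + 142080*a^(8:ℕ)*b + (-206400)*b^(8:ℕ)
        + (-1019556)*a*b^(7:ℕ) + (-3106756)*a^(2:ℕ)*b^(6:ℕ) + (-4884686)*a^(3:ℕ)*b^(5:ℕ) + (-1907819)*a^(4:ℕ)*b^(4:ℕ)
        + 3952904*a^(5:ℕ)*b^(3:ℕ) + 4943285*a^(6:ℕ)*b^(2:ℕ) + 1686448*a^(7:ℕ)*b + (-6854880)*b^(7:ℕ)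
        + (-34333968)*a*b^(6:ℕ) + (-72121569)*a^(2:ℕ)*b^(5:ℕ) + (-72477318)*a^(3:ℕ)*b^(4:ℕ) + (-25333609)*a^(4:ℕ)*b^(3:ℕ)
        + 9689180*a^(5:ℕ)*b^(2:ℕ) + 7258832*a^(6:ℕ)*b + 71040*a^(7:ℕ) + (-52042480)*b^(6:ℕ) + (-220074771)*a*b^(5:ℕ)
        + (-361724557)*a^(2:ℕ)*b^(4:ℕ) + (-267164737)*a^(3:ℕ)*b^(3:ℕ) + (-67886036)*a^(4:ℕ)*b^(2:ℕ) + 6982816*a^(5:ℕ)*b
        + 1065600*a^(6:ℕ) + (-186207600)*b^(5:ℕ) + (-631819212)*a*b^(4:ℕ) + (-775942873)*a^(2:ℕ)*b^(3:ℕ)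
        + (-381498436)*a^(3:ℕ)*b^(2:ℕ) + (-44717664)*a^(4:ℕ)*b + 6502400*a^(5:ℕ) + (-345075600)*b^(4:ℕ)
        + (-880458771)*a*b^(3:ℕ) + (-715359105)*a^(2:ℕ)*b^(2:ℕ) + (-156418384)*a^(3:ℕ)*b + 20486400*a^(4:ℕ)
        + (-309834800)*b^(3:ℕ) + (-521565738)*a*b^(2:ℕ) + (-180046512)*a^(2:ℕ)*b + 34687360*a^(3:ℕ)
        + (-101911680)*b^(2:ℕ) + (-62866176)*a*b + 29381760*a^(2:ℕ) + (-6955200)*b + 9918720*a
        + 1105920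
      =
        (27552467284560000 + 5795718032886804*c + (-2518494755675484)*c^(2:ℕ)
          + 226605496093032*c^(3:ℕ) + (-6243258069944)*c^(4:ℕ) + 88844527940*c^(5:ℕ) + (-2072599276)*c^(6:ℕ)
          + 8739520*c^(7:ℕ) + (-185600)*c^(8:ℕ))
        + (25121759297262804 + (-4128594191592096)*c + 65496205347000*c^(2:ℕ) + 22750485791772*c^(3:ℕ)
          + (-640046189328)*c^(4:ℕ) + 129141540*c^(5:ℕ) + (-154372540)*c^(6:ℕ) + (-858720)*c^(7:ℕ)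
          + (-6400)*c^(8:ℕ))*e^(1:ℕ)
        + (2549552809290588 + (-521773248744915)*c + 41435157165285*c^(2:ℕ) + 737618015298*c^(3:ℕ)
          + (-43576007750)*c^(4:ℕ) + (-443924311)*c^(5:ℕ) + (-8282595)*c^(6:ℕ) + (-40000)*c^(7:ℕ))*e^(2:ℕ)
        + (94725654458797 + (-14126101838279)*c + 3202260912991*c^(2:ℕ) + (-21273702923)*c^(3:ℕ)
          + (-2213196274)*c^(4:ℕ) + (-26386230)*c^(5:ℕ) + (-187010)*c^(6:ℕ))*e^(3:ℕ)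
        + (3249843401112 + 784452090319*c + 99387059894*c^(2:ℕ) + (-2658842689)*c^(3:ℕ)
          + (-70149944)*c^(4:ℕ) + (-502280)*c^(5:ℕ))*e^(4:ℕ)
        + (293287358294 + 57554817170*c + 622421498*c^(2:ℕ) + (-90557402)*c^(3:ℕ) + (-973400)*c^(4:ℕ))*e^(5:ℕ)
        + (16263000279 + 1185151990*c + (-35187281)*c^(2:ℕ) + (-1148000)*c^(3:ℕ))*e^(6:ℕ)
        + (406292466 + 2285252*c + (-641870)*c^(2:ℕ))*e^(7:ℕ)
        + (3836160 + (-142080)*c)*e^(8:ℕ) := by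
      have hbc : b = 27 - c := by linarith
      have hac : a = c + e := by linarith
      rw [hbc, hac]; ring
    rw [key]
    have m1 := mul_nonneg k1 (pow_nonneg he0 1)
    have m2 := mul_nonneg k2 (pow_nonneg he0 2)
    have m3 := mul_nonneg k3 (pow_nonneg he0 3)
    have m4 := mul_nonneg k4 (pow_nonneg he0 4)
    have m5 := mul_nonneg k5 (pow_nonneg he0 5)
    have m6 := mul_nonneg k6 (pow_nonneg he0 6)
    have m7 := mul_nonneg k7 (pow_nonneg he0 7)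
    have m8 := mul_nonneg k8 (pow_nonneg he0 8)
    linarith

theorem h3s2_false {R p ρ y Z : ℝ} (hR : 30 ≤ R) (hn : 3 < ρ) (hρ : ρ ≤ R)
    (hmom : ∀ t : ℝ, 2 * t * y ≤ Z + t ^(2:ℕ) * ((R - ρ) * ρ / R)) (hm : MI 4 3 R p ρ y Z)
    (hp : 3 * p = R * (2 * R - 5) + 2) : False := by
  have hp1 : 1 ≤ p := by nlinarith
  have hH : 0 < 4 * (3 * p - ρ) - (2 - 4) * (5/8) * (ρ * (ρ - 3)) := by
    nlinarith [mul_nonneg (sub_nonneg.mpr hρ) (sub_nonneg.mpr hρ)]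
  have h := clear (by linarith) (by linarith) (by linarith) hmom hm hp1 (ρ - 3) R (5/8)
    (by linarith) (by norm_num) hH
  obtain ⟨a, ha⟩ : ∃ a : ℝ, a = ρ - 3 := ⟨_, rfl⟩
  obtain ⟨b, hb⟩ : ∃ b : ℝ, b = R - ρ := ⟨_, rfl⟩
  have hapos : 0 < a := by linarith
  have hF := h3s2_pos a b hapos (by linarith) (by linarith)
  have hp' : p = (R * (2 * R - 5) + 2) / 3 := by linarith
  have hρ' : ρ = a + 3 := by linarith
  have hR' : R = a + b + 3 := by linarith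
  rw [hp', hR', hρ'] at h
  have hpos := mul_pos (by norm_num : (0 : ℝ) < 1 / (1024)) (mul_pos hapos hF)
  exact absurd h (not_le.mpr (lt_of_lt_of_eq hpos (by ring)))

end Pool.Agent.EI97
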