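import Pool.Agent.EI97.Elim

set_option autoImplicit false

/-! Small dimensions. -/

namespace Pool.Agent.EI97

theorem c2_7_t0 (a : ℝ) (h0 : 0 ≤ a) (h1 : a ≤ 5) :
    0 <
      3333960000 + 2358115200*a + (-4782239280)*a^(2:ℕ) + 2994454848*a^(3:ℕ) + (-536757228)*a^(4:ℕ)
      + 46999924*a^(5:ℕ) + (-5301587)*a^(6:ℕ) + 105903*a^(7:ℕ) := by
  obtain ⟨x, hx⟩ : ∃ x : ℝ, x = a - 0 := ⟨_, rfl⟩
  obtain ⟨y, hy⟩ : ∃ y : ℝ, y = 5 - a := ⟨_, rfl⟩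
  have hx0 : 0 ≤ x := by linarith
  have hy0 : 0 ≤ y := by linarith
  have e :
      3333960000 + 2358115200*a + (-4782239280)*a^(2:ℕ) + 2994454848*a^(3:ℕ) + (-536757228)*a^(4:ℕ)
      + 46999924*a^(5:ℕ) + (-5301587)*a^(6:ℕ) + 105903*a^(7:ℕ)
      = 1009554000 + (18595248/625)*y^(7:ℕ) + (224491344/625)*x*y^(6:ℕ) + (277918368/625)*x^(3:ℕ)*y^(4:ℕ)
      + (2266880532/625)*x^(4:ℕ)*y^(3:ℕ) + (3331259536/625)*x^(5:ℕ)*y^(2:ℕ) + (1527633901/625)*x^(6:ℕ)*y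
      + (45629808/625)*x^(7:ℕ) := by
    subst hx hy; ring
  rw [e]; positivity

theorem c2_7_false {ρ y Z : ℝ} (hn : 2 < ρ) (hρ : ρ ≤ 7)
    (hmom : ∀ t : ℝ, 2 * t * y ≤ Z + t ^(2:ℕ) * ((7 - ρ) * ρ / 7)) (hm : MI 2 2 7 22 ρ y Z) :
    False := by
  obtain ⟨a, ha⟩ : ∃ a : ℝ, a = ρ - 2 := ⟨_, rfl⟩
  have hapos : 0 < a := by linarith
  have hρ' : ρ = a + 2 := by linarith
  have hH : 0 < 4 * (2 * 22 - ρ) - (2 - 2) * (9/10) * (ρ * (ρ - 2)) := by nlinarith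
  have h := clear (by norm_num) (by linarith) (by linarith) hmom hm (by norm_num)
    (41 * (ρ - 2) + 0) 200 (9/10) (by norm_num) (by norm_num) hH
  have hF := c2_7_t0 a (by linarith) (by linarith)
  rw [hρ'] at h
  have hpos := mul_pos (by norm_num : (0 : ℝ) < 1 / (5/8)) (mul_pos hapos hF)
  exact absurd h (not_le.mpr (lt_of_lt_of_eq hpos (by ring)))

end Pool.Agent.EI97
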