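import Pool.Agent.EI97.Elim

set_option autoImplicit false

/-! Small dimensions. -/

namespace Pool.Agent.EI97

theorem c3_19_t0 (a : ℝ) (h0 : 0 ≤ a) (h1 : a ≤ (3/2)) :
    0 <
      892747224 + 8848852920*a + (-7398857721)*a^(2:ℕ) + 846371190*a^(3:ℕ) + (-34788076)*a^(4:ℕ)
      + 952638*a^(5:ℕ) + (-27051)*a^(6:ℕ) + 76*a^(7:ℕ) := by
  obtain ⟨x, hx⟩ : ∃ x : ℝ, x = a - 0 := ⟨_, rfl⟩
  obtain ⟨y, hy⟩ : ∃ y : ℝ, y = (3/2) - a := ⟨_, rfl⟩
  have hx0 : 0 ≤ x := by linarith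
  have hy0 : 0 ≤ y := by linarith
  have e :
      892747224 + 8848852920*a + (-7398857721)*a^(2:ℕ) + 846371190*a^(3:ℕ) + (-34788076)*a^(4:ℕ)
      + 952638*a^(5:ℕ) + (-27051)*a^(6:ℕ) + 76*a^(7:ℕ)
      = 205912128 + (29304964096/729)*y^(7:ℕ) + (771461335552/729)*x*y^(6:ℕ)
      + (1101024475360/243)*x^(2:ℕ)*y^(5:ℕ) + (6090998291840/729)*x^(3:ℕ)*y^(4:ℕ) + (5729297649824/729)*x^(4:ℕ)*y^(3:ℕ)
      + (905476775560/243)*x^(5:ℕ)*y^(2:ℕ) + (517213858702/729)*x^(6:ℕ)*y + (34/729)*x^(7:ℕ) := by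
    subst hx hy; ring
  rw [e]; positivity

theorem c3_19_t1 (a : ℝ) (h0 : (3/2) ≤ a) (h1 : a ≤ (13/5)) :
    0 <
      (-198456966000) + 193966954425*a + (-8004797865)*a^(2:ℕ) + (-23754390015)*a^(3:ℕ)
      + 4318092379*a^(4:ℕ) + (-216840853)*a^(5:ℕ) + 5175837*a^(6:ℕ) + (-178821)*a^(7:ℕ) + 513*a^(8:ℕ) := by
  obtain ⟨x, hx⟩ : ∃ x : ℝ, x = a - (3/2) := ⟨_, rfl⟩
  obtain ⟨y, hy⟩ : ∃ y : ℝ, y = (13/5) - a := ⟨_, rfl⟩
  have hx0 : 0 ≤ x := by linarith
  have hy0 : 0 ≤ y := by linarith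
  have e :
      (-198456966000) + 193966954425*a + (-8004797865)*a^(2:ℕ) + (-23754390015)*a^(3:ℕ)
      + 4318092379*a^(4:ℕ) + (-216840853)*a^(5:ℕ) + 5175837*a^(6:ℕ) + (-178821)*a^(7:ℕ) + 513*a^(8:ℕ)
      = 7256647619 + (66587070948828125/19487171)*y^(8:ℕ) + (1159071840260781250/19487171)*x*y^(7:ℕ)
      + (504537811430875000/1771561)*x^(2:ℕ)*y^(6:ℕ) + (12658739965288600000/19487171)*x^(3:ℕ)*y^(5:ℕ)
      + (15989254374633640000/19487171)*x^(4:ℕ)*y^(4:ℕ) + (11526682885844576000/19487171)*x^(5:ℕ)*y^(3:ℕ)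
      + (4459307474040012800/19487171)*x^(6:ℕ)*y^(2:ℕ) + (720570143974963200/19487171)*x^(7:ℕ)*y
      + (3733248/19487171)*x^(8:ℕ) := by
    subst hx hy; ring
  rw [e]; positivity

theorem c3_19_t2 (a : ℝ) (h0 : (13/5) ≤ a) (h1 : a ≤ 16) :
    0 <
      (-18289793986560) + 12101745042720*a + (-566556566688)*a^(2:ℕ) + (-983035374858)*a^(3:ℕ)
      + 202861090691*a^(4:ℕ) + (-10656872674)*a^(5:ℕ) + 246711036*a^(6:ℕ) + (-8788956)*a^(7:ℕ) + 25289*a^(8:ℕ) := by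
  rcases le_total a (55/16) with h2 | h2
  · obtain ⟨x, hx⟩ : ∃ x : ℝ, x = a - (13/5) := ⟨_, rfl⟩
    obtain ⟨y, hy⟩ : ∃ y : ℝ, y = (55/16) - a := ⟨_, rfl⟩
    have hx0 : 0 ≤ x := by linarith
    have hy0 : 0 ≤ y := by linarith
    have e :
        (-18289793986560) + 12101745042720*a + (-566556566688)*a^(2:ℕ) + (-983035374858)*a^(3:ℕ)
        + 202861090691*a^(4:ℕ) + (-10656872674)*a^(5:ℕ) + 246711036*a^(6:ℕ) + (-8788956)*a^(7:ℕ) + 25289*a^(8:ℕ)
        = 140279469705 + (171622598180864/406067677556641)*y^(8:ℕ)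
        + (1691316421965280033206435840/406067677556641)*x*y^(7:ℕ)
        + (9801250155266762174208409600/406067677556641)*x^(2:ℕ)*y^(6:ℕ)
        + (23762077956240373610971136000/406067677556641)*x^(3:ℕ)*y^(5:ℕ)
        + (31057055312821612302786560000/406067677556641)*x^(4:ℕ)*y^(4:ℕ)
        + (23430818504656137989811200000/406067677556641)*x^(5:ℕ)*y^(3:ℕ)
        + (10069848726562865486672000000/406067677556641)*x^(6:ℕ)*y^(2:ℕ)
        + (2233355380740848473525000000/406067677556641)*x^(7:ℕ)*y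
        + (189414079220274018978515625/406067677556641)*x^(8:ℕ) := by
      subst hx hy; ring
    rw [e]; positivity
  · have _unused := h0
    rcases le_total a (171/40) with h3 | h3
    · obtain ⟨x, hx⟩ : ∃ x : ℝ, x = a - (55/16) := ⟨_, rfl⟩
      obtain ⟨y, hy⟩ : ∃ y : ℝ, y = (171/40) - a := ⟨_, rfl⟩
      have hx0 : 0 ≤ x := by linarith
      have hy0 : 0 ≤ y := by linarith
      have e :
          (-18289793986560) + 12101745042720*a + (-566556566688)*a^(2:ℕ) + (-983035374858)*a^(3:ℕ)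
          + 202861090691*a^(4:ℕ) + (-10656872674)*a^(5:ℕ) + 246711036*a^(6:ℕ) + (-8788956)*a^(7:ℕ) + 25289*a^(8:ℕ)
          = 2157158747 + (421144863756427311778515625/406067677556641)*y^(8:ℕ)
          + (2651116163072762172531250000/406067677556641)*x*y^(7:ℕ)
          + (6505712235873969181315750000/406067677556641)*x^(2:ℕ)*y^(6:ℕ)
          + (7639945656574320973327800000/406067677556641)*x^(3:ℕ)*y^(5:ℕ)
          + (3965210896832220769932060000/406067677556641)*x^(4:ℕ)*y^(4:ℕ)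
          + (365361292025964318693344000/406067677556641)*x^(5:ℕ)*y^(3:ℕ)
          + (33053390743033600/406067677556641)*x^(6:ℕ)*y^(2:ℕ)
          + (410646688037718914471490560/406067677556641)*x^(7:ℕ)*y
          + (175001813484141222984419584/406067677556641)*x^(8:ℕ) := by
        subst hx hy; ring
      rw [e]; positivity
    · have _unused := h0
      rcases le_total a (119/20) with h4 | h4
      · obtain ⟨x, hx⟩ : ∃ x : ℝ, x = a - (171/40) := ⟨_, rfl⟩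
        obtain ⟨y, hy⟩ : ∃ y : ℝ, y = (119/20) - a := ⟨_, rfl⟩
        have hx0 : 0 ≤ x := by linarith
        have hy0 : 0 ≤ y := by linarith
        have e :
            (-18289793986560) + 12101745042720*a + (-566556566688)*a^(2:ℕ) + (-983035374858)*a^(3:ℕ)
            + 202861090691*a^(4:ℕ) + (-10656872674)*a^(5:ℕ) + 246711036*a^(6:ℕ) + (-8788956)*a^(7:ℕ)
            + 25289*a^(8:ℕ)
            = 106466368024 + (4679452282889/406067677556641)*y^(8:ℕ)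
            + (7729436092501583035480816/406067677556641)*x*y^(7:ℕ)
            + (85754864543082794600169008/406067677556641)*x^(2:ℕ)*y^(6:ℕ)
            + (377559773519105801589729088/406067677556641)*x^(3:ℕ)*y^(5:ℕ)
            + (872999743922010161029264480/406067677556641)*x^(4:ℕ)*y^(4:ℕ)
            + (1160312328739811815178285312/406067677556641)*x^(5:ℕ)*y^(3:ℕ)
            + (894530961710679194035006208/406067677556641)*x^(6:ℕ)*y^(2:ℕ)
            + (372746258884803942380227584/406067677556641)*x^(7:ℕ)*y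
            + (65062237329491810796894464/406067677556641)*x^(8:ℕ) := by
          subst hx hy; ring
        rw [e]; positivity
      · have _unused := h0
        rcases le_total a (93/10) with h5 | h5
        · obtain ⟨x, hx⟩ : ∃ x : ℝ, x = a - (119/20) := ⟨_, rfl⟩
          obtain ⟨y, hy⟩ : ∃ y : ℝ, y = (93/10) - a := ⟨_, rfl⟩
          have hx0 : 0 ≤ x := by linarith
          have hy0 : 0 ≤ y := by linarith
          have e :
              (-18289793986560) + 12101745042720*a + (-566556566688)*a^(2:ℕ) + (-983035374858)*a^(3:ℕ)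
              + 202861090691*a^(4:ℕ) + (-10656872674)*a^(5:ℕ) + 246711036*a^(6:ℕ) + (-8788956)*a^(7:ℕ)
              + 25289*a^(8:ℕ)
              = 10034175921474 + (7385925369/406067677556641)*y^(8:ℕ)
              + (1154309685555766462363328/406067677556641)*x*y^(7:ℕ)
              + (9752820841746756863233872/406067677556641)*x^(2:ℕ)*y^(6:ℕ)
              + (34985399634901170446377216/406067677556641)*x^(3:ℕ)*y^(5:ℕ)
              + (68888029416470043959917280/406067677556641)*x^(4:ℕ)*y^(4:ℕ)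
              + (80266371465827695165019136/406067677556641)*x^(5:ℕ)*y^(3:ℕ)
              + (55269713624340068923805952/406067677556641)*x^(6:ℕ)*y^(2:ℕ)
              + (20801270160016722763051008/406067677556641)*x^(7:ℕ)*y
              + (3296797332789975433822464/406067677556641)*x^(8:ℕ) := by
            subst hx hy; ring
          rw [e]; positivity
        · have _unused := h0
          obtain ⟨x, hx⟩ : ∃ x : ℝ, x = a - (93/10) := ⟨_, rfl⟩
          obtain ⟨y, hy⟩ : ∃ y : ℝ, y = 16 - a := ⟨_, rfl⟩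
          have hx0 : 0 ≤ x := by linarith
          have hy0 : 0 ≤ y := by linarith
          have e :
              (-18289793986560) + 12101745042720*a + (-566556566688)*a^(2:ℕ) + (-983035374858)*a^(3:ℕ)
              + 202861090691*a^(4:ℕ) + (-10656872674)*a^(5:ℕ) + 246711036*a^(6:ℕ) + (-8788956)*a^(7:ℕ)
              + 25289*a^(8:ℕ)
              = 12422625600000 + (188645815124749873707/6060711605323)*y^(8:ℕ)
              + (2159015926583712691560/6060711605323)*x*y^(7:ℕ)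
              + (10290717986833272631200/6060711605323)*x^(2:ℕ)*y^(6:ℕ)
              + (26570765768356470330000/6060711605323)*x^(3:ℕ)*y^(5:ℕ)
              + (40231426339288164530000/6060711605323)*x^(4:ℕ)*y^(4:ℕ)
              + (35794953864042217000000/6060711605323)*x^(5:ℕ)*y^(3:ℕ)
              + (17364771805272000000000/6060711605323)*x^(6:ℕ)*y^(2:ℕ)
              + (3550673118200000000000/6060711605323)*x^(7:ℕ)*y := by
            subst hx hy; ring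
          rw [e]; positivity

theorem c3_19_false {ρ y Z : ℝ} (hn : 3 < ρ) (hρ : ρ ≤ 19)
    (hmom : ∀ t : ℝ, 2 * t * y ≤ Z + t ^(2:ℕ) * ((19 - ρ) * ρ / 19)) (hm : MI 2 3 19 108 ρ y Z) :
    False := by
  obtain ⟨a, ha⟩ : ∃ a : ℝ, a = ρ - 3 := ⟨_, rfl⟩
  have hapos : 0 < a := by linarith
  have hρ' : ρ = a + 3 := by linarith
  rcases le_total a (3/2) with h2 | h2
  · have hH : 0 < 4 * (3 * 108 - ρ) - (2 - 2) * (4/5) * (ρ * (ρ - 3)) := by nlinarith
    have h := clear (by norm_num) (by linarith) (by linarith) hmom hm (by norm_num)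
      (20 * (ρ - 3) + 0) 200 (4/5) (by norm_num) (by norm_num) hH
    have hF := c3_19_t0 a (by linarith) (by linarith)
    rw [hρ'] at h
    have hpos := mul_pos (by norm_num : (0 : ℝ) < 1 / (1/1280)) (mul_pos hapos hF)
    exact absurd h (not_le.mpr (lt_of_lt_of_eq hpos (by ring)))
  · have _unused := hapos
    rcases le_total a (13/5) with h3 | h3
    · have hH : 0 < 4 * (3 * 108 - ρ) - (2 - 2) * (3/5) * (ρ * (ρ - 3)) := by nlinarith
      have h := clear (by norm_num) (by linarith) (by linarith) hmom hm (by norm_num)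
        (12 * (ρ - 3) + 20) 200 (3/5) (by norm_num) (by norm_num) hH
      have hF := c3_19_t1 a (by linarith) (by linarith)
      rw [hρ'] at h
      have hpos := mul_pos (by norm_num : (0 : ℝ) < 1 / (5/256)) hF
      exact absurd h (not_le.mpr (lt_of_lt_of_eq hpos (by ring)))
    · have _unused := hapos
      have hH : 0 < 4 * (3 * 108 - ρ) - (2 - 2) * (11/20) * (ρ * (ρ - 3)) := by nlinarith
      have h := clear (by norm_num) (by linarith) (by linarith) hmom hm (by norm_num)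
        (11 * (ρ - 3) + 24) 200 (11/20) (by norm_num) (by norm_num) hH
      have hF := c3_19_t2 a (by linarith) (by linarith)
      rw [hρ'] at h
      have hpos := mul_pos (by norm_num : (0 : ℝ) < 1 / (5/4)) hF
      exact absurd h (not_le.mpr (lt_of_lt_of_eq hpos (by ring)))

theorem c3_20_t0 (a : ℝ) (h0 : 0 ≤ a) (h1 : a ≤ 2) :
    0 <
      801239040000 + 515121984000*a + (-555477379200)*a^(2:ℕ) + 64531916040*a^(3:ℕ) + (-2588025400)*a^(4:ℕ)
      + 65155023*a^(5:ℕ) + (-1827007)*a^(6:ℕ) + 4624*a^(7:ℕ) := by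
  obtain ⟨x, hx⟩ : ∃ x : ℝ, x = a - 0 := ⟨_, rfl⟩
  obtain ⟨y, hy⟩ : ∃ y : ℝ, y = 2 - a := ⟨_, rfl⟩
  have hx0 : 0 ≤ x := by linarith
  have hy0 : 0 ≤ y := by linarith
  have e :
      801239040000 + 515121984000*a + (-555477379200)*a^(2:ℕ) + 64531916040*a^(3:ℕ) + (-2588025400)*a^(4:ℕ)
      + 65155023*a^(5:ℕ) + (-1827007)*a^(6:ℕ) + 4624*a^(7:ℕ)
      = 86389037280 + (22339062585/4)*y^(7:ℕ) + (188568562095/4)*x*y^(6:ℕ) + (592856385885/4)*x^(2:ℕ)*y^(5:ℕ)
      + (933753667485/4)*x^(3:ℕ)*y^(4:ℕ) + (794660849815/4)*x^(4:ℕ)*y^(3:ℕ) + 87670360317*x^(5:ℕ)*y^(2:ℕ)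
      + (63147354067/4)*x^(6:ℕ)*y := by
    subst hx hy; ring
  rw [e]; positivity

theorem c3_20_t1 (a : ℝ) (h0 : 2 ≤ a) (h1 : a ≤ 17) :
    0 <
      (-2141510400000) + 2257508880000*a + (-509278590000)*a^(2:ℕ) + 13479642000*a^(3:ℕ)
      + 6977805110*a^(4:ℕ) + (-426453140)*a^(5:ℕ) + 8443172*a^(6:ℕ) + (-341073)*a^(7:ℕ) + 891*a^(8:ℕ) := by
  rcases le_total a (19/2) with h2 | h2
  · obtain ⟨x, hx⟩ : ∃ x : ℝ, x = a - 2 := ⟨_, rfl⟩
    obtain ⟨y, hy⟩ : ∃ y : ℝ, y = (19/2) - a := ⟨_, rfl⟩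
    have hx0 : 0 ≤ x := by linarith
    have hy0 : 0 ≤ y := by linarith
    have e :
        (-2141510400000) + 2257508880000*a + (-509278590000)*a^(2:ℕ) + 13479642000*a^(3:ℕ)
        + 6977805110*a^(4:ℕ) + (-426453140)*a^(5:ℕ) + 8443172*a^(6:ℕ) + (-341073)*a^(7:ℕ) + 891*a^(8:ℕ)
        = 542725451040 + (24439165313024/56953125)*x*y^(7:ℕ) + (8581540677632/6328125)*x^(2:ℕ)*y^(6:ℕ)
        + (8705981159936/6328125)*x^(3:ℕ)*y^(5:ℕ) + (28977690770528/11390625)*x^(4:ℕ)*y^(4:ℕ)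
        + (29174328775616/3796875)*x^(5:ℕ)*y^(3:ℕ) + (803267349176/78125)*x^(6:ℕ)*y^(2:ℕ)
        + (335950936216538/56953125)*x^(7:ℕ)*y + (22901797112323/18984375)*x^(8:ℕ) := by
      subst hx hy; ring
    rw [e]; positivity
  · have _unused := h0
    obtain ⟨x, hx⟩ : ∃ x : ℝ, x = a - (19/2) := ⟨_, rfl⟩
    obtain ⟨y, hy⟩ : ∃ y : ℝ, y = 17 - a := ⟨_, rfl⟩
    have hx0 : 0 ≤ x := by linarith
    have hy0 : 0 ≤ y := by linarith
    have e :
        (-2141510400000) + 2257508880000*a + (-509278590000)*a^(2:ℕ) + 13479642000*a^(3:ℕ)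
        + 6977805110*a^(4:ℕ) + (-426453140)*a^(5:ℕ) + 8443172*a^(6:ℕ) + (-341073)*a^(7:ℕ) + 891*a^(8:ℕ)
        = 2628498180000 + (56839662034441/56953125)*y^(8:ℕ) + (222803163584914/18984375)*x*y^(7:ℕ)
        + (120186377769908/2109375)*x^(2:ℕ)*y^(6:ℕ) + (1697004734957752/11390625)*x^(3:ℕ)*y^(5:ℕ)
        + (863788539737744/3796875)*x^(4:ℕ)*y^(4:ℕ) + (1288035144060704/6328125)*x^(5:ℕ)*y^(3:ℕ)
        + (5643686374883392/56953125)*x^(6:ℕ)*y^(2:ℕ) + (128509569494144/6328125)*x^(7:ℕ)*y := by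
      subst hx hy; ring
    rw [e]; positivity

theorem c3_20_false {ρ y Z : ℝ} (hn : 3 < ρ) (hρ : ρ ≤ 20)
    (hmom : ∀ t : ℝ, 2 * t * y ≤ Z + t ^(2:ℕ) * ((20 - ρ) * ρ / 20)) (hm : MI 2 3 20 121 ρ y Z) :
    False := by
  obtain ⟨a, ha⟩ : ∃ a : ℝ, a = ρ - 3 := ⟨_, rfl⟩
  have hapos : 0 < a := by linarith
  have hρ' : ρ = a + 3 := by linarith
  rcases le_total a 2 with h2 | h2
  · have hH : 0 < 4 * (3 * 121 - ρ) - (2 - 2) * (4/5) * (ρ * (ρ - 3)) := by nlinarith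
    have h := clear (by norm_num) (by linarith) (by linarith) hmom hm (by norm_num)
      (17 * (ρ - 3) + 0) 200 (4/5) (by norm_num) (by norm_num) hH
    have hF := c3_20_t0 a (by linarith) (by linarith)
    rw [hρ'] at h
    have hpos := mul_pos (by norm_num : (0 : ℝ) < 1 / (1/16)) (mul_pos hapos hF)
    exact absurd h (not_le.mpr (lt_of_lt_of_eq hpos (by ring)))
  · have _unused := hapos
    have hH : 0 < 4 * (3 * 121 - ρ) - (2 - 2) * (11/20) * (ρ * (ρ - 3)) := by nlinarith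
    have h := clear (by norm_num) (by linarith) (by linarith) hmom hm (by norm_num)
      (9 * (ρ - 3) + 30) 200 (11/20) (by norm_num) (by norm_num) hH
    have hF := c3_20_t1 a (by linarith) (by linarith)
    rw [hρ'] at h
    have hpos := mul_pos (by norm_num : (0 : ℝ) < 1 / (1/16)) hF
    exact absurd h (not_le.mpr (lt_of_lt_of_eq hpos (by ring)))

theorem c3_21_t0 (a : ℝ) (h0 : 0 ≤ a) (h1 : a ≤ (59/20)) :
    0 <
      12704239800 + 18565383816*a + (-10680644268)*a^(2:ℕ) + 1141653625*a^(3:ℕ) + (-43747452)*a^(4:ℕ)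
      + 1031112*a^(5:ℕ) + (-27464)*a^(6:ℕ) + 63*a^(7:ℕ) := by
  obtain ⟨x, hx⟩ : ∃ x : ℝ, x = a - 0 := ⟨_, rfl⟩
  obtain ⟨y, hy⟩ : ∃ y : ℝ, y = (59/20) - a := ⟨_, rfl⟩
  have hx0 : 0 ≤ x := by linarith
  have hy0 : 0 ≤ y := by linarith
  have e :
      12704239800 + 18565383816*a + (-10680644268)*a^(2:ℕ) + 1141653625*a^(3:ℕ) + (-43747452)*a^(4:ℕ)
      + 1031112*a^(5:ℕ) + (-27464)*a^(6:ℕ) + 63*a^(7:ℕ)
      = 732013828 + (15324449244160000000/2488651484819)*y^(7:ℕ)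
      + (177374033998336000000/2488651484819)*x*y^(6:ℕ)
      + (623456937232550400000/2488651484819)*x^(2:ℕ)*y^(5:ℕ)
      + (1030545368509132000000/2488651484819)*x^(3:ℕ)*y^(4:ℕ)
      + (894496228782430624000/2488651484819)*x^(4:ℕ)*y^(3:ℕ)
      + (396283638579840067200/2488651484819)*x^(5:ℕ)*y^(2:ℕ)
      + (70925269043541933920/2488651484819)*x^(6:ℕ)*y + (418434317/2488651484819)*x^(7:ℕ) := by
    subst hx hy; ring
  rw [e]; positivity

theorem c3_21_t1 (a : ℝ) (h0 : (59/20) ≤ a) (h1 : a ≤ 18) :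
    0 <
      (-548823159360) + (-3304670796252)*a + 2040198123096*a^(2:ℕ) + (-369414179127)*a^(3:ℕ)
      + 30973106889*a^(4:ℕ) + (-1173449039)*a^(5:ℕ) + 26819837*a^(6:ℕ) + (-663608)*a^(7:ℕ) + 1512*a^(8:ℕ) := by
  obtain ⟨x, hx⟩ : ∃ x : ℝ, x = a - (59/20) := ⟨_, rfl⟩
  obtain ⟨y, hy⟩ : ∃ y : ℝ, y = 18 - a := ⟨_, rfl⟩
  have hx0 : 0 ≤ x := by linarith
  have hy0 : 0 ≤ y := by linarith
  have e :
      (-548823159360) + (-3304670796252)*a + 2040198123096*a^(2:ℕ) + (-369414179127)*a^(3:ℕ)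
      + 30973106889*a^(4:ℕ) + (-1173449039)*a^(5:ℕ) + 26819837*a^(6:ℕ) + (-663608)*a^(7:ℕ) + 1512*a^(8:ℕ)
      = 73414664167 + (22154753112/67380148648514522401)*y^(8:ℕ)
      + (715540767641679294936000/67380148648514522401)*x*y^(7:ℕ)
      + (810199068568519661791600/9625735521216360343)*x^(2:ℕ)*y^(6:ℕ)
      + (1542447803022731642504000/9625735521216360343)*x^(3:ℕ)*y^(5:ℕ)
      + (2247284703330444415520000/9625735521216360343)*x^(4:ℕ)*y^(4:ℕ)
      + (3881571685062504668800000/9625735521216360343)*x^(5:ℕ)*y^(3:ℕ)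
      + (4152186520620679808000000/9625735521216360343)*x^(6:ℕ)*y^(2:ℕ)
      + (11764206483655966720000000/67380148648514522401)*x^(7:ℕ)*y
      + (82070405013324800000000/67380148648514522401)*x^(8:ℕ) := by
    subst hx hy; ring
  rw [e]; positivity

theorem c3_21_false {ρ y Z : ℝ} (hn : 3 < ρ) (hρ : ρ ≤ 21)
    (hmom : ∀ t : ℝ, 2 * t * y ≤ Z + t ^(2:ℕ) * ((21 - ρ) * ρ / 21)) (hm : MI 2 3 21 134 ρ y Z) :
    False := by
  obtain ⟨a, ha⟩ : ∃ a : ℝ, a = ρ - 3 := ⟨_, rfl⟩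
  have hapos : 0 < a := by linarith
  have hρ' : ρ = a + 3 := by linarith
  rcases le_total a (59/20) with h2 | h2
  · have hH : 0 < 4 * (3 * 134 - ρ) - (2 - 2) * (3/4) * (ρ * (ρ - 3)) := by nlinarith
    have h := clear (by norm_num) (by linarith) (by linarith) hmom hm (by norm_num)
      (15 * (ρ - 3) + 0) 200 (3/4) (by norm_num) (by norm_num) hH
    have hF := c3_21_t0 a (by linarith) (by linarith)
    rw [hρ'] at h
    have hpos := mul_pos (by norm_num : (0 : ℝ) < 1 / (1/900)) (mul_pos hapos hF)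
    exact absurd h (not_le.mpr (lt_of_lt_of_eq hpos (by ring)))
  · have _unused := hapos
    have hH : 0 < 4 * (3 * 134 - ρ) - (2 - 2) * (9/20) * (ρ * (ρ - 3)) := by nlinarith
    have h := clear (by norm_num) (by linarith) (by linarith) hmom hm (by norm_num)
      (12 * (ρ - 3) + 12) 200 (9/20) (by norm_num) (by norm_num) hH
    have hF := c3_21_t1 a (by linarith) (by linarith)
    rw [hρ'] at h
    have hpos := mul_pos (by norm_num : (0 : ℝ) < 1 / (5/72)) hF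
    exact absurd h (not_le.mpr (lt_of_lt_of_eq hpos (by ring)))

theorem c3_22_t0 (a : ℝ) (h0 : 0 ≤ a) (h1 : a ≤ (17/5)) :
    0 <
      3584844945000 + 1409214912948*a + (-1078605125640)*a^(2:ℕ) + 120311130744*a^(3:ℕ)
      + (-4554489222)*a^(4:ℕ) + 99828961*a^(5:ℕ) + (-2648308)*a^(6:ℕ) + 5577*a^(7:ℕ) := by
  obtain ⟨x, hx⟩ : ∃ x : ℝ, x = a - 0 := ⟨_, rfl⟩
  obtain ⟨y, hy⟩ : ∃ y : ℝ, y = (17/5) - a := ⟨_, rfl⟩
  have hx0 : 0 ≤ x := by linarith
  have hy0 : 0 ≤ y := by linarith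
  have e :
      3584844945000 + 1409214912948*a + (-1078605125640)*a^(2:ℕ) + 120311130744*a^(3:ℕ)
      + (-4554489222)*a^(4:ℕ) + 99828961*a^(5:ℕ) + (-2648308)*a^(6:ℕ) + 5577*a^(7:ℕ)
      = 68872174574 + (274685372689531250/410338673)*y^(7:ℕ) + (2297120320078531250/410338673)*x*y^(6:ℕ)
      + (7040213839897406250/410338673)*x^(2:ℕ)*y^(5:ℕ) + (10727682808283451250/410338673)*x^(3:ℕ)*y^(4:ℕ)
      + (8789461754807941000/410338673)*x^(4:ℕ)*y^(3:ℕ) + (3719558410226329925/410338673)*x^(5:ℕ)*y^(2:ℕ)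
      + (639998282734663090/410338673)*x^(6:ℕ)*y + (8486/410338673)*x^(7:ℕ) := by
    subst hx hy; ring
  rw [e]; positivity

theorem c3_22_t1 (a : ℝ) (h0 : (17/5) ≤ a) (h1 : a ≤ 19) :
    0 <
      (-1532664737280) + (-33598489972608)*a + 18156691297800*a^(2:ℕ) + (-3021235208640)*a^(3:ℕ)
      + 216861330406*a^(4:ℕ) + (-7347896566)*a^(5:ℕ) + 166634713*a^(6:ℕ) + (-3601611)*a^(7:ℕ) + 7436*a^(8:ℕ) := by
  rcases le_total a (56/5) with h2 | h2
  · obtain ⟨x, hx⟩ : ∃ x : ℝ, x = a - (17/5) := ⟨_, rfl⟩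
    obtain ⟨y, hy⟩ : ∃ y : ℝ, y = (56/5) - a := ⟨_, rfl⟩
    have hx0 : 0 ≤ x := by linarith
    have hy0 : 0 ≤ y := by linarith
    have e :
        (-1532664737280) + (-33598489972608)*a + 18156691297800*a^(2:ℕ) + (-3021235208640)*a^(3:ℕ)
        + 216861330406*a^(4:ℕ) + (-7347896566)*a^(5:ℕ) + 166634713*a^(6:ℕ) + (-3601611)*a^(7:ℕ) + 7436*a^(8:ℕ)
        = 1257238405706 + (177436/5352009260481)*y^(8:ℕ) + (44760569570300421089/5352009260481)*x*y^(7:ℕ)
        + (308417664445970488147/5352009260481)*x^(2:ℕ)*y^(6:ℕ)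
        + (760937826821296576682/5352009260481)*x^(3:ℕ)*y^(5:ℕ)
        + (912705803738584152370/5352009260481)*x^(4:ℕ)*y^(4:ℕ)
        + (588970376102146585088/5352009260481)*x^(5:ℕ)*y^(3:ℕ)
        + (221091398026402355632/5352009260481)*x^(6:ℕ)*y^(2:ℕ)
        + (56255265930089729456/5352009260481)*x^(7:ℕ)*y + (8748969753737075446/5352009260481)*x^(8:ℕ) := by
      subst hx hy; ring
    rw [e]; positivity
  · have _unused := h0
    obtain ⟨x, hx⟩ : ∃ x : ℝ, x = a - (56/5) := ⟨_, rfl⟩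
    obtain ⟨y, hy⟩ : ∃ y : ℝ, y = 19 - a := ⟨_, rfl⟩
    have hx0 : 0 ≤ x := by linarith
    have hy0 : 0 ≤ y := by linarith
    have e :
        (-1532664737280) + (-33598489972608)*a + 18156691297800*a^(2:ℕ) + (-3021235208640)*a^(3:ℕ)
        + 216861330406*a^(4:ℕ) + (-7347896566)*a^(5:ℕ) + 166634713*a^(6:ℕ) + (-3601611)*a^(7:ℕ) + 7436*a^(8:ℕ)
        = 5863754160000 + (59397859292444288/45743668893)*y^(8:ℕ)
        + (592588789722519040/45743668893)*x*y^(7:ℕ) + (344746933866199400/5082629877)*x^(2:ℕ)*y^(6:ℕ)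
        + (9892777603727974000/45743668893)*x^(3:ℕ)*y^(5:ℕ)
        + (18888018571839173750/45743668893)*x^(4:ℕ)*y^(4:ℕ) + (2308598849902468750/5082629877)*x^(5:ℕ)*y^(3:ℕ)
        + (12104844094213671875/45743668893)*x^(6:ℕ)*y^(2:ℕ) + (2891886737646484375/45743668893)*x^(7:ℕ)*y := by
      subst hx hy; ring
    rw [e]; positivity

theorem c3_22_false {ρ y Z : ℝ} (hn : 3 < ρ) (hρ : ρ ≤ 22)
    (hmom : ∀ t : ℝ, 2 * t * y ≤ Z + t ^(2:ℕ) * ((22 - ρ) * ρ / 22)) (hm : MI 2 3 22 147 ρ y Z) :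
    False := by
  obtain ⟨a, ha⟩ : ∃ a : ℝ, a = ρ - 3 := ⟨_, rfl⟩
  have hapos : 0 < a := by linarith
  have hρ' : ρ = a + 3 := by linarith
  rcases le_total a (17/5) with h2 | h2
  · have hH : 0 < 4 * (3 * 147 - ρ) - (2 - 2) * (3/4) * (ρ * (ρ - 3)) := by nlinarith
    have h := clear (by norm_num) (by linarith) (by linarith) hmom hm (by norm_num)
      (13 * (ρ - 3) + 0) 200 (3/4) (by norm_num) (by norm_num) hH
    have hF := c3_22_t0 a (by linarith) (by linarith)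
    rw [hρ'] at h
    have hpos := mul_pos (by norm_num : (0 : ℝ) < 1 / (1/8)) (mul_pos hapos hF)
    exact absurd h (not_le.mpr (lt_of_lt_of_eq hpos (by ring)))
  · have _unused := hapos
    have hH : 0 < 4 * (3 * 147 - ρ) - (2 - 2) * (2/5) * (ρ * (ρ - 3)) := by nlinarith
    have h := clear (by norm_num) (by linarith) (by linarith) hmom hm (by norm_num)
      (13 * (ρ - 3) + 8) 200 (2/5) (by norm_num) (by norm_num) hH
    have hF := c3_22_t1 a (by linarith) (by linarith)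
    rw [hρ'] at h
    have hpos := mul_pos (by norm_num : (0 : ℝ) < 1 / (5/16)) hF
    exact absurd h (not_le.mpr (lt_of_lt_of_eq hpos (by ring)))

theorem c3_23_t0 (a : ℝ) (h0 : 0 ≤ a) (h1 : a ≤ 5) :
    0 <
      11267858700000 + 11026684531800*a + (-4794063288210)*a^(2:ℕ) + 520261450541*a^(3:ℕ)
      + (-19362779954)*a^(4:ℕ) + 390593678*a^(5:ℕ) + (-10139536)*a^(6:ℕ) + 19481*a^(7:ℕ) := by
  obtain ⟨x, hx⟩ : ∃ x : ℝ, x = a - 0 := ⟨_, rfl⟩
  obtain ⟨y, hy⟩ : ∃ y : ℝ, y = 5 - a := ⟨_, rfl⟩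
  have hx0 : 0 ≤ x := by linarith
  have hy0 : 0 ≤ y := by linarith
  have e :
      11267858700000 + 11026684531800*a + (-4794063288210)*a^(2:ℕ) + 520261450541*a^(3:ℕ)
      + (-19362779954)*a^(4:ℕ) + 390593678*a^(5:ℕ) + (-10139536)*a^(6:ℕ) + 19481*a^(7:ℕ)
      = 544339947000 + (85788150024/625)*y^(7:ℕ) + (208316886288/125)*x*y^(6:ℕ)
      + (3489142780494/625)*x^(2:ℕ)*y^(5:ℕ) + (5344794132251/625)*x^(3:ℕ)*y^(4:ℕ) + (4220038202254/625)*x^(4:ℕ)*y^(3:ℕ)
      + (66813085562/25)*x^(5:ℕ)*y^(2:ℕ) + (261724394344/625)*x^(6:ℕ)*y := by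
    subst hx hy; ring
  rw [e]; positivity

theorem c3_23_t1 (a : ℝ) (h0 : 5 ≤ a) (h1 : a ≤ 20) :
    0 <
      (-149701551300000) + 59710872778200*a + (-8066446750530)*a^(2:ℕ) + 491521579281*a^(3:ℕ)
      + (-15144273594)*a^(4:ℕ) + 331344358*a^(5:ℕ) + (-6257576)*a^(6:ℕ) + 11661*a^(7:ℕ) := by
  rcases le_total a (25/2) with h2 | h2
  · obtain ⟨x, hx⟩ : ∃ x : ℝ, x = a - 5 := ⟨_, rfl⟩
    obtain ⟨y, hy⟩ : ∃ y : ℝ, y = (25/2) - a := ⟨_, rfl⟩
    have hx0 : 0 ≤ x := by linarith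
    have hy0 : 0 ≤ y := by linarith
    have e :
        (-149701551300000) + 59710872778200*a + (-8066446750530)*a^(2:ℕ) + 491521579281*a^(3:ℕ)
        + (-15144273594)*a^(4:ℕ) + 331344358*a^(5:ℕ) + (-6257576)*a^(6:ℕ) + 11661*a^(7:ℕ)
        = 105257751000 + (23699926816256/455625)*x*y^(6:ℕ) + (10234120437952/50625)*x^(2:ℕ)*y^(5:ℕ)
        + (47304172869248/151875)*x^(3:ℕ)*y^(4:ℕ) + (110689033469896/455625)*x^(4:ℕ)*y^(3:ℕ)
        + (584898921844/5625)*x^(5:ℕ)*y^(2:ℕ) + (3881795669654/151875)*x^(6:ℕ)*y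
        + (1457559370187/455625)*x^(7:ℕ) := by
      subst hx hy; ring
    rw [e]; positivity
  · have _unused := h0
    obtain ⟨x, hx⟩ : ∃ x : ℝ, x = a - (25/2) := ⟨_, rfl⟩
    obtain ⟨y, hy⟩ : ∃ y : ℝ, y = 20 - a := ⟨_, rfl⟩
    have hx0 : 0 ≤ x := by linarith
    have hy0 : 0 ≤ y := by linarith
    have e :
        (-149701551300000) + 59710872778200*a + (-8066446750530)*a^(2:ℕ) + 491521579281*a^(3:ℕ)
        + (-15144273594)*a^(4:ℕ) + 331344358*a^(5:ℕ) + (-6257576)*a^(6:ℕ) + 11661*a^(7:ℕ)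
        = 1769224860000 + (177918386063/91125)*y^(7:ℕ) + (177210077576/16875)*x*y^(6:ℕ)
        + (6046613140072/151875)*x^(2:ℕ)*y^(5:ℕ) + (52593635942864/455625)*x^(3:ℕ)*y^(4:ℕ)
        + (9396135899824/50625)*x^(4:ℕ)*y^(3:ℕ) + (21878645451328/151875)*x^(5:ℕ)*y^(2:ℕ)
        + (19414276899328/455625)*x^(6:ℕ)*y := by
      subst hx hy; ring
    rw [e]; positivity

theorem c3_23_false {ρ y Z : ℝ} (hn : 3 < ρ) (hρ : ρ ≤ 23)
    (hmom : ∀ t : ℝ, 2 * t * y ≤ Z + t ^(2:ℕ) * ((23 - ρ) * ρ / 23)) (hm : MI 2 3 23 162 ρ y Z) :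
    False := by
  obtain ⟨a, ha⟩ : ∃ a : ℝ, a = ρ - 3 := ⟨_, rfl⟩
  have hapos : 0 < a := by linarith
  have hρ' : ρ = a + 3 := by linarith
  rcases le_total a 5 with h2 | h2
  · have hH : 0 < 4 * (3 * 162 - ρ) - (2 - 2) * (7/10) * (ρ * (ρ - 3)) := by nlinarith
    have h := clear (by norm_num) (by linarith) (by linarith) hmom hm (by norm_num)
      (11 * (ρ - 3) + 0) 200 (7/10) (by norm_num) (by norm_num) hH
    have hF := c3_23_t0 a (by linarith) (by linarith)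
    rw [hρ'] at h
    have hpos := mul_pos (by norm_num : (0 : ℝ) < 1 / (5/8)) (mul_pos hapos hF)
    exact absurd h (not_le.mpr (lt_of_lt_of_eq hpos (by ring)))
  · have _unused := hapos
    have hH : 0 < 4 * (3 * 162 - ρ) - (2 - 2) * (3/10) * (ρ * (ρ - 3)) := by nlinarith
    have h := clear (by norm_num) (by linarith) (by linarith) hmom hm (by norm_num)
      (13 * (ρ - 3) + 0) 200 (3/10) (by norm_num) (by norm_num) hH
    have hF := c3_23_t1 a (by linarith) (by linarith)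
    rw [hρ'] at h
    have hpos := mul_pos (by norm_num : (0 : ℝ) < 1 / (5/8)) (mul_pos hapos hF)
    exact absurd h (not_le.mpr (lt_of_lt_of_eq hpos (by ring)))

theorem c3_24_t0 (a : ℝ) (h0 : 0 ≤ a) (h1 : a ≤ (23/4)) :
    0 <
      144862857216 + 40098022272*a + (-23699364480)*a^(2:ℕ) + 2688372984*a^(3:ℕ) + (-98071632)*a^(4:ℕ)
      + 1858995*a^(5:ℕ) + (-47539)*a^(6:ℕ) + 84*a^(7:ℕ) := by
  obtain ⟨x, hx⟩ : ∃ x : ℝ, x = a - 0 := ⟨_, rfl⟩
  obtain ⟨y, hy⟩ : ∃ y : ℝ, y = (23/4) - a := ⟨_, rfl⟩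
  have hx0 : 0 ≤ x := by linarith
  have hy0 : 0 ≤ y := by linarith
  have e :
      144862857216 + 40098022272*a + (-23699364480)*a^(2:ℕ) + 2688372984*a^(3:ℕ) + (-98071632)*a^(4:ℕ)
      + 1858995*a^(5:ℕ) + (-47539)*a^(6:ℕ) + 84*a^(7:ℕ)
      = 5730237898 + (2279548834906112/3404825447)*y^(7:ℕ) + (19734396326543360/3404825447)*x*y^(6:ℕ)
      + (57698001484873728/3404825447)*x^(2:ℕ)*y^(5:ℕ) + (80631886876592128/3404825447)*x^(3:ℕ)*y^(4:ℕ)
      + (58694804298271744/3404825447)*x^(4:ℕ)*y^(3:ℕ) + (21319129190162256/3404825447)*x^(5:ℕ)*y^(2:ℕ)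
      + (3012771769917844/3404825447)*x^(6:ℕ)*y + (9232/3404825447)*x^(7:ℕ) := by
    subst hx hy; ring
  rw [e]; positivity

theorem c3_24_t1 (a : ℝ) (h0 : (23/4) ≤ a) (h1 : a ≤ 21) :
    0 <
      (-100014986649600) + 34134139860480*a + (-3963334510080)*a^(2:ℕ) + 226985195952*a^(3:ℕ)
      + (-6816716496)*a^(4:ℕ) + 138510627*a^(5:ℕ) + (-2539339)*a^(6:ℕ) + 4356*a^(7:ℕ) := by
  obtain ⟨x, hx⟩ : ∃ x : ℝ, x = a - (23/4) := ⟨_, rfl⟩
  obtain ⟨y, hy⟩ : ∃ y : ℝ, y = 21 - a := ⟨_, rfl⟩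
  have hx0 : 0 ≤ x := by linarith
  have hy0 : 0 ≤ y := by linarith
  have e :
      (-100014986649600) + 34134139860480*a + (-3963334510080)*a^(2:ℕ) + 226985195952*a^(3:ℕ)
      + (-6816716496)*a^(4:ℕ) + 138510627*a^(5:ℕ) + (-2539339)*a^(6:ℕ) + 4356*a^(7:ℕ)
      = 1107166320000 + (158899212738944/51520374361)*y^(7:ℕ) + (27935303522169620/51520374361)*x*y^(6:ℕ)
      + (90701919593693616/51520374361)*x^(2:ℕ)*y^(5:ℕ) + (141497918288475264/51520374361)*x^(3:ℕ)*y^(4:ℕ)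
      + (153067073508767232/51520374361)*x^(4:ℕ)*y^(3:ℕ) + (113487061847860224/51520374361)*x^(5:ℕ)*y^(2:ℕ)
      + (38767968592588800/51520374361)*x^(6:ℕ)*y := by
    subst hx hy; ring
  rw [e]; positivity

theorem c3_24_false {ρ y Z : ℝ} (hn : 3 < ρ) (hρ : ρ ≤ 24)
    (hmom : ∀ t : ℝ, 2 * t * y ≤ Z + t ^(2:ℕ) * ((24 - ρ) * ρ / 24)) (hm : MI 2 3 24 177 ρ y Z) :
    False := by
  obtain ⟨a, ha⟩ : ∃ a : ℝ, a = ρ - 3 := ⟨_, rfl⟩
  have hapos : 0 < a := by linarith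
  have hρ' : ρ = a + 3 := by linarith
  rcases le_total a (23/4) with h2 | h2
  · have hH : 0 < 4 * (3 * 177 - ρ) - (2 - 2) * (7/10) * (ρ * (ρ - 3)) := by nlinarith
    have h := clear (by norm_num) (by linarith) (by linarith) hmom hm (by norm_num)
      (10 * (ρ - 3) + 0) 200 (7/10) (by norm_num) (by norm_num) hH
    have hF := c3_24_t0 a (by linarith) (by linarith)
    rw [hρ'] at h
    have hpos := mul_pos (by norm_num : (0 : ℝ) < 1 / (1/320)) (mul_pos hapos hF)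
    exact absurd h (not_le.mpr (lt_of_lt_of_eq hpos (by ring)))
  · have _unused := hapos
    have hH : 0 < 4 * (3 * 177 - ρ) - (2 - 2) * (3/10) * (ρ * (ρ - 3)) := by nlinarith
    have h := clear (by norm_num) (by linarith) (by linarith) hmom hm (by norm_num)
      (11 * (ρ - 3) + 0) 200 (3/10) (by norm_num) (by norm_num) hH
    have hF := c3_24_t1 a (by linarith) (by linarith)
    rw [hρ'] at h
    have hpos := mul_pos (by norm_num : (0 : ℝ) < 1 / (5/16)) (mul_pos hapos hF)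
    exact absurd h (not_le.mpr (lt_of_lt_of_eq hpos (by ring)))

theorem c3_25_t0 (a : ℝ) (h0 : 0 ≤ a) (h1 : a ≤ (13/2)) :
    0 <
      106457394960 + 26922366036*a + (-14090742702)*a^(2:ℕ) + 1430372705*a^(3:ℕ) + (-48680290)*a^(4:ℕ)
      + 901784*a^(5:ℕ) + (-21488)*a^(6:ℕ) + 35*a^(7:ℕ) := by
  obtain ⟨x, hx⟩ : ∃ x : ℝ, x = a - 0 := ⟨_, rfl⟩
  obtain ⟨y, hy⟩ : ∃ y : ℝ, y = (13/2) - a := ⟨_, rfl⟩
  have hx0 : 0 ≤ x := by linarith
  have hy0 : 0 ≤ y := by linarith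
  have e :
      106457394960 + 26922366036*a + (-14090742702)*a^(2:ℕ) + 1430372705*a^(3:ℕ) + (-48680290)*a^(4:ℕ)
      + 901784*a^(5:ℕ) + (-21488)*a^(6:ℕ) + 35*a^(7:ℕ)
      = 897510862 + (13511665164544/62748517)*y^(7:ℕ) + (116981064693760/62748517)*x*y^(6:ℕ)
      + (341938683174720/62748517)*x^(2:ℕ)*y^(5:ℕ) + (478166187552400/62748517)*x^(3:ℕ)*y^(4:ℕ)
      + (348868069477040/62748517)*x^(4:ℕ)*y^(3:ℕ) + (127362217259792/62748517)*x^(5:ℕ)*y^(2:ℕ)
      + (18188855491632/62748517)*x^(6:ℕ)*y + (79/62748517)*x^(7:ℕ) := by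
    subst hx hy; ring
  rw [e]; positivity

theorem c3_25_t1 (a : ℝ) (h0 : (13/2) ≤ a) (h1 : a ≤ 22) :
    0 <
      (-105024238875000) + 33801251906952*a + (-3782935323864)*a^(2:ℕ) + 202555823455*a^(3:ℕ)
      + (-5706064910)*a^(4:ℕ) + 112925688*a^(5:ℕ) + (-1914066)*a^(6:ℕ) + 3025*a^(7:ℕ) := by
  obtain ⟨x, hx⟩ : ∃ x : ℝ, x = a - (13/2) := ⟨_, rfl⟩
  obtain ⟨y, hy⟩ : ∃ y : ℝ, y = 22 - a := ⟨_, rfl⟩
  have hx0 : 0 ≤ x := by linarith
  have hy0 : 0 ≤ y := by linarith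
  have e :
      (-105024238875000) + 33801251906952*a + (-3782935323864)*a^(2:ℕ) + 202555823455*a^(3:ℕ)
      + (-5706064910)*a^(4:ℕ) + 112925688*a^(5:ℕ) + (-1914066)*a^(6:ℕ) + 3025*a^(7:ℕ)
      = 303325500000 + (4790331749455/887503681)*y^(7:ℕ) + (347463374762464/887503681)*x*y^(6:ℕ)
      + (972367201462176/887503681)*x^(2:ℕ)*y^(5:ℕ) + (1225761416123440/887503681)*x^(3:ℕ)*y^(4:ℕ)
      + (1193576849998160/887503681)*x^(4:ℕ)*y^(3:ℕ) + (989793955058496/887503681)*x^(5:ℕ)*y^(2:ℕ)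
      + (389599664099584/887503681)*x^(6:ℕ)*y := by
    subst hx hy; ring
  rw [e]; positivity

theorem c3_25_false {ρ y Z : ℝ} (hn : 3 < ρ) (hρ : ρ ≤ 25)
    (hmom : ∀ t : ℝ, 2 * t * y ≤ Z + t ^(2:ℕ) * ((25 - ρ) * ρ / 25)) (hm : MI 2 3 25 192 ρ y Z) :
    False := by
  obtain ⟨a, ha⟩ : ∃ a : ℝ, a = ρ - 3 := ⟨_, rfl⟩
  have hapos : 0 < a := by linarith
  have hρ' : ρ = a + 3 := by linarith
  rcases le_total a (13/2) with h2 | h2
  · have hH : 0 < 4 * (3 * 192 - ρ) - (2 - 2) * (7/10) * (ρ * (ρ - 3)) := by nlinarith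
    have h := clear (by norm_num) (by linarith) (by linarith) hmom hm (by norm_num)
      (10 * (ρ - 3) + 0) 200 (7/10) (by norm_num) (by norm_num) hH
    have hF := c3_25_t0 a (by linarith) (by linarith)
    rw [hρ'] at h
    have hpos := mul_pos (by norm_num : (0 : ℝ) < 1 / (1/800)) (mul_pos hapos hF)
    exact absurd h (not_le.mpr (lt_of_lt_of_eq hpos (by ring)))
  · have _unused := hapos
    have hH : 0 < 4 * (3 * 192 - ρ) - (2 - 2) * (1/4) * (ρ * (ρ - 3)) := by nlinarith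
    have h := clear (by norm_num) (by linarith) (by linarith) hmom hm (by norm_num)
      (11 * (ρ - 3) + 0) 200 (1/4) (by norm_num) (by norm_num) hH
    have hF := c3_25_t1 a (by linarith) (by linarith)
    rw [hρ'] at h
    have hpos := mul_pos (by norm_num : (0 : ℝ) < 1 / (1/4)) (mul_pos hapos hF)
    exact absurd h (not_le.mpr (lt_of_lt_of_eq hpos (by ring)))

end Pool.Agent.EI97
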