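import Pool.Agent.EI97.Elim

set_option autoImplicit false

/-! Small dimensions. -/

namespace Pool.Agent.EI97

theorem h3_22_t0 (a : ℝ) (h0 : 0 ≤ a) (h1 : a ≤ (5/2)) :
    0 <
      163980531000000 + 219033235893186*a + (-131007148017174)*a^(2:ℕ) + 12021626713221*a^(3:ℕ)
      + (-402265824423)*a^(4:ℕ) + 9804922193*a^(5:ℕ) + (-261376619)*a^(6:ℕ) + 2008800*a^(7:ℕ) + (-48384)*a^(8:ℕ) := by
  obtain ⟨x, hx⟩ : ∃ x : ℝ, x = a - 0 := ⟨_, rfl⟩
  obtain ⟨y, hy⟩ : ∃ y : ℝ, y = (5/2) - a := ⟨_, rfl⟩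
  have hx0 : 0 ≤ x := by linarith
  have hy0 : 0 ≤ y := by linarith
  have e :
      163980531000000 + 219033235893186*a + (-131007148017174)*a^(2:ℕ) + 12021626713221*a^(3:ℕ)
      + (-402265824423)*a^(4:ℕ) + 9804922193*a^(5:ℕ) + (-261376619)*a^(6:ℕ) + 2008800*a^(7:ℕ) + (-48384)*a^(8:ℕ)
      = 65788205781063 + (25137235256047872/390625)*y^(8:ℕ) + (341279153020022016/390625)*x*y^(7:ℕ)
      + (1475500047143335296/390625)*x^(2:ℕ)*y^(6:ℕ) + (3141909750631114272/390625)*x^(3:ℕ)*y^(5:ℕ)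
      + (751637855107746288/78125)*x^(4:ℕ)*y^(4:ℕ) + (2586820480403224232/390625)*x^(5:ℕ)*y^(3:ℕ)
      + (960925877350831756/390625)*x^(6:ℕ)*y^(2:ℕ) + (149743070134585856/390625)*x^(7:ℕ)*y
      + (12/390625)*x^(8:ℕ) := by
    subst hx hy; ring
  rw [e]; positivity

theorem h3_22_t1 (a : ℝ) (h0 : (5/2) ≤ a) (h1 : a ≤ 19) :
    0 <
      (-16201276462800) + 14728035619440*a + (-2467907202618)*a^(2:ℕ) + (-76114280814)*a^(3:ℕ)
      + 38559476775*a^(4:ℕ) + (-1718202715)*a^(5:ℕ) + 28000029*a^(6:ℕ) + (-1073493)*a^(7:ℕ) + 4864*a^(8:ℕ)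
      + (-168)*a^(9:ℕ) := by
  rcases le_total a (43/4) with h2 | h2
  · obtain ⟨x, hx⟩ : ∃ x : ℝ, x = a - (5/2) := ⟨_, rfl⟩
    obtain ⟨y, hy⟩ : ∃ y : ℝ, y = (43/4) - a := ⟨_, rfl⟩
    have hx0 : 0 ≤ x := by linarith
    have hy0 : 0 ≤ y := by linarith
    have e :
        (-16201276462800) + 14728035619440*a + (-2467907202618)*a^(2:ℕ) + (-76114280814)*a^(3:ℕ)
        + 38559476775*a^(4:ℕ) + (-1718202715)*a^(5:ℕ) + 28000029*a^(6:ℕ) + (-1073493)*a^(7:ℕ) + 4864*a^(8:ℕ)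
        + (-168)*a^(9:ℕ)
        = 1489282371533 + (91999398795757568/4219225854723)*y^(9:ℕ)
        + (158634891873594368/468802872747)*x*y^(8:ℕ) + (568204427629790720/468802872747)*x^(2:ℕ)*y^(7:ℕ)
        + (2116975625760663296/1406408618241)*x^(3:ℕ)*y^(6:ℕ) + (11990212771058048/42618442977)*x^(4:ℕ)*y^(5:ℕ)
        + (160192/468802872747)*x^(5:ℕ)*y^(4:ℕ) + (2820613498433025632/1406408618241)*x^(6:ℕ)*y^(3:ℕ)
        + (1406188029074995184/468802872747)*x^(7:ℕ)*y^(2:ℕ) + (765962449471451216/468802872747)*x^(8:ℕ)*y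
        + (1313330856576427592/4219225854723)*x^(9:ℕ) := by
      subst hx hy; ring
    rw [e]; positivity
  · have _unused := h0
    obtain ⟨x, hx⟩ : ∃ x : ℝ, x = a - (43/4) := ⟨_, rfl⟩
    obtain ⟨y, hy⟩ : ∃ y : ℝ, y = 19 - a := ⟨_, rfl⟩
    have hx0 : 0 ≤ x := by linarith
    have hy0 : 0 ≤ y := by linarith
    have e :
        (-16201276462800) + 14728035619440*a + (-2467907202618)*a^(2:ℕ) + (-76114280814)*a^(3:ℕ)
        + 38559476775*a^(4:ℕ) + (-1718202715)*a^(5:ℕ) + 28000029*a^(6:ℕ) + (-1073493)*a^(7:ℕ) + 4864*a^(8:ℕ)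
        + (-168)*a^(9:ℕ)
        = 7436091465000 + (43392993600481112/156267624249)*y^(9:ℕ)
        + (572993078105988800/156267624249)*x*y^(8:ℕ) + (3199067475100288976/156267624249)*x^(2:ℕ)*y^(7:ℕ)
        + (9899316861250299136/156267624249)*x^(3:ℕ)*y^(6:ℕ)
        + (18629398182463054336/156267624249)*x^(4:ℕ)*y^(5:ℕ)
        + (21899561919661391872/156267624249)*x^(5:ℕ)*y^(4:ℕ)
        + (15750654928354291712/156267624249)*x^(6:ℕ)*y^(3:ℕ)
        + (6354471770978779136/156267624249)*x^(7:ℕ)*y^(2:ℕ) + (1103856303439216640/156267624249)*x^(8:ℕ)*y := by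
      subst hx hy; ring
    rw [e]; positivity

theorem h3_22_false {ρ y Z : ℝ} (hn : 3 < ρ) (hρ : ρ ≤ 22)
    (hmom : ∀ t : ℝ, 2 * t * y ≤ Z + t ^(2:ℕ) * ((22 - ρ) * ρ / 22)) (hm : MI 4 3 22 287 ρ y Z) :
    False := by
  obtain ⟨a, ha⟩ : ∃ a : ℝ, a = ρ - 3 := ⟨_, rfl⟩
  have hapos : 0 < a := by linarith
  have hρ' : ρ = a + 3 := by linarith
  rcases le_total a (5/2) with h2 | h2
  · have hH : 0 < 4 * (3 * 287 - ρ) - (2 - 4) * (3/4) * (ρ * (ρ - 3)) := by nlinarith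
    have h := clear (by norm_num) (by linarith) (by linarith) hmom hm (by norm_num)
      (16 * (ρ - 3) + 0) 200 (3/4) (by norm_num) (by norm_num) hH
    have hF := h3_22_t0 a (by linarith) (by linarith)
    rw [hρ'] at h
    have hpos := mul_pos (by norm_num : (0 : ℝ) < 1 / (1)) (mul_pos hapos hF)
    exact absurd h (not_le.mpr (lt_of_lt_of_eq hpos (by ring)))
  · have _unused := hapos
    have hH : 0 < 4 * (3 * 287 - ρ) - (2 - 4) * (1/2) * (ρ * (ρ - 3)) := by nlinarith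
    have h := clear (by norm_num) (by linarith) (by linarith) hmom hm (by norm_num)
      (8 * (ρ - 3) + 30) 200 (1/2) (by norm_num) (by norm_num) hH
    have hF := h3_22_t1 a (by linarith) (by linarith)
    rw [hρ'] at h
    have hpos := mul_pos (by norm_num : (0 : ℝ) < 1 / (1/32)) hF
    exact absurd h (not_le.mpr (lt_of_lt_of_eq hpos (by ring)))

theorem h3_23_t0 (a : ℝ) (h0 : 0 ≤ a) (h1 : a ≤ (7/2)) :
    0 <
      325733577120000 + 1659239214480000*a + (-663483561710400)*a^(2:ℕ) + 58966792946240*a^(3:ℕ)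
      + (-1928538227898)*a^(4:ℕ) + 42209545518*a^(5:ℕ) + (-1115007605)*a^(6:ℕ) + 7628803*a^(7:ℕ)
      + (-182182)*a^(8:ℕ) := by
  obtain ⟨x, hx⟩ : ∃ x : ℝ, x = a - 0 := ⟨_, rfl⟩
  obtain ⟨y, hy⟩ : ∃ y : ℝ, y = (7/2) - a := ⟨_, rfl⟩
  have hx0 : 0 ≤ x := by linarith
  have hy0 : 0 ≤ y := by linarith
  have e :
      325733577120000 + 1659239214480000*a + (-663483561710400)*a^(2:ℕ) + 58966792946240*a^(3:ℕ)
      + (-1928538227898)*a^(4:ℕ) + 42209545518*a^(5:ℕ) + (-1115007605)*a^(6:ℕ) + 7628803*a^(7:ℕ)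
      + (-182182)*a^(8:ℕ)
      = 264361721847321 + (2244456421400832/823543)*y^(8:ℕ) + (32905467260663808/117649)*x*y^(7:ℕ)
      + (178897497189577728/117649)*x^(2:ℕ)*y^(6:ℕ) + (59076340522098688/16807)*x^(3:ℕ)*y^(5:ℕ)
      + (511944276368341088/117649)*x^(4:ℕ)*y^(4:ℕ) + (356763332958885520/117649)*x^(5:ℕ)*y^(3:ℕ)
      + (132531997625150492/117649)*x^(6:ℕ)*y^(2:ℕ) + (143438717617915806/823543)*x^(7:ℕ)*y := by
    subst hx hy; ring
  rw [e]; positivity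

theorem h3_23_t1 (a : ℝ) (h0 : (7/2) ≤ a) (h1 : a ≤ 20) :
    0 <
      (-5015381328000) + (-5429070424800)*a + 3854267003520*a^(2:ℕ) + (-699724593408)*a^(3:ℕ)
      + 53121785880*a^(4:ℕ) + (-1668628414)*a^(5:ℕ) + 29760980*a^(6:ℕ) + (-742319)*a^(7:ℕ) + 4020*a^(8:ℕ)
      + (-88)*a^(9:ℕ) := by
  obtain ⟨x, hx⟩ : ∃ x : ℝ, x = a - (7/2) := ⟨_, rfl⟩
  obtain ⟨y, hy⟩ : ∃ y : ℝ, y = 20 - a := ⟨_, rfl⟩
  have hx0 : 0 ≤ x := by linarith
  have hy0 : 0 ≤ y := by linarith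
  have e :
      (-5015381328000) + (-5429070424800)*a + 3854267003520*a^(2:ℕ) + (-699724593408)*a^(3:ℕ)
      + 53121785880*a^(4:ℕ) + (-1668628414)*a^(5:ℕ) + 29760980*a^(6:ℕ) + (-742319)*a^(7:ℕ) + 4020*a^(8:ℕ)
      + (-88)*a^(9:ℕ)
      = 342160247617 + (28/46411484401953)*y^(9:ℕ) + (10640921943858400/15470494800651)*x*y^(8:ℕ)
      + (73751815776945620/15470494800651)*x^(2:ℕ)*y^(7:ℕ)
      + (111981186533611904/15470494800651)*x^(3:ℕ)*y^(6:ℕ)
      + (77130286175969696/15470494800651)*x^(4:ℕ)*y^(5:ℕ)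
      + (286359686578278400/15470494800651)*x^(5:ℕ)*y^(4:ℕ) + (8294510063384576/190993762971)*x^(6:ℕ)*y^(3:ℕ)
      + (601844160488384512/15470494800651)*x^(7:ℕ)*y^(2:ℕ) + (189831607291877888/15470494800651)*x^(8:ℕ)*y
      + (1144995877060096/46411484401953)*x^(9:ℕ) := by
    subst hx hy; ring
  rw [e]; positivity

theorem h3_23_false {ρ y Z : ℝ} (hn : 3 < ρ) (hρ : ρ ≤ 23)
    (hmom : ∀ t : ℝ, 2 * t * y ≤ Z + t ^(2:ℕ) * ((23 - ρ) * ρ / 23)) (hm : MI 4 3 23 315 ρ y Z) :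
    False := by
  obtain ⟨a, ha⟩ : ∃ a : ℝ, a = ρ - 3 := ⟨_, rfl⟩
  have hapos : 0 < a := by linarith
  have hρ' : ρ = a + 3 := by linarith
  rcases le_total a (7/2) with h2 | h2
  · have hH : 0 < 4 * (3 * 315 - ρ) - (2 - 4) * (7/10) * (ρ * (ρ - 3)) := by nlinarith
    have h := clear (by norm_num) (by linarith) (by linarith) hmom hm (by norm_num)
      (13 * (ρ - 3) + 0) 200 (7/10) (by norm_num) (by norm_num) hH
    have hF := h3_23_t0 a (by linarith) (by linarith)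
    rw [hρ'] at h
    have hpos := mul_pos (by norm_num : (0 : ℝ) < 1 / (25/4)) (mul_pos hapos hF)
    exact absurd h (not_le.mpr (lt_of_lt_of_eq hpos (by ring)))
  · have _unused := hapos
    have hH : 0 < 4 * (3 * 315 - ρ) - (2 - 4) * (2/5) * (ρ * (ρ - 3)) := by nlinarith
    have h := clear (by norm_num) (by linarith) (by linarith) hmom hm (by norm_num)
      (10 * (ρ - 3) + 20) 200 (2/5) (by norm_num) (by norm_num) hH
    have hF := h3_23_t1 a (by linarith) (by linarith)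
    rw [hρ'] at h
    have hpos := mul_pos (by norm_num : (0 : ℝ) < 1 / (1/64)) hF
    exact absurd h (not_le.mpr (lt_of_lt_of_eq hpos (by ring)))

theorem h3_24_t0 (a : ℝ) (h0 : 0 ≤ a) (h1 : a ≤ (17/4)) :
    0 <
      389428155648000 + 443540892803400*a + (-185220102259800)*a^(2:ℕ) + 16165228996347*a^(3:ℕ)
      + (-510294639777)*a^(4:ℕ) + 10581906729*a^(5:ℕ) + (-271313999)*a^(6:ℕ) + 1747032*a^(7:ℕ) + (-40572)*a^(8:ℕ) := by
  obtain ⟨x, hx⟩ : ∃ x : ℝ, x = a - 0 := ⟨_, rfl⟩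
  obtain ⟨y, hy⟩ : ∃ y : ℝ, y = (17/4) - a := ⟨_, rfl⟩
  have hx0 : 0 ≤ x := by linarith
  have hy0 : 0 ≤ y := by linarith
  have e :
      389428155648000 + 443540892803400*a + (-185220102259800)*a^(2:ℕ) + 16165228996347*a^(3:ℕ)
      + (-510294639777)*a^(4:ℕ) + 10581906729*a^(5:ℕ) + (-271313999)*a^(6:ℕ) + 1747032*a^(7:ℕ) + (-40572)*a^(8:ℕ)
      = 16500384478722 + (24440194411349803008/6975757441)*y^(8:ℕ)
      + (319060113081543819264/6975757441)*x*y^(7:ℕ) + (1329842163323587559424/6975757441)*x^(2:ℕ)*y^(6:ℕ)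
      + (2728767336805164198912/6975757441)*x^(3:ℕ)*y^(5:ℕ)
      + (3141583781667698473728/6975757441)*x^(4:ℕ)*y^(4:ℕ)
      + (2078013541110379524672/6975757441)*x^(5:ℕ)*y^(3:ℕ)
      + (740411000951457594832/6975757441)*x^(6:ℕ)*y^(2:ℕ) + (110436432377436835904/6975757441)*x^(7:ℕ)*y
      + (51508/6975757441)*x^(8:ℕ) := by
    subst hx hy; ring
  rw [e]; positivity

theorem h3_24_t1 (a : ℝ) (h0 : (17/4) ≤ a) (h1 : a ≤ 21) :
    0 <
      (-443159042457600) + (-719739299911680)*a + 398180690271432*a^(2:ℕ) + (-63095859738072)*a^(3:ℕ)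
      + 4204893913035*a^(4:ℕ) + (-120293368049)*a^(5:ℕ) + 2040689825*a^(6:ℕ) + (-45596575)*a^(7:ℕ) + 231952*a^(8:ℕ)
      + (-4508)*a^(9:ℕ) := by
  obtain ⟨x, hx⟩ : ∃ x : ℝ, x = a - (17/4) := ⟨_, rfl⟩
  obtain ⟨y, hy⟩ : ∃ y : ℝ, y = 21 - a := ⟨_, rfl⟩
  have hx0 : 0 ≤ x := by linarith
  have hy0 : 0 ≤ y := by linarith
  have e :
      (-443159042457600) + (-719739299911680)*a + 398180690271432*a^(2:ℕ) + (-63095859738072)*a^(3:ℕ)
      + 4204893913035*a^(4:ℕ) + (-120293368049)*a^(5:ℕ) + 2040689825*a^(6:ℕ) + (-45596575)*a^(7:ℕ) + 231952*a^(8:ℕ)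
      + (-4508)*a^(9:ℕ)
      = 15140003493294 + (12406677806171014964/27206534396294947)*y^(9:ℕ)
      + (1674222030320443169072/27206534396294947)*x*y^(8:ℕ)
      + (10429092832054673579344/27206534396294947)*x^(2:ℕ)*y^(7:ℕ)
      + (13970669668249454930176/27206534396294947)*x^(3:ℕ)*y^(6:ℕ)
      + (12368384/27206534396294947)*x^(4:ℕ)*y^(5:ℕ)
      + (10537283677243033878528/27206534396294947)*x^(5:ℕ)*y^(4:ℕ)
      + (53730423059031554347008/27206534396294947)*x^(6:ℕ)*y^(3:ℕ)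
      + (57045829246741783904256/27206534396294947)*x^(7:ℕ)*y^(2:ℕ)
      + (19248686569726394499072/27206534396294947)*x^(8:ℕ)*y
      + (69957459005592305664/27206534396294947)*x^(9:ℕ) := by
    subst hx hy; ring
  rw [e]; positivity

theorem h3_24_false {ρ y Z : ℝ} (hn : 3 < ρ) (hρ : ρ ≤ 24)
    (hmom : ∀ t : ℝ, 2 * t * y ≤ Z + t ^(2:ℕ) * ((24 - ρ) * ρ / 24)) (hm : MI 4 3 24 345 ρ y Z) :
    False := by
  obtain ⟨a, ha⟩ : ∃ a : ℝ, a = ρ - 3 := ⟨_, rfl⟩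
  have hapos : 0 < a := by linarith
  have hρ' : ρ = a + 3 := by linarith
  rcases le_total a (17/4) with h2 | h2
  · have hH : 0 < 4 * (3 * 345 - ρ) - (2 - 4) * (7/10) * (ρ * (ρ - 3)) := by nlinarith
    have h := clear (by norm_num) (by linarith) (by linarith) hmom hm (by norm_num)
      (12 * (ρ - 3) + 0) 200 (7/10) (by norm_num) (by norm_num) hH
    have hF := h3_24_t0 a (by linarith) (by linarith)
    rw [hρ'] at h
    have hpos := mul_pos (by norm_num : (0 : ℝ) < 1 / (25/16)) (mul_pos hapos hF)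
    exact absurd h (not_le.mpr (lt_of_lt_of_eq hpos (by ring)))
  · have _unused := hapos
    have hH : 0 < 4 * (3 * 345 - ρ) - (2 - 4) * (7/20) * (ρ * (ρ - 3)) := by nlinarith
    have h := clear (by norm_num) (by linarith) (by linarith) hmom hm (by norm_num)
      (10 * (ρ - 3) + 20) 200 (7/20) (by norm_num) (by norm_num) hH
    have hF := h3_24_t1 a (by linarith) (by linarith)
    rw [hρ'] at h
    have hpos := mul_pos (by norm_num : (0 : ℝ) < 1 / (1)) hF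
    exact absurd h (not_le.mpr (lt_of_lt_of_eq hpos (by ring)))

theorem h3_25_t0 (a : ℝ) (h0 : 0 ≤ a) (h1 : a ≤ (24/5)) :
    0 <
      3436551562500000 + 1711573673175000*a + (-787562478832500)*a^(2:ℕ) + 68466321013450*a^(3:ℕ)
      + (-2098973921705)*a^(4:ℕ) + 41217532193*a^(5:ℕ) + (-1033836667)*a^(6:ℕ) + 6248781*a^(7:ℕ)
      + (-142296)*a^(8:ℕ) := by
  obtain ⟨x, hx⟩ : ∃ x : ℝ, x = a - 0 := ⟨_, rfl⟩
  obtain ⟨y, hy⟩ : ∃ y : ℝ, y = (24/5) - a := ⟨_, rfl⟩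
  have hx0 : 0 ≤ x := by linarith
  have hy0 : 0 ≤ y := by linarith
  have e :
      3436551562500000 + 1711573673175000*a + (-787562478832500)*a^(2:ℕ) + 68466321013450*a^(3:ℕ)
      + (-2098973921705)*a^(4:ℕ) + 41217532193*a^(5:ℕ) + (-1033836667)*a^(6:ℕ) + 6248781*a^(7:ℕ)
      + (-142296)*a^(8:ℕ)
      = 56976602822612 + (330036617155994921875/27518828544)*y^(8:ℕ)
      + (430324137068592578125/3439853568)*x*y^(7:ℕ) + (3271277704525050390625/6879707136)*x^(2:ℕ)*y^(6:ℕ)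
      + (3179712088594828984375/3439853568)*x^(3:ℕ)*y^(5:ℕ)
      + (14095602821237613040625/13759414272)*x^(4:ℕ)*y^(4:ℕ)
      + (2261452533352382393875/3439853568)*x^(5:ℕ)*y^(3:ℕ)
      + (1570031675236575364825/6879707136)*x^(6:ℕ)*y^(2:ℕ) + (114321702796314869785/3439853568)*x^(7:ℕ)*y
      + (87331/27518828544)*x^(8:ℕ) := by
    subst hx hy; ring
  rw [e]; positivity

theorem h3_25_t1 (a : ℝ) (h0 : (24/5) ≤ a) (h1 : a ≤ 22) :
    0 <
      (-601425000000000) + (-64566828641250000)*a + 25664535588334500*a^(2:ℕ)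
      + (-3320858419002000)*a^(3:ℕ) + 186108004078613*a^(4:ℕ) + (-4804857695398)*a^(5:ℕ) + 81397100088*a^(6:ℕ)
      + (-1596944130)*a^(7:ℕ) + 8400623*a^(8:ℕ) + (-142296)*a^(9:ℕ) := by
  rcases le_total a (67/5) with h2 | h2
  · obtain ⟨x, hx⟩ : ∃ x : ℝ, x = a - (24/5) := ⟨_, rfl⟩
    obtain ⟨y, hy⟩ : ∃ y : ℝ, y = (67/5) - a := ⟨_, rfl⟩
    have hx0 : 0 ≤ x := by linarith
    have hy0 : 0 ≤ y := by linarith
    have e :
        (-601425000000000) + (-64566828641250000)*a + 25664535588334500*a^(2:ℕ)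
        + (-3320858419002000)*a^(3:ℕ) + 186108004078613*a^(4:ℕ) + (-4804857695398)*a^(5:ℕ)
        + 81397100088*a^(6:ℕ) + (-1596944130)*a^(7:ℕ) + 8400623*a^(8:ℕ) + (-142296)*a^(9:ℕ)
        = 983183622817562 + (1050686/502592611936843)*y^(9:ℕ)
        + (385679676050464061454462/502592611936843)*x*y^(8:ℕ)
        + (2915447370967975955452524/502592611936843)*x^(2:ℕ)*y^(7:ℕ)
        + (8735511978040003487053428/502592611936843)*x^(3:ℕ)*y^(6:ℕ)
        + (13780407112454532643535521/502592611936843)*x^(4:ℕ)*y^(5:ℕ)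
        + (12619266991283309492122123/502592611936843)*x^(5:ℕ)*y^(4:ℕ)
        + (6965797164723610566725166/502592611936843)*x^(6:ℕ)*y^(3:ℕ)
        + (2369082949248469136625532/502592611936843)*x^(7:ℕ)*y^(2:ℕ)
        + (506316180099298620376454/502592611936843)*x^(8:ℕ)*y
        + (58354716704863444873278/502592611936843)*x^(9:ℕ) := by
      subst hx hy; ring
    rw [e]; positivity
  · have _unused := h0
    obtain ⟨x, hx⟩ : ∃ x : ℝ, x = a - (67/5) := ⟨_, rfl⟩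
    obtain ⟨y, hy⟩ : ∃ y : ℝ, y = 22 - a := ⟨_, rfl⟩
    have hx0 : 0 ≤ x := by linarith
    have hy0 : 0 ≤ y := by linarith
    have e :
        (-601425000000000) + (-64566828641250000)*a + 25664535588334500*a^(2:ℕ)
        + (-3320858419002000)*a^(3:ℕ) + 186108004078613*a^(4:ℕ) + (-4804857695398)*a^(5:ℕ)
        + 81397100088*a^(6:ℕ) + (-1596944130)*a^(7:ℕ) + 8400623*a^(8:ℕ) + (-142296)*a^(9:ℕ)
        = 9158504355000000 + (985751009298130712896/11688200277601)*y^(9:ℕ)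
        + (9310742112624394636600/11688200277601)*x*y^(8:ℕ)
        + (48750605446010455825100/11688200277601)*x^(2:ℕ)*y^(7:ℕ)
        + (171326930736699199635750/11688200277601)*x^(3:ℕ)*y^(6:ℕ)
        + (391493804826855610518125/11688200277601)*x^(4:ℕ)*y^(5:ℕ)
        + (558322311927737664771875/11688200277601)*x^(5:ℕ)*y^(4:ℕ)
        + (476207875880935315062500/11688200277601)*x^(6:ℕ)*y^(3:ℕ)
        + (222017396777181239062500/11688200277601)*x^(7:ℕ)*y^(2:ℕ)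
        + (43541007575289687500000/11688200277601)*x^(8:ℕ)*y := by
      subst hx hy; ring
    rw [e]; positivity

theorem h3_25_false {ρ y Z : ℝ} (hn : 3 < ρ) (hρ : ρ ≤ 25)
    (hmom : ∀ t : ℝ, 2 * t * y ≤ Z + t ^(2:ℕ) * ((25 - ρ) * ρ / 25)) (hm : MI 4 3 25 376 ρ y Z) :
    False := by
  obtain ⟨a, ha⟩ : ∃ a : ℝ, a = ρ - 3 := ⟨_, rfl⟩
  have hapos : 0 < a := by linarith
  have hρ' : ρ = a + 3 := by linarith
  rcases le_total a (24/5) with h2 | h2
  · have hH : 0 < 4 * (3 * 376 - ρ) - (2 - 4) * (7/10) * (ρ * (ρ - 3)) := by nlinarith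
    have h := clear (by norm_num) (by linarith) (by linarith) hmom hm (by norm_num)
      (11 * (ρ - 3) + 0) 200 (7/10) (by norm_num) (by norm_num) hH
    have hF := h3_25_t0 a (by linarith) (by linarith)
    rw [hρ'] at h
    have hpos := mul_pos (by norm_num : (0 : ℝ) < 1 / (25/4)) (mul_pos hapos hF)
    exact absurd h (not_le.mpr (lt_of_lt_of_eq hpos (by ring)))
  · have _unused := hapos
    have hH : 0 < 4 * (3 * 376 - ρ) - (2 - 4) * (7/20) * (ρ * (ρ - 3)) := by nlinarith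
    have h := clear (by norm_num) (by linarith) (by linarith) hmom hm (by norm_num)
      (11 * (ρ - 3) + 4) 200 (7/20) (by norm_num) (by norm_num) hH
    have hF := h3_25_t1 a (by linarith) (by linarith)
    rw [hρ'] at h
    have hpos := mul_pos (by norm_num : (0 : ℝ) < 1 / (25)) hF
    exact absurd h (not_le.mpr (lt_of_lt_of_eq hpos (by ring)))

theorem h3_26_t0 (a : ℝ) (h0 : 0 ≤ a) (h1 : a ≤ (32/5)) :
    0 <
      101889440967600 + 509115156609609*a + (-140383172352951)*a^(2:ℕ) + 11009872886806*a^(3:ℕ)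
      + (-321318086878)*a^(4:ℕ) + 5852953345*a^(5:ℕ) + (-139090327)*a^(6:ℕ) + 787488*a^(7:ℕ) + (-16900)*a^(8:ℕ) := by
  obtain ⟨x, hx⟩ : ∃ x : ℝ, x = a - 0 := ⟨_, rfl⟩
  obtain ⟨y, hy⟩ : ∃ y : ℝ, y = (32/5) - a := ⟨_, rfl⟩
  have hx0 : 0 ≤ x := by linarith
  have hy0 : 0 ≤ y := by linarith
  have e :
      101889440967600 + 509115156609609*a + (-140383172352951)*a^(2:ℕ) + 11009872886806*a^(3:ℕ)
      + (-321318086878)*a^(4:ℕ) + 5852953345*a^(5:ℕ) + (-139090327)*a^(6:ℕ) + 787488*a^(7:ℕ) + (-16900)*a^(8:ℕ)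
      = 10807692033221 + (35578808177491796875/1099511627776)*y^(8:ℕ)
      + (194677294617994609375/137438953472)*x*y^(7:ℕ)
      + (1914897777997677953125/274877906944)*x^(2:ℕ)*y^(6:ℕ)
      + (2046448177208706440625/137438953472)*x^(3:ℕ)*y^(5:ℕ)
      + (9386303653842639600625/549755813888)*x^(4:ℕ)*y^(4:ℕ)
      + (1509214640548329335625/137438953472)*x^(5:ℕ)*y^(3:ℕ)
      + (1028335053300511890325/274877906944)*x^(6:ℕ)*y^(2:ℕ)
      + (72301890475224633815/137438953472)*x^(7:ℕ)*y + (369195/1099511627776)*x^(8:ℕ) := by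
    subst hx hy; ring
  rw [e]; positivity

theorem h3_26_t1 (a : ℝ) (h0 : (32/5) ≤ a) (h1 : a ≤ 23) :
    0 <
      (-262444966126200) + 81989121758049*a + (-8830019884257)*a^(2:ℕ) + 442541225607*a^(3:ℕ)
      + (-10715370231)*a^(4:ℕ) + 168235183*a^(5:ℕ) + (-3052559)*a^(6:ℕ) + 14505*a^(7:ℕ) + (-225)*a^(8:ℕ) := by
  obtain ⟨x, hx⟩ : ∃ x : ℝ, x = a - (32/5) := ⟨_, rfl⟩
  obtain ⟨y, hy⟩ : ∃ y : ℝ, y = 23 - a := ⟨_, rfl⟩
  have hx0 : 0 ≤ x := by linarith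
  have hy0 : 0 ≤ y := by linarith
  have e :
      (-262444966126200) + 81989121758049*a + (-8830019884257)*a^(2:ℕ) + 442541225607*a^(3:ℕ)
      + (-10715370231)*a^(4:ℕ) + 168235183*a^(5:ℕ) + (-3052559)*a^(6:ℕ) + 14505*a^(7:ℕ) + (-225)*a^(8:ℕ)
      = 242304936257 + (205575/2252292232139041)*y^(8:ℕ)
      + (86431778670333337775/2252292232139041)*x*y^(7:ℕ)
      + (325199696110078190100/2252292232139041)*x^(2:ℕ)*y^(6:ℕ)
      + (532538465345520297750/2252292232139041)*x^(3:ℕ)*y^(5:ℕ)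
      + (599192764687584408750/2252292232139041)*x^(4:ℕ)*y^(4:ℕ)
      + (579904688981500500000/2252292232139041)*x^(5:ℕ)*y^(3:ℕ)
      + (385266108013172312500/2252292232139041)*x^(6:ℕ)*y^(2:ℕ)
      + (111477612633736875000/2252292232139041)*x^(7:ℕ)*y
      + (187211068024609375/2252292232139041)*x^(8:ℕ) := by
    subst hx hy; ring
  rw [e]; positivity

theorem h3_26_false {ρ y Z : ℝ} (hn : 3 < ρ) (hρ : ρ ≤ 26)
    (hmom : ∀ t : ℝ, 2 * t * y ≤ Z + t ^(2:ℕ) * ((26 - ρ) * ρ / 26)) (hm : MI 4 3 26 408 ρ y Z) :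
    False := by
  obtain ⟨a, ha⟩ : ∃ a : ℝ, a = ρ - 3 := ⟨_, rfl⟩
  have hapos : 0 < a := by linarith
  have hρ' : ρ = a + 3 := by linarith
  rcases le_total a (32/5) with h2 | h2
  · have hH : 0 < 4 * (3 * 408 - ρ) - (2 - 4) * (13/20) * (ρ * (ρ - 3)) := by nlinarith
    have h := clear (by norm_num) (by linarith) (by linarith) hmom hm (by norm_num)
      (10 * (ρ - 3) + 0) 200 (13/20) (by norm_num) (by norm_num) hH
    have hF := h3_26_t0 a (by linarith) (by linarith)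
    rw [hρ'] at h
    have hpos := mul_pos (by norm_num : (0 : ℝ) < 1 / (1)) (mul_pos hapos hF)
    exact absurd h (not_le.mpr (lt_of_lt_of_eq hpos (by ring)))
  · have _unused := hapos
    have hH : 0 < 4 * (3 * 408 - ρ) - (2 - 4) * (3/10) * (ρ * (ρ - 3)) := by nlinarith
    have h := clear (by norm_num) (by linarith) (by linarith) hmom hm (by norm_num)
      (10 * (ρ - 3) + 0) 200 (3/10) (by norm_num) (by norm_num) hH
    have hF := h3_26_t1 a (by linarith) (by linarith)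
    rw [hρ'] at h
    have hpos := mul_pos (by norm_num : (0 : ℝ) < 1 / (1/16)) (mul_pos hapos hF)
    exact absurd h (not_le.mpr (lt_of_lt_of_eq hpos (by ring)))

theorem h3_27_t0 (a : ℝ) (h0 : 0 ≤ a) (h1 : a ≤ (29/4)) :
    0 <
      10925875678536000 + 11405330206187400*a + (-3378305357741160)*a^(2:ℕ) + 271229658167889*a^(3:ℕ)
      + (-7788051386496)*a^(4:ℕ) + 133557810210*a^(5:ℕ) + (-3158405090)*a^(6:ℕ) + 16610841*a^(7:ℕ)
      + (-355914)*a^(8:ℕ) := by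
  obtain ⟨x, hx⟩ : ∃ x : ℝ, x = a - 0 := ⟨_, rfl⟩
  obtain ⟨y, hy⟩ : ∃ y : ℝ, y = (29/4) - a := ⟨_, rfl⟩
  have hx0 : 0 ≤ x := by linarith
  have hy0 : 0 ≤ y := by linarith
  have e :
      10925875678536000 + 11405330206187400*a + (-3378305357741160)*a^(2:ℕ) + 271229658167889*a^(3:ℕ)
      + (-7788051386496)*a^(4:ℕ) + 133557810210*a^(5:ℕ) + (-3158405090)*a^(6:ℕ) + 16610841*a^(7:ℕ)
      + (-355914)*a^(8:ℕ)
      = 116403309437319 + (708409581181251158016/500246412961)*y^(8:ℕ)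
      + (11086359622297065750528/500246412961)*x*y^(7:ℕ)
      + (46131678998200575295488/500246412961)*x^(2:ℕ)*y^(6:ℕ)
      + (90421239083365140157440/500246412961)*x^(3:ℕ)*y^(5:ℕ)
      + (97154791303717568553984/500246412961)*x^(4:ℕ)*y^(4:ℕ)
      + (58864027256284328134272/500246412961)*x^(5:ℕ)*y^(3:ℕ)
      + (18848564514278539895392/500246412961)*x^(6:ℕ)*y^(2:ℕ)
      + (2471996480133223463540/500246412961)*x^(7:ℕ)*y + (1546/500246412961)*x^(8:ℕ) := by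
    subst hx hy; ring
  rw [e]; positivity

theorem h3_27_t1 (a : ℝ) (h0 : (29/4) ≤ a) (h1 : a ≤ 24) :
    0 <
      (-218449460779200) + 64610039547144*a + (-6668567740800)*a^(2:ℕ) + 312194797209*a^(3:ℕ)
      + (-7011167805)*a^(4:ℕ) + 104052249*a^(5:ℕ) + (-1731621)*a^(6:ℕ) + 7368*a^(7:ℕ) + (-104)*a^(8:ℕ) := by
  obtain ⟨x, hx⟩ : ∃ x : ℝ, x = a - (29/4) := ⟨_, rfl⟩
  obtain ⟨y, hy⟩ : ∃ y : ℝ, y = 24 - a := ⟨_, rfl⟩
  have hx0 : 0 ≤ x := by linarith
  have hy0 : 0 ≤ y := by linarith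
  have e :
      (-218449460779200) + 64610039547144*a + (-6668567740800)*a^(2:ℕ) + 312194797209*a^(3:ℕ)
      + (-7011167805)*a^(4:ℕ) + 104052249*a^(5:ℕ) + (-1731621)*a^(6:ℕ) + 7368*a^(7:ℕ) + (-104)*a^(8:ℕ)
      = 696434112000 + (195674079217720/6060711605323)*y^(8:ℕ)
      + (127619027968662336/6060711605323)*x*y^(7:ℕ) + (404293208645149008/6060711605323)*x^(2:ℕ)*y^(6:ℕ)
      + (450647825159189952/6060711605323)*x^(3:ℕ)*y^(5:ℕ) + (293298938531308800/6060711605323)*x^(4:ℕ)*y^(4:ℕ)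
      + (341547966936972288/6060711605323)*x^(5:ℕ)*y^(3:ℕ) + (348815729361125376/6060711605323)*x^(6:ℕ)*y^(2:ℕ)
      + (127419044558929920/6060711605323)*x^(7:ℕ)*y := by
    subst hx hy; ring
  rw [e]; positivity

theorem h3_27_false {ρ y Z : ℝ} (hn : 3 < ρ) (hρ : ρ ≤ 27)
    (hmom : ∀ t : ℝ, 2 * t * y ≤ Z + t ^(2:ℕ) * ((27 - ρ) * ρ / 27)) (hm : MI 4 3 27 442 ρ y Z) :
    False := by
  obtain ⟨a, ha⟩ : ∃ a : ℝ, a = ρ - 3 := ⟨_, rfl⟩
  have hapos : 0 < a := by linarith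
  have hρ' : ρ = a + 3 := by linarith
  rcases le_total a (29/4) with h2 | h2
  · have hH : 0 < 4 * (3 * 442 - ρ) - (2 - 4) * (13/20) * (ρ * (ρ - 3)) := by nlinarith
    have h := clear (by norm_num) (by linarith) (by linarith) hmom hm (by norm_num)
      (9 * (ρ - 3) + 0) 200 (13/20) (by norm_num) (by norm_num) hH
    have hF := h3_27_t0 a (by linarith) (by linarith)
    rw [hρ'] at h
    have hpos := mul_pos (by norm_num : (0 : ℝ) < 1 / (25)) (mul_pos hapos hF)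
    exact absurd h (not_le.mpr (lt_of_lt_of_eq hpos (by ring)))
  · have _unused := hapos
    have hH : 0 < 4 * (3 * 442 - ρ) - (2 - 4) * (1/4) * (ρ * (ρ - 3)) := by nlinarith
    have h := clear (by norm_num) (by linarith) (by linarith) hmom hm (by norm_num)
      (10 * (ρ - 3) + 0) 200 (1/4) (by norm_num) (by norm_num) hH
    have hF := h3_27_t1 a (by linarith) (by linarith)
    rw [hρ'] at h
    have hpos := mul_pos (by norm_num : (0 : ℝ) < 1 / (1/25)) (mul_pos hapos hF)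
    exact absurd h (not_le.mpr (lt_of_lt_of_eq hpos (by ring)))

theorem h3_28_t0 (a : ℝ) (h0 : 0 ≤ a) (h1 : a ≤ (31/4)) :
    0 <
      23102935128000000 + 16508236793800500*a + (-4691910771435300)*a^(2:ℕ) + 350154491542635*a^(3:ℕ)
      + (-9523893787023)*a^(4:ℕ) + 159531142778*a^(5:ℕ) + (-3548688074)*a^(6:ℕ) + 18365607*a^(7:ℕ)
      + (-369603)*a^(8:ℕ) := by
  obtain ⟨x, hx⟩ : ∃ x : ℝ, x = a - 0 := ⟨_, rfl⟩
  obtain ⟨y, hy⟩ : ∃ y : ℝ, y = (31/4) - a := ⟨_, rfl⟩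
  have hx0 : 0 ≤ x := by linarith
  have hy0 : 0 ≤ y := by linarith
  have e :
      23102935128000000 + 16508236793800500*a + (-4691910771435300)*a^(2:ℕ) + 350154491542635*a^(3:ℕ)
      + (-9523893787023)*a^(4:ℕ) + 159531142778*a^(5:ℕ) + (-3548688074)*a^(6:ℕ) + 18365607*a^(7:ℕ)
      + (-369603)*a^(8:ℕ)
      = 1585152313320112 + (1410189414542861139968/852891037441)*y^(8:ℕ)
      + (19666114816861338271744/852891037441)*x*y^(7:ℕ)
      + (79708938185302427746304/852891037441)*x^(2:ℕ)*y^(6:ℕ)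
      + (154917632488654445237248/852891037441)*x^(3:ℕ)*y^(5:ℕ)
      + (166303197161876541101312/852891037441)*x^(4:ℕ)*y^(4:ℕ)
      + (101164119526514462260608/852891037441)*x^(5:ℕ)*y^(3:ℕ)
      + (32668143682525835333088/852891037441)*x^(6:ℕ)*y^(2:ℕ)
      + (4342916843303530920228/852891037441)*x^(7:ℕ)*y + (63233/852891037441)*x^(8:ℕ) := by
    subst hx hy; ring
  rw [e]; positivity

theorem h3_28_t1 (a : ℝ) (h0 : (31/4) ≤ a) (h1 : a ≤ 25) :
    0 <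
      (-7030657811520000) + 1889756903078100*a + (-177676861291524)*a^(2:ℕ) + 7903759097155*a^(3:ℕ)
      + (-172552029719)*a^(4:ℕ) + 2429831146*a^(5:ℕ) + (-39334170)*a^(6:ℕ) + 159039*a^(7:ℕ) + (-2187)*a^(8:ℕ) := by
  obtain ⟨x, hx⟩ : ∃ x : ℝ, x = a - (31/4) := ⟨_, rfl⟩
  obtain ⟨y, hy⟩ : ∃ y : ℝ, y = 25 - a := ⟨_, rfl⟩
  have hx0 : 0 ≤ x := by linarith
  have hy0 : 0 ≤ y := by linarith
  have e :
      (-7030657811520000) + 1889756903078100*a + (-177676861291524)*a^(2:ℕ) + 7903759097155*a^(3:ℕ)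
      + (-172552029719)*a^(4:ℕ) + 2429831146*a^(5:ℕ) + (-39334170)*a^(6:ℕ) + 159039*a^(7:ℕ) + (-2187)*a^(8:ℕ)
      = 21063984480000 + (150175052642215/30643429023)*y^(8:ℕ)
      + (1605104290780995724/2482117750863)*x*y^(7:ℕ) + (2160942573252932528/827372583621)*x^(2:ℕ)*y^(6:ℕ)
      + (3942052014181012928/827372583621)*x^(3:ℕ)*y^(5:ℕ)
      + (14081601033096009728/2482117750863)*x^(4:ℕ)*y^(4:ℕ)
      + (4194632966630875136/827372583621)*x^(5:ℕ)*y^(3:ℕ) + (2453670543818817536/827372583621)*x^(6:ℕ)*y^(2:ℕ)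
      + (1927873721879756800/2482117750863)*x^(7:ℕ)*y := by
    subst hx hy; ring
  rw [e]; positivity

theorem h3_28_false {ρ y Z : ℝ} (hn : 3 < ρ) (hρ : ρ ≤ 28)
    (hmom : ∀ t : ℝ, 2 * t * y ≤ Z + t ^(2:ℕ) * ((28 - ρ) * ρ / 28)) (hm : MI 4 3 28 477 ρ y Z) :
    False := by
  obtain ⟨a, ha⟩ : ∃ a : ℝ, a = ρ - 3 := ⟨_, rfl⟩
  have hapos : 0 < a := by linarith
  have hρ' : ρ = a + 3 := by linarith
  rcases le_total a (31/4) with h2 | h2
  · have hH : 0 < 4 * (3 * 477 - ρ) - (2 - 4) * (13/20) * (ρ * (ρ - 3)) := by nlinarith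
    have h := clear (by norm_num) (by linarith) (by linarith) hmom hm (by norm_num)
      (9 * (ρ - 3) + 0) 200 (13/20) (by norm_num) (by norm_num) hH
    have hF := h3_28_t0 a (by linarith) (by linarith)
    rw [hρ'] at h
    have hpos := mul_pos (by norm_num : (0 : ℝ) < 1 / (25)) (mul_pos hapos hF)
    exact absurd h (not_le.mpr (lt_of_lt_of_eq hpos (by ring)))
  · have _unused := hapos
    have hH : 0 < 4 * (3 * 477 - ρ) - (2 - 4) * (1/4) * (ρ * (ρ - 3)) := by nlinarith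
    have h := clear (by norm_num) (by linarith) (by linarith) hmom hm (by norm_num)
      (9 * (ρ - 3) + 0) 200 (1/4) (by norm_num) (by norm_num) hH
    have hF := h3_28_t1 a (by linarith) (by linarith)
    rw [hρ'] at h
    have hpos := mul_pos (by norm_num : (0 : ℝ) < 1 / (1)) (mul_pos hapos hF)
    exact absurd h (not_le.mpr (lt_of_lt_of_eq hpos (by ring)))

theorem h3_29_t0 (a : ℝ) (h0 : 0 ≤ a) (h1 : a ≤ 9) :
    0 <
      40094834098176000 + 12003423446476800*a + (-4119624706314240)*a^(2:ℕ) + 325064627143444*a^(3:ℕ)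
      + (-8796845144824)*a^(4:ℕ) + 138421522617*a^(5:ℕ) + (-3108194177)*a^(6:ℕ) + 14849328*a^(7:ℕ)
      + (-302848)*a^(8:ℕ) := by
  obtain ⟨x, hx⟩ : ∃ x : ℝ, x = a - 0 := ⟨_, rfl⟩
  obtain ⟨y, hy⟩ : ∃ y : ℝ, y = 9 - a := ⟨_, rfl⟩
  have hx0 : 0 ≤ x := by linarith
  have hy0 : 0 ≤ y := by linarith
  have e :
      40094834098176000 + 12003423446476800*a + (-4119624706314240)*a^(2:ℕ) + 325064627143444*a^(3:ℕ)
      + (-8796845144824)*a^(4:ℕ) + 138421522617*a^(5:ℕ) + (-3108194177)*a^(6:ℕ) + 14849328*a^(7:ℕ)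
      + (-302848)*a^(8:ℕ)
      = 271874026919772 + (163880494120396/177147)*y^(8:ℕ) + (1755615191721568/177147)*x*y^(7:ℕ)
      + (703049363471312/19683)*x^(2:ℕ)*y^(6:ℕ) + (11249248153470428/177147)*x^(3:ℕ)*y^(5:ℕ)
      + (11071959001641932/177147)*x^(4:ℕ)*y^(4:ℕ) + (678739143020315/19683)*x^(5:ℕ)*y^(3:ℕ)
      + (1747487887890814/177147)*x^(6:ℕ)*y^(2:ℕ) + (197309671134775/177147)*x^(7:ℕ)*y := by
    subst hx hy; ring
  rw [e]; positivity

theorem h3_29_t1 (a : ℝ) (h0 : 9 ≤ a) (h1 : a ≤ 26) :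
    0 <
      (-13313903689728000) + 3358816406323200*a + (-304793789644800)*a^(2:ℕ) + 12764343650944*a^(3:ℕ)
      + (-259243837504)*a^(4:ℕ) + 3457274572*a^(5:ℕ) + (-51445832)*a^(6:ℕ) + 181413*a^(7:ℕ) + (-2268)*a^(8:ℕ) := by
  obtain ⟨x, hx⟩ : ∃ x : ℝ, x = a - 9 := ⟨_, rfl⟩
  obtain ⟨y, hy⟩ : ∃ y : ℝ, y = 26 - a := ⟨_, rfl⟩
  have hx0 : 0 ≤ x := by linarith
  have hy0 : 0 ≤ y := by linarith
  have e :
      (-13313903689728000) + 3358816406323200*a + (-304793789644800)*a^(2:ℕ) + 12764343650944*a^(3:ℕ)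
      + (-259243837504)*a^(4:ℕ) + 3457274572*a^(5:ℕ) + (-51445832)*a^(6:ℕ) + 181413*a^(7:ℕ) + (-2268)*a^(8:ℕ)
      = 9032954216517 + (314085702419775/410338673)*x*y^(7:ℕ) + (1079705523332394/410338673)*x^(2:ℕ)*y^(6:ℕ)
      + (1476568010629336/410338673)*x^(3:ℕ)*y^(5:ℕ) + (1381471576727778/410338673)*x^(4:ℕ)*y^(4:ℕ)
      + (1436084607791832/410338673)*x^(5:ℕ)*y^(3:ℕ) + (1121199723562644/410338673)*x^(6:ℕ)*y^(2:ℕ)
      + (357262400907736/410338673)*x^(7:ℕ)*y + (693250015499/410338673)*x^(8:ℕ) := by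
    subst hx hy; ring
  rw [e]; positivity

theorem h3_29_false {ρ y Z : ℝ} (hn : 3 < ρ) (hρ : ρ ≤ 29)
    (hmom : ∀ t : ℝ, 2 * t * y ≤ Z + t ^(2:ℕ) * ((29 - ρ) * ρ / 29)) (hm : MI 4 3 29 513 ρ y Z) :
    False := by
  obtain ⟨a, ha⟩ : ∃ a : ℝ, a = ρ - 3 := ⟨_, rfl⟩
  have hapos : 0 < a := by linarith
  have hρ' : ρ = a + 3 := by linarith
  rcases le_total a 9 with h2 | h2
  · have hH : 0 < 4 * (3 * 513 - ρ) - (2 - 4) * (13/20) * (ρ * (ρ - 3)) := by nlinarith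
    have h := clear (by norm_num) (by linarith) (by linarith) hmom hm (by norm_num)
      (8 * (ρ - 3) + 0) 200 (13/20) (by norm_num) (by norm_num) hH
    have hF := h3_29_t0 a (by linarith) (by linarith)
    rw [hρ'] at h
    have hpos := mul_pos (by norm_num : (0 : ℝ) < 1 / (25)) (mul_pos hapos hF)
    exact absurd h (not_le.mpr (lt_of_lt_of_eq hpos (by ring)))
  · have _unused := hapos
    have hH : 0 < 4 * (3 * 513 - ρ) - (2 - 4) * (1/5) * (ρ * (ρ - 3)) := by nlinarith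
    have h := clear (by norm_num) (by linarith) (by linarith) hmom hm (by norm_num)
      (9 * (ρ - 3) + 0) 200 (1/5) (by norm_num) (by norm_num) hH
    have hF := h3_29_t1 a (by linarith) (by linarith)
    rw [hρ'] at h
    have hpos := mul_pos (by norm_num : (0 : ℝ) < 1 / (25/16)) (mul_pos hapos hF)
    exact absurd h (not_le.mpr (lt_of_lt_of_eq hpos (by ring)))

end Pool.Agent.EI97
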