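import Pool.Agent.EI97.Elim

set_option autoImplicit false

/-! Small dimensions. -/

namespace Pool.Agent.EI97

theorem r3_16_t0 (a : ℝ) (h0 : 0 ≤ a) (h1 : a ≤ (1/2)) :
    0 <
      447897600000 + 11506993164000*a + (-23937374923200)*a^(2:ℕ) + 3636111428100*a^(3:ℕ)
      + (-190701706080)*a^(4:ℕ) + 5683649195*a^(5:ℕ) + (-91250021)*a^(6:ℕ) + (-12907755)*a^(7:ℕ) + 613089*a^(8:ℕ) := by
  obtain ⟨x, hx⟩ : ∃ x : ℝ, x = a - 0 := ⟨_, rfl⟩
  obtain ⟨y, hy⟩ : ∃ y : ℝ, y = (1/2) - a := ⟨_, rfl⟩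
  have hx0 : 0 ≤ x := by linarith
  have hy0 : 0 ≤ y := by linarith
  have e :
      447897600000 + 11506993164000*a + (-23937374923200)*a^(2:ℕ) + 3636111428100*a^(3:ℕ)
      + (-190701706080)*a^(4:ℕ) + 5683649195*a^(5:ℕ) + (-91250021)*a^(6:ℕ) + (-12907755)*a^(7:ℕ) + 613089*a^(8:ℕ)
      = 447897600000 + 1472895124992000*x*y^(7:ℕ) + 8778273879859200*x^(2:ℕ)*y^(6:ℕ)
      + 21855201220022400*x^(3:ℕ)*y^(5:ℕ) + 29150176049646720*x^(4:ℕ)*y^(4:ℕ) + 22062885690020440*x^(5:ℕ)*y^(3:ℕ)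
      + 9096302034348916*x^(6:ℕ)*y^(2:ℕ) + 1688022475507082*x^(7:ℕ)*y + 54252547300175*x^(8:ℕ) := by
    subst hx hy; ring
  rw [e]; positivity

theorem r3_16_t1 (a : ℝ) (h0 : (1/2) ≤ a) (h1 : a ≤ (9/10)) :
    0 <
      (-6739200000) + 15888960000*a + 10801029600*a^(2:ℕ) + (-26171376960)*a^(3:ℕ) + 4917831460*a^(4:ℕ)
      + (-306576296)*a^(5:ℕ) + 9350135*a^(6:ℕ) + (-215691)*a^(7:ℕ) + (-14680)*a^(8:ℕ) + 900*a^(9:ℕ) := by
  obtain ⟨x, hx⟩ : ∃ x : ℝ, x = a - (1/2) := ⟨_, rfl⟩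
  obtain ⟨y, hy⟩ : ∃ y : ℝ, y = (9/10) - a := ⟨_, rfl⟩
  have hx0 : 0 ≤ x := by linarith
  have hy0 : 0 ≤ y := by linarith
  have e :
      (-6739200000) + 15888960000*a + 10801029600*a^(2:ℕ) + (-26171376960)*a^(3:ℕ) + 4917831460*a^(4:ℕ)
      + (-306576296)*a^(5:ℕ) + 9350135*a^(6:ℕ) + (-215691)*a^(7:ℕ) + (-14680)*a^(8:ℕ) + 900*a^(9:ℕ)
      = 281183066 + (20339391443359375/8192)*y^(9:ℕ) + (300883225374609375/8192)*x*y^(8:ℕ)
      + (783789128055390625/4096)*x^(2:ℕ)*y^(7:ℕ) + (2111333905988984375/4096)*x^(3:ℕ)*y^(6:ℕ)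
      + (419181822010859375/512)*x^(4:ℕ)*y^(5:ℕ) + (1640153892363996875/2048)*x^(5:ℕ)*y^(4:ℕ)
      + (1951220429874225375/4096)*x^(6:ℕ)*y^(3:ℕ) + (649667325370277025/4096)*x^(7:ℕ)*y^(2:ℕ)
      + (186233598072237825/8192)*x^(8:ℕ)*y + (6832325/8192)*x^(9:ℕ) := by
    subst hx hy; ring
  rw [e]; positivity

theorem r3_16_t2 (a : ℝ) (h0 : (9/10) ≤ a) (h1 : a ≤ (6/5)) :
    0 <
      (-621084672000) + 1038151987200*a + 17231841720*a^(2:ℕ) + (-507068669880)*a^(3:ℕ)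
      + 119948295267*a^(4:ℕ) + (-8376545955)*a^(5:ℕ) + 256326062*a^(6:ℕ) + (-6795014)*a^(7:ℕ) + (-323289)*a^(8:ℕ)
      + 23409*a^(9:ℕ) := by
  obtain ⟨x, hx⟩ : ∃ x : ℝ, x = a - (9/10) := ⟨_, rfl⟩
  obtain ⟨y, hy⟩ : ∃ y : ℝ, y = (6/5) - a := ⟨_, rfl⟩
  have hx0 : 0 ≤ x := by linarith
  have hy0 : 0 ≤ y := by linarith
  have e :
      (-621084672000) + 1038151987200*a + 17231841720*a^(2:ℕ) + (-507068669880)*a^(3:ℕ)
      + 119948295267*a^(4:ℕ) + (-8376545955)*a^(5:ℕ) + 256326062*a^(6:ℕ) + (-6795014)*a^(7:ℕ) + (-323289)*a^(8:ℕ)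
      + 23409*a^(9:ℕ)
      = 1917929857 + (29523570025786808711/19683)*y^(9:ℕ) + (34862374291183502018/2187)*x*y^(8:ℕ)
      + (152529355158762192536/2187)*x^(2:ℕ)*y^(7:ℕ) + (1100081179096316856176/6561)*x^(3:ℕ)*y^(6:ℕ)
      + (536085543351273776944/2187)*x^(4:ℕ)*y^(5:ℕ) + (491511109617215834272/2187)*x^(5:ℕ)*y^(4:ℕ)
      + (831827275772838236672/6561)*x^(6:ℕ)*y^(3:ℕ) + (88274414179617794048/2187)*x^(7:ℕ)*y^(2:ℕ)
      + (12170570682896877056/2187)*x^(8:ℕ)*y + (53155328/19683)*x^(9:ℕ) := by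
    subst hx hy; ring
  rw [e]; positivity

theorem r3_16_t3 (a : ℝ) (h0 : (6/5) ≤ a) (h1 : a ≤ 13) :
    0 <
      (-1725235200000) + 2343098880000*a + (-687538470600)*a^(2:ℕ) + (-153875084760)*a^(3:ℕ)
      + 94199878835*a^(4:ℕ) + (-8061685911)*a^(5:ℕ) + 243007842*a^(6:ℕ) + (-7525322)*a^(7:ℕ) + (-223293)*a^(8:ℕ)
      + 21609*a^(9:ℕ) := by
  rcases le_total a (71/10) with h2 | h2
  · obtain ⟨x, hx⟩ : ∃ x : ℝ, x = a - (6/5) := ⟨_, rfl⟩
    obtain ⟨y, hy⟩ : ∃ y : ℝ, y = (71/10) - a := ⟨_, rfl⟩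
    have hx0 : 0 ≤ x := by linarith
    have hy0 : 0 ≤ y := by linarith
    have e :
        (-1725235200000) + 2343098880000*a + (-687538470600)*a^(2:ℕ) + (-153875084760)*a^(3:ℕ)
        + 94199878835*a^(4:ℕ) + (-8061685911)*a^(5:ℕ) + 243007842*a^(6:ℕ) + (-7525322)*a^(7:ℕ) + (-223293)*a^(8:ℕ)
        + 21609*a^(9:ℕ)
        = 6502530654 + (363967488/8662995818654939)*y^(9:ℕ)
        + (3535618760427623556096/8662995818654939)*x*y^(8:ℕ)
        + (8799761768174579515392/8662995818654939)*x^(2:ℕ)*y^(7:ℕ)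
        + (1627649375333660557824/8662995818654939)*x^(3:ℕ)*y^(6:ℕ)
        + (84276930347462401566368/8662995818654939)*x^(4:ℕ)*y^(5:ℕ)
        + (410600990252666575867984/8662995818654939)*x^(5:ℕ)*y^(4:ℕ)
        + (729527032921805957540528/8662995818654939)*x^(6:ℕ)*y^(3:ℕ)
        + (626999912406424920060856/8662995818654939)*x^(7:ℕ)*y^(2:ℕ)
        + (262905355953972777559082/8662995818654939)*x^(8:ℕ)*y
        + (42932108873208614682949/8662995818654939)*x^(9:ℕ) := by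
      subst hx hy; ring
    rw [e]; positivity
  · have _unused := h0
    obtain ⟨x, hx⟩ : ∃ x : ℝ, x = a - (71/10) := ⟨_, rfl⟩
    obtain ⟨y, hy⟩ : ∃ y : ℝ, y = 13 - a := ⟨_, rfl⟩
    have hx0 : 0 ≤ x := by linarith
    have hy0 : 0 ≤ y := by linarith
    have e :
        (-1725235200000) + 2343098880000*a + (-687538470600)*a^(2:ℕ) + (-153875084760)*a^(3:ℕ)
        + 94199878835*a^(4:ℕ) + (-8061685911)*a^(5:ℕ) + 243007842*a^(6:ℕ) + (-7525322)*a^(7:ℕ) + (-223293)*a^(8:ℕ)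
        + 21609*a^(9:ℕ)
        = 19427990400000 + (398485101760383299711/146830437604321)*y^(9:ℕ)
        + (5679308693892682826000/146830437604321)*x*y^(8:ℕ)
        + (32263802230312627007800/146830437604321)*x^(2:ℕ)*y^(7:ℕ)
        + (98678712808378252604000/146830437604321)*x^(3:ℕ)*y^(6:ℕ)
        + (180452437064438224150000/146830437604321)*x^(4:ℕ)*y^(5:ℕ)
        + (203580395041692390800000/146830437604321)*x^(5:ℕ)*y^(4:ℕ)
        + (138852405909093740000000/146830437604321)*x^(6:ℕ)*y^(3:ℕ)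
        + (52363364697827040000000/146830437604321)*x^(7:ℕ)*y^(2:ℕ)
        + (8331478077259200000000/146830437604321)*x^(8:ℕ)*y := by
      subst hx hy; ring
    rw [e]; positivity

theorem r3_16_false {ρ y Z : ℝ} (hn : 3 < ρ) (hρ : ρ ≤ 16)
    (hmom : ∀ t : ℝ, 2 * t * y ≤ Z + t ^(2:ℕ) * ((16 - ρ) * ρ / 16)) (hm : MI 1 3 16 41 ρ y Z) :
    False := by
  obtain ⟨a, ha⟩ : ∃ a : ℝ, a = ρ - 3 := ⟨_, rfl⟩
  have hapos : 0 < a := by linarith
  have hρ' : ρ = a + 3 := by linarith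
  rcases le_total a (1/2) with h2 | h2
  · have hH : 0 < 4 * (3 * 41 - ρ) - (2 - 1) * (9/10) * (ρ * (ρ - 3)) := by nlinarith
    have h := clear (by norm_num) (by linarith) (by linarith) hmom hm (by norm_num)
      (29 * (ρ - 3) + 0) 200 (9/10) (by norm_num) (by norm_num) hH
    have hF := r3_16_t0 a (by linarith) (by linarith)
    rw [hρ'] at h
    have hpos := mul_pos (by norm_num : (0 : ℝ) < 1 / (25)) (mul_pos hapos hF)
    exact absurd h (not_le.mpr (lt_of_lt_of_eq hpos (by ring)))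
  · have _unused := hapos
    rcases le_total a (9/10) with h3 | h3
    · have hH : 0 < 4 * (3 * 41 - ρ) - (2 - 1) * (4/5) * (ρ * (ρ - 3)) := by nlinarith
      have h := clear (by norm_num) (by linarith) (by linarith) hmom hm (by norm_num)
        (20 * (ρ - 3) + 8) 200 (4/5) (by norm_num) (by norm_num) hH
      have hF := r3_16_t1 a (by linarith) (by linarith)
      rw [hρ'] at h
      have hpos := mul_pos (by norm_num : (0 : ℝ) < 1 / (25/256)) hF
      exact absurd h (not_le.mpr (lt_of_lt_of_eq hpos (by ring)))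
    · have _unused := hapos
      rcases le_total a (6/5) with h4 | h4
      · have hH : 0 < 4 * (3 * 41 - ρ) - (2 - 1) * (3/4) * (ρ * (ρ - 3)) := by nlinarith
        have h := clear (by norm_num) (by linarith) (by linarith) hmom hm (by norm_num)
          (17 * (ρ - 3) + 12) 200 (3/4) (by norm_num) (by norm_num) hH
        have hF := r3_16_t2 a (by linarith) (by linarith)
        rw [hρ'] at h
        have hpos := mul_pos (by norm_num : (0 : ℝ) < 1 / (4)) hF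
        exact absurd h (not_le.mpr (lt_of_lt_of_eq hpos (by ring)))
      · have _unused := hapos
        have hH : 0 < 4 * (3 * 41 - ρ) - (2 - 1) * (7/10) * (ρ * (ρ - 3)) := by nlinarith
        have h := clear (by norm_num) (by linarith) (by linarith) hmom hm (by norm_num)
          (14 * (ρ - 3) + 16) 200 (7/10) (by norm_num) (by norm_num) hH
        have hF := r3_16_t3 a (by linarith) (by linarith)
        rw [hρ'] at h
        have hpos := mul_pos (by norm_num : (0 : ℝ) < 1 / (25/4)) hF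
        exact absurd h (not_le.mpr (lt_of_lt_of_eq hpos (by ring)))

theorem r3_17_t0 (a : ℝ) (h0 : 0 ≤ a) (h1 : a ≤ (5/4)) :
    0 <
      8058548250000 + 30127929871500*a + (-35046100701900)*a^(2:ℕ) + 5213160061525*a^(3:ℕ)
      + (-274409060040)*a^(4:ℕ) + 7700546565*a^(5:ℕ) + (-129246997)*a^(6:ℕ) + (-13861936)*a^(7:ℕ) + 664411*a^(8:ℕ) := by
  obtain ⟨x, hx⟩ : ∃ x : ℝ, x = a - 0 := ⟨_, rfl⟩
  obtain ⟨y, hy⟩ : ∃ y : ℝ, y = (5/4) - a := ⟨_, rfl⟩
  have hx0 : 0 ≤ x := by linarith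
  have hy0 : 0 ≤ y := by linarith
  have e :
      8058548250000 + 30127929871500*a + (-35046100701900)*a^(2:ℕ) + 5213160061525*a^(3:ℕ)
      + (-274409060040)*a^(4:ℕ) + 7700546565*a^(5:ℕ) + (-129246997)*a^(6:ℕ) + (-13861936)*a^(7:ℕ) + 664411*a^(8:ℕ)
      = 493882519894 + (495757933288226816/390625)*y^(8:ℕ) + (6434143481379094528/390625)*x*y^(7:ℕ)
      + (27569061525708750848/390625)*x^(2:ℕ)*y^(6:ℕ) + (58727084797307421696/390625)*x^(3:ℕ)*y^(5:ℕ)
      + (14109512433878375424/78125)*x^(4:ℕ)*y^(4:ℕ) + (48869593743853701696/390625)*x^(5:ℕ)*y^(3:ℕ)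
      + (18294091967794180848/390625)*x^(6:ℕ)*y^(2:ℕ) + (2875651314107314528/390625)*x^(7:ℕ)*y
      + (43691/390625)*x^(8:ℕ) := by
    subst hx hy; ring
  rw [e]; positivity

theorem r3_17_t1 (a : ℝ) (h0 : (5/4) ≤ a) (h1 : a ≤ 14) :
    0 <
      (-5290790400000) + (-1537198560000)*a + 7081206656400*a^(2:ℕ) + (-2409782240160)*a^(3:ℕ)
      + 379091662850*a^(4:ℕ) + (-23766189217)*a^(5:ℕ) + 737392674*a^(6:ℕ) + (-18205974)*a^(7:ℕ) + (-625320)*a^(8:ℕ)
      + 38475*a^(9:ℕ) := by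
  obtain ⟨x, hx⟩ : ∃ x : ℝ, x = a - (5/4) := ⟨_, rfl⟩
  obtain ⟨y, hy⟩ : ∃ y : ℝ, y = 14 - a := ⟨_, rfl⟩
  have hx0 : 0 ≤ x := by linarith
  have hy0 : 0 ≤ y := by linarith
  have e :
      (-5290790400000) + (-1537198560000)*a + 7081206656400*a^(2:ℕ) + (-2409782240160)*a^(3:ℕ)
      + 379091662850*a^(4:ℕ) + (-23766189217)*a^(5:ℕ) + 737392674*a^(6:ℕ) + (-18205974)*a^(7:ℕ) + (-625320)*a^(8:ℕ)
      + 38475*a^(9:ℕ)
      = 1201640632 + (169367/2334165173090451)*y^(9:ℕ) + (8416555709148717976/778055057696817)*x*y^(8:ℕ)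
      + (83811602344214446304/778055057696817)*x^(2:ℕ)*y^(7:ℕ)
      + (65176436699361569152/259351685898939)*x^(3:ℕ)*y^(6:ℕ)
      + (453672014425134604544/778055057696817)*x^(4:ℕ)*y^(5:ℕ)
      + (1123514530277236387840/778055057696817)*x^(5:ℕ)*y^(4:ℕ)
      + (1614952914983752794112/778055057696817)*x^(6:ℕ)*y^(3:ℕ)
      + (1125224247287935664128/778055057696817)*x^(7:ℕ)*y^(2:ℕ)
      + (273369232005256970240/778055057696817)*x^(8:ℕ)*y
      + (9170366192515284992/2334165173090451)*x^(9:ℕ) := by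
    subst hx hy; ring
  rw [e]; positivity

theorem r3_17_false {ρ y Z : ℝ} (hn : 3 < ρ) (hρ : ρ ≤ 17)
    (hmom : ∀ t : ℝ, 2 * t * y ≤ Z + t ^(2:ℕ) * ((17 - ρ) * ρ / 17)) (hm : MI 1 3 17 46 ρ y Z) :
    False := by
  obtain ⟨a, ha⟩ : ∃ a : ℝ, a = ρ - 3 := ⟨_, rfl⟩
  have hapos : 0 < a := by linarith
  have hρ' : ρ = a + 3 := by linarith
  rcases le_total a (5/4) with h2 | h2
  · have hH : 0 < 4 * (3 * 46 - ρ) - (2 - 1) * (17/20) * (ρ * (ρ - 3)) := by nlinarith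
    have h := clear (by norm_num) (by linarith) (by linarith) hmom hm (by norm_num)
      (22 * (ρ - 3) + 0) 200 (17/20) (by norm_num) (by norm_num) hH
    have hF := r3_17_t0 a (by linarith) (by linarith)
    rw [hρ'] at h
    have hpos := mul_pos (by norm_num : (0 : ℝ) < 1 / (50)) (mul_pos hapos hF)
    exact absurd h (not_le.mpr (lt_of_lt_of_eq hpos (by ring)))
  · have _unused := hapos
    have hH : 0 < 4 * (3 * 46 - ρ) - (2 - 1) * (3/5) * (ρ * (ρ - 3)) := by nlinarith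
    have h := clear (by norm_num) (by linarith) (by linarith) hmom hm (by norm_num)
      (15 * (ρ - 3) + 16) 200 (3/5) (by norm_num) (by norm_num) hH
    have hF := r3_17_t1 a (by linarith) (by linarith)
    rw [hρ'] at h
    have hpos := mul_pos (by norm_num : (0 : ℝ) < 1 / (25/2)) hF
    exact absurd h (not_le.mpr (lt_of_lt_of_eq hpos (by ring)))

theorem r3_18_t0 (a : ℝ) (h0 : 0 ≤ a) (h1 : a ≤ (49/20)) :
    0 <
      606761280000 + 1069254097875*a + (-791436085875)*a^(2:ℕ) + 120204027630*a^(3:ℕ)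
      + (-6452984574)*a^(4:ℕ) + 168075447*a^(5:ℕ) + (-2982071)*a^(6:ℕ) + (-234872)*a^(7:ℕ) + 11560*a^(8:ℕ) := by
  obtain ⟨x, hx⟩ : ∃ x : ℝ, x = a - 0 := ⟨_, rfl⟩
  obtain ⟨y, hy⟩ : ∃ y : ℝ, y = (49/20) - a := ⟨_, rfl⟩
  have hx0 : 0 ≤ x := by linarith
  have hy0 : 0 ≤ y := by linarith
  have e :
      606761280000 + 1069254097875*a + (-791436085875)*a^(2:ℕ) + 120204027630*a^(3:ℕ)
      + (-6452984574)*a^(4:ℕ) + 168075447*a^(5:ℕ) + (-2982071)*a^(6:ℕ) + (-234872)*a^(7:ℕ) + 11560*a^(8:ℕ)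
      = 25155330390 + (2127016044288000000000/4747561509943)*y^(8:ℕ)
      + (26596645071264000000000/4747561509943)*x*y^(7:ℕ)
      + (15606637328808000000000/678223072849)*x^(2:ℕ)*y^(6:ℕ)
      + (31789568698446816000000/678223072849)*x^(3:ℕ)*y^(5:ℕ)
      + (36439878524410635840000/678223072849)*x^(4:ℕ)*y^(4:ℕ)
      + (24037228059357911736000/678223072849)*x^(5:ℕ)*y^(3:ℕ)
      + (8550074176098775896400/678223072849)*x^(6:ℕ)*y^(2:ℕ)
      + (8918868991804913355520/4747561509943)*x^(7:ℕ)*y + (3180293800/4747561509943)*x^(8:ℕ) := by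
    subst hx hy; ring
  rw [e]; positivity

theorem r3_18_t1 (a : ℝ) (h0 : (49/20) ≤ a) (h1 : a ≤ 15) :
    0 <
      (-551546003520000) + 389706583336875*a + (-83672025762375)*a^(2:ℕ) + 7863282363240*a^(3:ℕ)
      + (-379019184444)*a^(4:ℕ) + 12458449587*a^(5:ℕ) + (-239663351)*a^(6:ℕ) + (-7401222)*a^(7:ℕ) + 292410*a^(8:ℕ) := by
  rcases le_total a (349/40) with h2 | h2
  · obtain ⟨x, hx⟩ : ∃ x : ℝ, x = a - (49/20) := ⟨_, rfl⟩
    obtain ⟨y, hy⟩ : ∃ y : ℝ, y = (349/40) - a := ⟨_, rfl⟩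
    have hx0 : 0 ≤ x := by linarith
    have hy0 : 0 ≤ y := by linarith
    have e :
        (-551546003520000) + 389706583336875*a + (-83672025762375)*a^(2:ℕ) + 7863282363240*a^(3:ℕ)
        + (-379019184444)*a^(4:ℕ) + 12458449587*a^(5:ℕ) + (-239663351)*a^(6:ℕ) + (-7401222)*a^(7:ℕ)
        + 292410*a^(8:ℕ)
        = 4020517867634 + (2043556467200/15753961211814252001)*y^(8:ℕ)
        + (4158590319706164635549854720/15753961211814252001)*x*y^(7:ℕ)
        + (19346319207202583459085547520/15753961211814252001)*x^(2:ℕ)*y^(6:ℕ)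
        + (36549736408005718228058023680/15753961211814252001)*x^(3:ℕ)*y^(5:ℕ)
        + (35553605904237367843392686400/15753961211814252001)*x^(4:ℕ)*y^(4:ℕ)
        + (18618373589284673469752692800/15753961211814252001)*x^(5:ℕ)*y^(3:ℕ)
        + (5039448524396265745343476160/15753961211814252001)*x^(6:ℕ)*y^(2:ℕ)
        + (653108210594979421344721360/15753961211814252001)*x^(7:ℕ)*y
        + (45041507553263268754727690/15753961211814252001)*x^(8:ℕ) := by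
      subst hx hy; ring
    rw [e]; positivity
  · have _unused := h0
    obtain ⟨x, hx⟩ : ∃ x : ℝ, x = a - (349/40) := ⟨_, rfl⟩
    obtain ⟨y, hy⟩ : ∃ y : ℝ, y = 15 - a := ⟨_, rfl⟩
    have hx0 : 0 ≤ x := by linarith
    have hy0 : 0 ≤ y := by linarith
    have e :
        (-551546003520000) + 389706583336875*a + (-83672025762375)*a^(2:ℕ) + 7863282363240*a^(3:ℕ)
        + (-379019184444)*a^(4:ℕ) + 12458449587*a^(5:ℕ) + (-239663351)*a^(6:ℕ) + (-7401222)*a^(7:ℕ)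
        + 292410*a^(8:ℕ)
        = 5309044598309 + (36597018771111588754727690/15753961211814252001)*y^(8:ℕ)
        + (19438730921680/15753961211814252001)*x*y^(7:ℕ)
        + (704136736131792907046878400/15753961211814252001)*x^(2:ℕ)*y^(6:ℕ)
        + (6699623025553694403530432000/15753961211814252001)*x^(3:ℕ)*y^(5:ℕ)
        + (18721856753476583295247360000/15753961211814252001)*x^(4:ℕ)*y^(4:ℕ)
        + (23956823388367612559360000000/15753961211814252001)*x^(5:ℕ)*y^(3:ℕ)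
        + (14921419502916363059200000000/15753961211814252001)*x^(6:ℕ)*y^(2:ℕ)
        + (3911937567674059980800000000/15753961211814252001)*x^(7:ℕ)*y
        + (188980586097482137600000000/15753961211814252001)*x^(8:ℕ) := by
      subst hx hy; ring
    rw [e]; positivity

theorem r3_18_false {ρ y Z : ℝ} (hn : 3 < ρ) (hρ : ρ ≤ 18)
    (hmom : ∀ t : ℝ, 2 * t * y ≤ Z + t ^(2:ℕ) * ((18 - ρ) * ρ / 18)) (hm : MI 1 3 18 52 ρ y Z) :
    False := by
  obtain ⟨a, ha⟩ : ∃ a : ℝ, a = ρ - 3 := ⟨_, rfl⟩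
  have hapos : 0 < a := by linarith
  have hρ' : ρ = a + 3 := by linarith
  rcases le_total a (49/20) with h2 | h2
  · have hH : 0 < 4 * (3 * 52 - ρ) - (2 - 1) * (4/5) * (ρ * (ρ - 3)) := by nlinarith
    have h := clear (by norm_num) (by linarith) (by linarith) hmom hm (by norm_num)
      (17 * (ρ - 3) + 0) 200 (4/5) (by norm_num) (by norm_num) hH
    have hF := r3_18_t0 a (by linarith) (by linarith)
    rw [hρ'] at h
    have hpos := mul_pos (by norm_num : (0 : ℝ) < 1 / (25/16)) (mul_pos hapos hF)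
    exact absurd h (not_le.mpr (lt_of_lt_of_eq hpos (by ring)))
  · have _unused := hapos
    have hH : 0 < 4 * (3 * 52 - ρ) - (2 - 1) * (9/20) * (ρ * (ρ - 3)) := by nlinarith
    have h := clear (by norm_num) (by linarith) (by linarith) hmom hm (by norm_num)
      (19 * (ρ - 3) + 0) 200 (9/20) (by norm_num) (by norm_num) hH
    have hF := r3_18_t1 a (by linarith) (by linarith)
    rw [hρ'] at h
    have hpos := mul_pos (by norm_num : (0 : ℝ) < 1 / (100)) (mul_pos hapos hF)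
    exact absurd h (not_le.mpr (lt_of_lt_of_eq hpos (by ring)))

theorem r3_19_t0 (a : ℝ) (h0 : 0 ≤ a) (h1 : a ≤ 16) :
    0 <
      22223160000 + 22621468932*a + (-18391824402)*a^(2:ℕ) + 4394503979*a^(3:ℕ) + (-275459701)*a^(4:ℕ)
      + 6486283*a^(5:ℕ) + (-134105)*a^(6:ℕ) + (-6444)*a^(7:ℕ) + 378*a^(8:ℕ) := by
  rcases le_total a 8 with h2 | h2
  · obtain ⟨x, hx⟩ : ∃ x : ℝ, x = a - 0 := ⟨_, rfl⟩
    obtain ⟨y, hy⟩ : ∃ y : ℝ, y = 8 - a := ⟨_, rfl⟩
    have hx0 : 0 ≤ x := by linarith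
    have hy0 : 0 ≤ y := by linarith
    have e :
        22223160000 + 22621468932*a + (-18391824402)*a^(2:ℕ) + 4394503979*a^(3:ℕ) + (-275459701)*a^(4:ℕ)
        + 6486283*a^(5:ℕ) + (-134105)*a^(6:ℕ) + (-6444)*a^(7:ℕ) + 378*a^(8:ℕ)
        = 4150521561 + (18072638439/16777216)*y^(8:ℕ) + (40694107371/2097152)*x*y^(7:ℕ)
        + (148939843689/4194304)*x^(2:ℕ)*y^(6:ℕ) + (5/2097152)*x^(3:ℕ)*y^(5:ℕ) + (32295908357/8388608)*x^(4:ℕ)*y^(4:ℕ)
        + (250476871453/2097152)*x^(5:ℕ)*y^(3:ℕ) + (745731183641/4194304)*x^(6:ℕ)*y^(2:ℕ)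
        + (204940639587/2097152)*x^(7:ℕ)*y + (313886170503/16777216)*x^(8:ℕ) := by
      subst hx hy; ring
    rw [e]; positivity
  · have _unused := h0
    obtain ⟨x, hx⟩ : ∃ x : ℝ, x = a - 8 := ⟨_, rfl⟩
    obtain ⟨y, hy⟩ : ∃ y : ℝ, y = 16 - a := ⟨_, rfl⟩
    have hx0 : 0 ≤ x := by linarith
    have hy0 : 0 ≤ y := by linarith
    have e :
        22223160000 + 22621468932*a + (-18391824402)*a^(2:ℕ) + 4394503979*a^(3:ℕ) + (-275459701)*a^(4:ℕ)
        + 6486283*a^(5:ℕ) + (-134105)*a^(6:ℕ) + (-6444)*a^(7:ℕ) + 378*a^(8:ℕ)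
        = 68372640000 + (7802001627/524288)*y^(8:ℕ) + (89652395745/524288)*x*y^(7:ℕ)
        + (418331402527/524288)*x^(2:ℕ)*y^(6:ℕ) + (1034241806045/524288)*x^(3:ℕ)*y^(5:ℕ)
        + (1468495505377/524288)*x^(4:ℕ)*y^(4:ℕ) + (1199550211187/524288)*x^(5:ℕ)*y^(3:ℕ)
        + (520863167077/524288)*x^(6:ℕ)*y^(2:ℕ) + (91849482767/524288)*x^(7:ℕ)*y := by
      subst hx hy; ring
    rw [e]; positivity

theorem r3_19_false {ρ y Z : ℝ} (hn : 3 < ρ) (hρ : ρ ≤ 19)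
    (hmom : ∀ t : ℝ, 2 * t * y ≤ Z + t ^(2:ℕ) * ((19 - ρ) * ρ / 19)) (hm : MI 1 3 19 58 ρ y Z) :
    False := by
  obtain ⟨a, ha⟩ : ∃ a : ℝ, a = ρ - 3 := ⟨_, rfl⟩
  have hapos : 0 < a := by linarith
  have hρ' : ρ = a + 3 := by linarith
  have hH : 0 < 4 * (3 * 58 - ρ) - (2 - 1) * (3/4) * (ρ * (ρ - 3)) := by nlinarith
  have h := clear (by norm_num) (by linarith) (by linarith) hmom hm (by norm_num)
    (12 * (ρ - 3) + 0) 200 (3/4) (by norm_num) (by norm_num) hH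
  have hF := r3_19_t0 a (by linarith) (by linarith)
  rw [hρ'] at h
  have hpos := mul_pos (by norm_num : (0 : ℝ) < 1 / (1/9)) (mul_pos hapos hF)
  exact absurd h (not_le.mpr (lt_of_lt_of_eq hpos (by ring)))

theorem r3_20_t0 (a : ℝ) (h0 : 0 ≤ a) (h1 : a ≤ 17) :
    0 <
      5015228400000 + (-536860793511)*a + (-590124842685)*a^(2:ℕ) + 171891231603*a^(3:ℕ)
      + (-10563408099)*a^(4:ℕ) + 233560471*a^(5:ℕ) + (-4684139)*a^(6:ℕ) + (-213411)*a^(7:ℕ) + 11979*a^(8:ℕ) := by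
  rcases le_total a (17/2) with h2 | h2
  · obtain ⟨x, hx⟩ : ∃ x : ℝ, x = a - 0 := ⟨_, rfl⟩
    obtain ⟨y, hy⟩ : ∃ y : ℝ, y = (17/2) - a := ⟨_, rfl⟩
    have hx0 : 0 ≤ x := by linarith
    have hy0 : 0 ≤ y := by linarith
    have e :
        5015228400000 + (-536860793511)*a + (-590124842685)*a^(2:ℕ) + 171891231603*a^(3:ℕ)
        + (-10563408099)*a^(4:ℕ) + 233560471*a^(5:ℕ) + (-4684139)*a^(6:ℕ) + (-213411)*a^(7:ℕ) + 11979*a^(8:ℕ)
        = 349628088882 + (1194393679646208/6975757441)*y^(8:ℕ) + (8386940350489728/6975757441)*x*y^(7:ℕ)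
        + (14350610333032512/6975757441)*x^(2:ℕ)*y^(6:ℕ) + (3888012565795680/6975757441)*x^(3:ℕ)*y^(5:ℕ)
        + (11376/6975757441)*x^(4:ℕ)*y^(4:ℕ) + (24128194553167288/6975757441)*x^(5:ℕ)*y^(3:ℕ)
        + (38236023738820828/6975757441)*x^(6:ℕ)*y^(2:ℕ) + (21422488398056330/6975757441)*x^(7:ℕ)*y
        + (4128170714383841/6975757441)*x^(8:ℕ) := by
      subst hx hy; ring
    rw [e]; positivity
  · have _unused := h0
    obtain ⟨x, hx⟩ : ∃ x : ℝ, x = a - (17/2) := ⟨_, rfl⟩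
    obtain ⟨y, hy⟩ : ∃ y : ℝ, y = 17 - a := ⟨_, rfl⟩
    have hx0 : 0 ≤ x := by linarith
    have hy0 : 0 ≤ y := by linarith
    have e :
        5015228400000 + (-536860793511)*a + (-590124842685)*a^(2:ℕ) + 171891231603*a^(3:ℕ)
        + (-10563408099)*a^(4:ℕ) + 233560471*a^(5:ℕ) + (-4684139)*a^(6:ℕ) + (-213411)*a^(7:ℕ) + 11979*a^(8:ℕ)
        = 2128281600000 + (216049142090449/410338673)*y^(8:ℕ) + (2410915331842086/410338673)*x*y^(7:ℕ)
        + (11054524577019328/410338673)*x^(2:ℕ)*y^(6:ℕ) + (27008045187324944/410338673)*x^(3:ℕ)*y^(5:ℕ)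
        + (38015320972499008/410338673)*x^(4:ℕ)*y^(4:ℕ) + (30843390826343936/410338673)*x^(5:ℕ)*y^(3:ℕ)
        + (13319588018614272/410338673)*x^(6:ℕ)*y^(2:ℕ) + (2338215917748224/410338673)*x^(7:ℕ)*y := by
      subst hx hy; ring
    rw [e]; positivity

theorem r3_20_false {ρ y Z : ℝ} (hn : 3 < ρ) (hρ : ρ ≤ 20)
    (hmom : ∀ t : ℝ, 2 * t * y ≤ Z + t ^(2:ℕ) * ((20 - ρ) * ρ / 20)) (hm : MI 1 3 20 64 ρ y Z) :
    False := by
  obtain ⟨a, ha⟩ : ∃ a : ℝ, a = ρ - 3 := ⟨_, rfl⟩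
  have hapos : 0 < a := by linarith
  have hρ' : ρ = a + 3 := by linarith
  have hH : 0 < 4 * (3 * 64 - ρ) - (2 - 1) * (3/4) * (ρ * (ρ - 3)) := by nlinarith
  have h := clear (by norm_num) (by linarith) (by linarith) hmom hm (by norm_num)
    (11 * (ρ - 3) + 0) 200 (3/4) (by norm_num) (by norm_num) hH
  have hF := r3_20_t0 a (by linarith) (by linarith)
  rw [hρ'] at h
  have hpos := mul_pos (by norm_num : (0 : ℝ) < 1 / (4)) (mul_pos hapos hF)
  exact absurd h (not_le.mpr (lt_of_lt_of_eq hpos (by ring)))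

end Pool.Agent.EI97
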