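import Pool.Agent.EI97.PolyR3
import Pool.Agent.EI97.PolyC2
import Pool.Agent.EI97.PolyH2
import Pool.Agent.EI97.PolyC3
import Pool.Agent.EI97.PolyH3
import Pool.Agent.EI97.SmallR3
import Pool.Agent.EI97.SmallC2
import Pool.Agent.EI97.SmallC3
import Pool.Agent.EI97.SmallH3

set_option autoImplicit false

/-! The contradictions for `n = 2, 3` and `p` one more than the bound. -/

namespace Pool.Agent.EI97

theorem r3_all {r : ℕ} (hr : 16 ≤ r) {ρ y Z : ℝ} (hn : 3 < ρ) (hρ : ρ ≤ r)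
    (hmom : ∀ t : ℝ, 2 * t * y ≤ Z + t ^(2:ℕ) * (((r : ℝ) - ρ) * ρ / r))
    (hm : MI 1 3 r (((r * (r - 1) / 6 : ℕ) : ℝ) + 1) ρ y Z) : False := by
  by_cases h21 : 21 ≤ r
  · obtain ⟨t, rfl⟩ : ∃ t, r = t + 1 := ⟨r - 1, by omega⟩
    have e1 : (t + 1) * (t + 1 - 1) = (t + 1) * t := by simp
    rw [e1] at hm
    have hmod : (t + 1) * t % 6 = 0 ∨ (t + 1) * t % 6 = 2 := by
      have h6 : t % 6 = 0 ∨ t % 6 = 1 ∨ t % 6 = 2 ∨ t % 6 = 3 ∨ t % 6 = 4 ∨ t % 6 = 5 := by omega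
      rcases h6 with h | h | h | h | h | h <;> simp [Nat.mul_mod, Nat.add_mod, h]
    have hdiv := Nat.div_add_mod ((t + 1) * t) 6
    have hR : (21 : ℝ) ≤ ((t + 1 : ℕ) : ℝ) := by exact_mod_cast h21
    rcases hmod with h | h
    · rw [h] at hdiv
      have h' : (6 : ℝ) * (((t + 1) * t / 6 : ℕ) : ℝ) + 0 = ((t + 1 : ℕ) : ℝ) * (t : ℝ) := by
        exact_mod_cast hdiv
      refine r3s6_false hR hn hρ hmom hm ?_
      have : ((t + 1 : ℕ) : ℝ) - 1 = t := by push_cast; ring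
      rw [this]; linarith
    · rw [h] at hdiv
      have h' : (6 : ℝ) * (((t + 1) * t / 6 : ℕ) : ℝ) + 2 = ((t + 1 : ℕ) : ℝ) * (t : ℝ) := by
        exact_mod_cast hdiv
      refine r3s4_false hR hn hρ hmom hm ?_
      have : ((t + 1 : ℕ) : ℝ) - 1 = t := by push_cast; ring
      rw [this]; linarith
  · push Not at h21
    interval_cases r
    · norm_num at hm hρ hmom
      exact r3_16_false hn hρ hmom hm
    · norm_num at hm hρ hmom
      exact r3_17_false hn hρ hmom hm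
    · norm_num at hm hρ hmom
      exact r3_18_false hn hρ hmom hm
    · norm_num at hm hρ hmom
      exact r3_19_false hn hρ hmom hm
    · norm_num at hm hρ hmom
      exact r3_20_false hn hρ hmom hm

theorem c2_all {r : ℕ} (hr : 7 ≤ r) {ρ y Z : ℝ} (hn : 2 < ρ) (hρ : ρ ≤ r)
    (hmom : ∀ t : ℝ, 2 * t * y ≤ Z + t ^(2:ℕ) * (((r : ℝ) - ρ) * ρ / r))
    (hm : MI 2 2 r (((r * (r - 1) / 2 : ℕ) : ℝ) + 1) ρ y Z) : False := by
  by_cases h8 : 8 ≤ r
  · obtain ⟨t, rfl⟩ : ∃ t, r = t + 1 := ⟨r - 1, by omega⟩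
    have e1 : (t + 1) * (t + 1 - 1) = (t + 1) * t := by simp
    rw [e1] at hm
    have hmod : (t + 1) * t % 2 = 0 := by
      have h6 : t % 2 = 0 ∨ t % 2 = 1 := by omega
      rcases h6 with h | h <;> simp [Nat.mul_mod, Nat.add_mod, h]
    have hdiv := Nat.div_add_mod ((t + 1) * t) 2
    have hR : (8 : ℝ) ≤ ((t + 1 : ℕ) : ℝ) := by exact_mod_cast h8
    rw [hmod] at hdiv
    have h' : (2 : ℝ) * (((t + 1) * t / 2 : ℕ) : ℝ) + 0 = ((t + 1 : ℕ) : ℝ) * (t : ℝ) := by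
      exact_mod_cast hdiv
    refine c2_false hR hn hρ hmom hm ?_
    have : ((t + 1 : ℕ) : ℝ) - 1 = t := by push_cast; ring
    rw [this]; linarith
  · have h7 : r = 7 := by omega
    subst h7
    norm_num at hm hρ hmom
    exact c2_7_false hn hρ hmom hm

theorem h2_all {r : ℕ} (hr : 8 ≤ r) {ρ y Z : ℝ} (hn : 2 < ρ) (hρ : ρ ≤ r)
    (hmom : ∀ t : ℝ, 2 * t * y ≤ Z + t ^(2:ℕ) * (((r : ℝ) - ρ) * ρ / r))
    (hm : MI 4 2 r (((r * (2 * r - 3) / 2 : ℕ) : ℝ) + 1) ρ y Z) : False := by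
  have hc : ((2 * r - 3 : ℕ) : ℝ) = 2 * (r : ℝ) - 3 := by
    rw [Nat.cast_sub (by omega)]; push_cast; ring
  have hdiv := Nat.div_add_mod (r * (2 * r - 3)) 2
  have hR : (8 : ℝ) ≤ (r : ℝ) := by exact_mod_cast hr
  rcases Nat.even_or_odd' r with ⟨k, hk | hk⟩
  · have hmod : r * (2 * r - 3) % 2 = 0 := by
      have h1 : r % 2 = 0 := by omega
      simp [Nat.mul_mod, h1]
    rw [hmod] at hdiv
    have h' : (2 : ℝ) * ((r * (2 * r - 3) / 2 : ℕ) : ℝ) + 0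
        = (r : ℝ) * ((2 * r - 3 : ℕ) : ℝ) := by exact_mod_cast hdiv
    rw [hc] at h'
    exact h2s2_false hR hn hρ hmom hm (by linarith)
  · have h9 : 9 ≤ r := by omega
    have hR9 : (9 : ℝ) ≤ (r : ℝ) := by exact_mod_cast h9
    have hmod : r * (2 * r - 3) % 2 = 1 := by
      have h1 : r % 2 = 1 := by omega
      have h2 : (2 * r - 3) % 2 = 1 := by omega
      simp [Nat.mul_mod, h1, h2]
    rw [hmod] at hdiv
    have h' : (2 : ℝ) * ((r * (2 * r - 3) / 2 : ℕ) : ℝ) + 1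
        = (r : ℝ) * ((2 * r - 3 : ℕ) : ℝ) := by exact_mod_cast hdiv
    rw [hc] at h'
    exact h2s1_false hR9 hn hρ hmom hm (by linarith)

theorem c3_all {r : ℕ} (hr : 19 ≤ r) {ρ y Z : ℝ} (hn : 3 < ρ) (hρ : ρ ≤ r)
    (hmom : ∀ t : ℝ, 2 * t * y ≤ Z + t ^(2:ℕ) * (((r : ℝ) - ρ) * ρ / r))
    (hm : MI 2 3 r (((r * (r - 2) / 3 : ℕ) : ℝ) + 1) ρ y Z) : False := by
  by_cases h26 : 26 ≤ r
  · have hc : ((r - 2 : ℕ) : ℝ) = (r : ℝ) - 2 := by
      rw [Nat.cast_sub (by omega)]; push_cast; ring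
    have hdiv := Nat.div_add_mod (r * (r - 2)) 3
    have hR : (26 : ℝ) ≤ (r : ℝ) := by exact_mod_cast h26
    have hmod : r * (r - 2) % 3 = 0 ∨ r * (r - 2) % 3 = 2 := by
      have h6 : (r % 3 = 0 ∧ (r - 2) % 3 = 1) ∨ (r % 3 = 1 ∧ (r - 2) % 3 = 2) ∨
        (r % 3 = 2 ∧ (r - 2) % 3 = 0) := by omega
      rcases h6 with ⟨h, h'⟩ | ⟨h, h'⟩ | ⟨h, h'⟩ <;> simp [Nat.mul_mod, h, h']
    rcases hmod with h | h
    · rw [h] at hdiv
      have h' : (3 : ℝ) * ((r * (r - 2) / 3 : ℕ) : ℝ) + 0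
          = (r : ℝ) * ((r - 2 : ℕ) : ℝ) := by exact_mod_cast hdiv
      rw [hc] at h'
      exact c3s3_false hR hn hρ hmom hm (by linarith)
    · rw [h] at hdiv
      have h' : (3 : ℝ) * ((r * (r - 2) / 3 : ℕ) : ℝ) + 2
          = (r : ℝ) * ((r - 2 : ℕ) : ℝ) := by exact_mod_cast hdiv
      rw [hc] at h'
      exact c3s1_false hR hn hρ hmom hm (by linarith)
  · push Not at h26
    interval_cases r
    · norm_num at hm hρ hmom
      exact c3_19_false hn hρ hmom hm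
    · norm_num at hm hρ hmom
      exact c3_20_false hn hρ hmom hm
    · norm_num at hm hρ hmom
      exact c3_21_false hn hρ hmom hm
    · norm_num at hm hρ hmom
      exact c3_22_false hn hρ hmom hm
    · norm_num at hm hρ hmom
      exact c3_23_false hn hρ hmom hm
    · norm_num at hm hρ hmom
      exact c3_24_false hn hρ hmom hm
    · norm_num at hm hρ hmom
      exact c3_25_false hn hρ hmom hm

theorem h3_all {r : ℕ} (hr : 22 ≤ r) {ρ y Z : ℝ} (hn : 3 < ρ) (hρ : ρ ≤ r)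
    (hmom : ∀ t : ℝ, 2 * t * y ≤ Z + t ^(2:ℕ) * (((r : ℝ) - ρ) * ρ / r))
    (hm : MI 4 3 r (((r * (2 * r - 5) / 3 : ℕ) : ℝ) + 1) ρ y Z) : False := by
  by_cases h30 : 30 ≤ r
  · have hc : ((2 * r - 5 : ℕ) : ℝ) = 2 * (r : ℝ) - 5 := by
      rw [Nat.cast_sub (by omega)]; push_cast; ring
    have hdiv := Nat.div_add_mod (r * (2 * r - 5)) 3
    have hR : (30 : ℝ) ≤ (r : ℝ) := by exact_mod_cast h30
    have hmod : r * (2 * r - 5) % 3 = 0 ∨ r * (2 * r - 5) % 3 = 1 := by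
      have h6 : (r % 3 = 0 ∧ (2 * r - 5) % 3 = 1) ∨ (r % 3 = 1 ∧ (2 * r - 5) % 3 = 0) ∨
        (r % 3 = 2 ∧ (2 * r - 5) % 3 = 2) := by omega
      rcases h6 with ⟨h, h'⟩ | ⟨h, h'⟩ | ⟨h, h'⟩ <;> simp [Nat.mul_mod, h, h']
    rcases hmod with h | h
    · rw [h] at hdiv
      have h' : (3 : ℝ) * ((r * (2 * r - 5) / 3 : ℕ) : ℝ) + 0
          = (r : ℝ) * ((2 * r - 5 : ℕ) : ℝ) := by exact_mod_cast hdiv
      rw [hc] at h'
      exact h3s3_false hR hn hρ hmom hm (by linarith)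
    · rw [h] at hdiv
      have h' : (3 : ℝ) * ((r * (2 * r - 5) / 3 : ℕ) : ℝ) + 1
          = (r : ℝ) * ((2 * r - 5 : ℕ) : ℝ) := by exact_mod_cast hdiv
      rw [hc] at h'
      exact h3s2_false hR hn hρ hmom hm (by linarith)
  · push Not at h30
    interval_cases r
    · norm_num at hm hρ hmom
      exact h3_22_false hn hρ hmom hm
    · norm_num at hm hρ hmom
      exact h3_23_false hn hρ hmom hm
    · norm_num at hm hρ hmom
      exact h3_24_false hn hρ hmom hm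
    · norm_num at hm hρ hmom
      exact h3_25_false hn hρ hmom hm
    · norm_num at hm hρ hmom
      exact h3_26_false hn hρ hmom hm
    · norm_num at hm hρ hmom
      exact h3_27_false hn hρ hmom hm
    · norm_num at hm hρ hmom
      exact h3_28_false hn hρ hmom hm
    · norm_num at hm hρ hmom
      exact h3_29_false hn hρ hmom hm

end Pool.Agent.EI97
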