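import Pool.Agent.EI28P.Check
import Pool.Agent.EI28P.IdJ

set_option autoImplicit false
set_option linter.style.longLine false

/-! The polynomial inequalities of the case `2 ≤ R ≤ 13 / 2`. -/

namespace Pool.Agent.EI97

open Pool.Agent.EI28P

/-- `Λ` -/
noncomputable def lamJ (b r : ℝ) : ℝ := 2 + 4 * b * r - b + b ^ 2 * r * (2 * r - 1)

theorem lamJ_pos (b r : ℝ) (h0 : 0 ≤ b) (h1 : b ≤ 1) (h2 : 1 ≤ r) : 0 < lamJ b r := by
  unfold lamJ
  have k1 : 0 ≤ b * r := mul_nonneg h0 (by linarith)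
  have k2 : 0 ≤ b ^ 2 * r * (2 * r - 1) :=
    mul_nonneg (mul_nonneg (sq_nonneg _) (by linarith)) (by linarith)
  linarith

/-- the multiplier of the kernel inequality -/
noncomputable def mulJ (b r N : ℝ) : ℝ :=
  2 * ((3 * N + b * (2 + b * (r + 1))) * (N + b * (2 + b * (r + 1)))
    + N * (3 * N + 2 * (b * (2 + b * (r + 1)))) * (b * (r + 1) / 2))

/-- the multiplier of the Hankel inequality -/
noncomputable def nuJ (b r N : ℝ) : ℝ :=
  mulJ b r N * (8 * (b * (r + 1) / 2) + 8 * ((1 - b) / 2) - b * r - 1)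
    - N * (3 * N + 2 * (b * (2 + b * (r + 1)))) * lamJ b r

/-- the lower bound -/
noncomputable def epJ (b r N : ℝ) : ℝ :=
  (3 * (b * r) * (N + b * (2 + b * (r + 1))) ^ 2
    - (b * (2 + b * (r + 1))) ^ 2 * N * (r * (1 - b)) / 2) * lamJ b r
  - mulJ b r N * (4 * (b * r) * ((1 - b) / 2) ^ 2 + 4 * (r * b * (1 - b) / 2) ^ 2)
  - nuJ b r N * (b ^ 2 * (r + 1) * (r * (1 - b)) / 4)

theorem lamJ_ev (b r N : ℝ) : J.lE.ev r b (N - 1) 0 = lamJ b r := by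
  simp only [J.lE, J.bE, J.rE, E.ev, E.ev_sub, Int.cast_ofNat, Int.cast_one]
  rfl

theorem mulJ_ev (b r N : ℝ) : J.mE.ev r b (N - 1) 0 = mulJ b r N := by
  simp only [J.mE, J.sE, J.nE, J.bE, J.rE, E.ev, Int.cast_ofNat, Int.cast_one,
    sub_add_cancel]
  unfold mulJ
  generalize b * (2 + b * (r + 1)) = s
  ring

theorem nuJ_ev (b r N : ℝ) : J.nuE.ev r b (N - 1) 0 = nuJ b r N := by
  have hl := lamJ_ev b r N
  have hm := mulJ_ev b r N
  simp only [J.nuE, J.sE, J.nE, J.bE, J.rE, E.ev, E.ev_sub, Int.cast_ofNat, Int.cast_one,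
    sub_add_cancel, hl, hm]
  unfold nuJ
  generalize b * (2 + b * (r + 1)) = s
  generalize mulJ b r N = m
  generalize lamJ b r = l
  ring

theorem epJ_ev (b r N : ℝ) : J.epE.ev r b (N - 1) 0 = 4 * epJ b r N := by
  have hl := lamJ_ev b r N
  have hm := mulJ_ev b r N
  have hn := nuJ_ev b r N
  simp only [J.epE, J.sE, J.nE, J.bE, J.rE, E.ev, E.ev_sub, Int.cast_ofNat, Int.cast_one,
    sub_add_cancel, hl, hm, hn]
  unfold epJ
  generalize b * (2 + b * (r + 1)) = s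
  generalize nuJ b r N = n
  generalize mulJ b r N = m
  generalize lamJ b r = l
  ring

theorem nuJ_nonneg (b r N : ℝ) (h0 : 0 ≤ b) (h1 : b ≤ 1) (h2 : 1 ≤ r) (h3 : r ≤ 11 / 2)
    (hN : 1 ≤ N) : 0 ≤ nuJ b r N := by
  rw [← nuJ_ev, E.ev_eq J.check_nu]
  exact E.nonneg J.nu_nonneg (by linarith) h0 (by linarith) le_rfl

theorem gJ_aux (b r N : ℝ) :
    4 * epJ b r N * (r * (N * (r + 1) + 2) + 2 * (b * r) ^ 2)
      - 4 * (3 * ((1 + b * r) * (b * r) ^ 2 * (N + 2))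
        * ((N + b * (2 + b * (r + 1))) ^ 2 * lamJ b r))
      = b ^ 2 * r ^ 2 * (1 - b) * (ev2 r b GJ0 + (N - 1) * (ev2 r b GJ1
        + (N - 1) * (ev2 r b GJ2 + (N - 1) * ev2 r b GJ3))) := by
  have hl := lamJ_ev b r N
  have he := epJ_ev b r N
  have h := E.ev_eq J.check r b (N - 1) 0
  simp only [J.lhsE, J.rhsE, J.gE, J.sE, J.nE, J.bE, J.rE, E.ev, E.ev_sub,
    Int.cast_ofNat, Int.cast_one, sub_add_cancel, hl, he] at h
  exact h

theorem gJ_nonneg (b r N : ℝ) (h0 : 0 ≤ b) (h1 : b ≤ 1) (h2 : 1 ≤ r) (h3 : r ≤ 11 / 2)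
    (hN : 1 ≤ N) :
    3 * ((1 + b * r) * (b * r) ^ 2 * (N + 2)) * ((N + b * (2 + b * (r + 1))) ^ 2 * lamJ b r) ≤
      epJ b r N * (r * (N * (r + 1) + 2) + 2 * (b * r) ^ 2) := by
  have hM : 0 ≤ N - 1 := by linarith
  have h : 0 ≤ ev2 r b GJ0 + (N - 1) * (ev2 r b GJ1
        + (N - 1) * (ev2 r b GJ2 + (N - 1) * ev2 r b GJ3)) := by
    have h0 := GJ0_nonneg h0 h1 h2 h3
    have h1 := GJ1_nonneg ‹0 ≤ b› h1 h2 h3
    have h2 := GJ2_nonneg ‹0 ≤ b› ‹b ≤ 1› h2 h3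
    have h3 := GJ3_nonneg ‹0 ≤ b› ‹b ≤ 1› ‹1 ≤ r› h3
    positivity
  have h4 : 0 ≤ b ^ 2 * r ^ 2 * (1 - b) :=
    mul_nonneg (mul_nonneg (sq_nonneg _) (sq_nonneg _)) (by linarith)
  have h5 := mul_nonneg h4 h
  rw [← gJ_aux] at h5
  generalize epJ b r N = e at h5 ⊢
  generalize (3 * ((1 + b * r) * (b * r) ^ 2 * (N + 2))
        * ((N + b * (2 + b * (r + 1))) ^ 2 * lamJ b r)) = A at h5 ⊢
  generalize (r * (N * (r + 1) + 2) + 2 * (b * r) ^ 2) = B at h5 ⊢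
  linarith

theorem gJ_pos (b r N : ℝ) (h0 : 0 < b) (h1 : b < 1) (h2 : 1 ≤ r) (h3 : r < 11 / 2)
    (hN : 1 ≤ N) :
    3 * ((1 + b * r) * (b * r) ^ 2 * (N + 2)) * ((N + b * (2 + b * (r + 1))) ^ 2 * lamJ b r) <
      epJ b r N * (r * (N * (r + 1) + 2) + 2 * (b * r) ^ 2) := by
  have hM : 0 ≤ N - 1 := by linarith
  have h : 0 < ev2 r b GJ0 + (N - 1) * (ev2 r b GJ1
        + (N - 1) * (ev2 r b GJ2 + (N - 1) * ev2 r b GJ3)) := by
    have k0 := GJ0_pos h0 h1 h2 h3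
    have k1 := GJ1_nonneg h0.le h1.le h2 h3.le
    have k2 := GJ2_nonneg h0.le h1.le h2 h3.le
    have k3 := GJ3_nonneg h0.le h1.le h2 h3.le
    positivity
  have h4 : 0 < b ^ 2 * r ^ 2 * (1 - b) := by
    have : 0 < 1 - b := by linarith
    have : 0 < r := by linarith
    positivity
  have h5 := mul_pos h4 h
  rw [← gJ_aux] at h5
  generalize epJ b r N = e at h5 ⊢
  generalize (3 * ((1 + b * r) * (b * r) ^ 2 * (N + 2))
        * ((N + b * (2 + b * (r + 1))) ^ 2 * lamJ b r)) = A at h5 ⊢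
  generalize (r * (N * (r + 1) + 2) + 2 * (b * r) ^ 2) = B at h5 ⊢
  linarith

end Pool.Agent.EI97
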