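import Pool.Agent.EI97.Red
import Pool.Agent.EI97.PolyJ

set_option autoImplicit false
set_option linter.style.longLine false

/-! The case `2 ≤ R ≤ 13 / 2`. -/

namespace Pool.Agent.EI97

theorem keyJ (b r N x y : ℝ) :
    lamJ b r * (3 * (b * r) * (N + b * (2 + b * (r + 1))) ^ 2
      - 2 * ((3 * N + b * (2 + b * (r + 1))) * (N + b * (2 + b * (r + 1)))) * x
      - N * (3 * N + 2 * (b * (2 + b * (r + 1)))) * y
      - (b * (2 + b * (r + 1))) ^ 2 * N * (r * (1 - b)) / 2) = epJ b r N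
      + mulJ b r N * (4 * (b * r) * ((1 - b) / 2) ^ 2 + 4 * (r * b * (1 - b) / 2) ^ 2
        + (b * r + 1 + 4 * ((1 - b) / 2) * (b * r - 1) - 4 * ((1 - b) / 2) ^ 2
            - 8 * (r * b * (1 - b) / 2) + 4 * (b * (r + 1) / 2) ^ 2) * x
        + (b * r + 1 - 8 * ((1 - b) / 2) - 8 * (b * (r + 1) / 2)) * y)
      + nuJ b r N * (y - b * (r + 1) * x + b ^ 2 * (r + 1) * (r * (1 - b)) / 4) := by
  have hK : (b * r + 1 + 4 * ((1 - b) / 2) * (b * r - 1) - 4 * ((1 - b) / 2) ^ 2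
            - 8 * (r * b * (1 - b) / 2) + 4 * (b * (r + 1) / 2) ^ 2)
      + b * (r + 1) * (b * r + 1 - 8 * ((1 - b) / 2) - 8 * (b * (r + 1) / 2)) = - lamJ b r := by
    unfold lamJ
    ring
  have hM : mulJ b r N = 2 * ((3 * N + b * (2 + b * (r + 1))) * (N + b * (2 + b * (r + 1))))
      + N * (3 * N + 2 * (b * (2 + b * (r + 1)))) * (b * (r + 1)) := by
    unfold mulJ
    generalize b * (2 + b * (r + 1)) = s
    ring
  unfold epJ nuJ
  generalize b * (2 + b * (r + 1)) = s at hM ⊢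
  generalize mulJ b r N = m at hM ⊢
  generalize lamJ b r = l at hK ⊢
  linear_combination x * l * hM - x * m * hK

theorem Red.caseJ {N X R a x y : ℝ} (h : Red N X R a x y) (hN : 1 ≤ N) (hR2 : 2 ≤ R)
    (hR : R ≤ 13 / 2) : 2 * X ≤ (R - 1) * (N * R + 2) := by
  obtain ⟨r, hr⟩ : ∃ r : ℝ, r = R - 1 := ⟨_, rfl⟩
  have hRr : R = r + 1 := by linarith
  have hr1 : 1 ≤ r := by linarith
  have hr2 : r ≤ 11 / 2 := by linarith
  obtain ⟨b, hb⟩ : ∃ b : ℝ, b = a / r := ⟨_, rfl⟩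
  have hab : a = b * r := by rw [hb]; field_simp
  have ha0 := h.a_pos
  have haR := h.a_le
  have hb0 : 0 < b := by rw [hb]; positivity
  have hb1 : b ≤ 1 := by
    rw [hb, div_le_one (by linarith)]; linarith
  by_contra hcon
  push Not at hcon
  subst hRr hab
  obtain ⟨s, hs⟩ : ∃ s : ℝ, s = b * (2 + b * (r + 1)) := ⟨_, rfl⟩
  have hs0 : 0 < s := by rw [hs]; positivity
  have hNs : 0 < N + s := by linarith
  have hS := h.star (s / (N + s))
  have hJ := h.kernel ((1 - b) / 2) (r * b * (1 - b) / 2) (b * (r + 1) / 2)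
  have hH := h.hankel (b * (r + 1) / 2)
  have hLam := lamJ_pos b r hb0.le hb1 hr1
  have hnu := nuJ_nonneg b r N hb0.le hb1 hr1 hr2 hN
  have hmul : 0 ≤ mulJ b r N := by unfold mulJ; positivity
  have hG := gJ_nonneg b r N hb0.le hb1 hr1 hr2 hN
  rw [← hs] at hG
  obtain ⟨B, hB⟩ : ∃ B : ℝ, B = 3 * (b * r) - 2 * (3 - 2 * (s / (N + s))) * x
    - (1 - s / (N + s)) * (3 - s / (N + s)) * y
    - (s / (N + s)) ^ 2 * N * (r + 1 - 1 - b * r) / 2 := ⟨_, rfl⟩
  rw [← hB] at hS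
  have eB : (N + s) ^ 2 * B = 3 * (b * r) * (N + s) ^ 2 - 2 * ((3 * N + s) * (N + s)) * x
      - N * (3 * N + 2 * s) * y - s ^ 2 * N * (r * (1 - b)) / 2 := by
    rw [hB]
    field_simp
    ring
  have eH : y - 2 * (b * (r + 1) / 2) * x + (b * (r + 1) / 2) ^ 2 * ((r + 1 - 1 - b * r) / (r + 1))
      = y - b * (r + 1) * x + b ^ 2 * (r + 1) * (r * (1 - b)) / 4 := by
    field_simp
    ring
  rw [eH] at hH
  have key : (N + s) ^ 2 * lamJ b r * B = epJ b r N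
      + mulJ b r N * (4 * (b * r) * ((1 - b) / 2) ^ 2 + 4 * (r * b * (1 - b) / 2) ^ 2
        + (b * r + 1 + 4 * ((1 - b) / 2) * (b * r - 1) - 4 * ((1 - b) / 2) ^ 2
            - 8 * (r * b * (1 - b) / 2) + 4 * (b * (r + 1) / 2) ^ 2) * x
        + (b * r + 1 - 8 * ((1 - b) / 2) - 8 * (b * (r + 1) / 2)) * y)
      + nuJ b r N * (y - b * (r + 1) * x + b ^ 2 * (r + 1) * (r * (1 - b)) / 4) := by
    have e1 : (N + s) ^ 2 * lamJ b r * B = lamJ b r * ((N + s) ^ 2 * B) := by ring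
    rw [e1, eB, hs]
    exact keyJ b r N x y
  have hlow : epJ b r N ≤ (N + s) ^ 2 * lamJ b r * B := by
    rw [key]
    have k1 := mul_nonneg hmul hJ
    have k2 := mul_nonneg hnu hH
    linarith
  have hX0 : 0 < r * (N * (r + 1) + 2) + 2 * (b * r) ^ 2 := by positivity
  have hXX : r * (N * (r + 1) + 2) + 2 * (b * r) ^ 2 < 2 * X + 2 * (b * r) ^ 2 := by
    have : (r + 1 - 1) * (N * (r + 1) + 2) = r * (N * (r + 1) + 2) := by ring
    linarith
  have hc : 0 < (N + s) ^ 2 * lamJ b r := by positivity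
  have hE : 0 < epJ b r N := by
    have h1 : 0 < 3 * ((1 + b * r) * (b * r) ^ 2 * (N + 2)) * ((N + s) ^ 2 * lamJ b r) := by
      positivity
    have h2 := lt_of_lt_of_le h1 hG
    by_contra h3
    push Not at h3
    have := mul_nonpos_of_nonpos_of_nonneg h3 hX0.le
    linarith
  have h1 : epJ b r N * (2 * X + 2 * (b * r) ^ 2) ≤
      (N + s) ^ 2 * lamJ b r * B * (2 * X + 2 * (b * r) ^ 2) :=
    mul_le_mul_of_nonneg_right hlow (by linarith)
  have h2 : (N + s) ^ 2 * lamJ b r * (B * (2 * X + 2 * (b * r) ^ 2)) ≤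
      (N + s) ^ 2 * lamJ b r * (3 * ((1 + b * r) * (b * r) ^ 2 * (N + 2))) :=
    mul_le_mul_of_nonneg_left hS hc.le
  have h3 : epJ b r N * (r * (N * (r + 1) + 2) + 2 * (b * r) ^ 2) <
      epJ b r N * (2 * X + 2 * (b * r) ^ 2) := mul_lt_mul_of_pos_left hXX hE
  linarith

end Pool.Agent.EI97
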