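import Pool.Agent.EI97.Planes

set_option autoImplicit false

/-! Elimination of the moments from the master inequality over a field of real dimension `c`. -/

namespace Pool.Agent.EI97

open Finset

/-- the master inequality in the variables `R, p, ρ` and the two moments `y, Z` -/
def MI (c n R p ρ y Z : ℝ) : Prop :=
  ∀ θ γ : ℝ, (n * (c * n + 2 - c) / 2 - 1) * (p - 1) * ρ ^(2:ℕ) / ((ρ - n) ^(2:ℕ) + n ^(2:ℕ) * (p - 1)) + p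
    ≤ c / 2 * (R ^(2:ℕ) - 4 * θ * R * (R - ρ) + 2 * γ * (R - ρ) ^(2:ℕ)
        + 2 * θ ^(2:ℕ) * (R * (R - ρ) + (R - ρ) ^(2:ℕ)) - 4 * θ * γ * (R - ρ) ^(2:ℕ)
        + γ ^(2:ℕ) * (R - ρ) ^(2:ℕ))
      + (2 - c) / 2 * (R - 4 * θ * (R - ρ) + (4 * θ ^(2:ℕ) + 2 * γ) * (R - ρ)
        + 4 * θ * γ * (y - (R - ρ)) + γ ^(2:ℕ) * (Z + (R - ρ) - 2 * y))
      + 2 * (n * p - ρ) / (ρ * (ρ - n)) * (2 * θ * y + γ * Z)

theorem elim {c n R p ρ y Z : ℝ} (hR : 0 < R) (hρ : 0 < ρ) (hn : 0 < ρ - n)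
    (hmom : ∀ t : ℝ, 2 * t * y ≤ Z + t ^(2:ℕ) * ((R - ρ) * ρ / R)) (hm : MI c n R p ρ y Z)
    (θ g : ℝ) (hg : 0 < g) (hH : 0 < 4 * (n * p - ρ) - (2 - c) * g * (ρ * (ρ - n))) :
    (n * (c * n + 2 - c) / 2 - 1) * (p - 1) * ρ ^(2:ℕ) / ((ρ - n) ^(2:ℕ) + n ^(2:ℕ) * (p - 1)) + p
    ≤ c / 2 * (R ^(2:ℕ) - 2 * g * (R - ρ) ^(2:ℕ) + g ^(2:ℕ) * (R - ρ) ^(2:ℕ))
        + (2 - c) / 2 * (R - 2 * g * (R - ρ) + g ^(2:ℕ) * (R - ρ))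
      + (-(2 * c * R * (R - ρ)) + 2 * c * g * (R - ρ) ^(2:ℕ) - 2 * (2 - c) * (1 - g) * (R - ρ)) * θ
      + (c * (R * (R - ρ) + (R - ρ) ^(2:ℕ)) + 2 * (2 - c) * (R - ρ)) * θ ^(2:ℕ)
      + (4 * θ * (n * p - ρ) - (2 - c) * (2 * θ * g + g ^(2:ℕ)) * (ρ * (ρ - n))) ^(2:ℕ) * (R - ρ)
        / (2 * (ρ - n) * g * (4 * (n * p - ρ) - (2 - c) * g * (ρ * (ρ - n))) * R) := by
  have h1 := hm θ (-g)
  set a : ℝ := ρ - n with ha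
  set D : ℝ := R - ρ with hD
  set H : ℝ := 4 * (n * p - ρ) - (2 - c) * g * (ρ * a) with hHd
  set A1 : ℝ := 4 * θ * (n * p - ρ) - (2 - c) * (2 * θ * g + g ^(2:ℕ)) * (ρ * a) with hA1
  have ha' : a ≠ 0 := hn.ne'
  have hρ' : ρ ≠ 0 := hρ.ne'
  have hH' : H ≠ 0 := hH.ne'
  have hg' : g ≠ 0 := hg.ne'
  have hR' : R ≠ 0 := hR.ne'
  set C : ℝ := 2 * (n * p - ρ) / (ρ * a) with hC
  have hCe : C * (ρ * a) = 2 * (n * p - ρ) := by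
    rw [hC]; exact div_mul_cancel₀ _ (mul_ne_zero hρ' ha')
  have hA : 2 * θ * C - (2 - c) * (2 * θ * g + g ^(2:ℕ)) = A1 / (ρ * a) := by
    rw [eq_div_iff (mul_ne_zero hρ' ha'), hA1, sub_mul]
    have : 2 * θ * C * (ρ * a) = 2 * θ * (C * (ρ * a)) := by ring
    rw [this, hCe]; ring
  have hB : g * C - (2 - c) / 2 * g ^(2:ℕ) = g * H / (2 * (ρ * a)) := by
    rw [eq_div_iff (mul_ne_zero two_ne_zero (mul_ne_zero hρ' ha')), hHd, sub_mul]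
    have : g * C * (2 * (ρ * a)) = 2 * g * (C * (ρ * a)) := by ring
    rw [this, hCe]; ring
  have hmt := hmom (A1 / (g * H))
  have hBpos : 0 < g * H / (2 * (ρ * a)) := by positivity
  have hyz : A1 / (ρ * a) * y - g * H / (2 * (ρ * a)) * Z ≤ A1 ^(2:ℕ) * D / (2 * a * g * H * R) := by
    have h2 := mul_le_mul_of_nonneg_left hmt hBpos.le
    have h3 : g * H / (2 * (ρ * a)) * (2 * (A1 / (g * H)) * y) = A1 / (ρ * a) * y := by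
      field_simp
    have h4 : g * H / (2 * (ρ * a)) * (Z + (A1 / (g * H)) ^(2:ℕ) * (D * ρ / R))
        = g * H / (2 * (ρ * a)) * Z + A1 ^(2:ℕ) * D / (2 * a * g * H * R) := by
      field_simp
    rw [h3, h4] at h2
    linarith
  rw [← hA, ← hB] at hyz
  have h5 : c / 2 * (R ^(2:ℕ) - 4 * θ * R * D + 2 * (-g) * D ^(2:ℕ)
        + 2 * θ ^(2:ℕ) * (R * D + D ^(2:ℕ)) - 4 * θ * (-g) * D ^(2:ℕ) + (-g) ^(2:ℕ) * D ^(2:ℕ))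
      + (2 - c) / 2 * (R - 4 * θ * D + (4 * θ ^(2:ℕ) + 2 * (-g)) * D
        + 4 * θ * (-g) * (y - D) + (-g) ^(2:ℕ) * (Z + D - 2 * y))
      + C * (2 * θ * y + (-g) * Z)
      = c / 2 * (R ^(2:ℕ) - 2 * g * D ^(2:ℕ) + g ^(2:ℕ) * D ^(2:ℕ))
        + (2 - c) / 2 * (R - 2 * g * D + g ^(2:ℕ) * D)
      + (-(2 * c * R * D) + 2 * c * g * D ^(2:ℕ) - 2 * (2 - c) * (1 - g) * D) * θ
      + (c * (R * D + D ^(2:ℕ)) + 2 * (2 - c) * D) * θ ^(2:ℕ)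
      + ((2 * θ * C - (2 - c) * (2 * θ * g + g ^(2:ℕ))) * y
        - (g * C - (2 - c) / 2 * g ^(2:ℕ)) * Z) := by ring
  rw [h5] at h1
  linarith

/-- the same with denominators cleared, `θ = τ / f` -/
theorem clear {c n R p ρ y Z : ℝ} (hR : 0 < R) (hρ : 0 < ρ) (hn : 0 < ρ - n)
    (hmom : ∀ t : ℝ, 2 * t * y ≤ Z + t ^(2:ℕ) * ((R - ρ) * ρ / R)) (hm : MI c n R p ρ y Z)
    (hp : 1 ≤ p) (τ f g : ℝ) (hf : 0 < f) (hg : 0 < g)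
    (hH : 0 < 4 * (n * p - ρ) - (2 - c) * g * (ρ * (ρ - n))) :
    (n * (c * n + 2 - c) / 2 - 1) * (p - 1) * ρ ^(2:ℕ)
        * (2 * g * (4 * (n * p - ρ) - (2 - c) * g * (ρ * (ρ - n))) * R * f ^(2:ℕ) * (ρ - n))
      + ((ρ - n) ^(2:ℕ) + n ^(2:ℕ) * (p - 1))
        * (2 * g * (4 * (n * p - ρ) - (2 - c) * g * (ρ * (ρ - n))) * R * (ρ - n)
            * (f ^(2:ℕ) * (p - (c / 2 * (R ^(2:ℕ) - 2 * g * (R - ρ) ^(2:ℕ) + g ^(2:ℕ) * (R - ρ) ^(2:ℕ))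
                + (2 - c) / 2 * (R - 2 * g * (R - ρ) + g ^(2:ℕ) * (R - ρ))))
              - (-(2 * c * R * (R - ρ)) + 2 * c * g * (R - ρ) ^(2:ℕ)
                - 2 * (2 - c) * (1 - g) * (R - ρ)) * τ * f
              - (c * (R * (R - ρ) + (R - ρ) ^(2:ℕ)) + 2 * (2 - c) * (R - ρ)) * τ ^(2:ℕ))
          - (4 * τ * (n * p - ρ) - (2 - c) * (2 * τ * g + g ^(2:ℕ) * f) * (ρ * (ρ - n))) ^(2:ℕ)
            * (R - ρ)) ≤ 0 := by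
  have h := elim hR hρ hn hmom hm (τ / f) g hg hH
  set a : ℝ := ρ - n with ha
  set D : ℝ := R - ρ with hD
  set H : ℝ := 4 * (n * p - ρ) - (2 - c) * g * (ρ * a) with hHd
  set D1 : ℝ := a ^(2:ℕ) + n ^(2:ℕ) * (p - 1) with hD1
  set K0 : ℝ := c / 2 * (R ^(2:ℕ) - 2 * g * D ^(2:ℕ) + g ^(2:ℕ) * D ^(2:ℕ))
                + (2 - c) / 2 * (R - 2 * g * D + g ^(2:ℕ) * D) with hK0
  set K1 : ℝ := -(2 * c * R * D) + 2 * c * g * D ^(2:ℕ) - 2 * (2 - c) * (1 - g) * D with hK1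
  set K2 : ℝ := c * (R * D + D ^(2:ℕ)) + 2 * (2 - c) * D with hK2
  set N : ℝ := (n * (c * n + 2 - c) / 2 - 1) * (p - 1) * ρ ^(2:ℕ) with hN
  have hD1pos : 0 < D1 := by
    have : 0 ≤ n ^(2:ℕ) * (p - 1) := mul_nonneg (sq_nonneg _) (by linarith)
    have : 0 < a ^(2:ℕ) := by positivity
    linarith
  have hA : 4 * (τ / f) * (n * p - ρ) - (2 - c) * (2 * (τ / f) * g + g ^(2:ℕ)) * (ρ * a)
      = (4 * τ * (n * p - ρ) - (2 - c) * (2 * τ * g + g ^(2:ℕ) * f) * (ρ * a)) / f := by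
    field_simp
  rw [hA] at h
  set A3 : ℝ := 4 * τ * (n * p - ρ) - (2 - c) * (2 * τ * g + g ^(2:ℕ) * f) * (ρ * a) with hA3
  obtain ⟨X, hX⟩ : ∃ X : ℝ, X = N / D1 := ⟨_, rfl⟩
  obtain ⟨Y, hY⟩ : ∃ Y : ℝ, Y = (A3 / f) ^(2:ℕ) * D / (2 * a * g * H * R) := ⟨_, rfl⟩
  have hX' : X * D1 = N := by rw [hX]; exact div_mul_cancel₀ _ hD1pos.ne'
  have hf' : f ≠ 0 := hf.ne'
  have hH' : H ≠ 0 := hH.ne'
  have hY' : Y * (2 * g * H * R * f ^(2:ℕ) * a) = A3 ^(2:ℕ) * D := by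
    rw [hY]; field_simp
  have hT' : (τ / f) * f = τ := div_mul_cancel₀ _ hf'
  rw [← hX, ← hY] at h
  set T : ℝ := τ / f with hT
  have hpos : 0 ≤ 2 * g * H * R * f ^(2:ℕ) * a * D1 := by positivity
  have h1 := mul_le_mul_of_nonneg_right h hpos
  have e1 : (X + p) * (2 * g * H * R * f ^(2:ℕ) * a * D1)
      = N * (2 * g * H * R * f ^(2:ℕ) * a) + p * (2 * g * H * R * f ^(2:ℕ) * a * D1) := by
    rw [← hX']; ring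
  have e2 : (K0 + K1 * T + K2 * T ^(2:ℕ) + Y) * (2 * g * H * R * f ^(2:ℕ) * a * D1)
      = D1 * (2 * g * H * R * a * (f ^(2:ℕ) * K0 + K1 * τ * f + K2 * τ ^(2:ℕ)) + A3 ^(2:ℕ) * D) := by
    rw [← hY', ← hT']; ring
  rw [e1, e2] at h1
  clear_value K0 K1 K2 N D1 H A3
  linarith

end Pool.Agent.EI97
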