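import Pool.Agent.EI97.Strict
import Pool.Agent.EI97.GerzonAll

set_option autoImplicit false

/-! The parameter of a family that attains the upper bound. -/

namespace Pool.Agent.EI97

open Matrix Finset Module Pool.Agent.H32Iso Pool.Agent.EI28

section

variable {F : Type} [NormedDivisionRing F] [InnerProductSpace ℝ F] [IsScalarTower ℝ F F]
  [FiniteDimensional ℝ F] {n r p : ℕ}

/-- A family of at least two subspaces that attains the upper bound has parameter
`c n / (c r + 2)`. -/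
theorem lam_eq_of_gerzon {lam : ℝ} {V : Fin p → Submodule F (Sp F r)}
    (h : EquiIsoclinic F n r p lam V) (hn : 1 ≤ n) (hp2 : 2 ≤ p)
    (he : (p : ℝ) = r * ((finrank ℝ F : ℝ) * r + 2 - (finrank ℝ F : ℝ) * n) / (2 * n)) :
    lam = (finrank ℝ F : ℝ) * n / ((finrank ℝ F : ℝ) * r + 2) := by
  have hn' : (0 : ℝ) < n := by exact_mod_cast hn
  have hF : 0 < finrank ℝ F := finrank_pos
  have hc0 : (0 : ℝ) < finrank ℝ F := by exact_mod_cast hF
  have hp' : (2 : ℝ) ≤ p := by exact_mod_cast hp2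
  have h3 : 2 * (n : ℝ) ≤ r := by exact_mod_cast two_mul_le_of_sizes hp2 ⟨lam, V, h⟩
  have hr0 : (0 : ℝ) < r := by linarith
  obtain ⟨Q, mu, hQ, hmu⟩ := exists_mcfg h.cfg (finrank_Sp (F := F) r) h.finrank_range
  have hN : (1 : ℝ) ≤ ((finrank ℝ F * n : ℕ) : ℝ) := by
    exact_mod_cast Nat.mul_pos hF hn
  have hJ := hQ.toJData hN h.nonneg h.lt_one (by simpa using hp2) hmu
  rw [Fintype.card_fin] at hJ
  obtain ⟨a, x, y, ha, hred⟩ := hJ.red' (by linarith)
  have hk1 : 1 ≤ kap (Fin p) lam := by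
    unfold kap
    have : 0 ≤ ((Fintype.card (Fin p) : ℝ) - 1) * lam :=
      mul_nonneg (by rw [Fintype.card_fin]; linarith) h.nonneg
    linarith
  have hk0 : 0 < kap (Fin p) lam := by linarith
  have hsum : ∑ b, mu b / kap (Fin p) lam =
      ((finrank ℝ F * n : ℕ) : ℝ) * p / kap (Fin p) lam := by
    rw [← sum_div]
    congr 1
    have := hQ.trS
    rw [hmu, trace_diagonal, Fintype.card_fin] at this
    exact this
  rw [hsum] at ha
  have e : (Fintype.card (Fin (finrank ℝ F * r)) : ℝ) / ((finrank ℝ F * n : ℕ) : ℝ)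
      = (r : ℝ) / n := by
    rw [Fintype.card_fin]
    push_cast
    field_simp
  rw [e] at hred
  have hR : 2 ≤ (r : ℝ) / n := by rw [le_div_iff₀ hn']; exact h3
  have e2 : r * ((finrank ℝ F : ℝ) * r + 2 - (finrank ℝ F : ℝ) * n) / (2 * n) =
      1 + ((r : ℝ) / n - 1) * (((finrank ℝ F * n : ℕ) : ℝ) * ((r : ℝ) / n) + 2) / 2 := by
    push_cast
    field_simp
    ring
  have haR : a = (r : ℝ) / n - 1 := by
    rcases hred.a_le.lt_or_eq with h1 | h1
    · have := hred.strict hN hR (by linarith) h1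
      rw [e2] at he
      linarith
    · exact h1
  rw [haR] at ha
  have hk : kap (Fin p) lam = n * p / r := by
    have h5 : (r : ℝ) / n = p / kap (Fin p) lam := by
      have : ((finrank ℝ F * n : ℕ) : ℝ) * p / kap (Fin p) lam / ((finrank ℝ F * n : ℕ) : ℝ)
          = p / kap (Fin p) lam := by
        field_simp
      rw [this] at ha
      linarith
    rw [div_eq_div_iff hn'.ne' hk0.ne'] at h5
    rw [eq_div_iff hr0.ne']
    linarith
  have hk2 : 1 + ((p : ℝ) - 1) * lam = n * p / r := by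
    rw [← hk]
    unfold kap
    rw [Fintype.card_fin]
  have hq : n * (p : ℝ) / r = ((finrank ℝ F : ℝ) * r + 2 - (finrank ℝ F : ℝ) * n) / 2 := by
    rw [he]
    field_simp
  have hp1 : (p : ℝ) - 1 = (r - n) * ((finrank ℝ F : ℝ) * r + 2) / (2 * n) := by
    rw [he]
    field_simp
    ring
  rw [hq, hp1] at hk2
  have hrn : 0 < (r : ℝ) - n := by linarith
  have hd : 0 < (finrank ℝ F : ℝ) * r + 2 := by positivity
  rw [eq_div_iff hd.ne']
  have h6 : ((r : ℝ) - n) * (lam * ((finrank ℝ F : ℝ) * r + 2)) =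
      (r - n) * ((finrank ℝ F : ℝ) * n) := by
    have h7 : ((r : ℝ) - n) * ((finrank ℝ F : ℝ) * r + 2) / (2 * n) * lam =
        ((finrank ℝ F : ℝ) * r + 2 - (finrank ℝ F : ℝ) * n) / 2 - 1 := by linarith
    have h8 : ((r : ℝ) - n) * ((finrank ℝ F : ℝ) * r + 2) / (2 * n) * lam * (2 * n) =
        (((finrank ℝ F : ℝ) * r + 2 - (finrank ℝ F : ℝ) * n) / 2 - 1) * (2 * n) := by rw [h7]
    have h9 : ((r : ℝ) - n) * ((finrank ℝ F : ℝ) * r + 2) / (2 * n) * lam * (2 * n) =
        ((r : ℝ) - n) * (lam * ((finrank ℝ F : ℝ) * r + 2)) := by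
      field_simp
    rw [← h9, h8]
    ring
  exact mul_left_cancel₀ hrn.ne' h6

end

end Pool.Agent.EI97
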