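import Pool.Agent.EI28L.DataXi
import Pool.Agent.EI28.Spectral

set_option autoImplicit false
set_option linter.unusedSectionVars false

/-! The squared entries of the projections in the eigenbasis of their sum. -/

namespace Pool.Agent.EI97

open Matrix Finset Pool.Agent.EI28 Pool.Agent.EI28L

/-- `XData` with the kernel `W`: `W a b` is the sum over the projections of the squares of the
entries `(a, b)`, divided by `1 + (p - 1) lam`. -/
structure JData (m : Type*) [Fintype m] (n p : ℝ) (s : m → ℝ) : Prop where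
  base : XData m n p s
  joint : ∃ W : m → m → ℝ, (∀ a b, W a b = W b a) ∧ (∀ a b, 0 ≤ W a b) ∧
    (∀ a, ∑ b, W a b = s a) ∧ (∀ a, ∑ b, W a b * s b = s a) ∧
    (∀ a, n * s a ^ 2 ≤ (∑ b, s b) * W a a)

variable {m ι : Type*} [Fintype m] [DecidableEq m] [Fintype ι] [DecidableEq ι]

theorem _root_.Pool.Agent.EI28.MCfg.toJData {n lam : ℝ} {P : ι → Matrix m m ℝ}
    (h : MCfg n lam P) (hn : 1 ≤ n) (hl0 : 0 ≤ lam) (hl : lam < 1) (hp : 2 ≤ Fintype.card ι)
    {mu : m → ℝ} (hS : ∑ j, P j = diagonal mu) :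
    JData m n (Fintype.card ι) (fun a => mu a / kap ι lam) := by
  have hp2 : (2 : ℝ) ≤ Fintype.card ι := by exact_mod_cast hp
  have hn0 : 0 < n := by linarith
  have hk1 : 1 ≤ kap ι lam := by
    unfold kap
    have : 0 ≤ ((Fintype.card ι : ℝ) - 1) * lam := mul_nonneg (by linarith) hl0
    linarith
  have hk0 : 0 < kap ι lam := by linarith
  have hsum : ∑ b, mu b / kap ι lam = n * Fintype.card ι / kap ι lam := by
    rw [← sum_div]
    congr 1
    rw [← h.trS, hS, trace_diagonal]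
  refine ⟨h.toXData hn hl0 hl hp hS,
    fun a b => (∑ j, P j a b ^ 2) / kap ι lam, ?_, ?_, ?_, ?_, ?_⟩
  · intro a b
    simp only [h.entry_sym _ a b]
  · intro a b
    exact div_nonneg (sum_nonneg fun j _ => sq_nonneg _) hk0.le
  · intro a
    rw [← sum_div, sum_comm]
    congr 1
    rw [h.mu_eq hS]
    exact sum_congr rfl fun j _ => (h.diag_eq j a).symm
  · intro a
    have h1 : ∀ j, ∑ b, P j a b ^ 2 * mu b = kap ι lam * P j a a := by
      intro j
      have e1 : (P j * (∑ i, P i) * P j) a a = kap ι lam * P j a a := by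
        rw [h.PSP, Matrix.smul_apply, smul_eq_mul]
      rw [← e1, hS, mul_apply]
      refine sum_congr rfl fun b _ => ?_
      rw [mul_diagonal, h.entry_sym j b a]; ring
    have h2 : ∀ b, (∑ j, P j a b ^ 2) / kap ι lam * (mu b / kap ι lam) =
        ∑ j, P j a b ^ 2 * mu b / kap ι lam ^ 2 := by
      intro b
      rw [← sum_div, ← sum_mul]
      field_simp
    simp only [h2]
    rw [sum_comm]
    have h3 : ∀ j, ∑ b, P j a b ^ 2 * mu b / kap ι lam ^ 2 = P j a a / kap ι lam := by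
      intro j
      rw [← sum_div, h1]
      field_simp
    simp only [h3]
    rw [← sum_div, ← h.mu_eq hS]
  · intro a
    rw [hsum]
    have h1 : mu a ^ 2 ≤ Fintype.card ι * ∑ j, P j a a ^ 2 := by
      rw [h.mu_eq hS]
      have := sq_sum_le_card_mul_sum_sq (s := (univ : Finset ι)) (f := fun j => P j a a)
      simpa [card_univ] using this
    have h2 : n * (mu a / kap ι lam) ^ 2 = n * mu a ^ 2 / kap ι lam ^ 2 := by
      rw [div_pow]; ring
    have h3 : n * (Fintype.card ι : ℝ) / kap ι lam * ((∑ j, P j a a ^ 2) / kap ι lam) =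
        n * ((Fintype.card ι : ℝ) * ∑ j, P j a a ^ 2) / kap ι lam ^ 2 := by
      field_simp
    rw [h2, h3]
    exact div_le_div_of_nonneg_right (mul_le_mul_of_nonneg_left h1 hn0.le) (by positivity)

/-- The kernel inequality. -/
theorem JData.kernel {n p : ℝ} {s : m → ℝ} (h : JData m n p s) (hn : 0 < n) (z : ℝ) :
    4 * n * (∑ a, s a ^ 5 - 2 * z * ∑ a, s a ^ 4 + z ^ 2 * ∑ a, s a ^ 3) ≤
      (∑ a, s a) * ((∑ a, s a ^ 4) + 3 * (∑ a, s a ^ 3) - 4 * z * ((∑ a, s a ^ 3) + ∑ a, s a)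
        + 4 * z ^ 2 * ∑ a, s a) := by
  obtain ⟨W, hsym, hnn, hr1, hr2, hd⟩ := h.joint
  have hs0 := h.base.base.nonneg
  have hsq := h.base.base.sq
  have hρ : 0 < ∑ a, s a := lt_trans hn h.base.base.gt
  -- marginals
  have m1 : ∀ f : m → ℝ, ∑ a, ∑ b, f a * W a b = ∑ a, f a * s a := by
    intro f
    refine sum_congr rfl fun a _ => ?_
    rw [← mul_sum, hr1]
  have m2 : ∀ f : m → ℝ, ∑ a, ∑ b, f b * W a b = ∑ a, f a * s a := by
    intro f
    rw [sum_comm]
    refine sum_congr rfl fun b _ => ?_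
    rw [← mul_sum]
    congr 1
    rw [← hr1 b]
    exact sum_congr rfl fun a _ => hsym a b
  have m3 : ∀ f : m → ℝ, ∑ a, ∑ b, f a * (W a b * s b) = ∑ a, f a * s a := by
    intro f
    refine sum_congr rfl fun a _ => ?_
    rw [← mul_sum, hr2]
  have m4 : ∀ f : m → ℝ, ∑ a, ∑ b, f b * (W a b * s a) = ∑ a, f a * s a := by
    intro f
    rw [sum_comm]
    refine sum_congr rfl fun b _ => ?_
    rw [← mul_sum]
    congr 1
    rw [← hr2 b]
    exact sum_congr rfl fun a _ => by rw [hsym a b]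
  have hL : ∑ a, ∑ b, (s a + s b) * (s a + s b - 2 * z) ^ 2 * W a b =
      2 * (∑ a, s a ^ 4) + 6 * (∑ a, s a ^ 3) - 8 * z * ((∑ a, s a ^ 3) + ∑ a, s a)
        + 8 * z ^ 2 * ∑ a, s a := by
    have e : ∀ a b, (s a + s b) * (s a + s b - 2 * z) ^ 2 * W a b =
        (s a ^ 3 - 4 * z * s a ^ 2 + 4 * z ^ 2 * s a) * W a b
        + (s b ^ 3 - 4 * z * s b ^ 2 + 4 * z ^ 2 * s b) * W a b
        + (3 * s a ^ 2 - 4 * z * s a) * (W a b * s b)
        + (3 * s b ^ 2 - 4 * z * s b) * (W a b * s a) := by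
      intro a b; ring
    simp only [e, sum_add_distrib]
    rw [m1 (fun a => s a ^ 3 - 4 * z * s a ^ 2 + 4 * z ^ 2 * s a),
      m2 (fun a => s a ^ 3 - 4 * z * s a ^ 2 + 4 * z ^ 2 * s a),
      m3 (fun a => 3 * s a ^ 2 - 4 * z * s a), m4 (fun a => 3 * s a ^ 2 - 4 * z * s a)]
    have e1 : ∀ a, (s a ^ 3 - 4 * z * s a ^ 2 + 4 * z ^ 2 * s a) * s a =
        s a ^ 4 - 4 * z * s a ^ 3 + 4 * z ^ 2 * s a ^ 2 := fun a => by ring
    have e2 : ∀ a, (3 * s a ^ 2 - 4 * z * s a) * s a = 3 * s a ^ 3 - 4 * z * s a ^ 2 :=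
      fun a => by ring
    simp only [e1, e2, sum_add_distrib, sum_sub_distrib, ← mul_sum, hsq]
    ring
  have hD : ∑ a, (8 * s a * (s a - z) ^ 2) * W a a ≤
      ∑ a, ∑ b, (s a + s b) * (s a + s b - 2 * z) ^ 2 * W a b := by
    refine sum_le_sum fun a _ => ?_
    have h1 : (s a + s a) * (s a + s a - 2 * z) ^ 2 * W a a ≤
        ∑ b, (s a + s b) * (s a + s b - 2 * z) ^ 2 * W a b :=
      single_le_sum (f := fun b => (s a + s b) * (s a + s b - 2 * z) ^ 2 * W a b)
        (fun b _ => mul_nonneg (mul_nonneg (add_nonneg (hs0 a) (hs0 b)) (sq_nonneg _)) (hnn a b))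
        (mem_univ a)
    refine le_trans (le_of_eq ?_) h1
    ring
  have hE : 8 * n * (∑ a, s a ^ 5 - 2 * z * ∑ a, s a ^ 4 + z ^ 2 * ∑ a, s a ^ 3) ≤
      (∑ a, s a) * ∑ a, (8 * s a * (s a - z) ^ 2) * W a a := by
    have e : 8 * n * (∑ a, s a ^ 5 - 2 * z * ∑ a, s a ^ 4 + z ^ 2 * ∑ a, s a ^ 3) =
        ∑ a, (8 * s a * (s a - z) ^ 2) * (n * s a ^ 2) := by
      have e1 : ∀ a, (8 * s a * (s a - z) ^ 2) * (n * s a ^ 2) =
          8 * n * (s a ^ 5) - 16 * n * z * s a ^ 4 + 8 * n * z ^ 2 * s a ^ 3 := fun a => by ring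
      simp only [e1, sum_add_distrib, sum_sub_distrib, ← mul_sum]
      ring
    rw [e, mul_sum]
    refine sum_le_sum fun a _ => ?_
    have h1 : 0 ≤ 8 * s a * (s a - z) ^ 2 :=
      mul_nonneg (mul_nonneg (by norm_num) (hs0 a)) (sq_nonneg _)
    calc (8 * s a * (s a - z) ^ 2) * (n * s a ^ 2)
        ≤ (8 * s a * (s a - z) ^ 2) * ((∑ b, s b) * W a a) := mul_le_mul_of_nonneg_left (hd a) h1
      _ = _ := by ring
  have hF := mul_le_mul_of_nonneg_left hD hρ.le
  rw [hL] at hF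
  have := hE.trans hF
  linarith

end Pool.Agent.EI97
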