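import Pool.Agent.EI97.TensorC
import Pool.Agent.EI28.Master

set_option autoImplicit false
set_option linter.unusedSectionVars false

/-! The master inequality over a composition system. -/

namespace Pool.Agent.EI97

open Matrix Finset Pool.Agent.EI28

variable {m ι κ : Type*} [Fintype m] [DecidableEq m] [Fintype ι] [DecidableEq ι] [Fintype κ]
  [DecidableEq κ]

/-- A configuration whose matrices commute with a composition system. -/
structure CCfg (n lam : ℝ) (P : ι → Matrix m m ℝ) (U : κ → Matrix m m ℝ) : Prop where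
  cfg : MCfg n lam P
  comp : Comp U
  pos : 0 < Fintype.card κ
  comm : ∀ i k, U k * P i = P i * U k

/-- dimension of the Hermitian matrices of real size `n` -/
noncomputable def hd (κ : Type*) [Fintype κ] (n : ℝ) : ℝ :=
  (n ^(2:ℕ) + (2 - (Fintype.card κ : ℝ)) * n) / (2 * (Fintype.card κ : ℝ))

namespace CCfg

variable {n lam : ℝ} {P : ι → Matrix m m ℝ} {U : κ → Matrix m m ℝ} (h : CCfg n lam P U)

include h

theorem comP (i : ι) : Com U (P i) := ⟨h.cfg.sym i, fun k => h.comm i k⟩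

theorem comS : Com U (∑ j, P j) := by
  refine ⟨h.cfg.Ssym, fun k => ?_⟩
  rw [Finset.mul_sum, Finset.sum_mul]
  exact Finset.sum_congr rfl fun i _ => h.comm i k

/-- the inequality obtained from a nonnegative square of 4-tensors -/
theorem tensor_sq' (K0 : m × m × m × m → ℝ) (g t d : ℝ) :
    0 ≤ K0 ⬝ᵥ K0
      + g ^(2:ℕ) * (n * Fintype.card ι * kap ι lam) ^(2:ℕ)
      + t ^(2:ℕ) * (Fintype.card ι * hd κ n
        + Fintype.card ι * ((Fintype.card ι : ℝ) - 1) * (hd κ n * lam ^(2:ℕ)))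
      + d ^(2:ℕ) * (Fintype.card ι * n ^(2:ℕ)
        + Fintype.card ι * ((Fintype.card ι : ℝ) - 1) * (n ^(2:ℕ) * lam ^(2:ℕ)))
      + 2 * g * (K0 ⬝ᵥ tau (∑ j, P j))
      - 2 * t * (K0 ⬝ᵥ ∑ j, sigc U (P j))
      + 2 * d * (K0 ⬝ᵥ ∑ j, tau (P j))
      - 2 * g * t * (Fintype.card ι * (n * kap ι lam ^(2:ℕ)))
      + 2 * g * d * (Fintype.card ι * (n * kap ι lam) ^(2:ℕ))
      - 2 * t * d * (Fintype.card ι * n
        + Fintype.card ι * ((Fintype.card ι : ℝ) - 1) * (n * lam ^(2:ℕ))) := by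
  set S := ∑ j, P j with hS
  have hSs : Sᵀ = S := h.cfg.Ssym
  set G1 := ∑ j, sigc U (P j) with hG1
  set G2 := ∑ j, tau (P j) with hG2
  have a22 : tau S ⬝ᵥ tau S = (n * Fintype.card ι * kap ι lam) ^(2:ℕ) := by
    rw [tau_tau S S hSs, h.cfg.trSS]
  have b3 : G1 ⬝ᵥ tau S = Fintype.card ι * (n * kap ι lam ^(2:ℕ)) := by
    rw [hG1, sum_dotProduct]
    have : ∀ j, sigc U (P j) ⬝ᵥ tau S = n * kap ι lam ^(2:ℕ) := by
      intro j
      rw [sigc_tau h.comp h.pos (h.comP j) h.comS, h.cfg.trPSPS]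
    simp only [this, sum_const, card_univ, nsmul_eq_mul]
  have b4 : tau S ⬝ᵥ G2 = Fintype.card ι * (n * kap ι lam) ^(2:ℕ) := by
    rw [hG2, dotProduct_sum]
    have : ∀ j, tau S ⬝ᵥ tau (P j) = (n * kap ι lam) ^(2:ℕ) := by
      intro j
      rw [tau_tau S (P j) (h.cfg.sym j), h.cfg.trSP]
    simp only [this, sum_const, card_univ, nsmul_eq_mul]
  have c11 : G1 ⬝ᵥ G1 = Fintype.card ι * hd κ n
        + Fintype.card ι * ((Fintype.card ι : ℝ) - 1) * (hd κ n * lam ^(2:ℕ)) := by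
    rw [hG1, sum_dotProduct, ← EI28.sum_pair]
    refine sum_congr rfl fun i _ => ?_
    rw [dotProduct_sum]
    refine sum_congr rfl fun j _ => ?_
    rw [sigc_sigc h.comp h.pos (h.comP i) (h.comP j), h.cfg.trPP', h.cfg.trPPPP']
    unfold hd
    split_ifs <;> ring
  have c12 : G1 ⬝ᵥ G2 = Fintype.card ι * n
        + Fintype.card ι * ((Fintype.card ι : ℝ) - 1) * (n * lam ^(2:ℕ)) := by
    rw [hG1, hG2, sum_dotProduct, ← EI28.sum_pair]
    refine sum_congr rfl fun i _ => ?_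
    rw [dotProduct_sum]
    refine sum_congr rfl fun j _ => ?_
    rw [sigc_tau h.comp h.pos (h.comP i) (h.comP j), h.cfg.trPPPP']
  have c22 : G2 ⬝ᵥ G2 = Fintype.card ι * n ^(2:ℕ)
        + Fintype.card ι * ((Fintype.card ι : ℝ) - 1) * (n ^(2:ℕ) * lam ^(2:ℕ)) := by
    rw [hG2, sum_dotProduct, ← EI28.sum_pair]
    refine sum_congr rfl fun i _ => ?_
    rw [dotProduct_sum]
    refine sum_congr rfl fun j _ => ?_
    rw [tau_tau _ _ (h.cfg.sym j), h.cfg.trPP']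
    split_ifs <;> ring
  have key : 0 ≤ (K0 + g • tau S - t • G1 + d • G2) ⬝ᵥ (K0 + g • tau S - t • G1 + d • G2) := by
    rw [dotProduct]
    exact sum_nonneg fun i _ => mul_self_nonneg _
  have expand : (K0 + g • tau S - t • G1 + d • G2) ⬝ᵥ (K0 + g • tau S - t • G1 + d • G2)
      = K0 ⬝ᵥ K0 + g ^(2:ℕ) * (tau S ⬝ᵥ tau S) + t ^(2:ℕ) * (G1 ⬝ᵥ G1) + d ^(2:ℕ) * (G2 ⬝ᵥ G2)
        + 2 * g * (K0 ⬝ᵥ tau S) - 2 * t * (K0 ⬝ᵥ G1) + 2 * d * (K0 ⬝ᵥ G2)
        - 2 * g * t * (G1 ⬝ᵥ tau S) + 2 * g * d * (tau S ⬝ᵥ G2) - 2 * t * d * (G1 ⬝ᵥ G2) := by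
    simp only [add_dotProduct, sub_dotProduct, dotProduct_add, dotProduct_sub, smul_dotProduct,
      dotProduct_smul, smul_eq_mul]
    rw [dotProduct_comm (tau S) K0, dotProduct_comm G1 K0, dotProduct_comm G2 K0,
      dotProduct_comm (tau S) G1, dotProduct_comm G2 (tau S), dotProduct_comm G2 G1]
    ring
  rw [expand, a22, b3, b4, c11, c12, c22] at key
  exact key

/-- Consequence of `tensor_sq'` for a tensor `K0` with `⟨K0, g_j⟩ = N`. -/
theorem master_aux (hn : 0 < n) (hl0 : 0 ≤ lam) (hl : lam < 1) (hp : 2 ≤ Fintype.card ι)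
    (K0 : m × m × m × m → ℝ) (k11 kS : ℝ) (h11 : K0 ⬝ᵥ K0 = k11)
    (hkS : K0 ⬝ᵥ tau (∑ j, P j) = kS)
    (h1 : K0 ⬝ᵥ ∑ j, sigc U (P j) = Fintype.card ι * hd κ n)
    (h2 : K0 ⬝ᵥ ∑ j, tau (P j) = Fintype.card ι * n) :
    (hd κ n - 1) * Fintype.card ι / (1 + ((Fintype.card ι : ℝ) - 1) * lam ^(2:ℕ))
      + Fintype.card ι ≤
      k11 - 2 / (n * (1 - lam)) * (n * Fintype.card ι - lam / kap ι lam * kS)
        + 2 * Fintype.card ι := by
  set p : ℝ := (Fintype.card ι : ℝ) with hpdef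
  have hp2 : (2 : ℝ) ≤ p := by rw [hpdef]; exact_mod_cast hp
  set k := kap ι lam with hk
  have hk' : k = 1 + (p - 1) * lam := rfl
  have hk0 : 0 < k := by rw [hk']; nlinarith
  set q := 1 + (p - 1) * lam ^(2:ℕ) with hq
  have hq0 : 0 < q := by
    have : 0 ≤ (p - 1) * lam ^(2:ℕ) := mul_nonneg (by linarith) (sq_nonneg _)
    linarith
  have h1l : 0 < 1 - lam := by linarith
  have hsq := h.tensor_sq' K0 (lam / (k * (n * (1 - lam)))) (1 / q)
    ((1 / q) / n - 1 / (n * (1 - lam)))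
  rw [h11, hkS, h1, h2, ← hpdef, ← hk] at hsq
  have hid : (hd κ n - 1) * p / q + p + (k11
      + (lam / (k * (n * (1 - lam)))) ^(2:ℕ) * (n * p * k) ^(2:ℕ)
      + (1 / q) ^(2:ℕ) * (p * hd κ n
        + p * (p - 1) * (hd κ n * lam ^(2:ℕ)))
      + ((1 / q) / n - 1 / (n * (1 - lam))) ^(2:ℕ) * (p * n ^(2:ℕ)
        + p * (p - 1) * (n ^(2:ℕ) * lam ^(2:ℕ)))
      + 2 * (lam / (k * (n * (1 - lam)))) * kS
      - 2 * (1 / q) * (p * hd κ n)
      + 2 * ((1 / q) / n - 1 / (n * (1 - lam))) * (p * n)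
      - 2 * (lam / (k * (n * (1 - lam)))) * (1 / q) * (p * (n * k ^(2:ℕ)))
      + 2 * (lam / (k * (n * (1 - lam)))) * ((1 / q) / n - 1 / (n * (1 - lam))) *
        (p * (n * k) ^(2:ℕ))
      - 2 * (1 / q) * ((1 / q) / n - 1 / (n * (1 - lam))) * (p * n
        + p * (p - 1) * (n * lam ^(2:ℕ)))) =
      k11 - 2 / (n * (1 - lam)) * (n * p - lam / k * kS) + 2 * p := by
    have hqe : (p - 1) * lam ^(2:ℕ) = q - 1 := by rw [hq]; ring
    have e1 : p * hd κ n + p * (p - 1) * (hd κ n * lam ^(2:ℕ)) =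
        p * hd κ n * q := by rw [hq]; ring
    have e2 : p * n ^(2:ℕ) + p * (p - 1) * (n ^(2:ℕ) * lam ^(2:ℕ)) = p * n ^(2:ℕ) * q := by rw [hq]; ring
    have e3 : p * n + p * (p - 1) * (n * lam ^(2:ℕ)) = p * n * q := by rw [hq]; ring
    rw [e1, e2, e3]
    have e4 : lam ^(2:ℕ) * p ^(2:ℕ) + p * q - 2 * lam * k * p = p * (1 - lam) ^(2:ℕ) := by
      rw [hq, hk']; ring
    have hqne : q ≠ 0 := hq0.ne'
    have hkne : k ≠ 0 := hk0.ne'
    have hnne : n ≠ 0 := hn.ne'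
    have hlne : (1 - lam) ≠ 0 := h1l.ne'
    have e5 : (lam / (k * (n * (1 - lam)))) ^(2:ℕ) * (n * p * k) ^(2:ℕ) =
        lam ^(2:ℕ) * p ^(2:ℕ) / (1 - lam) ^(2:ℕ) := by
      field_simp
    have e6 : ((1 / q) / n - 1 / (n * (1 - lam))) ^(2:ℕ) * (p * n ^(2:ℕ) * q) =
        p / q - 2 * p / (1 - lam) + p * q / (1 - lam) ^(2:ℕ) := by
      field_simp
      ring
    have e7 : 2 * (lam / (k * (n * (1 - lam)))) * ((1 / q) / n - 1 / (n * (1 - lam))) *
        (p * (n * k) ^(2:ℕ)) = 2 * lam * k * p / (q * (1 - lam)) -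
          2 * lam * k * p / (1 - lam) ^(2:ℕ) := by
      field_simp
    have e8 : 2 * (lam / (k * (n * (1 - lam)))) * (1 / q) * (p * (n * k ^(2:ℕ))) =
        2 * lam * k * p / (q * (1 - lam)) := by
      field_simp
    have e9 : 2 * (1 / q) * ((1 / q) / n - 1 / (n * (1 - lam))) * (p * n * q) =
        2 * p / q - 2 * p / (1 - lam) := by
      field_simp
    have e10 : lam ^(2:ℕ) * p ^(2:ℕ) / (1 - lam) ^(2:ℕ) + p * q / (1 - lam) ^(2:ℕ) -
        2 * lam * k * p / (1 - lam) ^(2:ℕ) = p := by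
      rw [← add_div, ← sub_div, e4]
      field_simp
    have e11 : (1 / q) ^(2:ℕ) * (p * hd κ n * q) = p * hd κ n / q := by
      field_simp
    rw [e5, e6, e7, e8, e9, e11]
    have e12 : 2 * (1 / q) * (p * hd κ n) = 2 * (p * hd κ n / q) := by
      ring
    have e13 : 2 * ((1 / q) / n - 1 / (n * (1 - lam))) * (p * n) =
        2 * p / q - 2 * p / (1 - lam) := by
      field_simp
    have e14 : (hd κ n - 1) * p / q = p * hd κ n / q - p / q := by
      field_simp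
    have e15 : 2 / (n * (1 - lam)) * (n * p - lam / k * kS) =
        2 * p / (1 - lam) - 2 * (lam / (k * (n * (1 - lam)))) * kS := by
      field_simp
    rw [e12, e13, e14, e15]
    have e16 : 2 * p / q = 2 * (p / q) := by ring
    rw [e16]
    linarith
  linarith

theorem master (hn : 0 < n) (hl0 : 0 ≤ lam) (hl : lam < 1) (hp : 2 ≤ Fintype.card ι)
    {u : m → ℝ} (hS : ∑ j, P j = diagonal (fun a => kap ι lam * (1 + u a)))
    (hsum : (∑ a, u a) = - (∑ a, u a ^(2:ℕ))) (th ga : ℝ) :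
    (hd κ n - 1) * Fintype.card ι / (1 + ((Fintype.card ι : ℝ) - 1) * lam ^(2:ℕ))
      + Fintype.card ι ≤
      (((Fintype.card m : ℝ) ^(2:ℕ) - 4 * th * (Fintype.card m : ℝ) * (∑ a, u a ^(2:ℕ))
        + 2 * ga * (∑ a, u a ^(2:ℕ)) ^(2:ℕ)
        + th ^(2:ℕ) * (2 * (Fintype.card m : ℝ) * (∑ a, u a ^(2:ℕ)) + 2 * (∑ a, u a ^(2:ℕ)) ^(2:ℕ))
        - 4 * th * ga * (∑ a, u a ^(2:ℕ)) ^(2:ℕ) + ga ^(2:ℕ) * (∑ a, u a ^(2:ℕ)) ^(2:ℕ))
      + (2 - (Fintype.card κ : ℝ)) * ((Fintype.card m : ℝ) - 4 * th * (∑ a, u a ^(2:ℕ))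
        + (4 * th ^(2:ℕ) + 2 * ga) * (∑ a, u a ^(2:ℕ))
        + 4 * th * ga * (∑ a, u a ^(3:ℕ)) + ga ^(2:ℕ) * (∑ a, u a ^(4:ℕ)))) / (2 * (Fintype.card κ : ℝ))
      + 2 * lam * kap ι lam / ((1 - lam) * n) *
        (2 * th * ((∑ a, u a ^(2:ℕ)) + (∑ a, u a ^(3:ℕ)))
          + ga * ((∑ a, u a ^(2:ℕ)) + 2 * (∑ a, u a ^(3:ℕ)) + (∑ a, u a ^(4:ℕ)))) := by
  have hp2 : (2 : ℝ) ≤ Fintype.card ι := by exact_mod_cast hp
  have hk0 : 0 < kap ι lam := by
    unfold kap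
    have : 0 ≤ ((Fintype.card ι : ℝ) - 1) * lam := mul_nonneg (by linarith) hl0
    linarith
  set A : ℝ → Matrix m m ℝ := fun x => diagonal (fun a => 1 + x * u a) with hA
  have hAc : ∀ x, Com U (A x) := by
    intro x
    refine ⟨diagonal_transpose _, fun k => ?_⟩
    have hform : A x = (1 - x) • (1 : Matrix m m ℝ) + (x / kap ι lam) • ∑ j, P j := by
      show diagonal (fun a => 1 + x * u a) = _
      rw [hS, smul_one_eq_diagonal, ← diagonal_smul, diagonal_add]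
      congr 1
      funext a
      simp only [Pi.smul_apply, smul_eq_mul]
      field_simp
      ring
    rw [hform, Matrix.mul_add, Matrix.add_mul, Matrix.mul_smul, Matrix.mul_smul, Matrix.smul_mul,
      Matrix.smul_mul, Matrix.mul_one, Matrix.one_mul, h.comS.comm k]
  have hPAP : ∀ x j, P j * A x * P j = P j := fun x j => h.cfg.PAP hk0.ne' hS x j
  have t1 : ∀ x j, trace (A x * P j) = n := by
    intro x j
    have : trace (A x * P j) = trace (P j * A x * P j) := by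
      rw [trace_mul_cycle, h.cfg.idem, trace_mul_comm]
    rw [this, hPAP, h.cfg.tr]
  have t2 : ∀ x j, trace (A x * P j * A x * P j) = n := by
    intro x j
    rw [mul_assoc, mul_assoc, ← mul_assoc (P j), hPAP, t1]
  have s1 : ∀ x, sigc U (A x) ⬝ᵥ ∑ j, sigc U (P j) = Fintype.card ι * hd κ n := by
    intro x
    rw [dotProduct_sum]
    have : ∀ j, sigc U (A x) ⬝ᵥ sigc U (P j) = hd κ n := by
      intro j
      rw [sigc_sigc h.comp h.pos (hAc x) (h.comP j), t1, t2]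
      rfl
    simp only [this, sum_const, card_univ, nsmul_eq_mul]
  have s2 : ∀ x, sigc U (A x) ⬝ᵥ ∑ j, tau (P j) = Fintype.card ι * n := by
    intro x
    rw [dotProduct_sum]
    have : ∀ j, sigc U (A x) ⬝ᵥ tau (P j) = n := by
      intro j
      rw [sigc_tau h.comp h.pos (hAc x) (h.comP j), t2]
    simp only [this, sum_const, card_univ, nsmul_eq_mul]
  have s3 : ∀ x, sigc U (A x) ⬝ᵥ tau (∑ j, P j) =
      kap ι lam ^(2:ℕ) * ∑ a, (1 + u a) ^(2:ℕ) * (1 + x * u a) ^(2:ℕ) := by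
    intro x
    rw [sigc_tau h.comp h.pos (hAc x) h.comS, hS]
    simp only [hA, diagonal_mul_diagonal, trace_diagonal]
    rw [mul_sum]
    refine sum_congr rfl fun a _ => ?_
    ring
  have s4 : ∀ x y, sigc U (A x) ⬝ᵥ sigc U (A y) = ((∑ a, (1 + x * u a) * (1 + y * u a)) ^(2:ℕ) +
      (2 - (Fintype.card κ : ℝ)) * ∑ a, ((1 + x * u a) * (1 + y * u a)) ^(2:ℕ)) /
        (2 * (Fintype.card κ : ℝ)) := by
    intro x y
    rw [sigc_sigc h.comp h.pos (hAc x) (hAc y)]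
    simp only [hA, diagonal_mul_diagonal, trace_diagonal]
    congr 3
    refine sum_congr rfl fun a _ => ?_
    ring
  set D := ∑ a, u a ^(2:ℕ) with hD
  set w3 := ∑ a, u a ^(3:ℕ) with hw3
  set w4 := ∑ a, u a ^(4:ℕ) with hw4
  set r : ℝ := (Fintype.card m : ℝ) with hr
  have e4 : ∀ x y, ∑ a, (1 + x * u a) * (1 + y * u a) = r - (x + y) * D + x * y * D := by
    intro x y
    have : ∀ a, (1 + x * u a) * (1 + y * u a) = 1 + (x + y) * u a + x * y * u a ^(2:ℕ) :=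
      fun a => by ring
    simp only [this, sum_add_distrib, ← mul_sum, sum_const, card_univ, nsmul_eq_mul, mul_one, hsum]
    ring
  have e5 : ∀ x y, ∑ a, ((1 + x * u a) * (1 + y * u a)) ^(2:ℕ) =
      r - 2 * (x + y) * D + ((x + y) ^(2:ℕ) + 2 * (x * y)) * D + 2 * (x + y) * (x * y) * w3
        + (x * y) ^(2:ℕ) * w4 := by
    intro x y
    have : ∀ a, ((1 + x * u a) * (1 + y * u a)) ^(2:ℕ) = 1 + 2 * (x + y) * u a +
        ((x + y) ^(2:ℕ) + 2 * (x * y)) * u a ^(2:ℕ) + 2 * (x + y) * (x * y) * u a ^(3:ℕ) +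
        (x * y) ^(2:ℕ) * u a ^(4:ℕ) := fun a => by ring
    simp only [this, sum_add_distrib, ← mul_sum, sum_const, card_univ, nsmul_eq_mul, mul_one, hsum]
    ring
  have e6 : ∀ x, ∑ a, (1 + u a) ^(2:ℕ) * (1 + x * u a) ^(2:ℕ) =
      r - D + 2 * x * (D + w3) + x ^(2:ℕ) * (D + 2 * w3 + w4) := by
    intro x
    have : ∀ a, (1 + u a) ^(2:ℕ) * (1 + x * u a) ^(2:ℕ) = 1 + (2 + 2 * x) * u a +
        (1 + 4 * x + x ^(2:ℕ)) * u a ^(2:ℕ) + (2 * x + 2 * x ^(2:ℕ)) * u a ^(3:ℕ) + x ^(2:ℕ) * u a ^(4:ℕ) :=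
      fun a => by ring
    simp only [this, sum_add_distrib, ← mul_sum, sum_const, card_univ, nsmul_eq_mul, mul_one, hsum]
    ring
  set c1 := (ga + th) / 2 with hc1
  set c2 := (ga - th) / 2 with hc2
  set K0 := c1 • sigc U (A 1) + c2 • sigc U (A (-1)) + (1 - ga) • sigc U (A 0) with hK0
  have g1 : K0 ⬝ᵥ ∑ j, sigc U (P j) = Fintype.card ι * hd κ n := by
    rw [hK0]
    simp only [add_dotProduct, smul_dotProduct, s1, smul_eq_mul]
    rw [hc1, hc2]; ring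
  have g2 : K0 ⬝ᵥ ∑ j, tau (P j) = Fintype.card ι * n := by
    rw [hK0]
    simp only [add_dotProduct, smul_dotProduct, s2, smul_eq_mul]
    rw [hc1, hc2]; ring
  have g3 : K0 ⬝ᵥ tau (∑ j, P j) = kap ι lam ^(2:ℕ) * (r - D + 2 * th * (D + w3)
      + ga * (D + 2 * w3 + w4)) := by
    rw [hK0]
    simp only [add_dotProduct, smul_dotProduct, s3, smul_eq_mul, e6]
    rw [hc1, hc2]; ring
  have g4 : K0 ⬝ᵥ K0 = ((r ^(2:ℕ) - 4 * th * r * D + 2 * ga * D ^(2:ℕ)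
        + th ^(2:ℕ) * (2 * r * D + 2 * D ^(2:ℕ)) - 4 * th * ga * D ^(2:ℕ) + ga ^(2:ℕ) * D ^(2:ℕ))
      + (2 - (Fintype.card κ : ℝ)) * (r - 4 * th * D + (4 * th ^(2:ℕ) + 2 * ga) * D
        + 4 * th * ga * w3 + ga ^(2:ℕ) * w4)) / (2 * (Fintype.card κ : ℝ)) := by
    rw [hK0]
    simp only [add_dotProduct, smul_dotProduct, dotProduct_add, dotProduct_smul, s4, smul_eq_mul,
      e4, e5]
    rw [hc1, hc2]; ring
  have hfin := h.master_aux hn hl0 hl hp K0 _ _ g4 g3 g1 g2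
  -- the relation `(r - D) kap = n p`
  have hrho : (r - D) * kap ι lam = n * Fintype.card ι := by
    have := h.cfg.trS
    rw [hS, trace_diagonal, ← mul_sum] at this
    simp only [sum_add_distrib, hsum, sum_const, card_univ, nsmul_eq_mul, mul_one] at this
    rw [← this]; ring
  have h1l : 0 < 1 - lam := by linarith
  have hfin2 : 2 / (n * (1 - lam)) * (n * (Fintype.card ι : ℝ) - lam / kap ι lam *
      (kap ι lam ^(2:ℕ) * (r - D + 2 * th * (D + w3) + ga * (D + 2 * w3 + w4)))) =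
      2 * (Fintype.card ι : ℝ) - 2 * lam * kap ι lam / ((1 - lam) * n) *
        (2 * th * (D + w3) + ga * (D + 2 * w3 + w4)) := by
    have : lam / kap ι lam * (kap ι lam ^(2:ℕ) * (r - D + 2 * th * (D + w3)
        + ga * (D + 2 * w3 + w4))) = lam * ((r - D) * kap ι lam) +
        lam * kap ι lam * (2 * th * (D + w3) + ga * (D + 2 * w3 + w4)) := by
      field_simp; ring
    rw [this, hrho]
    field_simp
    ring
  rw [hfin2] at hfin
  linarith

end CCfg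

end Pool.Agent.EI97
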