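import Pool.Agent.EI97.Elim

set_option autoImplicit false

/-! Positivity of polynomials. -/

namespace Pool.Agent.EI97

theorem r3s4_k0 (c : ℝ) (h0 : 0 ≤ c) (h1 : c ≤ 18) :
    0 <
      37605084723360 + 45412155089136*c + (-27226297428792)*c^(2:ℕ) + 8667481327404*c^(3:ℕ)
      + (-533319822748)*c^(4:ℕ) + 11148670228*c^(5:ℕ) + (-218222156)*c^(6:ℕ) + (-8266720)*c^(7:ℕ) + 450800*c^(8:ℕ) := by
  rcases le_total c 9 with h2 | h2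
  · obtain ⟨x, hx⟩ : ∃ x : ℝ, x = c - 0 := ⟨_, rfl⟩
    obtain ⟨y, hy⟩ : ∃ y : ℝ, y = 9 - c := ⟨_, rfl⟩
    have hx0 : 0 ≤ x := by linarith
    have hy0 : 0 ≤ y := by linarith
    have e :
        37605084723360 + 45412155089136*c + (-27226297428792)*c^(2:ℕ) + 8667481327404*c^(3:ℕ)
        + (-533319822748)*c^(4:ℕ) + 11148670228*c^(5:ℕ) + (-218222156)*c^(6:ℕ) + (-8266720)*c^(7:ℕ)
        + 450800*c^(8:ℕ)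
        = 37605084723360 + (1681931669968/177147)*x*y^(7:ℕ) + (2698089213512/177147)*x^(2:ℕ)*y^(6:ℕ)
        + (763379354884/19683)*x^(3:ℕ)*y^(5:ℕ) + (38348706001784/177147)*x^(4:ℕ)*y^(4:ℕ)
        + (82493984754340/177147)*x^(5:ℕ)*y^(3:ℕ) + (8940648355928/19683)*x^(6:ℕ)*y^(2:ℕ)
        + (36744768922576/177147)*x^(7:ℕ)*y + (6358326989792/177147)*x^(8:ℕ) := by
      subst hx hy; ring
    rw [e]; positivity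
  · have _unused := h0
    obtain ⟨x, hx⟩ : ∃ x : ℝ, x = c - 9 := ⟨_, rfl⟩
    obtain ⟨y, hy⟩ : ∃ y : ℝ, y = 18 - c := ⟨_, rfl⟩
    have hx0 : 0 ≤ x := by linarith
    have hy0 : 0 ≤ y := by linarith
    have e :
        37605084723360 + 45412155089136*c + (-27226297428792)*c^(2:ℕ) + 8667481327404*c^(3:ℕ)
        + (-533319822748)*c^(4:ℕ) + 11148670228*c^(5:ℕ) + (-218222156)*c^(6:ℕ) + (-8266720)*c^(7:ℕ)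
        + 450800*c^(8:ℕ)
        = 147369196497600 + (5906622826112/177147)*y^(8:ℕ) + (61374829604656/177147)*x*y^(7:ℕ)
        + (29502664062328/19683)*x^(2:ℕ)*y^(6:ℕ) + (619770506450236/177147)*x^(3:ℕ)*y^(5:ℕ)
        + (842530609447664/177147)*x^(4:ℕ)*y^(4:ℕ) + (24683311558580/6561)*x^(5:ℕ)*y^(3:ℕ)
        + (283115749703024/177147)*x^(6:ℕ)*y^(2:ℕ) + (49402352533600/177147)*x^(7:ℕ)*y := by
      subst hx hy; ring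
    rw [e]; positivity

theorem r3s4_k1 (c : ℝ) (h0 : 0 ≤ c) (h1 : c ≤ 18) :
    0 ≤
      352885572189216 + (-81021914641248)*c + 17487610995288*c^(2:ℕ) + 448152486936*c^(3:ℕ)
      + (-70320973224)*c^(4:ℕ) + 732798246*c^(5:ℕ) + (-84925190)*c^(6:ℕ) + 2526720*c^(7:ℕ) + 19600*c^(8:ℕ) := by
  obtain ⟨x, hx⟩ : ∃ x : ℝ, x = c - 0 := ⟨_, rfl⟩
  obtain ⟨y, hy⟩ : ∃ y : ℝ, y = 18 - c := ⟨_, rfl⟩
  have hx0 : 0 ≤ x := by linarith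
  have hy0 : 0 ≤ y := by linarith
  have e :
      352885572189216 + (-81021914641248)*c + 17487610995288*c^(2:ℕ) + 448152486936*c^(3:ℕ)
      + (-70320973224)*c^(4:ℕ) + 732798246*c^(5:ℕ) + (-84925190)*c^(6:ℕ) + 2526720*c^(7:ℕ) + 19600*c^(8:ℕ)
      = (136144125073/4251528)*y^(8:ℕ) + (789751223363/6377292)*x*y^(7:ℕ)
      + (6178264744183/12754584)*x^(2:ℕ)*y^(6:ℕ) + (1655404410163/708588)*x^(3:ℕ)*y^(5:ℕ)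
      + (74460746875289/12754584)*x^(4:ℕ)*y^(4:ℕ) + (23156936424083/3188646)*x^(5:ℕ)*y^(3:ℕ)
      + (18269286116477/4251528)*x^(6:ℕ)*y^(2:ℕ) + (1457500500935/1594323)*x^(7:ℕ)*y
      + (29609517875/6377292)*x^(8:ℕ) := by
    subst hx hy; ring
  rw [e]; positivity

theorem r3s4_k2 (c : ℝ) (h0 : 0 ≤ c) (h1 : c ≤ 18) :
    0 ≤
      64513128358224 + (-3046539988380)*c + 3392641224636*c^(2:ℕ) + (-72980850261)*c^(3:ℕ)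
      + (-4947298021)*c^(4:ℕ) + (-195820424)*c^(5:ℕ) + 4025448*c^(6:ℕ) + 125440*c^(7:ℕ) := by
  obtain ⟨x, hx⟩ : ∃ x : ℝ, x = c - 0 := ⟨_, rfl⟩
  obtain ⟨y, hy⟩ : ∃ y : ℝ, y = 18 - c := ⟨_, rfl⟩
  have hx0 : 0 ≤ x := by linarith
  have hy0 : 0 ≤ y := by linarith
  have e :
      64513128358224 + (-3046539988380)*c + 3392641224636*c^(2:ℕ) + (-72980850261)*c^(3:ℕ)
      + (-4947298021)*c^(4:ℕ) + (-195820424)*c^(5:ℕ) + 4025448*c^(6:ℕ) + 125440*c^(7:ℕ)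
      = (448007835821/4251528)*y^(7:ℕ) + (5510474704399/8503056)*x*y^(6:ℕ)
      + (4918900772129/1417176)*x^(2:ℕ)*y^(5:ℕ) + (45179501117107/4251528)*x^(3:ℕ)*y^(4:ℕ)
      + (8621109229688/531441)*x^(4:ℕ)*y^(3:ℕ) + (32604457759507/2834352)*x^(5:ℕ)*y^(2:ℕ)
      + (1523426078845/531441)*x^(6:ℕ)*y + (52879184225/4251528)*x^(7:ℕ) := by
    subst hx hy; ring
  rw [e]; positivity

theorem r3s4_k3 (c : ℝ) (h0 : 0 ≤ c) (h1 : c ≤ 18) :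
    0 ≤
      8399329166876 + 1414653336008*c + 226899565463*c^(2:ℕ) + (-10391757553)*c^(3:ℕ)
      + (-553226207)*c^(4:ℕ) + 603246*c^(5:ℕ) + 317282*c^(6:ℕ) := by
  obtain ⟨x, hx⟩ : ∃ x : ℝ, x = c - 0 := ⟨_, rfl⟩
  obtain ⟨y, hy⟩ : ∃ y : ℝ, y = 18 - c := ⟨_, rfl⟩
  have hx0 : 0 ≤ x := by linarith
  have hy0 : 0 ≤ y := by linarith
  have e :
      8399329166876 + 1414653336008*c + 226899565463*c^(2:ℕ) + (-10391757553)*c^(3:ℕ)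
      + (-553226207)*c^(4:ℕ) + 603246*c^(5:ℕ) + 317282*c^(6:ℕ)
      = (2099832291719/8503056)*y^(6:ℕ) + (3160822293725/1417176)*x*y^(5:ℕ)
      + (6808837436539/708588)*x^(2:ℕ)*y^(4:ℕ) + (82010161326239/4251528)*x^(3:ℕ)*y^(3:ℕ)
      + (48485885732611/2834352)*x^(4:ℕ)*y^(2:ℕ) + (3644819742925/708588)*x^(5:ℕ)*y
      + (39355303925/2125764)*x^(6:ℕ) := by
    subst hx hy; ring
  rw [e]; positivity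

theorem r3s4_k4 (c : ℝ) (h0 : 0 ≤ c) (h1 : c ≤ 18) :
    0 ≤
      994853029656 + 177094853612*c + 5057857834*c^(2:ℕ) + (-882986705)*c^(3:ℕ) + (-13583587)*c^(4:ℕ)
      + 415688*c^(5:ℕ) := by
  obtain ⟨x, hx⟩ : ∃ x : ℝ, x = c - 0 := ⟨_, rfl⟩
  obtain ⟨y, hy⟩ : ∃ y : ℝ, y = 18 - c := ⟨_, rfl⟩
  have hx0 : 0 ≤ x := by linarith
  have hy0 : 0 ≤ y := by linarith
  have e :
      994853029656 + 177094853612*c + 5057857834*c^(2:ℕ) + (-882986705)*c^(3:ℕ) + (-13583587)*c^(4:ℕ)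
      + 415688*c^(5:ℕ)
      = (41452209569/78732)*y^(5:ℕ) + (170041094027/39366)*x*y^(4:ℕ) + (1014087737285/78732)*x^(2:ℕ)*y^(3:ℕ)
      + (600863204953/39366)*x^(3:ℕ)*y^(2:ℕ) + (227421351395/39366)*x^(4:ℕ)*y + (325499825/19683)*x^(5:ℕ) := by
    subst hx hy; ring
  rw [e]; positivity

theorem r3s4_k5 (c : ℝ) (h0 : 0 ≤ c) (h1 : c ≤ 18) :
    0 ≤
      81113193040 + 8685341956*c + (-301848644)*c^(2:ℕ) + (-27657331)*c^(3:ℕ) + 215075*c^(4:ℕ) := by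
  obtain ⟨x, hx⟩ : ∃ x : ℝ, x = c - 0 := ⟨_, rfl⟩
  obtain ⟨y, hy⟩ : ∃ y : ℝ, y = 18 - c := ⟨_, rfl⟩
  have hx0 : 0 ≤ x := by linarith
  have hy0 : 0 ≤ y := by linarith
  have e :
      81113193040 + 8685341956*c + (-301848644)*c^(2:ℕ) + (-27657331)*c^(3:ℕ) + 215075*c^(4:ℕ)
      = (5069574565/6561)*y^(4:ℕ) + (60098615921/13122)*x*y^(3:ℕ) + (35745360967/4374)*x^(2:ℕ)*y^(2:ℕ)
      + (27285360130/6561)*x^(3:ℕ)*y + (58159150/6561)*x^(4:ℕ) := by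
    subst hx hy; ring
  rw [e]; positivity

theorem r3s4_k6 (c : ℝ) (h0 : 0 ≤ c) (h1 : c ≤ 18) :
    0 ≤
      3952038312 + 129066968*c + (-17203966)*c^(2:ℕ) + (-117586)*c^(3:ℕ) := by
  obtain ⟨x, hx⟩ : ∃ x : ℝ, x = c - 0 := ⟨_, rfl⟩
  obtain ⟨y, hy⟩ : ∃ y : ℝ, y = 18 - c := ⟨_, rfl⟩
  have hx0 : 0 ≤ x := by linarith
  have hy0 : 0 ≤ y := by linarith
  have e :
      3952038312 + 129066968*c + (-17203966)*c^(2:ℕ) + (-117586)*c^(3:ℕ)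
      = (54889421/81)*y^(3:ℕ) + (196935005/81)*x*y^(2:ℕ) + (151783900/81)*x^(2:ℕ)*y + (213850/81)*x^(3:ℕ) := by
    subst hx hy; ring
  rw [e]; positivity

theorem r3s4_k7 (c : ℝ) (h0 : 0 ≤ c) (h1 : c ≤ 18) :
    0 ≤
      100468020 + (-2465180)*c + (-172795)*c^(2:ℕ) := by
  obtain ⟨x, hx⟩ : ∃ x : ℝ, x = c - 0 := ⟨_, rfl⟩
  obtain ⟨y, hy⟩ : ∃ y : ℝ, y = 18 - c := ⟨_, rfl⟩
  have hx0 : 0 ≤ x := by linarith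
  have hy0 : 0 ≤ y := by linarith
  have e :
      100468020 + (-2465180)*c + (-172795)*c^(2:ℕ)
      = (8372335/27)*y^(2:ℕ) + (13046900/27)*x*y + (9100/27)*x^(2:ℕ) := by
    subst hx hy; ring
  rw [e]; positivity

theorem r3s4_k8 (c : ℝ) (h0 : 0 ≤ c) (h1 : c ≤ 18) :
    0 ≤
      982800 + (-54600)*c := by
  obtain ⟨x, hx⟩ : ∃ x : ℝ, x = c - 0 := ⟨_, rfl⟩
  obtain ⟨y, hy⟩ : ∃ y : ℝ, y = 18 - c := ⟨_, rfl⟩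
  have hx0 : 0 ≤ x := by linarith
  have hy0 : 0 ≤ y := by linarith
  have e :
      982800 + (-54600)*c
      = 54600*y := by
    subst hx hy; ring
  rw [e]; positivity

theorem r3s4_pos (a b : ℝ) (ha : 0 < a) (hb : 0 ≤ b) (hab : 18 ≤ a + b) :
    0 <
      10220*b^(9:ℕ) + 65940*a*b^(8:ℕ) + 146923*a^(2:ℕ)*b^(7:ℕ) + 166775*a^(3:ℕ)*b^(6:ℕ) + 197652*a^(4:ℕ)*b^(5:ℕ)
      + 349496*a^(5:ℕ)*b^(4:ℕ) + 436821*a^(6:ℕ)*b^(3:ℕ) + 264005*a^(7:ℕ)*b^(2:ℕ) + 54600*a^(8:ℕ)*b + 8400*b^(8:ℕ) + 66249*a*b^(7:ℕ)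
      + 2890*a^(2:ℕ)*b^(6:ℕ) + 862796*a^(3:ℕ)*b^(5:ℕ) + 3932198*a^(4:ℕ)*b^(4:ℕ) + 6075403*a^(5:ℕ)*b^(3:ℕ) + 3982360*a^(6:ℕ)*b^(2:ℕ)
      + 823400*a^(7:ℕ)*b + (-1940820)*b^(7:ℕ) + (-7940085)*a*b^(6:ℕ) + (-10576719)*a^(2:ℕ)*b^(5:ℕ)
      + 7097373*a^(3:ℕ)*b^(4:ℕ) + 30608929*a^(4:ℕ)*b^(3:ℕ) + 26085982*a^(5:ℕ)*b^(2:ℕ) + 6254200*a^(6:ℕ)*b + 109200*a^(7:ℕ)
      + (-20323520)*b^(6:ℕ) + (-63875697)*a*b^(5:ℕ) + (-49786688)*a^(2:ℕ)*b^(4:ℕ) + 51429673*a^(3:ℕ)*b^(3:ℕ)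
      + 87583016*a^(4:ℕ)*b^(2:ℕ) + 29458160*a^(5:ℕ)*b + 1638000*a^(6:ℕ) + (-93676380)*b^(5:ℕ) + (-207366411)*a*b^(4:ℕ)
      + (-60132806)*a^(2:ℕ)*b^(3:ℕ) + 148737241*a^(3:ℕ)*b^(2:ℕ) + 92347320*a^(4:ℕ)*b + 10645600*a^(5:ℕ)
      + (-228424560)*b^(4:ℕ) + (-302578152)*a*b^(3:ℕ) + 74445480*a^(2:ℕ)*b^(2:ℕ) + 186498760*a^(3:ℕ)*b
      + 39295200*a^(4:ℕ) + (-291400060)*b^(3:ℕ) + (-127125444)*a*b^(2:ℕ) + 217649160*a^(2:ℕ)*b + 89272400*a^(3:ℕ)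
      + (-158044320)*b^(2:ℕ) + 114439200*a*b + 122900400*a^(2:ℕ) + 4415040*b + 90417600*a + 24192000 := by
  rcases le_total 18 b with h | h
  · obtain ⟨f, hf⟩ : ∃ f : ℝ, f = b - 18 := ⟨_, rfl⟩
    have hf0 : 0 ≤ f := by linarith
    have e :
        10220*b^(9:ℕ) + 65940*a*b^(8:ℕ) + 146923*a^(2:ℕ)*b^(7:ℕ) + 166775*a^(3:ℕ)*b^(6:ℕ) + 197652*a^(4:ℕ)*b^(5:ℕ)
        + 349496*a^(5:ℕ)*b^(4:ℕ) + 436821*a^(6:ℕ)*b^(3:ℕ) + 264005*a^(7:ℕ)*b^(2:ℕ) + 54600*a^(8:ℕ)*b + 8400*b^(8:ℕ)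
        + 66249*a*b^(7:ℕ) + 2890*a^(2:ℕ)*b^(6:ℕ) + 862796*a^(3:ℕ)*b^(5:ℕ) + 3932198*a^(4:ℕ)*b^(4:ℕ) + 6075403*a^(5:ℕ)*b^(3:ℕ)
        + 3982360*a^(6:ℕ)*b^(2:ℕ) + 823400*a^(7:ℕ)*b + (-1940820)*b^(7:ℕ) + (-7940085)*a*b^(6:ℕ)
        + (-10576719)*a^(2:ℕ)*b^(5:ℕ) + 7097373*a^(3:ℕ)*b^(4:ℕ) + 30608929*a^(4:ℕ)*b^(3:ℕ) + 26085982*a^(5:ℕ)*b^(2:ℕ)
        + 6254200*a^(6:ℕ)*b + 109200*a^(7:ℕ) + (-20323520)*b^(6:ℕ) + (-63875697)*a*b^(5:ℕ)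
        + (-49786688)*a^(2:ℕ)*b^(4:ℕ) + 51429673*a^(3:ℕ)*b^(3:ℕ) + 87583016*a^(4:ℕ)*b^(2:ℕ) + 29458160*a^(5:ℕ)*b
        + 1638000*a^(6:ℕ) + (-93676380)*b^(5:ℕ) + (-207366411)*a*b^(4:ℕ) + (-60132806)*a^(2:ℕ)*b^(3:ℕ)
        + 148737241*a^(3:ℕ)*b^(2:ℕ) + 92347320*a^(4:ℕ)*b + 10645600*a^(5:ℕ) + (-228424560)*b^(4:ℕ)
        + (-302578152)*a*b^(3:ℕ) + 74445480*a^(2:ℕ)*b^(2:ℕ) + 186498760*a^(3:ℕ)*b + 39295200*a^(4:ℕ)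
        + (-291400060)*b^(3:ℕ) + (-127125444)*a*b^(2:ℕ) + 217649160*a^(2:ℕ)*b + 89272400*a^(3:ℕ)
        + (-158044320)*b^(2:ℕ) + 114439200*a*b + 122900400*a^(2:ℕ) + 4415040*b + 90417600*a + 24192000
      =
        10220*f^(9:ℕ) + 65940*a*f^(8:ℕ) + 146923*a^(2:ℕ)*f^(7:ℕ) + 166775*a^(3:ℕ)*f^(6:ℕ) + 197652*a^(4:ℕ)*f^(5:ℕ)
        + 349496*a^(5:ℕ)*f^(4:ℕ) + 436821*a^(6:ℕ)*f^(3:ℕ) + 264005*a^(7:ℕ)*f^(2:ℕ) + 54600*a^(8:ℕ)*f + 1664040*f^(8:ℕ)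
        + 9561609*a*f^(7:ℕ) + 18515188*a^(2:ℕ)*f^(6:ℕ) + 18874496*a^(3:ℕ)*f^(5:ℕ) + 21720878*a^(4:ℕ)*f^(4:ℕ)
        + 31239115*a^(5:ℕ)*f^(3:ℕ) + 27570694*a^(6:ℕ)*f^(2:ℕ) + 10327580*a^(7:ℕ)*f + 982800*a^(8:ℕ) + 118474860*f^(7:ℕ)
        + 598614969*a*f^(6:ℕ) + 989399493*a^(2:ℕ)*f^(5:ℕ) + 895275513*a^(3:ℕ)*f^(4:ℕ) + 954119665*a^(4:ℕ)*f^(3:ℕ)
        + 1033577968*a^(5:ℕ)*f^(2:ℕ) + 574209172*a^(6:ℕ)*f + 100468020*a^(7:ℕ) + 4817993320*f^(6:ℕ)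
        + 21064829799*a*f^(5:ℕ) + 29002276762*a^(2:ℕ)*f^(4:ℕ) + 22810535569*a^(3:ℕ)*f^(3:ℕ) + 20911722734*a^(4:ℕ)*f^(2:ℕ)
        + 15026887916*a^(5:ℕ)*f + 3952038312*a^(6:ℕ) + 122429111700*f^(5:ℕ) + 453525974439*a*f^(4:ℕ)
        + 502242355378*a^(2:ℕ)*f^(3:ℕ) + 329652081415*a^(3:ℕ)*f^(2:ℕ) + 228471111588*a^(4:ℕ)*f + 81113193040*a^(5:ℕ)
        + 1991368608600*f^(4:ℕ) + 6072582072936*a*f^(3:ℕ) + 5117799394548*a^(2:ℕ)*f^(2:ℕ) + 2564758782616*a^(3:ℕ)*f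
        + 994853029656*a^(4:ℕ) + 20265998823140*f^(3:ℕ) + 48778678472676*a*f^(2:ℕ) + 28244527489008*a^(2:ℕ)*f
        + 8399329166876*a^(3:ℕ) + 118308745570680*f^(2:ℕ) + 210048171357696*a*f + 64513128358224*a^(2:ℕ)
        + 307473417100080*f + 352885572189216*a + 37605084723360 := by
      rw [hf]; ring
    rw [e]; positivity
  · obtain ⟨c, hc⟩ : ∃ c : ℝ, c = 18 - b := ⟨_, rfl⟩
    obtain ⟨e, he⟩ : ∃ e : ℝ, e = a - c := ⟨_, rfl⟩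
    have hc0 : 0 ≤ c := by linarith
    have hc1 : c ≤ 18 := by linarith
    have he0 : 0 ≤ e := by linarith
    have k0 := r3s4_k0 c hc0 hc1
    have k1 := r3s4_k1 c hc0 hc1
    have k2 := r3s4_k2 c hc0 hc1
    have k3 := r3s4_k3 c hc0 hc1
    have k4 := r3s4_k4 c hc0 hc1
    have k5 := r3s4_k5 c hc0 hc1
    have k6 := r3s4_k6 c hc0 hc1
    have k7 := r3s4_k7 c hc0 hc1
    have k8 := r3s4_k8 c hc0 hc1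
    have key :
        10220*b^(9:ℕ) + 65940*a*b^(8:ℕ) + 146923*a^(2:ℕ)*b^(7:ℕ) + 166775*a^(3:ℕ)*b^(6:ℕ) + 197652*a^(4:ℕ)*b^(5:ℕ)
        + 349496*a^(5:ℕ)*b^(4:ℕ) + 436821*a^(6:ℕ)*b^(3:ℕ) + 264005*a^(7:ℕ)*b^(2:ℕ) + 54600*a^(8:ℕ)*b + 8400*b^(8:ℕ)
        + 66249*a*b^(7:ℕ) + 2890*a^(2:ℕ)*b^(6:ℕ) + 862796*a^(3:ℕ)*b^(5:ℕ) + 3932198*a^(4:ℕ)*b^(4:ℕ) + 6075403*a^(5:ℕ)*b^(3:ℕ)
        + 3982360*a^(6:ℕ)*b^(2:ℕ) + 823400*a^(7:ℕ)*b + (-1940820)*b^(7:ℕ) + (-7940085)*a*b^(6:ℕ)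
        + (-10576719)*a^(2:ℕ)*b^(5:ℕ) + 7097373*a^(3:ℕ)*b^(4:ℕ) + 30608929*a^(4:ℕ)*b^(3:ℕ) + 26085982*a^(5:ℕ)*b^(2:ℕ)
        + 6254200*a^(6:ℕ)*b + 109200*a^(7:ℕ) + (-20323520)*b^(6:ℕ) + (-63875697)*a*b^(5:ℕ)
        + (-49786688)*a^(2:ℕ)*b^(4:ℕ) + 51429673*a^(3:ℕ)*b^(3:ℕ) + 87583016*a^(4:ℕ)*b^(2:ℕ) + 29458160*a^(5:ℕ)*b
        + 1638000*a^(6:ℕ) + (-93676380)*b^(5:ℕ) + (-207366411)*a*b^(4:ℕ) + (-60132806)*a^(2:ℕ)*b^(3:ℕ)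
        + 148737241*a^(3:ℕ)*b^(2:ℕ) + 92347320*a^(4:ℕ)*b + 10645600*a^(5:ℕ) + (-228424560)*b^(4:ℕ)
        + (-302578152)*a*b^(3:ℕ) + 74445480*a^(2:ℕ)*b^(2:ℕ) + 186498760*a^(3:ℕ)*b + 39295200*a^(4:ℕ)
        + (-291400060)*b^(3:ℕ) + (-127125444)*a*b^(2:ℕ) + 217649160*a^(2:ℕ)*b + 89272400*a^(3:ℕ)
        + (-158044320)*b^(2:ℕ) + 114439200*a*b + 122900400*a^(2:ℕ) + 4415040*b + 90417600*a + 24192000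
      =
        (37605084723360 + 45412155089136*c + (-27226297428792)*c^(2:ℕ) + 8667481327404*c^(3:ℕ)
          + (-533319822748)*c^(4:ℕ) + 11148670228*c^(5:ℕ) + (-218222156)*c^(6:ℕ) + (-8266720)*c^(7:ℕ)
          + 450800*c^(8:ℕ))
        + (352885572189216 + (-81021914641248)*c + 17487610995288*c^(2:ℕ) + 448152486936*c^(3:ℕ)
          + (-70320973224)*c^(4:ℕ) + 732798246*c^(5:ℕ) + (-84925190)*c^(6:ℕ) + 2526720*c^(7:ℕ) + 19600*c^(8:ℕ))*e^(1:ℕ)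
        + (64513128358224 + (-3046539988380)*c + 3392641224636*c^(2:ℕ) + (-72980850261)*c^(3:ℕ)
          + (-4947298021)*c^(4:ℕ) + (-195820424)*c^(5:ℕ) + 4025448*c^(6:ℕ) + 125440*c^(7:ℕ))*e^(2:ℕ)
        + (8399329166876 + 1414653336008*c + 226899565463*c^(2:ℕ) + (-10391757553)*c^(3:ℕ)
          + (-553226207)*c^(4:ℕ) + 603246*c^(5:ℕ) + 317282*c^(6:ℕ))*e^(3:ℕ)
        + (994853029656 + 177094853612*c + 5057857834*c^(2:ℕ) + (-882986705)*c^(3:ℕ) + (-13583587)*c^(4:ℕ)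
          + 415688*c^(5:ℕ))*e^(4:ℕ)
        + (81113193040 + 8685341956*c + (-301848644)*c^(2:ℕ) + (-27657331)*c^(3:ℕ) + 215075*c^(4:ℕ))*e^(5:ℕ)
        + (3952038312 + 129066968*c + (-17203966)*c^(2:ℕ) + (-117586)*c^(3:ℕ))*e^(6:ℕ)
        + (100468020 + (-2465180)*c + (-172795)*c^(2:ℕ))*e^(7:ℕ)
        + (982800 + (-54600)*c)*e^(8:ℕ) := by
      have hbc : b = 18 - c := by linarith
      have hac : a = c + e := by linarith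
      rw [hbc, hac]; ring
    rw [key]
    have m1 := mul_nonneg k1 (pow_nonneg he0 1)
    have m2 := mul_nonneg k2 (pow_nonneg he0 2)
    have m3 := mul_nonneg k3 (pow_nonneg he0 3)
    have m4 := mul_nonneg k4 (pow_nonneg he0 4)
    have m5 := mul_nonneg k5 (pow_nonneg he0 5)
    have m6 := mul_nonneg k6 (pow_nonneg he0 6)
    have m7 := mul_nonneg k7 (pow_nonneg he0 7)
    have m8 := mul_nonneg k8 (pow_nonneg he0 8)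
    linarith

theorem r3s4_false {R p ρ y Z : ℝ} (hR : 21 ≤ R) (hn : 3 < ρ) (hρ : ρ ≤ R)
    (hmom : ∀ t : ℝ, 2 * t * y ≤ Z + t ^(2:ℕ) * ((R - ρ) * ρ / R)) (hm : MI 1 3 R p ρ y Z)
    (hp : 6 * p = R * (R - 1) + 4) : False := by
  have hp1 : 1 ≤ p := by nlinarith
  have hH : 0 < 4 * (3 * p - ρ) - (2 - 1) * (7/10) * (ρ * (ρ - 3)) := by
    nlinarith [mul_nonneg (sub_nonneg.mpr hρ) (sub_nonneg.mpr hρ)]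
  have h := clear (by linarith) (by linarith) (by linarith) hmom hm hp1 (ρ - 3) R (7/10)
    (by linarith) (by norm_num) hH
  obtain ⟨a, ha⟩ : ∃ a : ℝ, a = ρ - 3 := ⟨_, rfl⟩
  obtain ⟨b, hb⟩ : ∃ b : ℝ, b = R - ρ := ⟨_, rfl⟩
  have hapos : 0 < a := by linarith
  have hF := r3s4_pos a b hapos (by linarith) (by linarith)
  have hp' : p = (R * (R - 1) + 4) / 6 := by linarith
  have hρ' : ρ = a + 3 := by linarith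
  have hR' : R = a + b + 3 := by linarith
  rw [hp', hR', hρ'] at h
  have hpos := mul_pos (by norm_num : (0 : ℝ) < 1 / (20000)) (mul_pos hapos hF)
  exact absurd h (not_le.mpr (lt_of_lt_of_eq hpos (by ring)))

theorem r3s6_k0 (c : ℝ) (h0 : 0 ≤ c) (h1 : c ≤ 18) :
    0 <
      83707734096000 + 44755892526240*c + (-27397644709680)*c^(2:ℕ) + 8751718028088*c^(3:ℕ)
      + (-537504541056)*c^(4:ℕ) + 11194562868*c^(5:ℕ) + (-219445756)*c^(6:ℕ) + (-8266720)*c^(7:ℕ) + 450800*c^(8:ℕ) := by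
  rcases le_total c 9 with h2 | h2
  · obtain ⟨x, hx⟩ : ∃ x : ℝ, x = c - 0 := ⟨_, rfl⟩
    obtain ⟨y, hy⟩ : ∃ y : ℝ, y = 9 - c := ⟨_, rfl⟩
    have hx0 : 0 ≤ x := by linarith
    have hy0 : 0 ≤ y := by linarith
    have e :
        83707734096000 + 44755892526240*c + (-27397644709680)*c^(2:ℕ) + 8751718028088*c^(3:ℕ)
        + (-537504541056)*c^(4:ℕ) + 11194562868*c^(5:ℕ) + (-219445756)*c^(6:ℕ) + (-8266720)*c^(7:ℕ)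
        + 450800*c^(8:ℕ)
        = 83707734096000 + (61393542560/6561)*x*y^(7:ℕ) + (91512270640/6561)*x^(2:ℕ)*y^(6:ℕ)
        + (77407448104/2187)*x^(3:ℕ)*y^(5:ℕ) + (1399697110504/6561)*x^(4:ℕ)*y^(4:ℕ)
        + (3058787487908/6561)*x^(5:ℕ)*y^(3:ℕ) + (999736157248/2187)*x^(6:ℕ)*y^(2:ℕ)
        + (1373023587260/6561)*x^(7:ℕ)*y + (237966807952/6561)*x^(8:ℕ) := by
      subst hx hy; ring
    rw [e]; positivity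
  · have _unused := h0
    obtain ⟨x, hx⟩ : ∃ x : ℝ, x = c - 9 := ⟨_, rfl⟩
    obtain ⟨y, hy⟩ : ∃ y : ℝ, y = 18 - c := ⟨_, rfl⟩
    have hx0 : 0 ≤ x := by linarith
    have hy0 : 0 ≤ y := by linarith
    have e :
        83707734096000 + 44755892526240*c + (-27397644709680)*c^(2:ℕ) + 8751718028088*c^(3:ℕ)
        + (-537504541056)*c^(4:ℕ) + 11194562868*c^(5:ℕ) + (-219445756)*c^(6:ℕ) + (-8266720)*c^(7:ℕ)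
        + 450800*c^(8:ℕ)
        = 223215956712000 + (216703551952/6561)*y^(8:ℕ) + (2264339291972/6561)*x*y^(7:ℕ)
        + (3277929857576/2187)*x^(2:ℕ)*y^(6:ℕ) + (23016120469676/6561)*x^(3:ℕ)*y^(5:ℕ)
        + (31352123089504/6561)*x^(4:ℕ)*y^(4:ℕ) + (8279926383608/2187)*x^(5:ℕ)*y^(3:ℕ)
        + (10567241086048/6561)*x^(6:ℕ)*y^(2:ℕ) + (1846660688960/6561)*x^(7:ℕ)*y := by
      subst hx hy; ring
    rw [e]; positivity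

theorem r3s6_k1 (c : ℝ) (h0 : 0 ≤ c) (h1 : c ≤ 18) :
    0 ≤
      370608341271840 + (-81922612810248)*c + 17700321498300*c^(2:ℕ) + 448350233490*c^(3:ℕ)
      + (-70676450994)*c^(4:ℕ) + 729441606*c^(5:ℕ) + (-84978390)*c^(6:ℕ) + 2526720*c^(7:ℕ) + 19600*c^(8:ℕ) := by
  obtain ⟨x, hx⟩ : ∃ x : ℝ, x = c - 0 := ⟨_, rfl⟩
  obtain ⟨y, hy⟩ : ∃ y : ℝ, y = 18 - c := ⟨_, rfl⟩
  have hx0 : 0 ≤ x := by linarith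
  have hy0 : 0 ≤ y := by linarith
  have e :
      370608341271840 + (-81922612810248)*c + 17700321498300*c^(2:ℕ) + 448350233490*c^(3:ℕ)
      + (-70676450994)*c^(4:ℕ) + 729441606*c^(5:ℕ) + (-84978390)*c^(6:ℕ) + 2526720*c^(7:ℕ) + 19600*c^(8:ℕ)
      = (15886845905/472392)*y^(8:ℕ) + (42588583093/314928)*x*y^(7:ℕ) + (62046558931/118098)*x^(2:ℕ)*y^(6:ℕ)
      + (1149327975967/472392)*x^(3:ℕ)*y^(5:ℕ) + (1886415809023/314928)*x^(4:ℕ)*y^(4:ℕ)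
      + (7003574674663/944784)*x^(5:ℕ)*y^(3:ℕ) + (2070916144067/472392)*x^(6:ℕ)*y^(2:ℕ)
      + (8216084245/8748)*x^(7:ℕ)*y + (6625362275/944784)*x^(8:ℕ) := by
    subst hx hy; ring
  rw [e]; positivity

theorem r3s6_k2 (c : ℝ) (h0 : 0 ≤ c) (h1 : c ≤ 18) :
    0 ≤
      66871946896272 + (-2985667722324)*c + 3414507547842*c^(2:ℕ) + (-73591473513)*c^(3:ℕ)
      + (-4972793517)*c^(4:ℕ) + (-196054504)*c^(5:ℕ) + 4025448*c^(6:ℕ) + 125440*c^(7:ℕ) := by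
  obtain ⟨x, hx⟩ : ∃ x : ℝ, x = c - 0 := ⟨_, rfl⟩
  obtain ⟨y, hy⟩ : ∃ y : ℝ, y = 18 - c := ⟨_, rfl⟩
  have hx0 : 0 ≤ x := by linarith
  have hy0 : 0 ≤ y := by linarith
  have e :
      66871946896272 + (-2985667722324)*c + 3414507547842*c^(2:ℕ) + (-73591473513)*c^(3:ℕ)
      + (-4972793517)*c^(4:ℕ) + (-196054504)*c^(5:ℕ) + 4025448*c^(6:ℕ) + 125440*c^(7:ℕ)
      = (17199574819/157464)*y^(7:ℕ) + (213148975963/314928)*x*y^(6:ℕ) + (375198768229/104976)*x^(2:ℕ)*y^(5:ℕ)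
      + (3413942700781/314928)*x^(3:ℕ)*y^(4:ℕ) + (2595143094133/157464)*x^(4:ℕ)*y^(3:ℕ)
      + (1225915977349/104976)*x^(5:ℕ)*y^(2:ℕ) + (920955625505/314928)*x^(6:ℕ)*y + (5902227625/314928)*x^(7:ℕ) := by
    subst hx hy; ring
  rw [e]; positivity

theorem r3s6_k3 (c : ℝ) (h0 : 0 ≤ c) (h1 : c ≤ 18) :
    0 ≤
      8616153968604 + 1430995353480*c + 227470978653*c^(2:ℕ) + (-10442526503)*c^(3:ℕ)
      + (-554013441)*c^(4:ℕ) + 603246*c^(5:ℕ) + 317282*c^(6:ℕ) := by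
  obtain ⟨x, hx⟩ : ∃ x : ℝ, x = c - 0 := ⟨_, rfl⟩
  obtain ⟨y, hy⟩ : ∃ y : ℝ, y = 18 - c := ⟨_, rfl⟩
  have hx0 : 0 ≤ x := by linarith
  have hy0 : 0 ≤ y := by linarith
  have e :
      8616153968604 + 1430995353480*c + 227470978653*c^(2:ℕ) + (-10442526503)*c^(3:ℕ)
      + (-554013441)*c^(4:ℕ) + 603246*c^(5:ℕ) + 317282*c^(6:ℕ)
      = (79779203413/314928)*y^(6:ℕ) + (39843024781/17496)*x*y^(5:ℕ) + (511932852509/52488)*x^(2:ℕ)*y^(4:ℕ)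
      + (3073165818367/157464)*x^(3:ℕ)*y^(3:ℕ) + (201702502393/11664)*x^(4:ℕ)*y^(2:ℕ)
      + (34222626280/6561)*x^(5:ℕ)*y + (4384623425/157464)*x^(6:ℕ) := by
    subst hx hy; ring
  rw [e]; positivity

theorem r3s6_k4 (c : ℝ) (h0 : 0 ≤ c) (h1 : c ≤ 18) :
    0 ≤
      1009255311504 + 177950954628*c + 5038578924*c^(2:ℕ) + (-884337733)*c^(3:ℕ) + (-13583587)*c^(4:ℕ)
      + 415688*c^(5:ℕ) := by
  obtain ⟨x, hx⟩ : ∃ x : ℝ, x = c - 0 := ⟨_, rfl⟩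
  obtain ⟨y, hy⟩ : ∃ y : ℝ, y = 18 - c := ⟨_, rfl⟩
  have hx0 : 0 ≤ x := by linarith
  have hy0 : 0 ≤ y := by linarith
  have e :
      1009255311504 + 177950954628*c + 5038578924*c^(2:ℕ) + (-884337733)*c^(3:ℕ) + (-13583587)*c^(4:ℕ)
      + 415688*c^(5:ℕ)
      = (2336239147/4374)*y^(5:ℕ) + (38191637689/8748)*x*y^(4:ℕ) + (56799818101/4374)*x^(2:ℕ)*y^(3:ℕ)
      + (134496746621/8748)*x^(3:ℕ)*y^(2:ℕ) + (12749280160/2187)*x^(4:ℕ)*y + (108644725/4374)*x^(5:ℕ) := by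
    subst hx hy; ring
  rw [e]; positivity

theorem r3s6_k5 (c : ℝ) (h0 : 0 ≤ c) (h1 : c ≤ 18) :
    0 ≤
      81693577224 + 8695555260*c + (-302769438)*c^(2:ℕ) + (-27657331)*c^(3:ℕ) + 215075*c^(4:ℕ) := by
  obtain ⟨x, hx⟩ : ∃ x : ℝ, x = c - 0 := ⟨_, rfl⟩
  obtain ⟨y, hy⟩ : ∃ y : ℝ, y = 18 - c := ⟨_, rfl⟩
  have hx0 : 0 ≤ x := by linarith
  have hy0 : 0 ≤ y := by linarith
  have e :
      81693577224 + 8695555260*c + (-302769438)*c^(2:ℕ) + (-27657331)*c^(3:ℕ) + 215075*c^(4:ℕ)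
      = (1134633017/1458)*y^(4:ℕ) + (6712420883/1458)*x*y^(3:ℕ) + (1994500346/243)*x^(2:ℕ)*y^(2:ℕ)
      + (3047514880/729)*x^(3:ℕ)*y + (9697450/729)*x^(4:ℕ) := by
    subst hx hy; ring
  rw [e]; positivity

theorem r3s6_k6 (c : ℝ) (h0 : 0 ≤ c) (h1 : c ≤ 18) :
    0 ≤
      3963164112 + 128876568*c + (-17203966)*c^(2:ℕ) + (-117586)*c^(3:ℕ) := by
  obtain ⟨x, hx⟩ : ∃ x : ℝ, x = c - 0 := ⟨_, rfl⟩
  obtain ⟨y, hy⟩ : ∃ y : ℝ, y = 18 - c := ⟨_, rfl⟩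
  have hx0 : 0 ≤ x := by linarith
  have hy0 : 0 ≤ y := by linarith
  have e :
      3963164112 + 128876568*c + (-17203966)*c^(2:ℕ) + (-117586)*c^(3:ℕ)
      = (6115994/9)*y^(3:ℕ) + (65783660/27)*x*y^(2:ℕ) + (50717425/27)*x^(2:ℕ)*y + (106925/27)*x^(3:ℕ) := by
    subst hx hy; ring
  rw [e]; positivity

theorem r3s6_k7 (c : ℝ) (h0 : 0 ≤ c) (h1 : c ≤ 18) :
    0 ≤
      100522620 + (-2465180)*c + (-172795)*c^(2:ℕ) := by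
  obtain ⟨x, hx⟩ : ∃ x : ℝ, x = c - 0 := ⟨_, rfl⟩
  obtain ⟨y, hy⟩ : ∃ y : ℝ, y = 18 - c := ⟨_, rfl⟩
  have hx0 : 0 ≤ x := by linarith
  have hy0 : 0 ≤ y := by linarith
  have e :
      100522620 + (-2465180)*c + (-172795)*c^(2:ℕ)
      = 310255*y^(2:ℕ) + (4352000/9)*x*y + (4550/9)*x^(2:ℕ) := by
    subst hx hy; ring
  rw [e]; positivity

theorem r3s6_k8 (c : ℝ) (h0 : 0 ≤ c) (h1 : c ≤ 18) :
    0 ≤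
      982800 + (-54600)*c := by
  obtain ⟨x, hx⟩ : ∃ x : ℝ, x = c - 0 := ⟨_, rfl⟩
  obtain ⟨y, hy⟩ : ∃ y : ℝ, y = 18 - c := ⟨_, rfl⟩
  have hx0 : 0 ≤ x := by linarith
  have hy0 : 0 ≤ y := by linarith
  have e :
      982800 + (-54600)*c
      = 54600*y := by
    subst hx hy; ring
  rw [e]; positivity

theorem r3s6_pos (a b : ℝ) (ha : 0 < a) (hb : 0 ≤ b) (hab : 18 ≤ a + b) :
    0 <
      10220*b^(9:ℕ) + 65940*a*b^(8:ℕ) + 146923*a^(2:ℕ)*b^(7:ℕ) + 166775*a^(3:ℕ)*b^(6:ℕ) + 197652*a^(4:ℕ)*b^(5:ℕ)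
      + 349496*a^(5:ℕ)*b^(4:ℕ) + 436821*a^(6:ℕ)*b^(3:ℕ) + 264005*a^(7:ℕ)*b^(2:ℕ) + 54600*a^(8:ℕ)*b + 8400*b^(8:ℕ) + 66249*a*b^(7:ℕ)
      + 2890*a^(2:ℕ)*b^(6:ℕ) + 862796*a^(3:ℕ)*b^(5:ℕ) + 3932198*a^(4:ℕ)*b^(4:ℕ) + 6075403*a^(5:ℕ)*b^(3:ℕ) + 3982360*a^(6:ℕ)*b^(2:ℕ)
      + 823400*a^(7:ℕ)*b + (-1871940)*b^(7:ℕ) + (-7562085)*a*b^(6:ℕ) + (-9803513)*a^(2:ℕ)*b^(5:ℕ) + 8225311*a^(3:ℕ)*b^(4:ℕ)
      + 32122987*a^(4:ℕ)*b^(3:ℕ) + 27454188*a^(5:ℕ)*b^(2:ℕ) + 6826800*a^(6:ℕ)*b + 163800*a^(7:ℕ) + (-19962320)*b^(6:ℕ)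
      + (-61454559)*a*b^(5:ℕ) + (-43483374)*a^(2:ℕ)*b^(4:ℕ) + 64254407*a^(3:ℕ)*b^(3:ℕ) + 102365454*a^(4:ℕ)*b^(2:ℕ)
      + 36744240*a^(5:ℕ)*b + 2457000*a^(6:ℕ) + (-96396300)*b^(5:ℕ) + (-204823671)*a*b^(4:ℕ)
      + (-27060288)*a^(2:ℕ)*b^(3:ℕ) + 214341099*a^(3:ℕ)*b^(2:ℕ) + 134335080*a^(4:ℕ)*b + 16581600*a^(5:ℕ)
      + (-254726640)*b^(4:ℕ) + (-302087718)*a*b^(3:ℕ) + 195475050*a^(2:ℕ)*b^(2:ℕ) + 313690680*a^(3:ℕ)*b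
      + 66301200*a^(4:ℕ) + (-365280300)*b^(3:ℕ) + (-71007516)*a*b^(2:ℕ) + 432162000*a^(2:ℕ)*b + 168701400*a^(3:ℕ)
      + (-224395920)*b^(2:ℕ) + 288560880*a*b + 265696200*a^(2:ℕ) + 37149840*b + 230655600*a + 81648000 := by
  rcases le_total 18 b with h | h
  · obtain ⟨f, hf⟩ : ∃ f : ℝ, f = b - 18 := ⟨_, rfl⟩
    have hf0 : 0 ≤ f := by linarith
    have e :
        10220*b^(9:ℕ) + 65940*a*b^(8:ℕ) + 146923*a^(2:ℕ)*b^(7:ℕ) + 166775*a^(3:ℕ)*b^(6:ℕ) + 197652*a^(4:ℕ)*b^(5:ℕ)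
        + 349496*a^(5:ℕ)*b^(4:ℕ) + 436821*a^(6:ℕ)*b^(3:ℕ) + 264005*a^(7:ℕ)*b^(2:ℕ) + 54600*a^(8:ℕ)*b + 8400*b^(8:ℕ)
        + 66249*a*b^(7:ℕ) + 2890*a^(2:ℕ)*b^(6:ℕ) + 862796*a^(3:ℕ)*b^(5:ℕ) + 3932198*a^(4:ℕ)*b^(4:ℕ) + 6075403*a^(5:ℕ)*b^(3:ℕ)
        + 3982360*a^(6:ℕ)*b^(2:ℕ) + 823400*a^(7:ℕ)*b + (-1871940)*b^(7:ℕ) + (-7562085)*a*b^(6:ℕ)
        + (-9803513)*a^(2:ℕ)*b^(5:ℕ) + 8225311*a^(3:ℕ)*b^(4:ℕ) + 32122987*a^(4:ℕ)*b^(3:ℕ) + 27454188*a^(5:ℕ)*b^(2:ℕ)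
        + 6826800*a^(6:ℕ)*b + 163800*a^(7:ℕ) + (-19962320)*b^(6:ℕ) + (-61454559)*a*b^(5:ℕ)
        + (-43483374)*a^(2:ℕ)*b^(4:ℕ) + 64254407*a^(3:ℕ)*b^(3:ℕ) + 102365454*a^(4:ℕ)*b^(2:ℕ) + 36744240*a^(5:ℕ)*b
        + 2457000*a^(6:ℕ) + (-96396300)*b^(5:ℕ) + (-204823671)*a*b^(4:ℕ) + (-27060288)*a^(2:ℕ)*b^(3:ℕ)
        + 214341099*a^(3:ℕ)*b^(2:ℕ) + 134335080*a^(4:ℕ)*b + 16581600*a^(5:ℕ) + (-254726640)*b^(4:ℕ)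
        + (-302087718)*a*b^(3:ℕ) + 195475050*a^(2:ℕ)*b^(2:ℕ) + 313690680*a^(3:ℕ)*b + 66301200*a^(4:ℕ)
        + (-365280300)*b^(3:ℕ) + (-71007516)*a*b^(2:ℕ) + 432162000*a^(2:ℕ)*b + 168701400*a^(3:ℕ)
        + (-224395920)*b^(2:ℕ) + 288560880*a*b + 265696200*a^(2:ℕ) + 37149840*b + 230655600*a
        + 81648000
      =
        10220*f^(9:ℕ) + 65940*a*f^(8:ℕ) + 146923*a^(2:ℕ)*f^(7:ℕ) + 166775*a^(3:ℕ)*f^(6:ℕ) + 197652*a^(4:ℕ)*f^(5:ℕ)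
        + 349496*a^(5:ℕ)*f^(4:ℕ) + 436821*a^(6:ℕ)*f^(3:ℕ) + 264005*a^(7:ℕ)*f^(2:ℕ) + 54600*a^(8:ℕ)*f + 1664040*f^(8:ℕ)
        + 9561609*a*f^(7:ℕ) + 18515188*a^(2:ℕ)*f^(6:ℕ) + 18874496*a^(3:ℕ)*f^(5:ℕ) + 21720878*a^(4:ℕ)*f^(4:ℕ)
        + 31239115*a^(5:ℕ)*f^(3:ℕ) + 27570694*a^(6:ℕ)*f^(2:ℕ) + 10327580*a^(7:ℕ)*f + 982800*a^(8:ℕ) + 118543740*f^(7:ℕ)
        + 598992969*a*f^(6:ℕ) + 990172699*a^(2:ℕ)*f^(5:ℕ) + 896403451*a^(3:ℕ)*f^(4:ℕ) + 955633723*a^(4:ℕ)*f^(3:ℕ)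
        + 1034946174*a^(5:ℕ)*f^(2:ℕ) + 574781772*a^(6:ℕ)*f + 100522620*a^(7:ℕ) + 4827033400*f^(6:ℕ)
        + 21108074937*a*f^(5:ℕ) + 29078168616*a^(2:ℕ)*f^(4:ℕ) + 22904571839*a^(3:ℕ)*f^(3:ℕ) + 21008264304*a^(4:ℕ)*f^(2:ℕ)
        + 15083429412*a^(5:ℕ)*f + 3963164112*a^(6:ℕ) + 122934060900*f^(5:ℕ) + 455583499599*a*f^(4:ℕ)
        + 505234453944*a^(2:ℕ)*f^(3:ℕ) + 332602932381*a^(3:ℕ)*f^(2:ℕ) + 230516931492*a^(4:ℕ)*f + 81693577224*a^(5:ℕ)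
        + 2006912731320*f^(4:ℕ) + 6124700047770*a*f^(3:ℕ) + 5177053356426*a^(2:ℕ)*f^(2:ℕ) + 2606025892536*a^(3:ℕ)*f
        + 1009255311504*a^(4:ℕ) + 20550425161140*f^(3:ℕ) + 49520118848760*a*f^(2:ℕ) + 28834129628136*a^(2:ℕ)*f
        + 8616153968604*a^(3:ℕ) + 121396914996840*f^(2:ℕ) + 215666506602792*a*f + 66871946896272*a^(2:ℕ)
        + 325852448745600*f + 370608341271840*a + 83707734096000 := by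
      rw [hf]; ring
    rw [e]; positivity
  · obtain ⟨c, hc⟩ : ∃ c : ℝ, c = 18 - b := ⟨_, rfl⟩
    obtain ⟨e, he⟩ : ∃ e : ℝ, e = a - c := ⟨_, rfl⟩
    have hc0 : 0 ≤ c := by linarith
    have hc1 : c ≤ 18 := by linarith
    have he0 : 0 ≤ e := by linarith
    have k0 := r3s6_k0 c hc0 hc1
    have k1 := r3s6_k1 c hc0 hc1
    have k2 := r3s6_k2 c hc0 hc1
    have k3 := r3s6_k3 c hc0 hc1
    have k4 := r3s6_k4 c hc0 hc1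
    have k5 := r3s6_k5 c hc0 hc1
    have k6 := r3s6_k6 c hc0 hc1
    have k7 := r3s6_k7 c hc0 hc1
    have k8 := r3s6_k8 c hc0 hc1
    have key :
        10220*b^(9:ℕ) + 65940*a*b^(8:ℕ) + 146923*a^(2:ℕ)*b^(7:ℕ) + 166775*a^(3:ℕ)*b^(6:ℕ) + 197652*a^(4:ℕ)*b^(5:ℕ)
        + 349496*a^(5:ℕ)*b^(4:ℕ) + 436821*a^(6:ℕ)*b^(3:ℕ) + 264005*a^(7:ℕ)*b^(2:ℕ) + 54600*a^(8:ℕ)*b + 8400*b^(8:ℕ)
        + 66249*a*b^(7:ℕ) + 2890*a^(2:ℕ)*b^(6:ℕ) + 862796*a^(3:ℕ)*b^(5:ℕ) + 3932198*a^(4:ℕ)*b^(4:ℕ) + 6075403*a^(5:ℕ)*b^(3:ℕ)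
        + 3982360*a^(6:ℕ)*b^(2:ℕ) + 823400*a^(7:ℕ)*b + (-1871940)*b^(7:ℕ) + (-7562085)*a*b^(6:ℕ)
        + (-9803513)*a^(2:ℕ)*b^(5:ℕ) + 8225311*a^(3:ℕ)*b^(4:ℕ) + 32122987*a^(4:ℕ)*b^(3:ℕ) + 27454188*a^(5:ℕ)*b^(2:ℕ)
        + 6826800*a^(6:ℕ)*b + 163800*a^(7:ℕ) + (-19962320)*b^(6:ℕ) + (-61454559)*a*b^(5:ℕ)
        + (-43483374)*a^(2:ℕ)*b^(4:ℕ) + 64254407*a^(3:ℕ)*b^(3:ℕ) + 102365454*a^(4:ℕ)*b^(2:ℕ) + 36744240*a^(5:ℕ)*b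
        + 2457000*a^(6:ℕ) + (-96396300)*b^(5:ℕ) + (-204823671)*a*b^(4:ℕ) + (-27060288)*a^(2:ℕ)*b^(3:ℕ)
        + 214341099*a^(3:ℕ)*b^(2:ℕ) + 134335080*a^(4:ℕ)*b + 16581600*a^(5:ℕ) + (-254726640)*b^(4:ℕ)
        + (-302087718)*a*b^(3:ℕ) + 195475050*a^(2:ℕ)*b^(2:ℕ) + 313690680*a^(3:ℕ)*b + 66301200*a^(4:ℕ)
        + (-365280300)*b^(3:ℕ) + (-71007516)*a*b^(2:ℕ) + 432162000*a^(2:ℕ)*b + 168701400*a^(3:ℕ)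
        + (-224395920)*b^(2:ℕ) + 288560880*a*b + 265696200*a^(2:ℕ) + 37149840*b + 230655600*a
        + 81648000
      =
        (83707734096000 + 44755892526240*c + (-27397644709680)*c^(2:ℕ) + 8751718028088*c^(3:ℕ)
          + (-537504541056)*c^(4:ℕ) + 11194562868*c^(5:ℕ) + (-219445756)*c^(6:ℕ) + (-8266720)*c^(7:ℕ)
          + 450800*c^(8:ℕ))
        + (370608341271840 + (-81922612810248)*c + 17700321498300*c^(2:ℕ) + 448350233490*c^(3:ℕ)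
          + (-70676450994)*c^(4:ℕ) + 729441606*c^(5:ℕ) + (-84978390)*c^(6:ℕ) + 2526720*c^(7:ℕ) + 19600*c^(8:ℕ))*e^(1:ℕ)
        + (66871946896272 + (-2985667722324)*c + 3414507547842*c^(2:ℕ) + (-73591473513)*c^(3:ℕ)
          + (-4972793517)*c^(4:ℕ) + (-196054504)*c^(5:ℕ) + 4025448*c^(6:ℕ) + 125440*c^(7:ℕ))*e^(2:ℕ)
        + (8616153968604 + 1430995353480*c + 227470978653*c^(2:ℕ) + (-10442526503)*c^(3:ℕ)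
          + (-554013441)*c^(4:ℕ) + 603246*c^(5:ℕ) + 317282*c^(6:ℕ))*e^(3:ℕ)
        + (1009255311504 + 177950954628*c + 5038578924*c^(2:ℕ) + (-884337733)*c^(3:ℕ) + (-13583587)*c^(4:ℕ)
          + 415688*c^(5:ℕ))*e^(4:ℕ)
        + (81693577224 + 8695555260*c + (-302769438)*c^(2:ℕ) + (-27657331)*c^(3:ℕ) + 215075*c^(4:ℕ))*e^(5:ℕ)
        + (3963164112 + 128876568*c + (-17203966)*c^(2:ℕ) + (-117586)*c^(3:ℕ))*e^(6:ℕ)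
        + (100522620 + (-2465180)*c + (-172795)*c^(2:ℕ))*e^(7:ℕ)
        + (982800 + (-54600)*c)*e^(8:ℕ) := by
      have hbc : b = 18 - c := by linarith
      have hac : a = c + e := by linarith
      rw [hbc, hac]; ring
    rw [key]
    have m1 := mul_nonneg k1 (pow_nonneg he0 1)
    have m2 := mul_nonneg k2 (pow_nonneg he0 2)
    have m3 := mul_nonneg k3 (pow_nonneg he0 3)
    have m4 := mul_nonneg k4 (pow_nonneg he0 4)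
    have m5 := mul_nonneg k5 (pow_nonneg he0 5)
    have m6 := mul_nonneg k6 (pow_nonneg he0 6)
    have m7 := mul_nonneg k7 (pow_nonneg he0 7)
    have m8 := mul_nonneg k8 (pow_nonneg he0 8)
    linarith

theorem r3s6_false {R p ρ y Z : ℝ} (hR : 21 ≤ R) (hn : 3 < ρ) (hρ : ρ ≤ R)
    (hmom : ∀ t : ℝ, 2 * t * y ≤ Z + t ^(2:ℕ) * ((R - ρ) * ρ / R)) (hm : MI 1 3 R p ρ y Z)
    (hp : 6 * p = R * (R - 1) + 6) : False := by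
  have hp1 : 1 ≤ p := by nlinarith
  have hH : 0 < 4 * (3 * p - ρ) - (2 - 1) * (7/10) * (ρ * (ρ - 3)) := by
    nlinarith [mul_nonneg (sub_nonneg.mpr hρ) (sub_nonneg.mpr hρ)]
  have h := clear (by linarith) (by linarith) (by linarith) hmom hm hp1 (ρ - 3) R (7/10)
    (by linarith) (by norm_num) hH
  obtain ⟨a, ha⟩ : ∃ a : ℝ, a = ρ - 3 := ⟨_, rfl⟩
  obtain ⟨b, hb⟩ : ∃ b : ℝ, b = R - ρ := ⟨_, rfl⟩
  have hapos : 0 < a := by linarith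
  have hF := r3s6_pos a b hapos (by linarith) (by linarith)
  have hp' : p = (R * (R - 1) + 6) / 6 := by linarith
  have hρ' : ρ = a + 3 := by linarith
  have hR' : R = a + b + 3 := by linarith
  rw [hp', hR', hρ'] at h
  have hpos := mul_pos (by norm_num : (0 : ℝ) < 1 / (20000)) (mul_pos hapos hF)
  exact absurd h (not_le.mpr (lt_of_lt_of_eq hpos (by ring)))

end Pool.Agent.EI97
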