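import Pool.Agent.EI97.JData

set_option autoImplicit false
set_option linter.unusedSectionVars false

/-! Reduction of the data of a configuration to five real inequalities. -/

namespace Pool.Agent.EI97

open Matrix Finset Pool.Agent.EI28 Pool.Agent.EI28L

/-- The reduced data: with `ρ = ∑ s`, `a = ρ / n - 1`, `R = r / n`, `x = ∑ s ^ 3 / ρ - 1` and
`y = ∑ s ^ 2 (s - 1) ^ 2 / ρ`. -/
structure Red (N X R a x y : ℝ) : Prop where
  a_pos : 0 < a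
  a_le : a ≤ R - 1
  hankel : ∀ β : ℝ, 0 ≤ y - 2 * β * x + β ^ 2 * ((R - 1 - a) / R)
  star : ∀ μ : ℝ, (3 * a - 2 * (3 - 2 * μ) * x - (1 - μ) * (3 - μ) * y
    - μ ^ 2 * N * (R - 1 - a) / 2) * (2 * X + 2 * a ^ 2) ≤ 3 * ((1 + a) * a ^ 2 * (N + 2))
  kernel : ∀ ζ α β : ℝ, 0 ≤ 4 * a * ζ ^ 2 + 4 * α ^ 2
    + (a + 1 + 4 * ζ * (a - 1) - 4 * ζ ^ 2 - 8 * α + 4 * β ^ 2) * x
    + (a + 1 - 8 * ζ - 8 * β) * y
  top : ∀ q σ : ℝ, 0 ≤ q → q ^ 2 = 1 + a →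
    0 ≤ x * (q - 2 * (1 - σ)) - y + (q - 1) * (1 - σ) ^ 2

variable {m : Type*} [Fintype m] [DecidableEq m]

theorem JData.red' {n p : ℝ} {s : m → ℝ} (h : JData m n p s) (hn : 0 < n) :
    ∃ a x y : ℝ, a = (∑ b, s b) / n - 1 ∧
      Red n (p - 1) ((Fintype.card m : ℝ) / n) a x y := by
  have hs0 := h.base.base.nonneg
  have hsq := h.base.base.sq
  have htop := h.base.base.top
  have hker := h.kernel hn
  have hst := fun μ : ℝ => h.base.star2 (μ / 2) 0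
  have hρn : n < ∑ a, s a := h.base.base.gt
  have hρr : ∑ a, s a ≤ Fintype.card m := by
    have h1 : (∑ a, s a) ^ 2 ≤ Fintype.card m * ∑ a, s a ^ 2 := by
      have := sq_sum_le_card_mul_sum_sq (s := (univ : Finset m)) (f := s)
      rwa [card_univ] at this
    rw [hsq] at h1
    have h0 : 0 < ∑ a, s a := by linarith
    have h2 : (∑ a, s a) * (∑ a, s a) ≤ Fintype.card m * ∑ a, s a := by nlinarith
    exact le_of_mul_le_mul_right h2 h0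
  -- the sums of squares
  have hA : ∀ c d : ℝ, 0 ≤ ∑ a, s a ^ 4 - 2 * c * ∑ a, s a ^ 3 + (c ^ 2 - 2 * d) * ∑ a, s a
      + 2 * c * d * ∑ a, s a + d ^ 2 * Fintype.card m := by
    intro c d
    have h1 : 0 ≤ ∑ a, (s a ^ 2 - c * s a - d) ^ 2 := sum_nonneg fun a _ => sq_nonneg _
    have e : ∀ a, (s a ^ 2 - c * s a - d) ^ 2 = s a ^ 4 - 2 * c * s a ^ 3
        + (c ^ 2 - 2 * d) * s a ^ 2 + 2 * c * d * s a + d ^ 2 := fun a => by ring
    simp only [e, sum_add_distrib, sum_sub_distrib, ← mul_sum, hsq, sum_const, card_univ,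
      nsmul_eq_mul] at h1
    linarith
  have hB : ∀ c d : ℝ, 0 ≤ ∑ a, s a ^ 5 - 2 * c * ∑ a, s a ^ 4 + (c ^ 2 - 2 * d) * ∑ a, s a ^ 3
      + 2 * c * d * ∑ a, s a + d ^ 2 * ∑ a, s a := by
    intro c d
    have h1 : 0 ≤ ∑ a, s a * (s a ^ 2 - c * s a - d) ^ 2 :=
      sum_nonneg fun a _ => mul_nonneg (hs0 a) (sq_nonneg _)
    have e : ∀ a, s a * (s a ^ 2 - c * s a - d) ^ 2 = s a ^ 5 - 2 * c * s a ^ 4
        + (c ^ 2 - 2 * d) * s a ^ 3 + 2 * c * d * s a ^ 2 + d ^ 2 * s a := fun a => by ring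
    simp only [e, sum_add_distrib, sum_sub_distrib, ← mul_sum, hsq] at h1
    linarith
  have hC : ∀ q σ : ℝ, (∀ a, s a ≤ q) → 0 ≤ q * (∑ a, s a ^ 3 - 2 * σ * ∑ a, s a
      + σ ^ 2 * ∑ a, s a) - (∑ a, s a ^ 4 - 2 * σ * ∑ a, s a ^ 3 + σ ^ 2 * ∑ a, s a) := by
    intro q σ hq
    have h1 : 0 ≤ ∑ a, s a * (q - s a) * (s a - σ) ^ 2 :=
      sum_nonneg fun a _ => mul_nonneg (mul_nonneg (hs0 a) (by linarith [hq a])) (sq_nonneg _)
    have e : ∀ a, s a * (q - s a) * (s a - σ) ^ 2 = q * s a ^ 3 - 2 * q * σ * s a ^ 2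
        + q * σ ^ 2 * s a - s a ^ 4 + 2 * σ * s a ^ 3 - σ ^ 2 * s a ^ 2 := fun a => by ring
    simp only [e, sum_add_distrib, sum_sub_distrib, ← mul_sum, hsq] at h1
    linarith
  generalize (∑ a, s a ^ 3) = M3 at *
  generalize (∑ a, s a ^ 4) = M4 at *
  generalize (∑ a, s a ^ 5) = M5 at *
  generalize hr : (Fintype.card m : ℝ) = r at *
  obtain ⟨ρ, hρ⟩ : ∃ ρ : ℝ, ρ = ∑ a, s a := ⟨_, rfl⟩
  rw [← hρ] at hker hρn hρr
  simp only [← hρ] at hst hA hB hC htop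
  have hρ0 : 0 < ρ := by linarith
  obtain ⟨a, ha⟩ : ∃ a : ℝ, a = ρ / n - 1 := ⟨_, rfl⟩
  obtain ⟨R, hR⟩ : ∃ R : ℝ, R = r / n := ⟨_, rfl⟩
  obtain ⟨x, hx⟩ : ∃ x : ℝ, x = M3 / ρ - 1 := ⟨_, rfl⟩
  obtain ⟨y, hy⟩ : ∃ y : ℝ, y = M4 / ρ - 2 * (M3 / ρ) + 1 := ⟨_, rfl⟩
  have eρ : ρ = n * (1 + a) := by rw [ha]; field_simp; ring
  have er : r = n * R := by rw [hR]; field_simp
  have e3 : M3 = ρ * (1 + x) := by rw [hx]; field_simp; ring
  have e4 : M4 = ρ * (1 + 2 * x + y) := by rw [hy, hx]; field_simp; ring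
  have ha0 : 0 < a := by
    have : n * 1 < n * (1 + a) := by rw [← eρ]; linarith
    have := lt_of_mul_lt_mul_left this hn.le
    linarith
  have haR : a ≤ R - 1 := by
    have : n * (1 + a) ≤ n * R := by rw [← eρ, ← er]; exact hρr
    have := le_of_mul_le_mul_left this hn
    linarith
  have hR0 : 0 < R := by linarith
  refine ⟨a, x, y, by rw [ha, hρ], ?_⟩
  rw [← hR]
  refine ⟨ha0, haR, ?_, ?_, ?_, ?_⟩
  · intro β
    have h1 := hA (1 + β) (-(β * (1 + a) / R))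
    rw [e4, e3, er] at h1
    have h2 : 0 ≤ ρ * (y - 2 * β * x + β ^ 2 * ((R - 1 - a) / R)) := by
      refine le_trans h1 (le_of_eq ?_)
      have e : (-(β * (1 + a) / R)) ^ 2 * (n * R) = β ^ 2 * (1 + a) / R * ρ := by
        rw [eρ]; field_simp
      rw [e]
      field_simp
      ring
    exact le_of_mul_le_mul_left (by rw [mul_zero]; exact h2) hρ0
  · intro μ
    have h1 := hst μ
    rw [e4, e3, er, eρ] at h1
    have hc : 0 < n ^ 4 * (1 + a) / 2 := by positivity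
    refine le_of_mul_le_mul_left ?_ hc
    refine le_trans (le_of_eq ?_) (le_trans h1 (le_of_eq ?_))
    · ring
    · ring
  · intro ζ α β
    have h1 := hker (1 - ζ)
    have h2 := hB (1 + β) (α - β)
    have h3 : 0 ≤ n * (M5 - 2 * (1 + β) * M4 + ((1 + β) ^ 2 - 2 * (α - β)) * M3
      + 2 * (1 + β) * (α - β) * ρ + (α - β) ^ 2 * ρ) := mul_nonneg hn.le h2
    rw [e4, e3] at h1 h3
    have h4 : 0 ≤ (n * ρ) * (4 * a * ζ ^ 2 + 4 * α ^ 2
        + (a + 1 + 4 * ζ * (a - 1) - 4 * ζ ^ 2 - 8 * α + 4 * β ^ 2) * x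
        + (a + 1 - 8 * ζ - 8 * β) * y) := by
      have h5 : 0 ≤ (ρ * (ρ * (1 + 2 * x + y) + 3 * (ρ * (1 + x))
          - 4 * (1 - ζ) * (ρ * (1 + x) + ρ) + 4 * (1 - ζ) ^ 2 * ρ)
          - 4 * n * (M5 - 2 * (1 - ζ) * (ρ * (1 + 2 * x + y)) + (1 - ζ) ^ 2 * (ρ * (1 + x))))
          + 4 * (n * (M5 - 2 * (1 + β) * (ρ * (1 + 2 * x + y))
            + ((1 + β) ^ 2 - 2 * (α - β)) * (ρ * (1 + x))
            + 2 * (1 + β) * (α - β) * ρ + (α - β) ^ 2 * ρ)) := by linarith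
      refine le_trans h5 (le_of_eq ?_)
      have e : ρ * (ρ * (1 + 2 * x + y) + 3 * (ρ * (1 + x))
          - 4 * (1 - ζ) * (ρ * (1 + x) + ρ) + 4 * (1 - ζ) ^ 2 * ρ)
          = n * (1 + a) * (ρ * (1 + 2 * x + y) + 3 * (ρ * (1 + x))
          - 4 * (1 - ζ) * (ρ * (1 + x) + ρ) + 4 * (1 - ζ) ^ 2 * ρ) := by
        rw [← eρ]
      rw [e]
      ring
    exact le_of_mul_le_mul_left (by rw [mul_zero]; exact h4) (by positivity)
  · intro q σ hq0 hq2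
    have hq : ∀ b, s b ≤ q := by
      intro b
      have h1 := htop b
      rw [eρ, ← hq2] at h1
      have h2 := le_of_mul_le_mul_left h1 hn
      exact le_of_sq_le_sq h2 hq0
    have h1 := hC q σ hq
    rw [e4, e3] at h1
    have h2 : 0 ≤ ρ * (x * (q - 2 * (1 - σ)) - y + (q - 1) * (1 - σ) ^ 2) := by
      refine le_trans h1 (le_of_eq ?_)
      ring
    exact le_of_mul_le_mul_left (by rw [mul_zero]; exact h2) hρ0

theorem JData.red {n p : ℝ} {s : m → ℝ} (h : JData m n p s) (hn : 0 < n) :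
    ∃ a x y : ℝ, Red n (p - 1) ((Fintype.card m : ℝ) / n) a x y := by
  obtain ⟨a, x, y, _, hr⟩ := h.red' hn
  exact ⟨a, x, y, hr⟩

end Pool.Agent.EI97
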