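import Pool.Agent.EI97.CaseJ
import Pool.Agent.EI97.CaseU

set_option autoImplicit false
set_option linter.style.longLine false

/-! Strictness of the bound away from the tight case. -/

namespace Pool.Agent.EI97

theorem Red.coreJ {N X R a x y : ℝ} (h : Red N X R a x y) (hN : 1 ≤ N) (hR2 : 2 ≤ R)
    (hR : R ≤ 13 / 2) (hX : 0 ≤ X) :
    epJ (a / (R - 1)) (R - 1) N * (2 * X + 2 * a ^ 2) ≤
      3 * ((1 + a) * a ^ 2 * (N + 2)) *
        ((N + a / (R - 1) * (2 + a / (R - 1) * R)) ^ 2 * lamJ (a / (R - 1)) (R - 1)) := by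
  obtain ⟨r, hr⟩ : ∃ r : ℝ, r = R - 1 := ⟨_, rfl⟩
  have hRr : R = r + 1 := by linarith
  have hr1 : 1 ≤ r := by linarith
  have hr2 : r ≤ 11 / 2 := by linarith
  obtain ⟨b, hb⟩ : ∃ b : ℝ, b = a / r := ⟨_, rfl⟩
  have hab : a = b * r := by rw [hb]; field_simp
  have ha0 := h.a_pos
  have haR := h.a_le
  have hb0 : 0 < b := by rw [hb]; positivity
  have hb1 : b ≤ 1 := by
    rw [hb, div_le_one (by linarith)]; linarith
  have hb' : a / (R - 1) = b := by rw [hb, hr]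
  have hR' : R - 1 = r := hr.symm
  rw [hb', hR']
  subst hRr hab
  obtain ⟨s, hs⟩ : ∃ s : ℝ, s = b * (2 + b * (r + 1)) := ⟨_, rfl⟩
  have hs0 : 0 < s := by rw [hs]; positivity
  have hNs : 0 < N + s := by linarith
  have hS := h.star (s / (N + s))
  have hJ := h.kernel ((1 - b) / 2) (r * b * (1 - b) / 2) (b * (r + 1) / 2)
  have hH := h.hankel (b * (r + 1) / 2)
  have hLam := lamJ_pos b r hb0.le hb1 hr1
  have hnu := nuJ_nonneg b r N hb0.le hb1 hr1 hr2 hN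
  have hmul : 0 ≤ mulJ b r N := by unfold mulJ; positivity
  obtain ⟨B, hB⟩ : ∃ B : ℝ, B = 3 * (b * r) - 2 * (3 - 2 * (s / (N + s))) * x
    - (1 - s / (N + s)) * (3 - s / (N + s)) * y
    - (s / (N + s)) ^ 2 * N * (r + 1 - 1 - b * r) / 2 := ⟨_, rfl⟩
  rw [← hB] at hS
  have eB : (N + s) ^ 2 * B = 3 * (b * r) * (N + s) ^ 2 - 2 * ((3 * N + s) * (N + s)) * x
      - N * (3 * N + 2 * s) * y - s ^ 2 * N * (r * (1 - b)) / 2 := by
    rw [hB]
    field_simp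
    ring
  have eH : y - 2 * (b * (r + 1) / 2) * x + (b * (r + 1) / 2) ^ 2 * ((r + 1 - 1 - b * r) / (r + 1))
      = y - b * (r + 1) * x + b ^ 2 * (r + 1) * (r * (1 - b)) / 4 := by
    field_simp
    ring
  rw [eH] at hH
  have key : (N + s) ^ 2 * lamJ b r * B = epJ b r N
      + mulJ b r N * (4 * (b * r) * ((1 - b) / 2) ^ 2 + 4 * (r * b * (1 - b) / 2) ^ 2
        + (b * r + 1 + 4 * ((1 - b) / 2) * (b * r - 1) - 4 * ((1 - b) / 2) ^ 2
            - 8 * (r * b * (1 - b) / 2) + 4 * (b * (r + 1) / 2) ^ 2) * x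
        + (b * r + 1 - 8 * ((1 - b) / 2) - 8 * (b * (r + 1) / 2)) * y)
      + nuJ b r N * (y - b * (r + 1) * x + b ^ 2 * (r + 1) * (r * (1 - b)) / 4) := by
    have e1 : (N + s) ^ 2 * lamJ b r * B = lamJ b r * ((N + s) ^ 2 * B) := by ring
    rw [e1, eB, hs]
    exact keyJ b r N x y
  have hlow : epJ b r N ≤ (N + s) ^ 2 * lamJ b r * B := by
    rw [key]
    have k1 := mul_nonneg hmul hJ
    have k2 := mul_nonneg hnu hH
    linarith
  have hc : 0 < (N + s) ^ 2 * lamJ b r := by positivity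
  have h1 : epJ b r N * (2 * X + 2 * (b * r) ^ 2) ≤
      (N + s) ^ 2 * lamJ b r * B * (2 * X + 2 * (b * r) ^ 2) :=
    mul_le_mul_of_nonneg_right hlow (by positivity)
  have h2 : (N + s) ^ 2 * lamJ b r * (B * (2 * X + 2 * (b * r) ^ 2)) ≤
      (N + s) ^ 2 * lamJ b r * (3 * ((1 + b * r) * (b * r) ^ 2 * (N + 2))) :=
    mul_le_mul_of_nonneg_left hS hc.le
  rw [← hs]
  linarith

theorem Red.coreU {N X R a x y : ℝ} (h : Red N X R a x y) (hN : 1 ≤ N) (hR : 25 / 4 ≤ R)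
    (hX : 0 ≤ X) :
    ∃ q : ℝ, 1 < q ∧ q ^ 2 = 1 + a ∧ q ≤ Real.sqrt R ∧ 0 < R - q ∧
      0 < wdU q R N + hU q R ∧
      (q - 1) ^ 2 * q ^ 2 * brU q R N * (2 * X + 2 * (q ^ 2 - 1) ^ 2) ≤
      3 * (q + 1) ^ 2 * (N + 2) * (R - q) ^ 2 * (wdU q R N + hU q R) ^ 2
        * ((q - 1) ^ 2 * q ^ 2) := by
  have ha0 := h.a_pos
  have haR := h.a_le
  obtain ⟨w, hw⟩ : ∃ w : ℝ, w = Real.sqrt R := ⟨_, rfl⟩
  obtain ⟨q, hq⟩ : ∃ q : ℝ, q = Real.sqrt (1 + a) := ⟨_, rfl⟩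
  have hw2 : w ^ 2 = R := by rw [hw]; exact Real.sq_sqrt (by linarith)
  have hq2 : q ^ 2 = 1 + a := by rw [hq]; exact Real.sq_sqrt (by linarith)
  have hw0 : 0 ≤ w := by rw [hw]; exact Real.sqrt_nonneg _
  have hq0 : 0 ≤ q := by rw [hq]; exact Real.sqrt_nonneg _
  have hw5 : 5 / 2 ≤ w := by
    rw [hw]; apply Real.le_sqrt_of_sq_le; linarith
  have hq1 : 1 < q := by
    by_contra hcon
    push Not at hcon
    have : q ^ 2 ≤ 1 := pow_le_one₀ hq0 hcon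
    linarith
  have hqw : q ≤ w := by
    rw [hq, hw]; exact Real.sqrt_le_sqrt (by linarith)
  have haq : a = q ^ 2 - 1 := by linarith
  have hRq : 0 ≤ R - q ^ 2 := by linarith
  have hwR : w < R := by rw [← hw2]; nlinarith
  have hD : 0 < R - q := by linarith
  have hU0 : 0 < hU q R := by
    unfold hU
    have : 0 < q - 1 := by linarith
    have : 0 < R - 1 := by linarith
    positivity
  have hUW : hU q R ≤ wdU q R N := by
    have h1 : wdU q R N - hU q R = (N - 1) * (R - q) ^ 2 + (R - q) * (R + 2 - 3 * q) := by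
      unfold wdU hU; ring
    have h2 : 0 ≤ R + 2 - 3 * q := by
      have : R + 2 - 3 * q = (w - 1) * (w - 2) + 3 * (w - q) := by rw [← hw2]; ring
      rw [this]
      have k1 : 0 ≤ (w - 1) * (w - 2) := mul_nonneg (by linarith) (by linarith)
      linarith
    have h3 : 0 ≤ (N - 1) * (R - q) ^ 2 := mul_nonneg (by linarith) (sq_nonneg _)
    have h4 : 0 ≤ (R - q) * (R + 2 - 3 * q) := mul_nonneg hD.le h2
    linarith
  refine ⟨q, hq1, hq2, by rw [← hw]; exact hqw, hD, by linarith, ?_⟩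
  have hS := h.star (2 * hU q R / (wdU q R N + hU q R))
  have hT := h.top q (q * (q - 1) / (R - q)) hq0 hq2
  have hH := h.hankel (R * (q - 1) / (R - q))
  obtain ⟨W, hW⟩ : ∃ W : ℝ, W = wdU q R N := ⟨_, rfl⟩
  obtain ⟨η, hη⟩ : ∃ η : ℝ, η = hU q R := ⟨_, rfl⟩
  rw [← hW, ← hη] at hS hUW ⊢
  rw [← hη] at hU0
  have hW0 : 0 < W := by linarith
  have hWη : 0 < W + η := by linarith
  subst haq
  obtain ⟨B, hB⟩ : ∃ B : ℝ, B = 3 * (q ^ 2 - 1) - 2 * (3 - 2 * (2 * η / (W + η))) * x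
    - (1 - 2 * η / (W + η)) * (3 - 2 * η / (W + η)) * y
    - (2 * η / (W + η)) ^ 2 * N * (R - 1 - (q ^ 2 - 1)) / 2 := ⟨_, rfl⟩
  rw [← hB] at hS
  have eB : (W + η) ^ 2 * B = 3 * (q ^ 2 - 1) * (W + η) ^ 2 - 2 * ((3 * W - η) * (W + η)) * x
      - (W - η) * (3 * W + η) * y - 2 * η ^ 2 * N * (R - q ^ 2) := by
    rw [hB]
    field_simp
    ring
  -- the multipliers
  have hK2 : 0 ≤ (W - η) * (3 * W + η) := mul_nonneg (by linarith) (by linarith)
  have hR0 : 0 < R := by linarith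
  have hq00 : 0 < q := by linarith
  have hβ0 : 0 ≤ R * (q - 1) / (R - q) :=
    div_nonneg (mul_nonneg hR0.le (by linarith)) hD.le
  have key := idU1 (x := x) (y := y) hq00 hD hR0 eB
  obtain ⟨L, hL⟩ : ∃ L : ℝ, L = (2 * ((3 * W - η) * (W + η))
    + 2 * ((W - η) * (3 * W + η)) * (R * (q - 1) / (R - q))) / q := ⟨_, rfl⟩
  rw [← hL] at key
  have hL0 : 0 ≤ L := by
    rw [hL]
    have k1 : 0 ≤ (3 * W - η) * (W + η) := mul_nonneg (by linarith) (by linarith)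
    have k2 : 0 ≤ (W - η) * (3 * W + η) * (R * (q - 1) / (R - q)) := mul_nonneg hK2 hβ0
    exact div_nonneg (by linarith) hq0
  have hLK : 0 ≤ L - (W - η) * (3 * W + η) := by
    have e : L - (W - η) * (3 * W + η) =
        (8 * W * η + (W - η) * (3 * W + η) * (q * (q + R - 2) / (R - q))) / q := by
      rw [hL]
      field_simp
      ring
    rw [e]
    have k1 : 0 ≤ q * (q + R - 2) / (R - q) :=
      div_nonneg (mul_nonneg hq0 (by linarith)) hD.le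
    have k2 := mul_nonneg hK2 k1
    have k3 : 0 ≤ 8 * W * η := by positivity
    exact div_nonneg (by linarith) hq0
  have hid : (R - q) ^ 2 * (3 * (q ^ 2 - 1) * (W + η) ^ 2 - 2 * η ^ 2 * N * (R - q ^ 2))
        - 2 * ((3 * W - η) * (W + η)) * (R - q) * (q - 1) * (R - q ^ 2)
        - (W - η) * (3 * W + η) * R * (q - 1) ^ 2 * (R - q ^ 2)
      = (q - 1) ^ 2 * q ^ 2 * brU q R N := by
    rw [hW, hη]; exact idU2 q R N
  rw [hid] at key
  have hlow : (q - 1) ^ 2 * q ^ 2 * brU q R N ≤ (R - q) ^ 2 * ((W + η) ^ 2 * B) := by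
    rw [key]
    have k1 := mul_nonneg (sq_nonneg (R - q)) (mul_nonneg hL0 hT)
    have k2 := mul_nonneg (sq_nonneg (R - q)) (mul_nonneg hLK hH)
    linarith
  have hc : 0 < (R - q) ^ 2 * (W + η) ^ 2 := by positivity
  have h1 : (q - 1) ^ 2 * q ^ 2 * brU q R N * (2 * X + 2 * (q ^ 2 - 1) ^ 2) ≤
      (R - q) ^ 2 * ((W + η) ^ 2 * B) * (2 * X + 2 * (q ^ 2 - 1) ^ 2) :=
    mul_le_mul_of_nonneg_right hlow (by positivity)
  have h2 : (R - q) ^ 2 * (W + η) ^ 2 * (B * (2 * X + 2 * (q ^ 2 - 1) ^ 2)) ≤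
      (R - q) ^ 2 * (W + η) ^ 2 * (3 * ((1 + (q ^ 2 - 1)) * (q ^ 2 - 1) ^ 2 * (N + 2))) :=
    mul_le_mul_of_nonneg_left hS hc.le
  have h4 : (R - q) ^ 2 * (W + η) ^ 2 * (3 * ((1 + (q ^ 2 - 1)) * (q ^ 2 - 1) ^ 2 * (N + 2))) =
      3 * (q + 1) ^ 2 * (N + 2) * (R - q) ^ 2 * (W + η) ^ 2 * ((q - 1) ^ 2 * q ^ 2) := by ring
  rw [h4] at h2
  linarith

theorem Red.strictJ {N X R a x y : ℝ} (h : Red N X R a x y) (hN : 1 ≤ N) (hR2 : 2 ≤ R)
    (hR : R < 13 / 2) (hX : 0 ≤ X) (ha : a < R - 1) : 2 * X < (R - 1) * (N * R + 2) := by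
  have hc := h.coreJ hN hR2 hR.le hX
  have ha0 := h.a_pos
  have hr0 : 0 < R - 1 := by linarith
  have hb0 : 0 < a / (R - 1) := by positivity
  have hb1 : a / (R - 1) < 1 := by rw [div_lt_one hr0]; exact ha
  have hG := gJ_pos (a / (R - 1)) (R - 1) N hb0 hb1 (by linarith) (by linarith) hN
  have hab : a / (R - 1) * (R - 1) = a := by field_simp
  have hR1 : R - 1 + 1 = R := by ring
  rw [hab, hR1] at hG
  have h1 := lt_of_le_of_lt hc hG
  have hLam := lamJ_pos (a / (R - 1)) (R - 1) hb0.le hb1.le (by linarith)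
  have hX0 : 0 < (R - 1) * (N * R + 2) + 2 * a ^ 2 := by positivity
  have hE : 0 < epJ (a / (R - 1)) (R - 1) N := by
    have h2 : 0 ≤ 3 * ((1 + a) * a ^ 2 * (N + 2)) *
        ((N + a / (R - 1) * (2 + a / (R - 1) * R)) ^ 2 * lamJ (a / (R - 1)) (R - 1)) := by
      positivity
    have h3 := lt_of_le_of_lt h2 hG
    by_contra h4
    push Not at h4
    have := mul_nonpos_of_nonpos_of_nonneg h4 hX0.le
    linarith
  have := lt_of_mul_lt_mul_left h1 hE.le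
  linarith

theorem Red.strictU {N X R a x y : ℝ} (h : Red N X R a x y) (hN : 1 ≤ N) (hR : 25 / 4 ≤ R)
    (hX : 0 ≤ X) (ha : a < R - 1) : 2 * X < (R - 1) * (N * R + 2) := by
  obtain ⟨q, hq1, hq2, hqR, hD, hW, hc⟩ := h.coreU hN hR hX
  have hw2 : Real.sqrt R ^ 2 = R := Real.sq_sqrt (by linarith)
  have hqw : q < Real.sqrt R := by
    apply Real.lt_sqrt_of_sq_lt; linarith
  have hw5 : 5 / 2 ≤ Real.sqrt R := by
    apply Real.le_sqrt_of_sq_le; linarith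
  have hG := gU_pos hq1 hqw hw5 hN
  rw [hw2] at hG
  have hq0 : 0 < q := by linarith
  have hq10 : 0 < q - 1 := by linarith
  have hc2 : 0 < (q - 1) ^ 2 * q ^ 2 := by positivity
  have hG2 := mul_lt_mul_of_pos_right hG hc2
  have h1 := lt_of_le_of_lt hc hG2
  have hR1 : 0 < R - 1 := by linarith
  have hR0 : 0 < R := by linarith
  have hX0 : 0 < (R - 1) * (N * R + 2) + 2 * (q ^ 2 - 1) ^ 2 := by positivity
  have hE : 0 < (q - 1) ^ 2 * q ^ 2 * brU q R N := by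
    have h2 : 0 ≤ 3 * (q + 1) ^ 2 * (N + 2) * (R - q) ^ 2 * (wdU q R N + hU q R) ^ 2
        * ((q - 1) ^ 2 * q ^ 2) := by positivity
    have h3 := lt_of_le_of_lt h2 hG2
    by_contra h4
    push Not at h4
    have := mul_nonpos_of_nonpos_of_nonneg h4 hX0.le
    linarith
  have h5 : (q - 1) ^ 2 * q ^ 2 * brU q R N * (2 * X + 2 * (q ^ 2 - 1) ^ 2) <
      (q - 1) ^ 2 * q ^ 2 * brU q R N * ((R - 1) * (N * R + 2) + 2 * (q ^ 2 - 1) ^ 2) := by
    linarith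
  have := lt_of_mul_lt_mul_left h5 hE.le
  linarith

/-- equality only in the tight case -/
theorem Red.strict {N X R a x y : ℝ} (h : Red N X R a x y) (hN : 1 ≤ N) (hR : 2 ≤ R)
    (hX : 0 ≤ X) (ha : a < R - 1) : 2 * X < (R - 1) * (N * R + 2) := by
  rcases lt_or_ge R (13 / 2) with h1 | h1
  · exact h.strictJ hN hR h1 hX ha
  · exact h.strictU hN (by linarith) hX ha

end Pool.Agent.EI97
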