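import Pool.Agent.EI28.Core

set_option autoImplicit false
set_option linter.unusedSectionVars false

/-! Averaged 4-tensors for matrices which commute with a composition system. -/

namespace Pool.Agent.EI97

open Matrix Finset Pool.Agent.EI28

variable {m κ : Type*} [Fintype m] [DecidableEq m] [Fintype κ] [DecidableEq κ]

theorem sig_sig_gen (M N : Matrix m m ℝ) :
    sig M ⬝ᵥ sig N = ((trace (Mᵀ * N)) ^(2:ℕ) + trace (Mᵀ * N * Mᵀ * N)) / 2 := by
  have t2 : trace (Mᵀ * N) = ∑ a, ∑ c, M a c * N a c := by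
    simp only [trace, diag_apply, mul_apply, transpose_apply]
    rw [sum_comm]
  have e1 : ∑ a, ∑ b, ∑ c, ∑ d, (M a c * N a c) * (M b d * N b d) = (trace (Mᵀ * N)) ^(2:ℕ) := by
    rw [t2, sq, sum_mul_sum]
    refine sum_congr rfl fun a _ => sum_congr rfl fun b _ => ?_
    rw [sum_mul_sum]
  have e2 : ∑ a, ∑ b, ∑ c, ∑ d, (M a d * N a d) * (M b c * N b c) = (trace (Mᵀ * N)) ^(2:ℕ) := by
    rw [← e1]
    refine sum_congr rfl fun a _ => sum_congr rfl fun b _ => ?_
    rw [sum_comm]
  have e3 : ∑ a, ∑ b, ∑ c, ∑ d, M a c * M b d * (N a d * N b c)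
      = trace (Mᵀ * N * Mᵀ * N) := by
    rw [trace4]
    simp only [transpose_apply]
    -- right hand side: M c a * N c b * M d b * N d a
    calc ∑ a, ∑ b, ∑ c, ∑ d, M a c * M b d * (N a d * N b c)
        = ∑ a, ∑ c, ∑ b, ∑ d, M a c * M b d * (N a d * N b c) := by
          refine sum_congr rfl fun a _ => ?_
          rw [sum_comm]
      _ = ∑ c, ∑ a, ∑ b, ∑ d, M a c * M b d * (N a d * N b c) := by rw [sum_comm]
      _ = ∑ c, ∑ a, ∑ d, ∑ b, M a c * M b d * (N a d * N b c) := by
          refine sum_congr rfl fun c _ => sum_congr rfl fun a _ => ?_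
          rw [sum_comm]
      _ = ∑ c, ∑ d, ∑ a, ∑ b, M a c * M b d * (N a d * N b c) := by
          refine sum_congr rfl fun c _ => ?_
          rw [sum_comm]
      _ = _ := by
          refine sum_congr rfl fun c _ => sum_congr rfl fun d _ => sum_congr rfl fun a _ =>
            sum_congr rfl fun b _ => ?_
          ring
  have e4 : ∑ a, ∑ b, ∑ c, ∑ d, M a d * M b c * (N a c * N b d)
      = trace (Mᵀ * N * Mᵀ * N) := by
    rw [← e3]
    refine sum_congr rfl fun a _ => sum_congr rfl fun b _ => ?_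
    rw [sum_comm]
  have : sig M ⬝ᵥ sig N = (∑ a, ∑ b, ∑ c, ∑ d, (M a c * N a c) * (M b d * N b d)
      + ∑ a, ∑ b, ∑ c, ∑ d, (M a d * N a d) * (M b c * N b c)
      + ∑ a, ∑ b, ∑ c, ∑ d, M a c * M b d * (N a d * N b c)
      + ∑ a, ∑ b, ∑ c, ∑ d, M a d * M b c * (N a c * N b d)) / 4 := by
    unfold dotProduct sig
    rw [sum4 (fun a b c d => (M a c * M b d + M a d * M b c) / 2 *
      ((N a c * N b d + N a d * N b c) / 2))]
    simp only [← sum_add_distrib, sum_div]
    refine sum_congr rfl fun a _ => sum_congr rfl fun b _ => sum_congr rfl fun c _ =>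
      sum_congr rfl fun d _ => ?_
    ring
  rw [this, e1, e2, e3, e4]; ring

theorem sig_tau_gen (M B : Matrix m m ℝ) (hB : Bᵀ = B) :
    sig M ⬝ᵥ tau B = trace (Mᵀ * B * M * B) := by
  have hB' : ∀ a b, B a b = B b a := fun a b => by
    conv_lhs => rw [← hB]
    rfl
  have t4 : trace (Mᵀ * B * M * B) = ∑ a, ∑ b, ∑ c, ∑ d, M c a * B c b * M b d * B d a := by
    simp only [trace, diag_apply, mul_apply, sum_mul, transpose_apply]
    refine sum_congr rfl fun a _ => ?_
    rw [sum_comm]
    refine sum_congr rfl fun b _ => ?_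
    rw [sum_comm]
  have e1 : ∑ a, ∑ b, ∑ c, ∑ d, M a c * M b d * (B a b * B c d) = trace (Mᵀ * B * M * B) := by
    rw [t4]
    -- lhs a b c d ; rhs: M c a * B c b * M b d * B d a ; rename rhs a -> c, c -> a
    calc ∑ a, ∑ b, ∑ c, ∑ d, M a c * M b d * (B a b * B c d)
        = ∑ a, ∑ c, ∑ b, ∑ d, M a c * M b d * (B a b * B c d) := by
          refine sum_congr rfl fun a _ => ?_
          rw [sum_comm]
      _ = ∑ c, ∑ a, ∑ b, ∑ d, M a c * M b d * (B a b * B c d) := by rw [sum_comm]
      _ = ∑ c, ∑ b, ∑ a, ∑ d, M a c * M b d * (B a b * B c d) := by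
          refine sum_congr rfl fun c _ => ?_
          rw [sum_comm]
      _ = _ := by
          refine sum_congr rfl fun c _ => sum_congr rfl fun b _ => sum_congr rfl fun a _ =>
            sum_congr rfl fun d _ => ?_
          rw [hB' d c]; ring
  have e2 : ∑ a, ∑ b, ∑ c, ∑ d, M a d * M b c * (B a b * B c d) = trace (Mᵀ * B * M * B) := by
    rw [← e1]
    refine sum_congr rfl fun a _ => sum_congr rfl fun b _ => ?_
    rw [sum_comm]
    refine sum_congr rfl fun c _ => sum_congr rfl fun d _ => ?_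
    rw [hB' d c]
  have : sig M ⬝ᵥ tau B = (∑ a, ∑ b, ∑ c, ∑ d, M a c * M b d * (B a b * B c d)
      + ∑ a, ∑ b, ∑ c, ∑ d, M a d * M b c * (B a b * B c d)) / 2 := by
    unfold dotProduct sig tau
    rw [sum4 (fun a b c d => (M a c * M b d + M a d * M b c) / 2 * (B a b * B c d))]
    simp only [← sum_add_distrib, sum_div]
    refine sum_congr rfl fun a _ => sum_congr rfl fun b _ => sum_congr rfl fun c _ =>
      sum_congr rfl fun d _ => ?_
    ring
  rw [this, e1, e2]; ring

/-- an orthogonal composition system of real matrices -/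
structure Comp (u : κ → Matrix m m ℝ) : Prop where
  orth : ∀ k, (u k)ᵀ * u k = 1
  anti : ∀ k l, k ≠ l → (u k)ᵀ * u l = - ((u l)ᵀ * u k)

/-- `A` is symmetric and commutes with the system -/
structure Com (u : κ → Matrix m m ℝ) (A : Matrix m m ℝ) : Prop where
  sym : Aᵀ = A
  comm : ∀ k, u k * A = A * u k

/-- the averaged tensor -/
noncomputable def sigc (u : κ → Matrix m m ℝ) (A : Matrix m m ℝ) : m × m × m × m → ℝ :=
  ((Fintype.card κ : ℝ)⁻¹) • ∑ k, sig (u k * A)

variable {u : κ → Matrix m m ℝ}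

theorem Com.comm' {A : Matrix m m ℝ} (hA : Com u A) (k : κ) : (u k)ᵀ * A = A * (u k)ᵀ := by
  have := congrArg transpose (hA.comm k)
  rw [transpose_mul, transpose_mul, hA.sym] at this
  exact this.symm

theorem sig_pair (hu : Comp u) {A B : Matrix m m ℝ} (hA : Com u A) (hB : Com u B) (k l : κ) :
    sig (u k * A) ⬝ᵥ sig (u l * B) =
      if k = l then ((trace (A * B)) ^(2:ℕ) + trace (A * B * A * B)) / 2
        else - trace (A * B * A * B) / 2 := by
  rw [sig_sig_gen]
  have hM : (u k * A)ᵀ * (u l * B) = ((u k)ᵀ * u l) * (A * B) := by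
    rw [transpose_mul, hA.sym, ← hA.comm' k]
    rw [Matrix.mul_assoc, ← Matrix.mul_assoc A, ← hA.comm l]
    simp only [Matrix.mul_assoc]
  have hwA : ((u k)ᵀ * u l) * A = A * ((u k)ᵀ * u l) := by
    rw [Matrix.mul_assoc, hA.comm, ← Matrix.mul_assoc, hA.comm', Matrix.mul_assoc]
  have hwB : ((u k)ᵀ * u l) * B = B * ((u k)ᵀ * u l) := by
    rw [Matrix.mul_assoc, hB.comm, ← Matrix.mul_assoc, hB.comm', Matrix.mul_assoc]
  rw [Matrix.mul_assoc _ _ (u l * B), hM]
  split_ifs with hkl
  · subst hkl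
    rw [hu.orth, Matrix.one_mul, Matrix.mul_assoc (A * B) A B]
  · set w := (u k)ᵀ * u l with hw
    have hwT : wᵀ = - w := by
      rw [hw, transpose_mul, transpose_transpose, hu.anti k l hkl, neg_neg]
    have huu : u k * (u k)ᵀ = 1 := mul_eq_one_comm.mp (hu.orth k)
    have hww : w * w = -1 := by
      have h1 : wᵀ * w = 1 := by
        rw [hw, transpose_mul, transpose_transpose, Matrix.mul_assoc, ← Matrix.mul_assoc (u k),
          huu, Matrix.one_mul, hu.orth]
      rw [hwT] at h1
      rw [← h1, Matrix.neg_mul, neg_neg]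
    have ht0 : trace (w * (A * B)) = 0 := by
      have h1 : trace (w * (A * B)) = - trace (w * (B * A)) := by
        rw [← trace_transpose, transpose_mul, transpose_mul, hA.sym, hB.sym, hwT,
          Matrix.mul_neg, trace_neg, trace_mul_comm]
      have h2 : trace (w * (A * B)) = trace (w * (B * A)) := by
        rw [← Matrix.mul_assoc, hwA, Matrix.mul_assoc, trace_mul_comm, Matrix.mul_assoc]
      linarith
    have ht1 : trace (w * (A * B) * (w * (A * B))) = - trace (A * B * A * B) := by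
      have : w * (A * B) * (w * (A * B)) = - (A * B * A * B) := by
        have h1 : A * B * w = w * (A * B) := by
          rw [Matrix.mul_assoc, ← hwB, ← Matrix.mul_assoc, ← hwA, Matrix.mul_assoc]
        rw [Matrix.mul_assoc w, ← Matrix.mul_assoc (A * B) w, h1, Matrix.mul_assoc w,
          ← Matrix.mul_assoc w w, hww, Matrix.neg_mul, Matrix.one_mul, Matrix.mul_assoc (A * B) A B]
      rw [this, trace_neg]
    rw [ht0, ht1]; ring

theorem sigc_sigc (hu : Comp u) (hc : 0 < Fintype.card κ) {A B : Matrix m m ℝ}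
    (hA : Com u A) (hB : Com u B) :
    sigc u A ⬝ᵥ sigc u B = ((trace (A * B)) ^(2:ℕ) + (2 - (Fintype.card κ : ℝ)) *
      trace (A * B * A * B)) / (2 * (Fintype.card κ : ℝ)) := by
  have hc' : (Fintype.card κ : ℝ) ≠ 0 := by
    have : (0 : ℝ) < (Fintype.card κ : ℝ) := by exact_mod_cast hc
    exact this.ne'
  unfold sigc
  rw [smul_dotProduct, dotProduct_smul, sum_dotProduct]
  have : ∀ k, sig (u k * A) ⬝ᵥ ∑ l, sig (u l * B) = ∑ l,
      if k = l then ((trace (A * B)) ^(2:ℕ) + trace (A * B * A * B)) / 2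
        else - trace (A * B * A * B) / 2 := by
    intro k
    rw [dotProduct_sum]
    exact sum_congr rfl fun l _ => sig_pair hu hA hB k l
  simp only [this]
  rw [EI28.sum_pair]
  simp only [smul_eq_mul]
  field_simp
  ring

theorem sigc_tau (hu : Comp u) (hc : 0 < Fintype.card κ) {A B : Matrix m m ℝ}
    (hA : Com u A) (hB : Com u B) :
    sigc u A ⬝ᵥ tau B = trace (A * B * A * B) := by
  have hc' : (Fintype.card κ : ℝ) ≠ 0 := by
    have : (0 : ℝ) < (Fintype.card κ : ℝ) := by exact_mod_cast hc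
    exact this.ne'
  unfold sigc
  rw [smul_dotProduct, sum_dotProduct]
  have : ∀ k, sig (u k * A) ⬝ᵥ tau B = trace (A * B * A * B) := by
    intro k
    rw [sig_tau_gen _ _ hB.sym, transpose_mul, hA.sym]
    congr 1
    have h1 : A * (u k)ᵀ * B * (u k * A) = A * B * A := by
      rw [Matrix.mul_assoc A, hB.comm', Matrix.mul_assoc A, Matrix.mul_assoc B,
        ← Matrix.mul_assoc _ (u k), hu.orth, Matrix.one_mul, Matrix.mul_assoc]
    rw [h1]
  simp only [this, sum_const, card_univ, nsmul_eq_mul, smul_eq_mul]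
  field_simp

end Pool.Agent.EI97
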